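import Pool.Agent.Lib.MP_d3d358_ag.AS.Alg

set_option autoImplicit false

namespace Pool.Agent.Lib.MP_d3d358_ag.AS

open Topology Set

variable {Z R : Type} [CommRing R]

/-- the prism operator, by recursion on the simplex -/
def Prism_op {Z' : Type} (r s : Z' → Z) : List Z' → (List Z → R) → R
  | [], _ => 0
  | x :: l, a => a (r x :: s x :: l.map s) - Prism_op r s l fun m => a (r x :: m)

section op
variable {Z' : Type} (r s : Z' → Z)

theorem Prism_nil (a : List Z → R) : Prism_op r s [] a = 0 := rfl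

theorem Prism_cons (x : Z') (l : List Z') (a : List Z → R) : Prism_op r s (x :: l) a =
    a (r x :: s x :: l.map s) - Prism_op r s l fun m => a (r x :: m) := rfl

theorem Prism_add (l : List Z') (a b : List Z → R) :
    Prism_op r s l (fun m => a m + b m) = Prism_op r s l a + Prism_op r s l b := by
  induction l generalizing a b with
  | nil => simp [Prism_nil]
  | cons x l ih => simp only [Prism_cons]; rw [ih]; ring

theorem Prism_sub (l : List Z') (a b : List Z → R) :
    Prism_op r s l (fun m => a m - b m) = Prism_op r s l a - Prism_op r s l b := by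
  induction l generalizing a b with
  | nil => simp [Prism_nil]
  | cons x l ih => simp only [Prism_cons]; rw [ih]; ring

theorem Prism_mul (c : R) (l : List Z') (a : List Z → R) :
    Prism_op r s l (fun m => c * a m) = c * Prism_op r s l a := by
  induction l generalizing a with
  | nil => simp [Prism_nil]
  | cons x l ih => simp only [Prism_cons]; rw [ih]; ring

theorem Prism_homotopy (l : List Z') (a : List Z → R) :
    a (l.map s) - a (l.map r) = d (fun m => Prism_op r s m a) l + Prism_op r s l (d a) := by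
  induction l generalizing a with
  | nil => simp [Prism_nil, Alg_d_nil]
  | cons x l ih =>
    have h := ih fun m => a (r x :: m)
    have e := Alg_d_map s (fun m => a (r x :: s x :: m)) l
    simp only [Alg_d_cons, Prism_cons, Alg_d_sub, Prism_sub, List.map_cons]
    linear_combination h + e

theorem Prism_zero (l : List Z') (a : List Z → R)
    (h : ∀ m : List Z, m.length = l.length + 1 → (∀ y ∈ m, ∃ x ∈ l, y = r x ∨ y = s x) →
      a m = 0) : Prism_op r s l a = 0 := by
  induction l generalizing a with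
  | nil => rfl
  | cons x l ih =>
    rw [Prism_cons, h, ih, sub_zero]
    · intro m hm hy
      refine h _ (by simp [hm]) fun y hy' => ?_
      rcases List.mem_cons.1 hy' with rfl | hy'
      · exact ⟨x, List.mem_cons_self, Or.inl rfl⟩
      · obtain ⟨z, hz, e⟩ := hy y hy'
        exact ⟨z, List.mem_cons_of_mem _ hz, e⟩
    · simp
    · intro y hy
      rcases List.mem_cons.1 hy with rfl | hy
      · exact ⟨x, List.mem_cons_self, Or.inl rfl⟩
      rcases List.mem_cons.1 hy with rfl | hy
      · exact ⟨x, List.mem_cons_self, Or.inr rfl⟩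
      obtain ⟨z, hz, rfl⟩ := List.mem_map.1 hy
      exact ⟨z, List.mem_cons_of_mem _ hz, Or.inr rfl⟩

end op

/-- PRISM. The operator only looks at lists made of points `r x`, `s x`, `x` in the list. -/
theorem exists_prism {Z' : Type} (r s : Z' → Z) : ∃ h : Ch Z R →ₗ[R] Ch Z' R,
    (∀ a, pullC s a - pullC r a = dC (h a) + h (dC a)) ∧
    (∀ k a, a ∈ DZ k → h a ∈ DZ (k - 1)) ∧
    ∀ (a : Ch Z R) (l : List Z'),
      (∀ m : List Z, (∀ y ∈ m, ∃ x ∈ l, y = r x ∨ y = s x) → a.1 m = 0) → (h a).1 l = 0 :=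
  ⟨{ toFun := fun a => ⟨fun l => Prism_op r s l a.1, rfl⟩
     map_add' := fun a b => Alg_ext fun l => Prism_add r s l a.1 b.1
     map_smul' := fun c a => Alg_ext fun l => Prism_mul r s c l a.1 },
    fun a => Alg_ext fun l => Prism_homotopy r s l a.1,
    fun k a ha l hl => Prism_zero r s l a.1 fun m hm _ => ha m (by rw [hm]; push_cast; omega),
    fun a l h => Prism_zero r s l a.1 fun m _ hy => h m hy⟩

theorem Prism_loc_d {φ ψ : List Z → R} {l : List Z}
    (h : ∀ m : List Z, (∀ y ∈ m, y ∈ l) → φ m = ψ m) : d φ l = d ψ l :=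
  Finset.sum_congr rfl fun i _ => by rw [h _ fun y hy => List.mem_of_mem_eraseIdx hy]

theorem Prism_loc_cup {φ φ' ψ ψ' : List Z → R} {l : List Z}
    (h : ∀ m : List Z, (∀ y ∈ m, y ∈ l) → φ m = φ' m)
    (h' : ∀ m : List Z, (∀ y ∈ m, y ∈ l) → ψ m = ψ' m) : cup φ ψ l = cup φ' ψ' l :=
  Finset.sum_congr rfl fun i _ => by
    rw [h _ fun y hy => List.mem_of_mem_take hy, h' _ fun y hy => List.mem_of_mem_drop hy]

theorem Prism_cup_fn (a : List Z → R) (f : Z → R) (x : Z) (l : List Z) :
    cup a (fn f) (x :: l) = a (x :: l) * f (l.getLastD x) := by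
  induction l generalizing a x with
  | nil => rw [Alg_cup_cons, Alg_cup_nil, Alg_fn_one]; simp
  | cons y l ih => rw [Alg_cup_cons, ih, Alg_fn_two, List.getLastD_cons]; simp

/-- the homotopy of Hirsch type -/
def Prism_hir (v a : List Z → R) : List Z → R
  | [] => 0
  | x :: l => -(a (x :: l) * v [x, l.getLastD x])

/-- degree one cochains commute up to homotopy; `E` measures the failure of the cocycle rule -/
theorem exists_hirsch {v : Ch Z R} (hv : v ∈ DZ 1) (a : Ch Z R) : ∃ c e : Ch Z R,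
    v * a - sg a * v = dC c + e ∧ ∀ l : List Z,
      (∀ m : List Z, (∀ y ∈ m, y ∈ l) → (dC v).1 m = 0 ∧ (dC a).1 m = 0) → e.1 l = 0 := by
  refine ⟨⟨Prism_hir v.1 a.1, rfl⟩, v * a - sg a * v - dC ⟨Prism_hir v.1 a.1, rfl⟩,
    (add_sub_cancel _ _).symm, fun l h => ?_⟩
  rcases l with _ | ⟨x₀, l⟩
  · exact Alg_nil _
  set F : Ch Z R := fnC fun y => v.1 [x₀, y] with hF
  have hco : ∀ y ∈ x₀ :: l, ∀ z ∈ x₀ :: l, v.1 [y, z] = v.1 [x₀, z] - v.1 [x₀, y] := by
    intro y hy z hz
    have := (h [x₀, y, z] (by simp only [List.mem_cons] at *; grind)).1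
    simp only [Alg_dC, Alg_d_cons, Alg_d_nil] at this
    linear_combination this
  have hdF : ∀ m : List Z, (∀ y ∈ m, y ∈ x₀ :: l) → v.1 m = (dC F).1 m := by
    intro m hm
    by_cases e : m.length = 2
    · obtain ⟨y, z, rfl⟩ := List.length_eq_two.1 e
      rw [hF, dC_fnC_pair, hco y (hm y (by simp)) z (hm z (by simp))]
    · rw [hv m (by omega), dC_mem (fnC_mem _) m (by omega)]
  have hc : ∀ m : List Z, (∀ y ∈ m, y ∈ x₀ :: l) →
      Prism_hir v.1 a.1 m = (F * a - a * F).1 m := by
    intro m hm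
    rcases m with _ | ⟨x, m⟩
    · exact (Alg_nil _).symm
    · rw [Alg_sub, Alg_mul, Alg_mul, hF, Alg_fnC, Alg_fn_cup, Prism_cup_fn, Prism_hir,
        hco x (hm x List.mem_cons_self) _ (hm _ List.getLastD_mem_cons)]
      ring
  have e1 : d (Prism_hir v.1 a.1) (x₀ :: l) = (dC (F * a - a * F)).1 (x₀ :: l) := Prism_loc_d hc
  have e2 : cup v.1 a.1 (x₀ :: l) = cup (dC F).1 a.1 (x₀ :: l) :=
    Prism_loc_cup hdF fun _ _ => rfl
  have e3 : cup (sg a).1 v.1 (x₀ :: l) = cup (sg a).1 (dC F).1 (x₀ :: l) :=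
    Prism_loc_cup (fun _ _ => rfl) hdF
  have e4 : cup (sg F).1 (dC a).1 (x₀ :: l) = 0 :=
    (Prism_loc_cup (ψ' := fun _ => 0) (fun _ _ => rfl) fun m hm => (h m hm).2).trans
      (by simp [cup])
  have e5 : cup (dC a).1 F.1 (x₀ :: l) = 0 :=
    (Prism_loc_cup (φ' := fun _ => 0) (fun m hm => (h m hm).2) fun _ _ => rfl).trans
      (by simp [cup])
  rw [map_sub, dC_mul, dC_mul, Alg_sub, Alg_add, Alg_add, Alg_mul, Alg_mul, Alg_mul, Alg_mul,
    e4, e5] at e1
  change cup v.1 a.1 (x₀ :: l) - cup (sg a).1 v.1 (x₀ :: l) - d (Prism_hir v.1 a.1) (x₀ :: l) = 0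
  rw [e1, e2, e3]
  ring

end Pool.Agent.Lib.MP_d3d358_ag.AS
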