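import Pool.Agent.Lib.MP_d3d358_ag.AS.Null
import Pool.Agent.Lib.MP_d3d358_ag.AS.Prism

set_option autoImplicit false

namespace Pool.Agent.Lib.MP_d3d358_ag.AS

open Topology Set Metric

variable {Z R : Type} [CommRing R]
variable [MetricSpace Z] {K L : Set Z}

/-- `a` vanishes on the lists in `K` of diameter less than `ε`. -/
def NullM_Sm (K : Set Z) (ε : ℝ) (a : Ch Z R) : Prop := ∀ l : List Z,
    (∀ y ∈ l, y ∈ K) → (∀ y ∈ l, ∀ z ∈ l, dist y z < ε) → a.1 l = 0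

theorem NullM_Sm.mono {ε δ : ℝ} {a : Ch Z R} (h : NullM_Sm K ε a) (hδ : δ ≤ ε) (hL : L ⊆ K) :
    NullM_Sm L δ a := fun l h1 h2 =>
  h l (fun y hy => hL (h1 y hy)) fun y hy z hz => (h2 y hy z hz).trans_le hδ

theorem NullM_of_sm {ε : ℝ} (hε : 0 < ε) {a : Ch Z R} (h : NullM_Sm K ε a) : a ∈ N K :=
  fun x _ => ⟨ball x (ε / 2), ball_mem_nhds _ (by positivity), fun l hl =>
    h l (fun y hy => (hl y hy).2) fun y hy z hz => by
      have h1 := mem_ball.1 (hl y hy).1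
      have h2 := mem_ball.1 (hl z hz).1
      linarith [dist_triangle_right y z x]⟩

theorem mem_N_iff (hK : IsCompact K) {a : Ch Z R} : a ∈ N K ↔ ∃ ε > 0, ∀ l : List Z,
    (∀ y ∈ l, y ∈ K) → (∀ y ∈ l, ∀ z ∈ l, dist y z < ε) → a.1 l = 0 := by
  refine ⟨fun h => ?_, fun ⟨ε, hε, h⟩ => NullM_of_sm hε h⟩
  choose U hU e using Null_mem.1 h
  obtain ⟨ε, hε, hb⟩ := uniformity_basis_dist.lebesgue_number_lemma_nhds' hK hU
  refine ⟨ε, hε, fun l h1 h2 => ?_⟩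
  cases l with
  | nil => exact Null_nil a
  | cons x l =>
    obtain ⟨p, hp⟩ := hb x (h1 x (by simp))
    exact e p p.2 _ fun y hy => ⟨hp (h2 x (by simp) y hy), h1 y hy⟩

/-- The prism operator of a pair of maps that are close to each other. -/
theorem NullM_prism {Z' : Type} [MetricSpace Z'] (r s : Z' → Z) : ∃ h : Ch Z R →ₗ[R] Ch Z' R,
    (∀ a, pullC s a - pullC r a = dC (h a) + h (dC a)) ∧
    (∀ k a, a ∈ DZ k → h a ∈ DZ (k - 1)) ∧
    ∀ (a : Ch Z R) (K : Set Z) (K' : Set Z') (ε δ : ℝ), NullM_Sm K ε a → MapsTo r K' K →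
      MapsTo s K' K → (∀ x ∈ K', ∀ y ∈ K', dist x y < δ → dist (r x) (r y) < ε ∧
        dist (r x) (s y) < ε ∧ dist (s x) (s y) < ε) → NullM_Sm K' δ (h a) := by
  obtain ⟨h, h1, h2, h3⟩ := exists_prism (R := R) r s
  refine ⟨h, h1, h2, fun a K K' ε δ ha hr hs hd l l1 l2 => h3 a l fun m hm => ha m ?_ ?_⟩
  · intro y hy
    obtain ⟨x, hx, rfl | rfl⟩ := hm y hy
    exacts [hr (l1 x hx), hs (l1 x hx)]
  · intro y hy z hz
    obtain ⟨x, hx, rfl | rfl⟩ := hm y hy <;> obtain ⟨x', hx', rfl | rfl⟩ := hm z hz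
    · exact (hd x (l1 x hx) x' (l1 x' hx') (l2 x hx x' hx')).1
    · exact (hd x (l1 x hx) x' (l1 x' hx') (l2 x hx x' hx')).2.1
    · rw [dist_comm]; exact (hd x' (l1 x' hx') x (l1 x hx) (l2 x' hx' x hx)).2.1
    · exact (hd x (l1 x hx) x' (l1 x' hx') (l2 x hx x' hx')).2.2

theorem NullM_close {r : Z → Z} {δ : ℝ} (hδ : 0 < δ) (hr : ∀ x, dist x (r x) < δ) {x y : Z}
    (h : dist x y < δ) :
    dist (r x) (r y) < 3 * δ ∧ dist (r x) y < 3 * δ ∧ dist x y < 3 * δ := by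
  have h1 := hr x
  have h2 := hr y
  have h3 := dist_triangle_left (r x) y x
  have h4 := dist_triangle (r x) y (r y)
  exact ⟨by linarith, by linarith, by linarith⟩

theorem NullM_pull {r : Z → Z} {δ : ℝ} (hδ : 0 < δ) (hr : ∀ x, dist x (r x) < δ) {a : Ch Z R}
    (ha : NullM_Sm K (3 * δ) a) {l : List Z} (h1 : ∀ y ∈ l, r y ∈ K)
    (h2 : ∀ y ∈ l, ∀ z ∈ l, dist y z < δ) : (pullC r a).1 l = 0 := by
  rw [Null_pullC_val]
  refine ha _ (fun y hy => ?_) fun y hy z hz => ?_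
  · obtain ⟨x, hx, rfl⟩ := List.mem_map.1 hy
    exact h1 x hx
  · obtain ⟨x, hx, rfl⟩ := List.mem_map.1 hy
    obtain ⟨x', hx', rfl⟩ := List.mem_map.1 hz
    exact (NullM_close hδ hr (h2 x hx x' hx')).1

/-- A map that pushes the points near `P` into `P` and fixes `P` and the far points. -/
theorem NullM_push (P : Set Z) {δ : ℝ} (hδ : 0 < δ) : ∃ r : Z → Z, (∀ x, dist x (r x) < δ) ∧
    (∀ x ∈ P, r x = x) ∧ (∀ x, (∃ p ∈ P, dist x p < δ) → r x ∈ P) ∧ ∀ x, r x ∈ P ∨ r x = x := by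
  classical
  have : ∀ x, ∃ y, dist x y < δ ∧ (x ∈ P → y = x) ∧ ((∃ p ∈ P, dist x p < δ) → y ∈ P) ∧
      (y ∈ P ∨ y = x) := by
    intro x
    by_cases hx : x ∈ P
    · exact ⟨x, by simpa using hδ, fun _ => rfl, fun _ => hx, Or.inr rfl⟩
    by_cases hp : ∃ p ∈ P, dist x p < δ
    · obtain ⟨p, hp, hd⟩ := hp
      exact ⟨p, hd, fun h => (hx h).elim, fun _ => hp, Or.inl hp⟩
    · exact ⟨x, by simpa using hδ, fun _ => rfl, fun h => (hp h).elim, Or.inr rfl⟩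
  choose r h1 h2 h3 h4 using this
  exact ⟨r, h1, h2, h3, h4⟩

theorem NullM_eq {r : Z → Z} {h : Ch Z R →ₗ[R] Ch Z R} {a : Ch Z R}
    (e : pullC id a - pullC r a = dC (h a) + h (dC a)) : a - dC (h a) = pullC r a + h (dC a) := by
  rw [pullC_id] at e
  calc a - dC (h a) = pullC r a + (a - pullC r a) - dC (h a) := by abel
    _ = _ := by rw [e]; abel

/-- (A) -/
theorem N_union (hK : IsCompact K) (hL : IsCompact L) {k : ℤ} {a : Ch Z R} (ha : a ∈ DZ k)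
    (h1 : a ∈ N K) (h2 : a ∈ N L) (hd : dC a ∈ N (K ∪ L)) :
    ∃ b ∈ DZ (k - 1), b ∈ N K ∧ b ∈ N L ∧ a - dC b ∈ N (K ∪ L) := by
  obtain ⟨ε1, p1, e1⟩ := (mem_N_iff hK).1 h1
  obtain ⟨ε2, p2, e2⟩ := (mem_N_iff hL).1 h2
  obtain ⟨ε3, p3, e3⟩ := (mem_N_iff (hK.union hL)).1 hd
  obtain ⟨δ, hδ, q1, q2, q3⟩ : ∃ δ > 0, 3 * δ ≤ ε1 ∧ 3 * δ ≤ ε2 ∧ 3 * δ ≤ ε3 :=
    ⟨min ε1 (min ε2 ε3) / 3, by positivity, by linarith [min_le_left ε1 (min ε2 ε3)],
      by linarith [min_le_right ε1 (min ε2 ε3), min_le_left ε2 ε3],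
      by linarith [min_le_right ε1 (min ε2 ε3), min_le_right ε2 ε3]⟩
  have f1 : NullM_Sm K (3 * δ) a := NullM_Sm.mono e1 q1 Subset.rfl
  have f2 : NullM_Sm L (3 * δ) a := NullM_Sm.mono e2 q2 Subset.rfl
  have f3 : NullM_Sm (K ∪ L) (3 * δ) (dC a) := NullM_Sm.mono e3 q3 Subset.rfl
  obtain ⟨r, r1, -, r3, r4⟩ := NullM_push (K ∩ L) hδ
  have rK : MapsTo r K K := fun x hx => (r4 x).elim (fun h => h.1) fun h => by rw [h]; exact hx
  have rL : MapsTo r L L := fun x hx => (r4 x).elim (fun h => h.2) fun h => by rw [h]; exact hx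
  obtain ⟨h, g1, g2, g3⟩ := NullM_prism (R := R) r id
  obtain ⟨η, hη, hs⟩ := (hK.diff (isOpen_thickening (δ := δ / 2) (E := K ∩ L))
    ).exists_thickening_subset_open hL.isClosed.isOpen_compl fun x hx hxL =>
      hx.2 (self_subset_thickening (by positivity) _ ⟨hx.1, hxL⟩)
  refine ⟨h a, g2 k a ha, NullM_of_sm hδ (g3 a K K _ δ f1 rK (mapsTo_id _) fun x _ y _ =>
    NullM_close hδ r1), NullM_of_sm hδ (g3 a L L _ δ f2 rL (mapsTo_id _) fun x _ y _ =>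
    NullM_close hδ r1), ?_⟩
  rw [NullM_eq (g1 a)]
  refine add_mem ?_ (NullM_of_sm hδ (g3 _ _ _ _ δ f3 (rK.union_union rL) (mapsTo_id _)
    fun x _ y _ => NullM_close hδ r1))
  refine NullM_of_sm (ε := min η (δ / 2)) (by positivity) fun l l1 l2 => ?_
  have l3 : ∀ y ∈ l, ∀ z ∈ l, dist y z < δ := fun y hy z hz => by
    linarith [l2 y hy z hz, min_le_right η (δ / 2)]
  by_cases cK : ∀ y ∈ l, y ∈ K
  · exact NullM_pull hδ r1 f1 (fun y hy => rK (cK y hy)) l3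
  by_cases cL : ∀ y ∈ l, y ∈ L
  · exact NullM_pull hδ r1 f2 (fun y hy => rL (cL y hy)) l3
  push Not at cK cL
  obtain ⟨z, hz, hzK⟩ := cK
  obtain ⟨y, hy, hyL⟩ := cL
  have yK : y ∈ K := (l1 y hy).resolve_right hyL
  have zL : z ∈ L := (l1 z hz).resolve_left hzK
  have yt : y ∈ thickening (δ / 2) (K ∩ L) := by
    by_contra hn
    exact hs (mem_thickening_iff.2 ⟨y, ⟨yK, hn⟩, (l2 z hz y hy).trans_le (min_le_left _ _)⟩) zL
  obtain ⟨p, hp, hyp⟩ := mem_thickening_iff.1 yt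
  refine NullM_pull hδ r1 f1 (fun x hx => (r3 x ⟨p, hp, ?_⟩).1) l3
  linarith [l2 x hx y hy, min_le_right η (δ / 2), dist_triangle x y p]

/-- (C) -/
theorem N_nhds (hK : IsCompact K) (hL : IsCompact L) (hKL : K ⊆ L) {k : ℤ} {a : Ch Z R}
    (ha : a ∈ DZ k) (h1 : a ∈ N K) {V : Set Z} (hV : V ∈ 𝓝ˢ K) (hd : dC a ∈ N (V ∩ L)) :
    ∃ b ∈ DZ (k - 1), b ∈ N K ∧ ∃ V' ∈ 𝓝ˢ K, a - dC b ∈ N (V' ∩ L) := by
  obtain ⟨O, hO, hKO, hOV⟩ := mem_nhdsSet_iff_exists.1 hV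
  obtain ⟨ε0, p0, e0⟩ := hK.exists_cthickening_subset_open hO hKO
  obtain ⟨ε1, p1, e1⟩ := (mem_N_iff hK).1 h1
  obtain ⟨ε2, p2, e2⟩ := (mem_N_iff (hL.inter_left (isClosed_cthickening (δ := ε0) (E := K)))).1
    (N_mono (inter_subset_inter_left _ (e0.trans hOV)) hd)
  obtain ⟨δ, hδ, q1, q2, q3⟩ : ∃ δ > 0, 3 * δ ≤ ε1 ∧ 3 * δ ≤ ε2 ∧ 3 * δ ≤ ε0 :=
    ⟨min ε1 (min ε2 ε0) / 3, by positivity, by linarith [min_le_left ε1 (min ε2 ε0)],
      by linarith [min_le_right ε1 (min ε2 ε0), min_le_left ε2 ε0],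
      by linarith [min_le_right ε1 (min ε2 ε0), min_le_right ε2 ε0]⟩
  have f1 : NullM_Sm K (3 * δ) a := NullM_Sm.mono e1 q1 Subset.rfl
  have f2 : NullM_Sm (cthickening ε0 K ∩ L) (3 * δ) (dC a) := NullM_Sm.mono e2 q2 Subset.rfl
  obtain ⟨r, r1, r2, r3, -⟩ := NullM_push K hδ
  obtain ⟨h, g1, g2, g3⟩ := NullM_prism (R := R) r id
  have rK : MapsTo r (thickening δ K ∩ L) K := fun x hx => r3 x (mem_thickening_iff.1 hx.1)
  refine ⟨h a, g2 k a ha, NullM_of_sm hδ (g3 a K K _ δ f1 (fun x hx => by rw [r2 x hx]; exact hx)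
    (mapsTo_id _) fun x _ y _ => NullM_close hδ r1), thickening δ K,
    isOpen_thickening.mem_nhdsSet.2 (self_subset_thickening hδ _), ?_⟩
  rw [NullM_eq (g1 a)]
  refine add_mem (NullM_of_sm hδ fun l l1 l2 => NullM_pull hδ r1 f1 (fun y hy => rK (l1 y hy)) l2)
    (NullM_of_sm hδ (g3 _ _ _ _ δ f2 (fun x hx => ?_) (fun x hx => ?_)
      fun x _ y _ => NullM_close hδ r1))
  · exact ⟨self_subset_cthickening _ (rK hx), hKL (rK hx)⟩
  · exact ⟨thickening_subset_cthickening_of_le (by linarith) _ hx.1, hx.2⟩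

/-- tautness, extension form -/
theorem N_extend (hK : IsCompact K) {k : ℤ} {a : Ch Z R} (ha : a ∈ DZ k) (hd : dC a ∈ N K) :
    ∃ a' ∈ DZ k, a - a' ∈ N K ∧ ∃ V ∈ 𝓝ˢ K, dC a' ∈ N V := by
  obtain ⟨ε, hε, e⟩ := (mem_N_iff hK).1 hd
  have hδ : 0 < ε / 3 := by positivity
  have f : NullM_Sm K (3 * (ε / 3)) (dC a) := NullM_Sm.mono e (by linarith) Subset.rfl
  obtain ⟨r, r1, r2, r3, -⟩ := NullM_push K hδ
  refine ⟨pullC r a, pullC_mem r ha, ?_, thickening (ε / 3) K,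
    isOpen_thickening.mem_nhdsSet.2 (self_subset_thickening hδ _), ?_⟩
  · have := pullC_congr (f := id) (g := r) (K' := K) (fun x hx => (r2 x hx).symm) a
    rwa [pullC_id] at this
  · rw [dC_pullC]
    exact NullM_of_sm hδ fun l l1 l2 =>
      NullM_pull hδ r1 f (fun y hy => r3 y (mem_thickening_iff.1 (l1 y hy))) l2

/-- homotopy invariance -/
theorem N_homotopy {Z' : Type} [MetricSpace Z'] {K' : Set Z'} (hK' : IsCompact K')
    (hK : IsCompact K) {F : ℝ × Z' → Z} (hF : ContinuousOn F (Icc 0 1 ×ˢ K'))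
    (hm : MapsTo F (Icc 0 1 ×ˢ K') K) {k : ℤ} {a : Ch Z R} (ha : a ∈ DZ k) (hd : dC a ∈ N K) :
    ∃ b ∈ DZ (k - 1), pullC (fun x => F (1, x)) a - pullC (fun x => F (0, x)) a - dC b ∈ N K' := by
  obtain ⟨ε, hε, e⟩ := (mem_N_iff hK).1 hd
  obtain ⟨η, hη, hu⟩ := Metric.uniformContinuousOn_iff.1
    ((isCompact_Icc.prod hK').uniformContinuousOn_of_continuous hF) ε hε
  obtain ⟨n, hn⟩ := exists_nat_one_div_lt hη
  have hn0 : (0 : ℝ) < n + 1 := by positivity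
  have key : ∀ j : ℕ, j ≤ n + 1 → ∃ b ∈ DZ (k - 1),
      pullC (fun x => F (j / (n + 1), x)) a - pullC (fun x => F (0, x)) a - dC b ∈ N K' := by
    intro j
    induction j with
    | zero => exact fun _ => ⟨0, zero_mem _, by simp⟩
    | succ j ih =>
      intro hj
      obtain ⟨b, hb, hN⟩ := ih (by omega)
      obtain ⟨h, g1, g2, g3⟩ := NullM_prism (R := R) (fun x => F ((j : ℝ) / (n + 1), x))
        (fun x => F (((j + 1 : ℕ) : ℝ) / (n + 1), x))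
      have hj' : ((j + 1 : ℕ) : ℝ) ≤ n + 1 := by exact_mod_cast hj
      have m1 : (j : ℝ) / (n + 1) ∈ Icc (0 : ℝ) 1 :=
        ⟨by positivity, (div_le_one hn0).2 (by push_cast at hj'; linarith)⟩
      have m2 : ((j + 1 : ℕ) : ℝ) / (n + 1) ∈ Icc (0 : ℝ) 1 :=
        ⟨by positivity, (div_le_one hn0).2 hj'⟩
      have dd : dist ((j : ℝ) / (n + 1)) (((j + 1 : ℕ) : ℝ) / (n + 1)) < η := by
        rw [Real.dist_eq, show (j : ℝ) / (n + 1) - ((j + 1 : ℕ) : ℝ) / (n + 1) = -(1 / (n + 1)) by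
          push_cast; ring, abs_neg, abs_of_pos (by positivity)]
        exact hn
      have hz : h (dC a) ∈ N K' := by
        refine NullM_of_sm hη (g3 _ K K' ε η e (fun x hx => hm ⟨m1, hx⟩) (fun x hx => hm ⟨m2, hx⟩)
          fun x hx y hy hxy => ⟨hu _ ⟨m1, hx⟩ _ ⟨m1, hy⟩ ?_, hu _ ⟨m1, hx⟩ _ ⟨m2, hy⟩ ?_,
            hu _ ⟨m2, hx⟩ _ ⟨m2, hy⟩ ?_⟩)
        · rw [Prod.dist_eq]; exact max_lt (by simpa using hη) hxy
        · rw [Prod.dist_eq]; exact max_lt dd hxy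
        · rw [Prod.dist_eq]; exact max_lt (by simpa using hη) hxy
      refine ⟨b + h a, add_mem hb (g2 k a ha), ?_⟩
      have e1 := g1 a
      rw [sub_eq_iff_eq_add] at e1
      rw [e1, map_add]
      convert add_mem hN hz using 1
      abel
  obtain ⟨b, hb, hN⟩ := key (n + 1) le_rfl
  refine ⟨b, hb, ?_⟩
  rwa [show ((n + 1 : ℕ) : ℝ) / (n + 1) = 1 by push_cast; exact div_self hn0.ne'] at hN

omit [MetricSpace Z] in
theorem NullM_d_cons (φ : List Z → R) (x : Z) (l : List Z) :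
    d φ (x :: l) = φ l - d (fun m => φ (x :: m)) l := by
  simp only [d, List.length_cons, Finset.sum_range_succ', List.eraseIdx_cons_succ,
    List.eraseIdx_zero, List.tail_cons, pow_zero, one_mul, pow_succ, mul_neg_one, neg_mul,
    Finset.sum_neg_distrib]
  ring

/-- finite sets -/
theorem N_finite (hK : K.Finite) {k : ℤ} (hk : 0 < k) {a : Ch Z R} (ha : a ∈ DZ k)
    (hd : dC a ∈ N K) : ∃ b ∈ DZ (k - 1), a - dC b ∈ N K := by
  let β : List Z → R := fun l => match l with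
    | [] => 0
    | x :: m => a.1 (x :: x :: m)
  refine ⟨⟨β, rfl⟩, fun l hl => ?_, fun x hx => ?_⟩
  · cases l with
    | nil => rfl
    | cons x m => exact ha (x :: x :: m) (by simp only [List.length_cons] at hl ⊢; omega)
  · obtain ⟨U, hU, e⟩ := hd x hx
    have hc : (K \ {x})ᶜ ∈ 𝓝 x := (hK.sdiff.isClosed.isOpen_compl).mem_nhds fun h => h.2 rfl
    refine ⟨U ∩ (K \ {x})ᶜ, Filter.inter_mem hU hc, fun l hl => ?_⟩
    have lx : ∀ y ∈ l, y = x := fun y hy => by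
      by_contra hn
      exact (hl y hy).1.2 ⟨(hl y hy).2, hn⟩
    have e1 : d a.1 (x :: l) = 0 := e (x :: l) fun y hy => by
      rcases List.mem_cons.1 hy with rfl | hy
      exacts [⟨mem_of_mem_nhds hU, hx⟩, ⟨(hl y hy).1.1, (hl y hy).2⟩]
    rw [NullM_d_cons] at e1
    change a.1 l - d β l = 0
    rw [← e1]
    congr 1
    refine Finset.sum_congr rfl fun i _ => ?_
    congr 1
    have hm : ∀ y ∈ l.eraseIdx i, y = x := fun y hy => lx y (List.mem_of_mem_eraseIdx hy)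
    generalize l.eraseIdx i = m at hm
    cases m with
    | nil => exact (ha [x] (by simp; omega)).symm
    | cons y m => rw [hm y (by simp)]

end Pool.Agent.Lib.MP_d3d358_ag.AS
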