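import Pool.Agent.Lib.MP_d3d358_ag.AS.Ring
import Pool.Agent.Lib.MP_d3d358_ag.AS.NullM

set_option autoImplicit false

namespace Pool.Agent.Lib.MP_d3d358_ag.AS

open Topology Set

section Basic
variable {Z R : Type} [CommRing R] [TopologicalSpace Z] {K L S : Set Z}

theorem MV_mk_congr {a b : Ch Z R} (ha : dC a ∈ N K) (hb : dC b ∈ N K) (h : a - b ∈ N K) :
    mk a ha = mk b hb :=
  (mk_eq_iff ha hb).2 ⟨0, by rwa [map_zero, sub_zero]⟩

theorem MV_mk_sub {a b : Ch Z R} (ha : dC a ∈ N K) (hb : dC b ∈ N K) (h : dC (a - b) ∈ N K) :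
    mk (a - b) h = mk a ha - mk b hb := by
  rw [eq_sub_iff_add_eq, ← mk_add h hb (by rwa [sub_add_cancel])]
  exact MV_mk_congr _ _ (by rw [sub_add_cancel, sub_self]; exact (N K).zero_mem)

theorem MV_mk_zero_of {a c : Ch Z R} (ha : dC a ∈ N K) (h : a - dC c ∈ N K) : mk a ha = 0 := by
  have h0 : dC (0 : Ch Z R) ∈ N K := by rw [map_zero]; exact (N K).zero_mem
  have e : mk (0 : Ch Z R) h0 = 0 := by
    have := MV_mk_sub h0 h0 (by rwa [sub_self])
    rw [sub_self (mk 0 h0)] at this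
    rw [← this]
    exact MV_mk_congr _ _ (by rw [sub_self, sub_self]; exact (N K).zero_mem)
  rw [← e]
  exact (mk_eq_iff ha h0).2 ⟨c, by rwa [sub_zero]⟩

omit [TopologicalSpace Z] in
theorem MV_dC_mem {k : ℤ} {a : Ch Z R} (h : a ∈ DZ (k - 1)) : dC a ∈ DZ k := by
  have := dC_mem h
  rwa [sub_add_cancel] at this

theorem MV_res_res (h1 : K ⊆ L) (h2 : L ⊆ S) (x : HT R S) :
    res h1 (res h2 x) = res (h1.trans h2) x :=
  pull_pull (f := id) (g := id) x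

theorem MV_res_mem (h : K ⊆ L) {k : ℤ} {x : HT R L} (hx : x ∈ Hk L k) : res h x ∈ Hk K k :=
  pull_mem hx

theorem MV_ht_empty (h : K = ∅) (x : HT R K) : x = 0 := by
  subst h
  obtain ⟨⟨a, ha⟩, rfl⟩ := Ideal.Quotient.mk_surjective (I := Bs R (∅ : Set Z)) x
  exact MV_mk_zero_of (c := 0) ha (N_empty _)

/-- a class that vanishes on `K` has a cocycle that vanishes on `K` -/
theorem MV_rep_zero (hKS : K ⊆ S) {k : ℤ} {x : HT R S} (hx : x ∈ Hk S k) (h : res hKS x = 0) :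
    ∃ (a : Ch Z R) (ha : dC a ∈ N S), a ∈ DZ k ∧ a ∈ N K ∧ x = mk a ha := by
  obtain ⟨a, ha, hk, rfl⟩ := hx
  rw [res_mk] at h
  obtain ⟨c, hc, e⟩ := (mk_eq_zero_iff hk _).1 h
  have hd : dC (a - dC c) ∈ N S := by rwa [map_sub, dC_dC, sub_zero]
  refine ⟨a - dC c, hd, (DZ k).sub_mem hk (MV_dC_mem hc), e, (mk_eq_iff _ _).2 ⟨c, ?_⟩⟩
  rw [sub_sub_cancel, sub_self]
  exact (N S).zero_mem

theorem MV_graph {M M' : Type} [AddCommGroup M] [Module R M] [AddCommGroup M'] [Module R M']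
    (G : Submodule R (M × M')) (ht : ∀ m, ∃ n, (m, n) ∈ G) (hf : ∀ n, (0, n) ∈ G → n = 0) :
    ∃ b : M →ₗ[R] M', ∀ m n, (m, n) ∈ G ↔ b m = n := by
  choose b hb using ht
  have key : ∀ m n, (m, n) ∈ G → b m = n := fun m n h => by
    have := G.sub_mem (hb m) h
    rw [Prod.mk_sub_mk, sub_self] at this
    exact sub_eq_zero.1 (hf _ this)
  exact ⟨⟨⟨b, fun x y => key _ _ (G.add_mem (hb x) (hb y))⟩,
    fun c x => key _ _ (G.smul_mem c (hb x))⟩, fun m n => ⟨key m n, fun h => h ▸ hb m⟩⟩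

end Basic

variable {Z R : Type} [CommRing R] [MetricSpace Z] {K L S : Set Z}

/-- vanishing in degree `k` -/
def Van (R : Type) [CommRing R] (K : Set Z) (k : ℤ) : Prop := ∀ x ∈ Hk (R := R) K k, x = 0

/-- (A) for a coboundary -/
theorem MV_union_d (hK : IsCompact K) (hL : IsCompact L) {k : ℤ} {a : Ch Z R} (ha : a ∈ DZ k)
    (h1 : dC a ∈ N K) (h2 : dC a ∈ N L) :
    ∃ g ∈ DZ k, g ∈ N K ∧ g ∈ N L ∧ dC (a - g) ∈ N (K ∪ L) := by
  obtain ⟨g, hg, g1, g2, e⟩ := N_union hK hL (dC_mem ha) h1 h2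
    (by rw [dC_dC]; exact (N _).zero_mem)
  rw [add_sub_cancel_right] at hg
  exact ⟨g, hg, g1, g2, by rwa [map_sub]⟩

theorem MV_fun (hK : IsCompact K) (hL : IsCompact L) {k : ℤ} {w p q r : Ch Z R} (hw : w ∈ DZ k)
    (hd : dC w ∈ N (K ∪ L)) (hp : p ∈ DZ (k - 1)) (hq : q ∈ DZ (k - 1)) (hr : r ∈ DZ (k - 1 - 1))
    (h1 : w - dC p ∈ N K) (h2 : w - dC q ∈ N L) (h : p - q - dC r ∈ N (K ∩ L)) :
    ∃ g, w - dC g ∈ N (K ∪ L) := by
  obtain ⟨b, hb, b1, b2⟩ := N_split hL.isClosed ((DZ _).sub_mem ((DZ _).sub_mem hp hq) (MV_dC_mem hr)) h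
  have e1 : w - dC (p - b) = w - dC p + dC b := by rw [map_sub]; abel
  have e2 : w - dC (p - b) = w - dC q - dC (p - q - dC r - b) := by
    simp only [map_sub, dC_dC]; abel
  obtain ⟨g, -, -, -, e⟩ := N_union hK hL
    ((DZ k).sub_mem hw (MV_dC_mem ((DZ _).sub_mem hp hb)))
    (e1 ▸ (N K).add_mem h1 (N_dC b1)) (e2 ▸ (N L).sub_mem h2 (N_dC b2))
    (by rwa [map_sub, dC_dC, sub_zero])
  exact ⟨p - b + g, by rwa [map_add, ← sub_sub]⟩

/-- (P) -/
theorem mul_eq_zero_of_cover (hK : IsCompact K) (hL : IsCompact L) (hKS : K ⊆ S) (hLS : L ⊆ S)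
    (hS : S ⊆ K ∪ L) {p q : ℤ} {x y : HT R S} (hx : x ∈ Hk S p) (hy : y ∈ Hk S q)
    (h1 : res hKS x = 0) (h2 : res hLS y = 0) : x * y = 0 := by
  obtain ⟨a, ha, ak, aK, rfl⟩ := MV_rep_zero hKS hx h1
  obtain ⟨b, hb, bk, bL, rfl⟩ := MV_rep_zero hLS hy h2
  have hd : dC (a * b) ∈ N S := by
    rw [dC_mul]
    exact (N S).add_mem (N_mul_right ha b) (N_mul_left _ hb)
  obtain ⟨g, -, -, -, e⟩ := N_union hK hL (mul_mem_DZ ak bk) (N_mul_right aK b) (N_mul_left a bL)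
    (N_mono (union_subset hKS hLS) hd)
  rw [← mk_mul ha hb hd]
  exact MV_mk_zero_of hd (N_mono hS e)

theorem glue (hK : IsCompact K) (hL : IsCompact L) (hKS : K ⊆ S) (hLS : L ⊆ S) (hS : S ⊆ K ∪ L)
    {k : ℤ} {x : HT R K} {y : HT R L} (hx : x ∈ Hk K k) (hy : y ∈ Hk L k)
    (h : res (inter_subset_left : K ∩ L ⊆ K) x = res inter_subset_right y) :
    ∃ z ∈ Hk S k, res hKS z = x ∧ res hLS z = y := by
  obtain ⟨a, ha, ak, rfl⟩ := hx
  obtain ⟨b, hb, bk, rfl⟩ := hy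
  have hab : dC (a - b) ∈ N (K ∩ L) := by
    rw [map_sub]
    exact (N _).sub_mem (N_mono inter_subset_left ha) (N_mono inter_subset_right hb)
  rw [res_mk, res_mk, ← sub_eq_zero, ← MV_mk_sub _ _ hab] at h
  obtain ⟨c, hc, e⟩ := (mk_eq_zero_iff ((DZ k).sub_mem ak bk) _).1 h
  obtain ⟨β, hβ, β1, β2⟩ := N_split hL.isClosed ((DZ _).sub_mem ((DZ _).sub_mem ak bk) (MV_dC_mem hc)) e
  have e2 : dC (a - β) = dC b + dC (a - b - dC c - β) := by simp only [map_sub, dC_dC]; abel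
  obtain ⟨g, hg, g1, g2, eg⟩ := MV_union_d hK hL ((DZ k).sub_mem ak hβ)
    (by rw [map_sub]; exact (N K).sub_mem ha (N_dC β1)) (e2 ▸ (N L).add_mem hb (N_dC β2))
  refine ⟨mk (a - β - g) (N_mono hS eg), ⟨_, _, (DZ k).sub_mem ((DZ k).sub_mem ak hβ) hg, rfl⟩,
    ?_, ?_⟩
  · rw [res_mk]
    refine MV_mk_congr _ _ ?_
    have : a - β - g - a = -(β + g) := by abel
    rw [this]
    exact (N K).neg_mem ((N K).add_mem β1 g1)
  · rw [res_mk]
    refine (mk_eq_iff _ _).2 ⟨c, ?_⟩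
    have : a - β - g - b - dC c = a - b - dC c - β - g := by abel
    rw [this]
    exact (N L).sub_mem β2 g2

/-- the graph of the boundary map -/
def MV_G (R : Type) [CommRing R] (K L S : Set Z) (k : ℤ) :
    Submodule R (Hk (R := R) (K ∩ L) (k - 1) × Hk (R := R) S k) where
  carrier := {t | ∃ (w p q : Ch Z R) (hw : dC w ∈ N S) (hc : dC (p - q) ∈ N (K ∩ L)), w ∈ DZ k ∧
    p ∈ DZ (k - 1) ∧ q ∈ DZ (k - 1) ∧ w - dC p ∈ N K ∧ w - dC q ∈ N L ∧
    t.1.1 = mk (p - q) hc ∧ t.2.1 = mk w hw}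
  zero_mem' := by
    have h0 : ∀ T : Set Z, dC (0 : Ch Z R) ∈ N T := fun T => by
      rw [map_zero]; exact (N T).zero_mem
    have h1 : ∀ T : Set Z, (0 : Ch Z R) - dC 0 ∈ N T := fun T => by
      rw [map_zero, sub_zero]; exact (N T).zero_mem
    refine ⟨0, 0, 0, h0 _, by rw [sub_zero]; exact h0 _, zero_mem _, zero_mem _, zero_mem _, h1 _,
      h1 _, (MV_mk_zero_of (c := 0) _ ?_).symm, (MV_mk_zero_of (c := 0) _ (h1 _)).symm⟩
    rw [sub_self]
    exact h1 _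
  add_mem' := by
    rintro s t ⟨w, p, q, hw, hc, wk, pk, qk, h1, h2, e1, e2⟩
      ⟨w', p', q', hw', hc', wk', pk', qk', h1', h2', e1', e2'⟩
    have e : p + p' - (q + q') = p - q + (p' - q') := by abel
    have hcc : dC (p - q + (p' - q')) ∈ N (K ∩ L) := by rw [map_add]; exact add_mem hc hc'
    have hww : dC (w + w') ∈ N S := by rw [map_add]; exact add_mem hw hw'
    refine ⟨w + w', p + p', q + q', hww, e ▸ hcc, add_mem wk wk', add_mem pk pk', add_mem qk qk',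
      ?_, ?_, ?_, ?_⟩
    · rw [map_add, add_sub_add_comm]; exact add_mem h1 h1'
    · rw [map_add, add_sub_add_comm]; exact add_mem h2 h2'
    · change s.1.1 + t.1.1 = _
      rw [e1, e1', ← mk_add hc hc' hcc]
      exact MV_mk_congr _ _ (by rw [e, sub_self]; exact zero_mem _)
    · change s.2.1 + t.2.1 = _
      rw [e2, e2', ← mk_add hw hw' hww]
  smul_mem' := by
    rintro c s ⟨w, p, q, hw, hc, wk, pk, qk, h1, h2, e1, e2⟩
    have e : c • p - c • q = c • (p - q) := (smul_sub c p q).symm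
    have hcc : dC (c • (p - q)) ∈ N (K ∩ L) := by rw [map_smul]; exact (N _).smul_mem c hc
    have hww : dC (c • w) ∈ N S := by rw [map_smul]; exact (N _).smul_mem c hw
    refine ⟨c • w, c • p, c • q, hww, e ▸ hcc, (DZ _).smul_mem c wk, (DZ _).smul_mem c pk,
      (DZ _).smul_mem c qk, ?_, ?_, ?_, ?_⟩
    · rw [map_smul, ← smul_sub]; exact (N _).smul_mem c h1
    · rw [map_smul, ← smul_sub]; exact (N _).smul_mem c h2
    · change c • s.1.1 = _
      rw [e1, ← mk_smul c hc hcc]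
      exact MV_mk_congr _ _ (by rw [e, sub_self]; exact zero_mem _)
    · change c • s.2.1 = _
      rw [e2, ← mk_smul c hw hww]

/-- Mayer-Vietoris boundary -/
theorem exists_bd (hK : IsCompact K) (hL : IsCompact L) (hKS : K ⊆ S) (hLS : L ⊆ S)
    (hS : S ⊆ K ∪ L) (k : ℤ) : ∃ b : Hk (R := R) (K ∩ L) (k - 1) →ₗ[R] Hk (R := R) S k,
    (∀ u : Hk S k, (res hKS u.1 = 0 ∧ res hLS u.1 = 0) ↔ ∃ c, b c = u) ∧
    ∀ c, b c = 0 ↔ ∃ x ∈ Hk K (k - 1), ∃ y ∈ Hk L (k - 1),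
      c.1 = res inter_subset_left x - res inter_subset_right y := by
  obtain ⟨b, hb⟩ := MV_graph (MV_G R K L S k) (by
    rintro ⟨_, c, hc, ck, rfl⟩
    obtain ⟨α, αk, α1, α2⟩ := N_split hL.isClosed (MV_dC_mem ck) hc
    have e2 : dC α = -dC (dC c - α) := by rw [map_sub, dC_dC, zero_sub, neg_neg]
    obtain ⟨g, gk, g1, g2, eg⟩ := MV_union_d hK hL αk (N_dC α1) (e2 ▸ neg_mem (N_dC α2))
    have hw : dC (-(α - g)) ∈ N S := by rw [map_neg]; exact neg_mem (N_mono hS eg)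
    have wk : -(α - g) ∈ DZ k := neg_mem (sub_mem αk gk)
    have ec : (0 : Ch Z R) - -c = c := by rw [zero_sub, neg_neg]
    refine ⟨⟨mk _ hw, _, _, wk, rfl⟩, -(α - g), 0, -c, hw, by rwa [ec], wk, zero_mem _, neg_mem ck,
      ?_, ?_, MV_mk_congr _ _ (by rw [ec, sub_self]; exact zero_mem _), rfl⟩
    · rw [map_zero, sub_zero]; exact neg_mem (sub_mem α1 g1)
    · have : -(α - g) - dC (-c) = dC c - α + g := by rw [map_neg]; abel
      rw [this]
      exact add_mem α2 g2) (by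
    rintro n ⟨w, p, q, hw, hc, wk, pk, qk, h1, h2, e1, e2⟩
    obtain ⟨r, rk, er⟩ := (mk_eq_zero_iff (sub_mem pk qk) hc).1 e1.symm
    obtain ⟨g, eg⟩ := MV_fun hK hL wk (N_mono (union_subset hKS hLS) hw) pk qk rk h1 h2 er
    exact Subtype.ext (e2.trans (MV_mk_zero_of hw (N_mono hS eg))))
  refine ⟨b, fun u => ⟨?_, ?_⟩, fun c => ⟨fun h => ?_, ?_⟩⟩
  · obtain ⟨_, w, hw, wk, rfl⟩ := u
    rintro ⟨h1, h2⟩
    rw [res_mk] at h1 h2
    obtain ⟨p, pk, ep⟩ := (mk_eq_zero_iff wk _).1 h1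
    obtain ⟨q, qk, eq⟩ := (mk_eq_zero_iff wk _).1 h2
    have hc : dC (p - q) ∈ N (K ∩ L) := by
      have : dC (p - q) = w - dC q - (w - dC p) := by rw [map_sub]; abel
      rw [this]
      exact sub_mem (N_mono inter_subset_right eq) (N_mono inter_subset_left ep)
    exact ⟨⟨mk _ hc, _, _, sub_mem pk qk, rfl⟩,
      (hb _ _).1 ⟨w, p, q, hw, hc, wk, pk, qk, ep, eq, rfl, rfl⟩⟩
  · rintro ⟨c, hc⟩
    obtain ⟨w, p, q, hw, -, -, -, -, h1, h2, -, e2⟩ := (hb _ _).2 hc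
    have e2' : u.1 = mk w hw := e2
    rw [e2', res_mk, res_mk]
    exact ⟨MV_mk_zero_of _ h1, MV_mk_zero_of _ h2⟩
  · obtain ⟨w, p, q, hw, hc, wk, pk, qk, h1, h2, e1, e2⟩ := (hb _ _).2 h
    obtain ⟨r, rk, er⟩ := (mk_eq_zero_iff wk hw).1 e2.symm
    have e : ∀ p : Ch Z R, dC (p - r) = w - dC r - (w - dC p) := fun p => by rw [map_sub]; abel
    have hx : dC (p - r) ∈ N K := e p ▸ sub_mem (N_mono hKS er) h1
    have hy : dC (q - r) ∈ N L := e q ▸ sub_mem (N_mono hLS er) h2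
    refine ⟨mk _ hx, ⟨_, _, sub_mem pk rk, rfl⟩, mk _ hy, ⟨_, _, sub_mem qk rk, rfl⟩,
      e1.trans ?_⟩
    have e' : p - r - (q - r) = p - q := by abel
    rw [res_mk, res_mk, ← MV_mk_sub _ _ (by rwa [e'])]
    exact MV_mk_congr _ _ (by rw [e', sub_self]; exact zero_mem _)
  · rintro ⟨_, ⟨p, hp, pk, rfl⟩, _, ⟨q, hq, qk, rfl⟩, e⟩
    have h0 : dC (0 : Ch Z R) ∈ N S := by rw [map_zero]; exact zero_mem _
    have hc : dC (p - q) ∈ N (K ∩ L) := by
      rw [map_sub]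
      exact sub_mem (N_mono inter_subset_left hp) (N_mono inter_subset_right hq)
    rw [res_mk, res_mk, ← MV_mk_sub _ _ hc] at e
    refine (hb _ _).1 ⟨0, p, q, h0, hc, zero_mem _, pk, qk, ?_, ?_, e,
      (MV_mk_zero_of (c := 0) h0 (by rw [zero_sub]; exact neg_mem h0)).symm⟩
    · rw [zero_sub]; exact neg_mem hp
    · rw [zero_sub]; exact neg_mem hq

theorem mv_zero (hK : IsCompact K) (hL : IsCompact L) (hKS : K ⊆ S) (hLS : L ⊆ S) (hS : S ⊆ K ∪ L)
    {k : ℤ} (hv : Van R (K ∩ L) (k - 1)) {u : HT R S} (hu : u ∈ Hk S k) (h1 : res hKS u = 0)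
    (h2 : res hLS u = 0) : u = 0 := by
  obtain ⟨b, hb, -⟩ := exists_bd (R := R) hK hL hKS hLS hS k
  obtain ⟨c, hc⟩ := (hb ⟨u, hu⟩).1 ⟨h1, h2⟩
  have : c = 0 := Subtype.ext (hv c.1 c.2)
  rw [this, map_zero] at hc
  exact (congrArg Subtype.val hc).symm

theorem zero_of_disjoint {ι : Type} [Finite ι] {P : ι → Set Z} (hP : ∀ i, IsCompact (P i))
    (hd : Pairwise (Function.onFun Disjoint P)) (hPS : ∀ i, P i ⊆ S) (hS : S ⊆ ⋃ i, P i) {k : ℤ}
    {u : HT R S} (hu : u ∈ Hk S k) (h : ∀ i, res (hPS i) u = 0) : u = 0 := by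
  classical
  have key : ∀ (s : Finset ι) (hs : ⋃ i ∈ s, P i ⊆ S), res hs u = 0 := by
    intro s
    induction s using Finset.induction_on with
    | empty => exact fun hs => MV_ht_empty (by simp) _
    | insert i s hi ih =>
      intro hs
      have e : ⋃ j ∈ insert i s, P j = P i ∪ ⋃ j ∈ s, P j := Finset.set_biUnion_insert i s P
      have s1 : P i ⊆ ⋃ j ∈ insert i s, P j := e ▸ subset_union_left
      have s2 : ⋃ j ∈ s, P j ⊆ ⋃ j ∈ insert i s, P j := e ▸ subset_union_right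
      refine mv_zero (hP i) (s.isCompact_biUnion fun j _ => hP j) s1 s2 e.subset
        (fun x _ => MV_ht_empty ?_ x) (MV_res_mem hs hu) ?_ ?_
      · refine eq_empty_of_forall_notMem fun z ⟨hz, hz'⟩ => ?_
        obtain ⟨j, hj, hzj⟩ := mem_iUnion₂.1 hz'
        have hij : i ≠ j := fun e => hi (e ▸ hj)
        exact disjoint_left.1 (hd hij) hz hzj
      · rw [MV_res_res]; exact h i
      · rw [MV_res_res]; exact ih _
  have := Fintype.ofFinite ι
  have s1 : S ⊆ ⋃ i ∈ (Finset.univ : Finset ι), P i := by simpa using hS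
  have s2 : ⋃ i ∈ (Finset.univ : Finset ι), P i ⊆ S := iUnion₂_subset fun i _ => hPS i
  rw [← res_self u, ← MV_res_res s1 s2, key, map_zero]

theorem taut_zero (hK : IsCompact K) (hS : IsCompact S) (hKS : K ⊆ S) {k : ℤ} {u : HT R S}
    (hu : u ∈ Hk S k) (h : res hKS u = 0) :
    ∃ V ∈ 𝓝ˢ K, res (inter_subset_right : V ∩ S ⊆ S) u = 0 := by
  obtain ⟨a, ha, ak, aK, rfl⟩ := MV_rep_zero hKS hu h
  obtain ⟨b, -, -, V, hV, e⟩ := N_nhds hK hS hKS ak aK (V := univ) Filter.univ_mem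
    (N_mono inter_subset_right ha)
  exact ⟨V, hV, by rw [res_mk]; exact MV_mk_zero_of _ e⟩

theorem taut_ext (hK : IsCompact K) {k : ℤ} {u : HT R K} (hu : u ∈ Hk K k) :
    ∃ V ∈ 𝓝ˢ K, ∃ (h : K ⊆ V), ∃ z ∈ Hk V k, res h z = u := by
  obtain ⟨a, ha, ak, rfl⟩ := hu
  obtain ⟨a', ak', e, V, hV, hd⟩ := N_extend hK ak ha
  refine ⟨V, hV, subset_of_mem_nhdsSet hV, mk a' hd, ⟨_, _, ak', rfl⟩, ?_⟩
  rw [res_mk]
  exact (MV_mk_congr _ _ e).symm

variable {Z' : Type} [MetricSpace Z'] {K' : Set Z'}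
theorem pull_homotopy (hK' : IsCompact K') (hK : IsCompact K) {F : ℝ × Z' → Z}
    (hF : ContinuousOn F (Icc 0 1 ×ˢ K')) (hm : MapsTo F (Icc 0 1 ×ˢ K') K) {f g : Z' → Z}
    {hf hf' hg hg'} (h0 : ∀ x ∈ K', F (0, x) = f x) (h1 : ∀ x ∈ K', F (1, x) = g x) {k : ℤ}
    {u : HT R K} (hu : u ∈ Hk K k) : pull (K' := K') f hf hf' u = pull g hg hg' u := by
  obtain ⟨a, ha, ak, rfl⟩ := hu
  obtain ⟨b, -, e⟩ := N_homotopy hK' hK hF hm ak ha
  have df : dC (pullC f a) ∈ N K' := by rw [dC_pullC]; exact N_pullC hf hf' ha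
  have dg : dC (pullC g a) ∈ N K' := by rw [dC_pullC]; exact N_pullC hg hg' ha
  rw [pull_mk f hf hf' ha df, pull_mk g hg hg' ha dg]
  refine ((mk_eq_iff _ _).2 ⟨b, ?_⟩).symm
  have c0 := pullC_congr (K' := K') (f := fun x => F (0, x)) (g := f) h0 a
  have c1 := pullC_congr (K' := K') (f := fun x => F (1, x)) (g := g) h1 a
  have := add_mem (sub_mem e c1) c0
  convert this using 1
  abel

theorem van_finite (hK : K.Finite) {k : ℤ} (hk : 0 < k) : Van R K k := by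
  rintro _ ⟨a, ha, ak, rfl⟩
  obtain ⟨b, -, e⟩ := N_finite hK hk ak ha
  exact MV_mk_zero_of _ e

theorem van_starConvex {E : Type} [NormedAddCommGroup E] [NormedSpace ℝ E] {K : Set E}
    (hK : IsCompact K) {c : E} (hs : StarConvex ℝ c K) {k : ℤ} (hk : 0 < k) : Van R K k := by
  intro u hu
  rcases K.eq_empty_or_nonempty with h | h
  · exact MV_ht_empty h u
  have hc : ({c} : Set E) ⊆ K := singleton_subset_iff.2 (hs.mem h)
  have e := pull_homotopy (R := R) hK hK (F := fun p : ℝ × E => (1 - p.1) • c + p.1 • p.2)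
    (by fun_prop) (fun p hp => hs hp.2 (sub_nonneg.2 hp.1.2) hp.1.1 (sub_add_cancel _ _))
    (f := fun _ => c) (g := id) (hf := continuousOn_const) (hf' := fun _ _ => hc rfl)
    (hg := continuousOn_id) (hg' := fun _ h => h) (fun x _ => by simp) (fun x _ => by simp) hu
  have e1 : res hc u = 0 := van_finite (finite_singleton c) hk _ (MV_res_mem hc hu)
  have e2 := pull_pull (f := id) (hf := continuousOn_id) (hm := hc) (g := fun _ : E => c)
    (K'' := K) (hg := continuousOn_const) (hn := fun _ _ => rfl) u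
  have e3 : pull id continuousOn_id hc u = 0 := e1
  rw [e3, map_zero] at e2
  exact (res_self u).symm.trans (e.symm.trans e2.symm)

/-- a continuous bijection of compact sets -/
theorem pull_bij (hK' : IsCompact K') {f : Z' → Z} (hf : ContinuousOn f K') (hb : BijOn f K' K) :
    Function.Injective (pull (R := R) f hf hb.mapsTo) ∧
      ∀ k, ∀ y ∈ Hk (R := R) K' k, ∃ x ∈ Hk K k, pull f hf hb.mapsTo x = y := by
  rcases K'.eq_empty_or_nonempty with h | ⟨x₀, -⟩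
  · have h' : K = ∅ := by rw [← hb.image_eq, h, image_empty]
    exact ⟨fun x y _ => (MV_ht_empty h' x).trans (MV_ht_empty h' y).symm,
      fun k y _ => ⟨0, zero_mem _, (MV_ht_empty h _).trans (MV_ht_empty h y).symm⟩⟩
  have : Nonempty Z' := ⟨x₀⟩
  have hi := hb.invOn_invFunOn
  have hm : MapsTo (Function.invFunOn f K') K K' := hb.surjOn.mapsTo_invFunOn
  have hc : ContinuousOn (Function.invFunOn f K') K := by
    refine continuousOn_iff_isClosed.2 fun t ht => ⟨f '' (K' ∩ t),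
      ((hK'.inter_right ht).image_of_continuousOn (hf.mono inter_subset_left)).isClosed, ?_⟩
    ext y
    refine ⟨fun ⟨h1, h2⟩ => ⟨⟨_, ⟨hm h2, h1⟩, hi.2 h2⟩, h2⟩, ?_⟩
    rintro ⟨⟨x, hx, rfl⟩, h2⟩
    exact ⟨by rw [mem_preimage, hi.1 hx.1]; exact hx.2, h2⟩
  refine ⟨Function.LeftInverse.injective (g := pull _ hc hm) fun x => ?_,
    fun k y hy => ⟨pull _ hc hm y, pull_mem hy, ?_⟩⟩
  · rw [pull_pull]
    exact (pull_congr (g := id) (fun y hy => hi.2 hy) x).trans (res_self x)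
  · rw [pull_pull]
    exact (pull_congr (g := id) (fun x hx => hi.1 hx) y).trans (res_self y)

/-- the fibre `F` has, in degrees `≤ n`, the cohomology spanned by `1` and `θ ≠ 0` (degree `m`) -/
def FibOK (F : Set Z) (m n : ℤ) (θ : Ch Z R) : Prop :=
  IsPreconnected F ∧ F.Nonempty ∧ (∀ k, 0 < k → k ≤ n → k ≠ m → Van R F k) ∧
    ∃ h : dC θ ∈ N F, mk θ h ≠ 0 ∧ ∀ x ∈ Hk (R := R) F m, ∃ c : R, x = c • mk θ h

end Pool.Agent.Lib.MP_d3d358_ag.AS
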