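import Pool.Agent.Lib.MP_d3d358_ag.AS.AsTh
import Pool.Agent.Lib.MP_d3d358_ag.AS.MV

set_option autoImplicit false

namespace Pool.Agent.Lib.MP_d3d358_ag.AS

open Topology Set

variable {Z B R : Type} [Field R] [MetricSpace Z] [MetricSpace B] {E : Set Z} {D : Set B}

theorem Leray_deg {f : Z → B} {m k : ℤ} {θ : Ch Z R} (hθ : θ ∈ DZ m) {a b : Ch B R}
    (ha : a ∈ DZ k) (hb : b ∈ DZ (k - m)) : pullC f a + pullC f b * θ ∈ DZ k := by
  have := mul_mem_DZ (pullC_mem f hb) hθ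
  rw [sub_add_cancel] at this
  exact Submodule.add_mem _ (pullC_mem f ha) this

theorem Leray_coc {F : Set Z} {P : Set B} {f : Z → B} (hf : ContinuousOn f F) (hm : MapsTo f F P)
    {θ : Ch Z R} (hθ : dC θ ∈ N F) {a b : Ch B R} (ha : dC a ∈ N P) (hb : dC b ∈ N P) :
    dC (pullC f a) ∈ N F ∧ dC (pullC f b) ∈ N F ∧ dC (pullC f b * θ) ∈ N F ∧
      dC (pullC f a + pullC f b * θ) ∈ N F := by
  have h1 : dC (pullC f a) ∈ N F := by rw [dC_pullC]; exact N_pullC hf hm ha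
  have h2 : dC (pullC f b) ∈ N F := by rw [dC_pullC]; exact N_pullC hf hm hb
  have h3 : dC (pullC f b * θ) ∈ N F := by
    rw [dC_mul]; exact Submodule.add_mem _ (N_mul_right h2 _) (N_mul_left _ hθ)
  exact ⟨h1, h2, h3, by rw [map_add]; exact Submodule.add_mem _ h1 h3⟩

theorem Leray_mk {F : Set Z} {P : Set B} {f : Z → B} (hf : ContinuousOn f F) (hm : MapsTo f F P)
    {θ : Ch Z R} (hθ : dC θ ∈ N F) {a b : Ch B R} (ha : dC a ∈ N P) (hb : dC b ∈ N P) (h) :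
    mk (pullC f a + pullC f b * θ) h =
      pull f hf hm (mk a ha) + pull f hf hm (mk b hb) * mk θ hθ := by
  obtain ⟨h1, h2, h3, -⟩ := Leray_coc hf hm hθ ha hb
  rw [mk_add h1 h3, mk_mul h2 hθ, pull_mk f hf hm ha h1, pull_mk f hf hm hb h2]

/-- a cochain whose pull back vanishes on a nonempty fibre vanishes at the point -/
theorem Leray_pt {F : Set Z} {x : B} {f : Z → B} (hm : MapsTo f F {x}) (hne : F.Nonempty)
    {η : Ch B R} (h : pullC f η ∈ N F) : η ∈ N ({x} : Set B) := by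
  obtain ⟨z, hz⟩ := hne
  obtain ⟨U, hU, e⟩ := h z hz
  refine fun y _ => ⟨univ, Filter.univ_mem, fun l hl => ?_⟩
  have h1 : l = (l.map fun _ => z).map f := by
    rw [List.map_map]
    conv_lhs => rw [← List.map_id l]
    exact List.map_congr_left fun w hw => ((hl w hw).2 : w = x).trans (hm hz : f z = x).symm
  have h2 := e (l.map fun _ => z) fun w hw => by
    obtain ⟨_, -, rfl⟩ := List.mem_map.1 hw
    exact ⟨mem_of_mem_nhds hU, hz⟩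
  rw [h1]
  exact h2

theorem Leray_cls_pt {x : B} {k : ℤ} {u : HT R ({x} : Set B)} (hu : u ∈ Hk {x} k) :
    ∃ c : R, u = c • 1 ∧ (k ≠ 0 → c = 0) := by
  rcases lt_trichotomy k 0 with h | rfl | h
  · exact ⟨0, by rw [Hk_neg h hu, zero_smul], fun _ => rfl⟩
  · obtain ⟨c, hc⟩ := Hk_zero isPreconnected_singleton hu
    exact ⟨c, hc, fun h => absurd rfl h⟩
  · exact ⟨0, by rw [van_finite (finite_singleton x) h u hu, zero_smul], fun _ => rfl⟩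

theorem Leray_inj {F : Set Z} {x : B} {f : Z → B} (hf : ContinuousOn f F) (hm : MapsTo f F {x})
    {m n k : ℤ} (h0 : 0 < m) {θ : Ch Z R} (hθ : θ ∈ DZ m) (hF : FibOK F m n θ) {a b : Ch B R}
    (ha : a ∈ DZ k) (hb : b ∈ DZ (k - m)) (da : dC a ∈ N {x}) (db : dC b ∈ N {x})
    (h : ∃ c ∈ DZ (k - 1), pullC f a + pullC f b * θ - dC c ∈ N F) :
    (∃ a' ∈ DZ (k - 1), a - dC a' ∈ N {x}) ∧ ∃ b' ∈ DZ (k - m - 1), b - dC b' ∈ N {x} := by
  obtain ⟨-, hne, -, dθ, θ0, -⟩ := hF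
  have e := (mk_eq_zero_iff (Leray_deg hθ ha hb) (Leray_coc hf hm dθ da db).2.2.2).2 h
  rw [Leray_mk hf hm dθ da db] at e
  obtain ⟨r, hr, r0⟩ := Leray_cls_pt (⟨a, da, ha, rfl⟩ : mk a da ∈ Hk {x} k)
  obtain ⟨s, hs, s0⟩ := Leray_cls_pt (⟨b, db, hb, rfl⟩ : mk b db ∈ Hk {x} (k - m))
  rw [hr, hs, map_smul, map_smul, map_one, smul_mul_assoc, one_mul] at e
  have : r = 0 ∧ s = 0 := by
    by_cases hk : k - m = 0
    · have r1 := r0 (by omega)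
      rw [r1, zero_smul, zero_add] at e
      refine ⟨r1, by_contra fun s1 => θ0 ?_⟩
      rw [← inv_smul_smul₀ s1 (mk θ dθ), e, smul_zero]
    · have s1 := s0 hk
      rw [s1, zero_smul, add_zero] at e
      exact ⟨smul_one_ne hne e, s1⟩
  rw [this.1, zero_smul] at hr
  rw [this.2, zero_smul] at hs
  exact ⟨(mk_eq_zero_iff ha da).1 hr, (mk_eq_zero_iff hb db).1 hs⟩

theorem Leray_one {Y : Type} [TopologicalSpace Y] {K : Set Y} (h : dC (1 : Ch Y R) ∈ N K) :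
    mk 1 h = 1 := rfl

theorem Leray_surj {F : Set Z} (f : Z → B) {m n k : ℤ} (hk : k ≤ n) {θ : Ch Z R} (hθ : θ ∈ DZ m)
    (hF : FibOK F m n θ) {c : Ch Z R} (hc : c ∈ DZ k) (dc : dC c ∈ N F) :
    ∃ a ∈ DZ k, ∃ b ∈ DZ (k - m), dC a = (0 : Ch B R) ∧ dC b = (0 : Ch B R) ∧
      ∃ c' ∈ DZ (k - 1), c - (pullC f a + pullC f b * θ) - dC c' ∈ N F := by
  obtain ⟨hp, -, hv, dθ, -, hs⟩ := hF
  have hu : mk c dc ∈ Hk F k := ⟨c, dc, hc, rfl⟩
  have o1 : (1 : Ch B R) ∈ DZ 0 := fnC_mem 1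
  have d1 : dC (1 : Ch Z R) ∈ N F := by rw [dC_one]; exact Submodule.zero_mem _
  obtain ⟨r, s, e, r0, s0⟩ : ∃ r s : R, mk c dc = r • 1 + s • mk θ dθ ∧ (k ≠ 0 → r = 0) ∧
      (k ≠ m → s = 0) := by
    by_cases h1 : k = m
    · obtain ⟨s, h⟩ := hs _ (h1 ▸ hu)
      exact ⟨0, s, by rw [h, zero_smul, zero_add], fun _ => rfl, fun h => absurd h1 h⟩
    rcases lt_trichotomy k 0 with h | rfl | h
    · exact ⟨0, 0, by rw [Hk_neg h hu]; simp, fun _ => rfl, fun _ => rfl⟩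
    · obtain ⟨r, h⟩ := Hk_zero hp hu
      exact ⟨r, 0, by rw [h, zero_smul, add_zero], fun h => absurd rfl h, fun _ => rfl⟩
    · exact ⟨0, 0, by rw [hv k h hk h1 _ hu]; simp, fun _ => rfl, fun _ => rfl⟩
  have ha : r • (1 : Ch B R) ∈ DZ k := by
    by_cases h : k = 0
    · exact Submodule.smul_mem _ _ (h ▸ o1)
    · rw [r0 h, zero_smul]; exact Submodule.zero_mem _
  have hb : s • (1 : Ch B R) ∈ DZ (k - m) := by
    by_cases h : k = m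
    · rw [h, sub_self]; exact Submodule.smul_mem _ _ o1
    · rw [s0 h, zero_smul]; exact Submodule.zero_mem _
  refine ⟨_, ha, _, hb, by rw [map_smul, dC_one, smul_zero], by rw [map_smul, dC_one, smul_zero],
    ?_⟩
  have hd := Leray_deg (f := f) hθ ha hb
  simp only [map_smul, map_one, smul_mul_assoc, one_mul] at hd ⊢
  have d2 : dC (r • (1 : Ch Z R)) ∈ N F := by rw [map_smul]; exact Submodule.smul_mem _ _ d1
  have d3 : dC (s • θ) ∈ N F := by rw [map_smul]; exact Submodule.smul_mem _ _ dθ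
  have d4 : dC (r • (1 : Ch Z R) + s • θ) ∈ N F := by
    rw [map_add]; exact Submodule.add_mem _ d2 d3
  have d5 : dC (c - (r • (1 : Ch Z R) + s • θ)) ∈ N F := by
    rw [map_sub]; exact Submodule.sub_mem _ dc d4
  refine (mk_eq_zero_iff (Submodule.sub_mem _ hc hd) d5).1 ?_
  have := mk_add d5 d4 (by rw [sub_add_cancel]; exact dc)
  simp only [sub_add_cancel] at this
  rw [mk_add d2 d3, mk_smul r d1, mk_smul s dθ, Leray_one, ← e] at this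
  exact (add_eq_right.1 this.symm)

theorem leray (hE : IsCompact E) (hD : IsCompact D) {f : Z → B} (hf : ContinuousOn f E)
    (hm : MapsTo f E D) {m n : ℤ} (h0 : 0 < m) {θ : Ch Z R} (hθ : θ ∈ DZ m) {η : Ch B R}
    (hη : η ∈ DZ (m + 1)) (hdη : dC η ∈ N D) (hdθ : dC θ - pullC f η ∈ N E)
    (hF : ∀ w ∈ D, FibOK (E ∩ f ⁻¹' {w}) m n θ) :
    (∀ k ≤ n + 1, ∀ a ∈ DZ k, ∀ b ∈ DZ (k - m), dC b ∈ N D → sg b * η + dC a ∈ N D →
      (∃ c ∈ DZ (k - 1), pullC f a + pullC f b * θ - dC c ∈ N E) →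
      ∃ a' ∈ DZ (k - 1), ∃ b' ∈ DZ (k - 1 - m), b - dC b' ∈ N D ∧
        a - (sg b' * η + dC a') ∈ N D) ∧
    ∀ k ≤ n, ∀ c ∈ DZ k, dC c ∈ N E → ∃ a ∈ DZ k, ∃ b ∈ DZ (k - m), dC b ∈ N D ∧
      sg b * η + dC a ∈ N D ∧ ∃ c' ∈ DZ (k - 1), c - (pullC f a + pullC f b * θ) - dC c' ∈ N E := by
  let T₀ : Th R B := asTh R hD id continuousOn_id
  let g : Ch B R →ₗ[R] Ch B R := LinearMap.mulRight R η ∘ₗ sg.toLinearMap
  let T₁ : Th R B := Th.ext T₀ T₀ (-m) g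
    (fun k (a : Ch B R) (ha : a ∈ DZ (k + -m)) => by
      have := mul_mem_DZ (sg_mem ha) hη
      rwa [show k + -m + (m + 1) = k + 1 by ring] at this)
    (fun K (a : Ch B R) (ha : a ∈ N (D ∩ id ⁻¹' K)) => N_mul_right (N_sg ha) η)
    (fun a : Ch B R => by
      change sg (dC a) * η + dC (sg a * η) ∈ N (D ∩ id ⁻¹' univ)
      rw [dC_mul, dC_sg, sg_sg, neg_mul, add_neg_cancel_left]
      exact N_mul_left _ (N_mono inter_subset_left hdη))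
  let Φ : Ch B R × Ch B R →ₗ[R] Ch Z R :=
    (LinearMap.mulRight R θ ∘ₗ (pullC f).toLinearMap).coprod (pullC f).toLinearMap
  have hΦ : ∀ b a, Φ (b, a) = pullC f a + pullC f b * θ := fun b a => add_comm _ _
  have pt : ∀ x ∈ D, D ∩ id ⁻¹' {x} = {x} := fun x hx =>
    inter_eq_right.2 (singleton_subset_iff.2 hx)
  have ηpt : ∀ x ∈ D, η ∈ N ({x} : Set B) := fun x hx => by
    obtain ⟨-, hne, -, dθ, -⟩ := hF x hx
    refine Leray_pt (f := f) (fun _ h => h.2) hne ?_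
    have := Submodule.sub_mem _ dθ (N_mono inter_subset_left hdθ)
    rwa [sub_sub_cancel] at this
  have key := Th.compare T₁ (asTh R hE f hf) Φ ?_ ?_ ?_ hD n ?_ ?_
  · have e1 : D ∩ id ⁻¹' D = D := inter_self D
    have e2 : E ∩ f ⁻¹' D = E := inter_eq_left.2 hm
    refine ⟨fun k hk a ha b hb db da hc => ?_, fun k hk c hc dc => ?_⟩
    · obtain ⟨⟨b', a'⟩, ⟨h1, h2⟩, h3, h4⟩ := key.1 k hk (b, a) ⟨hb, ha⟩
        ⟨(e1.symm ▸ db : dC b ∈ N (D ∩ id ⁻¹' D)),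
          (e1.symm ▸ da : sg b * η + dC a ∈ N (D ∩ id ⁻¹' D))⟩ (by
          obtain ⟨c, c1, c2⟩ := hc
          refine ⟨c, c1, ?_⟩
          change Φ (b, a) - dC c ∈ N (E ∩ f ⁻¹' D)
          rwa [hΦ, e2])
      exact ⟨a', h2, b', h1, (e1 ▸ h3 : b - dC b' ∈ N D),
        (e1 ▸ h4 : a - (sg b' * η + dC a') ∈ N D)⟩
    · obtain ⟨⟨b, a⟩, ⟨h1, h2⟩, ⟨h3, h4⟩, c', h5, h6⟩ := key.2 k hk c hc
        (e2.symm ▸ dc : dC c ∈ N (E ∩ f ⁻¹' D))
      refine ⟨a, h2, b, h1, (e1 ▸ h3 : dC b ∈ N D), (e1 ▸ h4 : sg b * η + dC a ∈ N D), c', h5, ?_⟩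
      change c - Φ (b, a) - dC c' ∈ N (E ∩ f ⁻¹' D) at h6
      rwa [hΦ, e2] at h6
  · rintro k ⟨b, a⟩ ⟨hb, ha⟩
    change Φ (b, a) ∈ DZ k
    rw [hΦ]
    exact Leray_deg hθ ha hb
  · rintro K ⟨b, a⟩ ⟨hb, ha⟩
    change Φ (b, a) ∈ N (E ∩ f ⁻¹' K)
    have c : ContinuousOn f (E ∩ f ⁻¹' K) := hf.mono inter_subset_left
    have t : MapsTo f (E ∩ f ⁻¹' K) (D ∩ id ⁻¹' K) := fun _ h => ⟨hm h.1, h.2⟩
    rw [hΦ]
    exact Submodule.add_mem _ (N_pullC c t ha) (N_mul_right (N_pullC c t hb) _)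
  · rintro ⟨b, a⟩
    change Φ (dC b, sg b * η + dC a) - dC (Φ (b, a)) ∈ N (E ∩ f ⁻¹' univ)
    have : Φ (dC b, sg b * η + dC a) - dC (Φ (b, a)) =
        -(pullC f (sg b) * (dC θ - pullC f η)) := by
      rw [hΦ, hΦ, map_add, map_add, map_mul, dC_mul, dC_pullC, dC_pullC, sg_pullC, mul_sub]
      abel
    rw [this]
    exact Submodule.neg_mem _ (N_mul_left _ (N_mono inter_subset_left hdθ))
  · rintro x hx k - ⟨b, a⟩ ⟨hb, ha⟩ ⟨db, da⟩ ⟨c, c1, c2⟩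
    change Ch B R at a b
    change Ch Z R at c
    change dC b ∈ N (D ∩ id ⁻¹' {x}) at db
    change sg b * η + dC a ∈ N (D ∩ id ⁻¹' {x}) at da
    change Φ (b, a) - dC c ∈ N (E ∩ f ⁻¹' {x}) at c2
    rw [pt x hx] at db da
    rw [hΦ] at c2
    have da' : dC a ∈ N {x} := by
      have := Submodule.sub_mem _ da (N_mul_left (sg b) (ηpt x hx))
      rwa [add_sub_cancel_left] at this
    obtain ⟨⟨a', a1, a2⟩, b', b1, b2⟩ := Leray_inj (hf.mono inter_subset_left) (fun _ h => h.2) h0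
      hθ (hF x hx) ha hb da' db ⟨c, c1, c2⟩
    refine ⟨(b', a'), ⟨?_, a1⟩, ?_, ?_⟩
    · change b' ∈ DZ (k - 1 + -m)
      rwa [show k - 1 + -m = k - m - 1 by ring]
    · change b - dC b' ∈ N (D ∩ id ⁻¹' {x})
      rwa [pt x hx]
    · change a - (sg b' * η + dC a') ∈ N (D ∩ id ⁻¹' {x})
      rw [pt x hx, add_comm, ← sub_sub]
      exact Submodule.sub_mem _ a2 (N_mul_left _ (ηpt x hx))
  · intro x hx k hk c hc dc
    change Ch Z R at c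
    obtain ⟨a, ha, b, hb, da, db, c', c1, c2⟩ := Leray_surj f hk hθ (hF x hx) hc dc
    refine ⟨(b, a), ⟨hb, ha⟩, ⟨?_, ?_⟩, c', c1, ?_⟩
    · change dC b ∈ N (D ∩ id ⁻¹' {x})
      rw [db]; exact Submodule.zero_mem _
    · change sg b * η + dC a ∈ N (D ∩ id ⁻¹' {x})
      rw [pt x hx, da, add_zero]
      exact N_mul_left _ (ηpt x hx)
    · change c - Φ (b, a) - dC c' ∈ N (E ∩ f ⁻¹' {x})
      rwa [hΦ]

/-- untwisted form on classes -/
theorem leray_cls (hE : IsCompact E) (hD : IsCompact D) {f : Z → B} (hf : ContinuousOn f E)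
    (hm : MapsTo f E D) {m n : ℤ} (h0 : 0 < m) {θ : Ch Z R} (hθ : θ ∈ DZ m) (hdθ : dC θ ∈ N E)
    (hF : ∀ w ∈ D, FibOK (E ∩ f ⁻¹' {w}) m n θ) :
    (∀ k ≤ n + 1, ∀ a ∈ Hk D k, ∀ b ∈ Hk D (k - m),
      pull f hf hm a + pull f hf hm b * mk θ hdθ = 0 → a = 0 ∧ b = 0) ∧
    ∀ k ≤ n, ∀ c ∈ Hk (R := R) E k, ∃ a ∈ Hk D k, ∃ b ∈ Hk D (k - m),
      c = pull f hf hm a + pull f hf hm b * mk θ hdθ := by
  have key := leray hE hD hf hm h0 hθ (η := 0) (Submodule.zero_mem _)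
    (by rw [map_zero]; exact Submodule.zero_mem _) (by rwa [map_zero, sub_zero]) hF
  simp only [mul_zero, zero_add] at key
  refine ⟨?_, ?_⟩
  · rintro k hk _ ⟨a, da, ha, rfl⟩ _ ⟨b, db, hb, rfl⟩ e
    have d4 := (Leray_coc hf hm hdθ da db).2.2.2
    rw [← Leray_mk hf hm hdθ da db d4] at e
    obtain ⟨a', a1, b', b1, b2, a2⟩ := key.1 k hk a ha b hb db da
      ((mk_eq_zero_iff (Leray_deg hθ ha hb) d4).1 e)
    exact ⟨(mk_eq_zero_iff ha da).2 ⟨a', a1, a2⟩,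
      (mk_eq_zero_iff hb db).2 ⟨b', by rwa [sub_right_comm], b2⟩⟩
  · rintro k hk _ ⟨c, dc, hc, rfl⟩
    obtain ⟨a, ha, b, hb, db, da, c', -, c2⟩ := key.2 k hk c hc dc
    have d4 := (Leray_coc hf hm hdθ da db).2.2.2
    refine ⟨_, ⟨a, da, ha, rfl⟩, _, ⟨b, db, hb, rfl⟩, ?_⟩
    rw [← Leray_mk hf hm hdθ da db d4]
    exact (mk_eq_iff dc d4).2 ⟨c', c2⟩

end Pool.Agent.Lib.MP_d3d358_ag.AS
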