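import Pool.Agent.Lib.MP_d3d358_ag.AS.Circle
import Pool.Agent.Lib.MP_d3d358_ag.AS.Leray

set_option autoImplicit false

namespace Pool.Agent.Lib.MP_d3d358_ag.AS

open Topology Set

variable {Z : Type} [TopologicalSpace Z] {K : Set Z}

/-- the torus -/
abbrev Tor (ι : Type) := ι → UnitAddCircle

theorem torus_lin_apply {R : Type} [CommRing R] {ι : Type} [Fintype ι] (v : ι → HT R K)
    (m : ι → R) : (∑ i, (LinearMap.proj i : (ι → R) →ₗ[R] R).smulRight (v i)) m = ∑ i, m i • v i := by
  simp [LinearMap.sum_apply]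

/-- the algebra map given by a family of circle valued functions -/
noncomputable def lam (R : Type) [Field R] [CharZero R] {ι : Type} [Fintype ι]
    (c : ι → Z → UnitAddCircle) (hc : ∀ i, ContinuousOn (c i) K) :
    ExteriorAlgebra R (ι → R) →ₐ[R] HT R K :=
  ExteriorAlgebra.lift R ⟨∑ i, (LinearMap.proj i).smulRight (cls R (c i) (hc i)), fun m => by
    rw [torus_lin_apply]
    exact sq_one (Submodule.sum_mem _ fun i _ => Submodule.smul_mem _ _ (cls_mem (hc i)))⟩

section
variable {R : Type} [Field R] [CharZero R] {ι : Type} [Fintype ι]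

theorem lam_ι (c : ι → Z → UnitAddCircle) (hc : ∀ i, ContinuousOn (c i) K) (m : ι → R) :
    lam R c hc (ExteriorAlgebra.ι R m) = ∑ i, m i • cls R (c i) (hc i) := by
  rw [lam, ExteriorAlgebra.lift_ι_apply, torus_lin_apply]

theorem lam_ι_mem (c : ι → Z → UnitAddCircle) (hc : ∀ i, ContinuousOn (c i) K) (m : ι → R) :
    lam R c hc (ExteriorAlgebra.ι R m) ∈ Hk K 1 := by
  rw [lam_ι]
  exact Submodule.sum_mem _ fun i _ => Submodule.smul_mem _ _ (cls_mem (hc i))

theorem pull_lam {Z' : Type} [TopologicalSpace Z'] {K' : Set Z'} {f : Z' → Z}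
    (hf : ContinuousOn f K') (hm : MapsTo f K' K) (c : ι → Z → UnitAddCircle)
    (hc : ∀ i, ContinuousOn (c i) K) (x : ExteriorAlgebra R (ι → R)) :
    pull f hf hm (lam R c hc x) = lam R (fun i => c i ∘ f) (fun i => (hc i).comp hf hm) x := by
  refine AlgHom.congr_fun (φ₁ := (pull f hf hm).comp (lam R c hc))
    (ExteriorAlgebra.hom_ext (LinearMap.ext fun m => ?_)) x
  show pull f hf hm (lam R c hc (ExteriorAlgebra.ι R m)) = lam R _ _ (ExteriorAlgebra.ι R m)
  rw [lam_ι, lam_ι, map_sum]
  exact Finset.sum_congr rfl fun i _ => by rw [map_smul, pull_cls]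

theorem lam_map {κ : Type} [Fintype κ] (c : ι → Z → UnitAddCircle)
    (hc : ∀ i, ContinuousOn (c i) K) (c' : κ → Z → UnitAddCircle)
    (hc' : ∀ i, ContinuousOn (c' i) K) (J : (ι → R) →ₗ[R] (κ → R))
    (h : ∀ m, ∑ j, J m j • cls R (c' j) (hc' j) = ∑ i, m i • cls R (c i) (hc i))
    (x : ExteriorAlgebra R (ι → R)) : lam R c' hc' (ExteriorAlgebra.map J x) = lam R c hc x := by
  refine AlgHom.congr_fun (φ₁ := (lam R c' hc').comp (ExteriorAlgebra.map J))
    (ExteriorAlgebra.hom_ext (LinearMap.ext fun m => ?_)) x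
  show lam R c' hc' (ExteriorAlgebra.map J (ExteriorAlgebra.ι R m)) =
    lam R c hc (ExteriorAlgebra.ι R m)
  rw [ExteriorAlgebra.map_apply_ι, lam_ι, lam_ι, h]
end

theorem lam_mem {R : Type} [Field R] [CharZero R] {ι : Type} [Fintype ι]
    (c : ι → Z → UnitAddCircle) (hc : ∀ i, ContinuousOn (c i) K) (k : ℕ)
    {x : ExteriorAlgebra R (ι → R)} (hx : x ∈ ⋀[R]^k (ι → R)) :
    lam R c hc x ∈ Hk K (k : ℤ) := by
  induction hx using Submodule.pow_induction_on_right' with
  | algebraMap r =>
    rw [AlgHom.commutes, Algebra.algebraMap_eq_smul_one]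
    exact Submodule.smul_mem _ _ one_mem_Hk
  | add x y i _ _ h1 h2 => rw [map_add]; exact Submodule.add_mem _ h1 h2
  | mul_mem i x _ h m hm =>
    obtain ⟨m, rfl⟩ := hm
    rw [map_mul, Nat.cast_succ]
    exact mul_mem_Hk h (lam_ι_mem c hc m)

theorem torus_map_mem {R M M' : Type} [CommRing R] [AddCommGroup M] [Module R M] [AddCommGroup M']
    [Module R M'] (J : M →ₗ[R] M') (k : ℕ) {x : ExteriorAlgebra R M} (hx : x ∈ ⋀[R]^k M) :
    ExteriorAlgebra.map J x ∈ ⋀[R]^k M' := by
  induction hx using Submodule.pow_induction_on_right' with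
  | algebraMap r => rw [AlgHom.commutes]; exact Submodule.algebraMap_mem r
  | add x y i _ _ h1 h2 => rw [map_add]; exact Submodule.add_mem _ h1 h2
  | mul_mem i x _ h m hm =>
    obtain ⟨m, rfl⟩ := hm
    rw [map_mul, ExteriorAlgebra.map_apply_ι]
    exact Submodule.mul_mem_mul h (LinearMap.mem_range_self _ _)

theorem torus_prj_ne {Z R : Type} [CommRing R] {j k : ℤ} (h : j ≠ k) {a : Ch Z R}
    (ha : a ∈ DZ j) : prj k a = 0 :=
  Subtype.ext (funext fun l => by
    show (if (l.length : ℤ) = k + 1 then a.1 l else 0) = 0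
    split_ifs with e
    · exact ha l (by omega)
    · rfl)

/-- the pieces of the cohomology ring are independent -/
theorem Hk_indep {R : Type} [CommRing R] (s : Finset ℕ) (y : ℕ → HT R K)
    (hy : ∀ k : ℕ, y k ∈ Hk K (k : ℤ)) (h : ∑ k ∈ s, y k = 0) {k : ℕ} (hk : k ∈ s) : y k = 0 := by
  choose a ha hd e using hy
  have key : ∀ t : Finset ℕ, ∃ h', ∑ k ∈ t, y k = mk (∑ k ∈ t, a k) h' := fun t => by
    induction t using Finset.induction_on with
    | empty => exact ⟨by simp, by simp only [Finset.sum_empty]; exact (map_zero _).symm⟩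
    | insert j t hj ih =>
      obtain ⟨h', ih⟩ := ih
      simp only [Finset.sum_insert hj]
      have h2 : dC (a j + ∑ k ∈ t, a k) ∈ N K := by
        rw [map_add]; exact Submodule.add_mem _ (ha j) h'
      exact ⟨h2, by rw [mk_add (ha j) h', ih, e j]⟩
  obtain ⟨h', hs⟩ := key s
  have h0 : dC (0 : Ch Z R) ∈ N K := by simp
  have z0 : mk (0 : Ch Z R) h0 = 0 := map_zero _
  obtain ⟨c, hc⟩ := (mk_eq_iff h' h0).1 (by rw [← hs, h, z0])
  have hp := N_prj (k : ℤ) hc
  rw [sub_zero, map_sub, map_sum, Finset.sum_eq_single_of_mem k hk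
    (fun j _ hj => torus_prj_ne (by exact_mod_cast hj) (hd j)), prj_of_mem (hd k)] at hp
  rw [e k, ← z0, mk_eq_iff]
  refine ⟨prj (k - 1) c, ?_⟩
  rwa [sub_zero, dC_prj, sub_add_cancel]

/-- it is enough to test injectivity on homogeneous elements -/
theorem lam_injective {R : Type} [Field R] [CharZero R] {ι : Type} [Fintype ι]
    (c : ι → Z → UnitAddCircle) (hc : ∀ i, ContinuousOn (c i) K)
    (h : ∀ k : ℕ, ∀ x ∈ ⋀[R]^k (ι → R), lam R c hc x = 0 → x = 0) :
    Function.Injective (lam R c hc) := by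
  classical
  refine (injective_iff_map_eq_zero _).2 fun x hx => ?_
  have e := DirectSum.sum_support_decompose (fun i : ℕ => ⋀[R]^i (ι → R)) x
  rw [← e, map_sum] at hx
  rw [← e]
  refine Finset.sum_eq_zero fun k hk => h k _ (SetLike.coe_mem _) ?_
  exact Hk_indep _ _ (fun j => lam_mem c hc j (SetLike.coe_mem _)) hx hk

/-- `FibOK` along a continuous bijection -/
theorem FibOK.of_bij {Z Z' R : Type} [CommRing R] [MetricSpace Z] [MetricSpace Z'] {F : Set Z}
    {F' : Set Z'} (hF' : IsCompact F') (hp : IsPreconnected F') {f : Z' → Z}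
    (hf : ContinuousOn f F') (hb : BijOn f F' F) {m n : ℤ} {θ : Ch Z R} (h : FibOK F m n θ) :
    FibOK F' m n (pullC f θ) := by
  obtain ⟨-, ⟨x, hx⟩, hv, hd, hne, hsp⟩ := h
  obtain ⟨hi, hs⟩ := pull_bij (R := R) hF' hf hb
  have hd' : dC (pullC f θ) ∈ N F' := by rw [dC_pullC]; exact N_pullC hf hb.mapsTo hd
  obtain ⟨x', hx', -⟩ := hb.surjOn hx
  refine ⟨hp, ⟨x', hx'⟩, fun k h1 h2 h3 y hy => ?_, hd', fun h0 => hne (hi ?_), fun y hy => ?_⟩
  · obtain ⟨u, hu, rfl⟩ := hs k y hy
    rw [hv k h1 h2 h3 u hu, map_zero]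
  · rw [pull_mk f hf hb.mapsTo hd hd', h0, map_zero]
  · obtain ⟨u, hu, rfl⟩ := hs m y hy
    obtain ⟨c, rfl⟩ := hsp u hu
    exact ⟨c, by rw [map_smul, pull_mk f hf hb.mapsTo hd hd']⟩

/-- the algebra map of the torus -/
noncomputable abbrev torLam (R : Type) [Field R] [CharZero R] (ι : Type) [Fintype ι] :
    ExteriorAlgebra R (ι → R) →ₐ[R] HT R (univ : Set (Tor ι)) :=
  lam R (K := (univ : Set (Tor ι))) (fun i x => x i) fun i => (continuous_apply i).continuousOn

/-- the statement for one index type -/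
def TorOK (R : Type) [Field R] [CharZero R] (ι : Type) [Fintype ι] : Prop :=
  Function.Injective (torLam R ι) ∧
    ∀ k : ℕ, ∀ y ∈ Hk (R := R) (univ : Set (Tor ι)) (k : ℤ), ∃ x ∈ ⋀[R]^k (ι → R),
      torLam R ι x = y

section
variable {R : Type} [Field R] [CharZero R]

theorem torus_empty : TorOK R PEmpty := by
  refine ⟨lam_injective _ _ fun k x hx h => ?_, fun k y hy => ?_⟩
  · rcases k with _ | k
    · obtain ⟨r, rfl⟩ := Submodule.mem_one.1 hx
      rw [AlgHom.commutes, Algebra.algebraMap_eq_smul_one] at h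
      rw [smul_one_ne univ_nonempty h, map_zero]
    · have : LinearMap.range (ExteriorAlgebra.ι R : (PEmpty → R) →ₗ[R] _) = ⊥ :=
        LinearMap.range_eq_bot.2 (LinearMap.ext fun m => by rw [Subsingleton.elim m 0]; simp)
      have hx' : x ∈ LinearMap.range (ExteriorAlgebra.ι R : (PEmpty → R) →ₗ[R] _) ^ (k + 1) := hx
      rw [pow_succ, this, Submodule.mul_bot] at hx'
      exact hx'
  · rcases k with _ | k
    · obtain ⟨c, rfl⟩ := Hk_zero Set.subsingleton_of_subsingleton.isPreconnected hy
      exact ⟨algebraMap R _ c, Submodule.algebraMap_mem c, by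
        rw [AlgHom.commutes, Algebra.algebraMap_eq_smul_one]⟩
    · exact ⟨0, Submodule.zero_mem _, by
        rw [map_zero, van_finite (Set.toFinite _) (by omega) y hy]⟩

theorem torus_equiv {α β : Type} [Fintype α] [Fintype β] (e : α ≃ β) (h : TorOK R α) :
    TorOK R β := by
  have hg : Continuous fun (x : Tor β) (a : α) => x (e a) := by fun_prop
  have hb : BijOn (fun (x : Tor β) (a : α) => x (e a)) univ univ :=
    bijOn_univ.2 (Equiv.arrowCongr e.symm (Equiv.refl UnitAddCircle)).bijective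
  obtain ⟨hi, hs⟩ := pull_bij (R := R) isCompact_univ hg.continuousOn hb
  have key : ∀ x, torLam R β (ExteriorAlgebra.map (LinearMap.funLeft R R e.symm) x) =
      pull _ hg.continuousOn hb.mapsTo (torLam R α x) := fun x => by
    rw [pull_lam]
    refine lam_map _ _ _ _ _ (fun m => ?_) x
    rw [← e.sum_comp]
    exact Finset.sum_congr rfl fun a _ => by rw [LinearMap.funLeft_apply, e.symm_apply_apply]; rfl
  refine ⟨(injective_iff_map_eq_zero _).2 fun x hx => ?_, fun k y hy => ?_⟩
  · have e1 : ExteriorAlgebra.map (LinearMap.funLeft R R e.symm)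
        (ExteriorAlgebra.map (LinearMap.funLeft R R e) x) = x := by
      rw [← AlgHom.comp_apply, ExteriorAlgebra.map_comp_map, ← LinearMap.funLeft_comp,
        e.self_comp_symm]
      exact AlgHom.congr_fun ExteriorAlgebra.map_id x
    rw [← e1, key] at hx
    rw [← e1, h.1 ((hi (hx.trans (map_zero _).symm)).trans (map_zero _).symm), map_zero]
  · obtain ⟨u, hu, rfl⟩ := hs k y hy
    obtain ⟨x, hx, rfl⟩ := h.2 k u hu
    exact ⟨_, torus_map_mem _ k hx, key x⟩

/-- extension by zero -/
def torusJ (R α : Type) [Field R] : (α → R) →ₗ[R] (Option α → R) where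
  toFun m o := o.elim 0 m
  map_add' m m' := funext fun o => by cases o <;> simp
  map_smul' c m := funext fun o => by cases o <;> simp

/-- the new generator -/
def torusE (R α : Type) [Field R] : Option α → R := fun o => o.elim 1 fun _ => 0

theorem torus_split {α : Type} [Fintype α] (k : ℕ) {x : ExteriorAlgebra R (Option α → R)}
    (hx : x ∈ ⋀[R]^k (Option α → R)) : ∃ a b, torLam R α a ∈ Hk univ (k : ℤ) ∧
      torLam R α b ∈ Hk univ ((k : ℤ) - 1) ∧ x = ExteriorAlgebra.map (torusJ R α) a +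
        ExteriorAlgebra.map (torusJ R α) b * ExteriorAlgebra.ι R (torusE R α) := by
  induction hx using Submodule.pow_induction_on_right' with
  | algebraMap r =>
    exact ⟨algebraMap R _ r, 0, lam_mem _ _ 0 (Submodule.algebraMap_mem r), by simp, by simp⟩
  | add x y i _ _ h1 h2 =>
    obtain ⟨a, b, ha, hb, rfl⟩ := h1
    obtain ⟨a', b', ha', hb', rfl⟩ := h2
    refine ⟨a + a', b + b', ?_, ?_, ?_⟩
    · rw [map_add]; exact Submodule.add_mem _ ha ha'
    · rw [map_add]; exact Submodule.add_mem _ hb hb'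
    · rw [map_add, map_add, add_mul]; abel
  | mul_mem i x _ h m hm =>
    obtain ⟨m, rfl⟩ := hm
    obtain ⟨a, b, ha, hb, rfl⟩ := h
    have em : m = torusJ R α (fun i => m (some i)) + m none • torusE R α :=
      funext fun o => by cases o <;> simp [torusJ, torusE]
    refine ⟨a * ExteriorAlgebra.ι R fun i => m (some i),
      m none • a - b * ExteriorAlgebra.ι R fun i => m (some i), ?_, ?_, ?_⟩
    · rw [map_mul, Nat.cast_succ]; exact mul_mem_Hk ha (lam_ι_mem _ _ _)
    · rw [map_sub, map_smul, map_mul, Nat.cast_succ, add_sub_cancel_right]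
      refine Submodule.sub_mem _ (Submodule.smul_mem _ _ ha) ?_
      have := mul_mem_Hk hb (lam_ι_mem (R := R) (fun i (x : Tor α) => x i)
        (fun i => (continuous_apply i).continuousOn) fun i => m (some i))
      rwa [sub_add_cancel] at this
    · have sw := eq_neg_of_add_eq_zero_left (ExteriorAlgebra.ι_add_mul_swap (R := R) (torusE R α)
        (torusJ R α fun i => m (some i)))
      have sq := ExteriorAlgebra.ι_sq_zero (R := R) (torusE R α)
      conv_lhs => rw [em]
      simp only [map_add, map_smul, map_sub, map_mul, ExteriorAlgebra.map_apply_ι, add_mul,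
        mul_add, sub_mul, mul_assoc, mul_smul_comm, smul_mul_assoc, sw, sq, mul_neg, mul_zero, add_zero]
      abel

theorem torus_option {α : Type} [Fintype α] (h : TorOK R α) : TorOK R (Option α) := by
  have hf : Continuous fun (x : Tor (Option α)) (a : α) => x (some a) := by fun_prop
  have hg : Continuous fun x : Tor (Option α) => x none := continuous_apply _
  have hd : dC (pullC (fun x : Tor (Option α) => x none) (thetaC R)) ∈ N univ := by
    rw [dC_pullC]; exact N_pullC hg.continuousOn (mapsTo_univ _ _) (thetaC_coc R)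
  have hF : ∀ n : ℤ, ∀ w ∈ (univ : Set (Tor α)),
      FibOK (univ ∩ (fun (x : Tor (Option α)) (a : α) => x (some a)) ⁻¹' {w}) 1 n
        (pullC (fun x : Tor (Option α) => x none) (thetaC R)) := fun n w _ => by
    have hs : Continuous fun (t : UnitAddCircle) (o : Option α) => o.elim t w :=
      continuous_pi fun o => by cases o <;> simp only [Option.elim] <;> fun_prop
    have hr : univ ∩ (fun (x : Tor (Option α)) (a : α) => x (some a)) ⁻¹' {w} =
        range fun (t : UnitAddCircle) (o : Option α) => o.elim t w := by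
      ext x
      constructor
      · rintro ⟨-, rfl⟩
        exact ⟨x none, funext fun o => by cases o <;> rfl⟩
      · rintro ⟨t, rfl⟩
        exact ⟨trivial, rfl⟩
    rw [hr]
    refine FibOK.of_bij (isCompact_range hs) (isPreconnected_range hs) hg.continuousOn
      ⟨mapsTo_univ _ _, ?_, fun t _ => ⟨_, ⟨t, rfl⟩, rfl⟩⟩ (circle_fib R n)
    rintro _ ⟨s, rfl⟩ _ ⟨t, rfl⟩ e
    have : s = t := e
    rw [this]
  have L := fun n : ℤ => leray_cls isCompact_univ isCompact_univ hf.continuousOn (mapsTo_univ _ _)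
    one_pos (pullC_mem _ (thetaC_mem R)) hd (hF n)
  have k1 : ∀ x, torLam R (Option α) (ExteriorAlgebra.map (torusJ R α) x) =
      pull _ hf.continuousOn (mapsTo_univ _ _) (torLam R α x) := fun x => by
    rw [pull_lam]
    refine lam_map _ _ _ _ _ (fun m => ?_) x
    rw [Fintype.sum_option]
    simp only [torusJ, LinearMap.coe_mk, AddHom.coe_mk, Option.elim, zero_smul, zero_add]
    rfl
  have k2 : torLam R (Option α) (ExteriorAlgebra.ι R (torusE R α)) = mk _ hd := by
    rw [lam_ι, Fintype.sum_option]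
    simp only [torusE, Option.elim, zero_smul, one_smul, Finset.sum_const_zero, add_zero]
    exact pull_mk _ _ _ _ _
  refine ⟨lam_injective _ _ fun k x hx h0 => ?_, fun k y hy => ?_⟩
  · obtain ⟨a, b, ha, hb, rfl⟩ := torus_split k hx
    rw [map_add, map_mul, k1, k1, k2] at h0
    obtain ⟨a0, b0⟩ := (L k).1 k (by omega) _ ha _ hb h0
    rw [h.1 (a0.trans (map_zero _).symm), h.1 (b0.trans (map_zero _).symm)]
    simp
  · obtain ⟨a, ha, b, hb, rfl⟩ := (L k).2 k le_rfl y hy
    obtain ⟨a, ha', rfl⟩ := h.2 k a ha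
    rcases k with _ | k
    · rw [Hk_neg (by omega) hb, map_zero, zero_mul, add_zero]
      exact ⟨_, torus_map_mem _ _ ha', k1 a⟩
    · rw [Nat.cast_succ, add_sub_cancel_right] at hb
      obtain ⟨b, hb', rfl⟩ := h.2 k b hb
      refine ⟨ExteriorAlgebra.map (torusJ R α) a +
        ExteriorAlgebra.map (torusJ R α) b * ExteriorAlgebra.ι R (torusE R α),
        Submodule.add_mem _ (torus_map_mem _ _ ha') (Submodule.mul_mem_mul (torus_map_mem _ _ hb')
          (LinearMap.mem_range_self _ _)), ?_⟩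
      rw [map_add, map_mul, k1, k1, k2]
end

theorem torus (R : Type) [Field R] [CharZero R] (ι : Type) [Fintype ι] :
    Function.Injective (lam R (K := (univ : Set (Tor ι))) (fun i x => x i)
      fun i => (continuous_apply i).continuousOn) ∧
    ∀ k : ℕ, ∀ y ∈ Hk (R := R) (univ : Set (Tor ι)) (k : ℤ), ∃ x ∈ ⋀[R]^k (ι → R),
      lam R (fun i x => x i) (fun i => (continuous_apply i).continuousOn) x = y :=
  Fintype.induction_empty_option (P := fun ι _ => TorOK R ι)
    (fun α _ _ e h => @torus_equiv R _ _ α _ (Fintype.ofEquiv _ e.symm) _ e h) torus_empty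
    (fun _ _ h => torus_option h) ι

end Pool.Agent.Lib.MP_d3d358_ag.AS
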