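import Pool.Agent.Lib.MP_d3d358_ag.AS.AbsA

/-! The algebraic obstruction for abstract cohomology rings. -/

set_option autoImplicit false

namespace Pool.Agent.Lib.MP_d3d358_ag.AS

open ExteriorAlgebra Orb

/-- what is known about the image `S` of the cohomology of the fourfold in a ring `A` -/
structure KData (A : Type) [Ring A] [Algebra ℚ A] (S : ℤ → Submodule ℚ A) where
  β : EN →ₐ[ℚ] A
  tw : V →ₗ[ℚ] A
  mul_mem : ∀ p q, ∀ a ∈ S p, ∀ b ∈ S q, a * b ∈ S (p + q)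
  β_mem : ∀ k : ℕ, ∀ u ∈ ⋀[ℚ]^k (V × V), (∀ s, act s u = u) → β u ∈ S k
  tw_mem : ∀ v, tw v ∈ S 3
  p1 : ∀ x ∈ ⋀[ℚ]^2 V, ∀ v w, β (tl x) * tw v * tw w = -β (tl x * push (ι ℚ v * ι ℚ w))
  p2 : ∀ x ∈ ⋀[ℚ]^2 V, ∀ v, ∀ u ∈ ⋀[ℚ]^3 (V × V), β (tl x) * tw v * β u = 0
  p3 : ∀ x ∈ ⋀[ℚ]^2 V, ∀ v, ∀ u ∈ ⋀[ℚ]^3 (V × V), β (tl x) * β u * tw v = 0
  top : β (mon eN FN) ≠ 0
  span : ∀ a ∈ S 3, ∃ u ∈ ⋀[ℚ]^3 (V × V), (∀ s, act s u = u) ∧ ∃ v, a = β u + tw v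

section helpers

variable {A A' : Type} [Ring A] [Algebra ℚ A] [Ring A'] [Algebra ℚ A']
  {S : ℤ → Submodule ℚ A} {S' : ℤ → Submodule ℚ A'}

/-- the class of degree three with coordinates `y` -/
noncomputable def KData.cls (D : KData A S) (y : Fin 4 ⊕ Fin 4 → ℚ) : A :=
  D.β (uu (absSgn fun k => y (.inr k))) + D.tw fun k => y (.inl k)

theorem KData.cls_mem (D : KData A S) (y : Fin 4 ⊕ Fin 4 → ℚ) : D.cls y ∈ S 3 :=
  Submodule.add_mem _ (D.β_mem 3 _ (absA_uu_mem _) (absA_uu_inv _)) (D.tw_mem _)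

theorem KData.cls_onto (D : KData A S) {a : A} (ha : a ∈ S 3) : ∃ y, a = D.cls y := by
  obtain ⟨u, hu, hs, v, rfl⟩ := D.span a ha
  obtain ⟨α, rfl⟩ := inv3 u hu hs
  refine ⟨Sum.elim v (absSgn α), ?_⟩
  change _ = D.β (uu (absSgn (absSgn α))) + D.tw v
  rw [absSgn_sgn]; rfl

theorem KData.cls_mul (D : KData A S) (c : Fin 6 → ℚ) (y y' : Fin 4 ⊕ Fin 4 → ℚ) :
    D.β (tl (absXs c)) * D.cls y * D.cls y' =
      (6 * (y ⬝ᵥ (NoIso.wX (-3 * 1 ^ 2) (-1 ^ 2) c).mulVec y')) • D.β (mon eN FN) := by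
  simp only [KData.cls, mul_add, add_mul]
  rw [D.p1 _ (absXs_mem c), D.p2 _ (absXs_mem c) _ _ (absA_uu_mem _),
    D.p3 _ (absXs_mem c) _ _ (absA_uu_mem _), ← map_mul, ← map_mul, absXs_uu, absXs_push, map_smul,
    map_smul, add_zero, zero_add, ← neg_smul, ← add_smul]
  congr 1
  simp only [NoIso.wX, Matrix.fromBlocks_mulVec, Matrix.zero_mulVec, add_zero, zero_add,
    Matrix.smul_mulVec, dotProduct, Fintype.sum_sum_type, Sum.elim_inl, Sum.elim_inr,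
    Pi.smul_apply, smul_eq_mul, Function.comp_def, Fin.sum_univ_four]
  ring

theorem KData.inj (D : KData A S) {c d : ℚ} (h : c • D.β (mon eN FN) = d • D.β (mon eN FN)) :
    c = d := smul_left_injective ℚ D.top h

theorem KData.ex_fun (D : KData A S) (k l : Fin 4) : ∃ L : A →ₗ[ℚ] ℚ, ∀ i j : Fin 4,
    L (D.β (tl (m2 i j))) = 6 * (sg i j k l : ℚ) := by
  obtain ⟨T, hT⟩ := Module.Projective.exists_dual_eq_one ℚ D.top
  refine ⟨(1 / 3 : ℚ) • T ∘ₗ LinearMap.mulRight ℚ (D.β (push (ι ℚ (eA k) * ι ℚ (eA l)))),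
    fun i j => ?_⟩
  simp only [LinearMap.smul_apply, LinearMap.comp_apply, LinearMap.mulRight_apply, ← map_mul,
    absA_push0, map_smul, hT, smul_eq_mul]
  ring

/-- the graph of `G k` -/
def AbsRel (G : ∀ k, S k ≃ₗ[ℚ] S' k) (k : ℤ) (a : A) (a' : A') : Prop :=
  ∃ h : a ∈ S k, (G k ⟨a, h⟩).1 = a'

variable {G : ∀ k, S k ≃ₗ[ℚ] S' k}

theorem AbsRel.uniq {k : ℤ} {a : A} {b b' : A'} (h : AbsRel G k a b) (h' : AbsRel G k a b') :
    b = b' := h.2.symm.trans h'.2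

theorem AbsRel.add {k : ℤ} {a b : A} {a' b' : A'} (h : AbsRel G k a a') (h' : AbsRel G k b b') :
    AbsRel G k (a + b) (a' + b') := by
  obtain ⟨h, rfl⟩ := h
  obtain ⟨h', rfl⟩ := h'
  exact ⟨Submodule.add_mem _ h h', congrArg Subtype.val ((G k).map_add ⟨a, h⟩ ⟨b, h'⟩)⟩

theorem AbsRel.smul {k : ℤ} {a : A} {a' : A'} (h : AbsRel G k a a') (c : ℚ) :
    AbsRel G k (c • a) (c • a') := by
  obtain ⟨h, rfl⟩ := h
  exact ⟨Submodule.smul_mem _ c h, congrArg Subtype.val ((G k).map_smul c ⟨a, h⟩)⟩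

theorem AbsRel.mul (D : KData A S)
    (hm : ∀ p q (a : S p) (b : S q) (h : a.1 * b.1 ∈ S (p + q)),
      (G (p + q) ⟨a.1 * b.1, h⟩).1 = (G p a).1 * (G q b).1)
    {p q r : ℤ} (e : p + q = r) {a b : A} {a' b' : A'} (h : AbsRel G p a a')
    (h' : AbsRel G q b b') : AbsRel G r (a * b) (a' * b') := by
  subst e
  obtain ⟨h, rfl⟩ := h
  obtain ⟨h', rfl⟩ := h'
  exact ⟨D.mul_mem _ _ _ h _ h', hm p q ⟨a, h⟩ ⟨b, h'⟩ _⟩

theorem abs_hodge (D : KData A S) (D' : KData A' S') (G : ∀ k, S k ≃ₗ[ℚ] S' k)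
    {z : Fin 3 → ℂ} (hz : AlgebraicIndependent ℚ z) (Q : Matrix (Fin 2) (Fin 4) ℂ)
    (hQ : Q * (!![1, z 0, 0, z 1; 0, z 1, 5, z 2] : Matrix (Fin 2) (Fin 4) ℂ).transpose = 0) (t : ℂ)
    (x : Fin 4 → Fin 4 → S 2)
    (hx : ∀ i j, (x i j).1 = D.β (tl (ι ℚ (Pi.single i 1) * ι ℚ (Pi.single j 1))))
    (h : ∀ L : A' →ₗ[ℚ] ℚ,
      ∑ i, ∑ j, (!![1, z 0, 0, z 1; 0, z 1, 5, z 2] : Matrix (Fin 2) (Fin 4) ℂ) 0 i
        * (!![1, z 0, 0, z 1; 0, z 1, 5, z 2] : Matrix (Fin 2) (Fin 4) ℂ) 1 j * (L (G 2 (x i j)).1 : ℂ)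
      = t * ∑ i, ∑ j, Q 0 i * Q 1 j
        * (L (D'.β (tl (ι ℚ (Pi.single i 1) * ι ℚ (Pi.single j 1)))) : ℂ)) :
    ∃ τ : ℚ, ∀ c : Fin 6 → ℚ, 5 * c 0 + c 5 = 0 →
      AbsRel G 2 (D.β (tl (absXs c))) (τ • D'.β (tl (absXs (NoIso.st c)))) := by
  simp only [absA_single] at hx h
  have q0 : ∀ a, Q a 0 = -(z 0 * Q a 1) - z 1 * Q a 3 := fun a => by
    have := congrFun (congrFun hQ a) 0
    simp [Matrix.mul_apply, Fin.sum_univ_four] at this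
    linear_combination this
  have q2 : ∀ a, Q a 2 = -(z 1 * Q a 1 + z 2 * Q a 3) / 5 := fun a => by
    have := congrFun (congrFun hQ a) 1
    simp [Matrix.mul_apply, Fin.sum_univ_four] at this
    linear_combination this / 5
  obtain ⟨u, hu⟩ : ∃ u : ℂ, u = -(t * (Q 0 1 * Q 1 3 - Q 0 3 * Q 1 1)) / 5 := ⟨_, rfl⟩
  have x0 : ∀ i, x i i = 0 := fun i => Subtype.ext (by rw [hx, absA_m2_self]; simp)
  have xn : ∀ i j, x j i = -x i j := fun i j => Subtype.ext (by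
    rw [Submodule.coe_neg, hx, hx, absA_m2_swap]; simp)
  obtain ⟨L0, h0⟩ := D'.ex_fun 0 2
  obtain ⟨L1, h1⟩ := D'.ex_fun 1 3
  obtain ⟨τ, g02, g12, g01, g03, g13⟩ := hodge_abs hz (G 2 (x 0 1)).1 (G 2 (x 0 2)).1
    (G 2 (x 0 3)).1 (G 2 (x 1 2)).1 (G 2 (x 1 3)).1 (G 2 (x 2 3)).1 (D'.β (tl (m2 0 1)))
    (D'.β (tl (m2 0 2))) (D'.β (tl (m2 0 3))) (D'.β (tl (m2 1 2))) (D'.β (tl (m2 1 3)))
    (D'.β (tl (m2 2 3))) u (fun L => by
      have k := h L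
      rw [absA_six (fun i j => (L (G 2 (x i j)).1 : ℂ)) (fun i => by simp [x0])
          (fun i j => by simp [xn i j]),
        absA_six (fun i j => (L (D'.β (tl (m2 i j))) : ℂ)) (fun i => by simp [absA_m2_self])
          (fun i j => by rw [absA_m2_swap]; simp), q0 0, q0 1, q2 0, q2 1] at k
      simp at k
      rw [hu]
      push_cast
      linear_combination k) L0 L1
    ((h0 0 1).trans (by decide +kernel)) ((h0 0 2).trans (by decide +kernel))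
    ((h0 0 3).trans (by decide +kernel)) ((h0 1 2).trans (by decide +kernel))
    ((h0 1 3).trans (by decide +kernel)) ((h0 2 3).trans (by decide +kernel))
    ((h1 0 1).trans (by decide +kernel)) ((h1 0 2).trans (by decide +kernel))
    ((h1 0 3).trans (by decide +kernel)) ((h1 1 2).trans (by decide +kernel))
    ((h1 1 3).trans (by decide +kernel)) ((h1 2 3).trans (by decide +kernel))
  have r : ∀ i j : Fin 4, AbsRel G 2 (D.β (tl (m2 i j))) (G 2 (x i j)).1 := fun i j =>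
    ⟨hx i j ▸ (x i j).2, congrArg (fun y => (G 2 y).1) (Subtype.ext (hx i j).symm)⟩
  refine ⟨τ, fun c hc => ?_⟩
  have c5 : c 5 = -5 * c 0 := by linarith
  have k := ((((((r 0 1).smul (c 0)).add ((r 0 2).smul (c 1))).add ((r 0 3).smul (c 2))).add
    ((r 1 2).smul (c 3))).add ((r 1 3).smul (c 4))).add ((r 2 3).smul (c 5))
  rw [eq_add_of_sub_eq g01, g02, g12, g03, g13] at k
  convert k using 1
  · simp only [absXs, map_add, map_smul]; rfl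
  · simp only [absXs, map_add, map_smul, NoIso.st, c5]
    simp
    module

end helpers

theorem abs_no_iso {A A' : Type} [Ring A] [Algebra ℚ A] [Ring A'] [Algebra ℚ A']
    {S : ℤ → Submodule ℚ A} {S' : ℤ → Submodule ℚ A'} (D : KData A S) (D' : KData A' S')
    (G : ∀ k, S k ≃ₗ[ℚ] S' k)
    (hm : ∀ p q (a : S p) (b : S q) (h : a.1 * b.1 ∈ S (p + q)),
      (G (p + q) ⟨a.1 * b.1, h⟩).1 = (G p a).1 * (G q b).1)
    (hpt : ∀ h, (G 8 ⟨D.β (mon eN FN), h⟩).1 = D'.β (mon eN FN) ∨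
      (G 8 ⟨D.β (mon eN FN), h⟩).1 = -D'.β (mon eN FN))
    {z : Fin 3 → ℂ} (hz : AlgebraicIndependent ℚ z) (Q : Matrix (Fin 2) (Fin 4) ℂ)
    (hQ : Q * (!![1, z 0, 0, z 1; 0, z 1, 5, z 2] : Matrix (Fin 2) (Fin 4) ℂ).transpose = 0) (t : ℂ)
    (x : Fin 4 → Fin 4 → S 2)
    (hx : ∀ i j, (x i j).1 = D.β (tl (ι ℚ (Pi.single i 1) * ι ℚ (Pi.single j 1))))
    (h : ∀ L : A' →ₗ[ℚ] ℚ,
      ∑ i, ∑ j, (!![1, z 0, 0, z 1; 0, z 1, 5, z 2] : Matrix (Fin 2) (Fin 4) ℂ) 0 i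
        * (!![1, z 0, 0, z 1; 0, z 1, 5, z 2] : Matrix (Fin 2) (Fin 4) ℂ) 1 j * (L (G 2 (x i j)).1 : ℂ)
      = t * ∑ i, ∑ j, Q 0 i * Q 1 j
        * (L (D'.β (tl (ι ℚ (Pi.single i 1) * ι ℚ (Pi.single j 1)))) : ℂ)) : False := by
  obtain ⟨τ, hτ⟩ := abs_hodge D D' G hz Q hQ t x hx h
  have hF : D.β (mon eN FN) ∈ S 8 := by
    have := D.β_mem 8 (mon eN FN) (by
      have e : mon eN FN = ιMulti ℚ 8 (fun i : Fin 8 => eN i) := by
        rw [ιMulti_apply]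
        simp [List.ofFn_succ, mon, FN]
      rw [e]
      exact ιMulti_range ℚ 8 ⟨_, rfl⟩) absA_act_F
    exact this
  obtain ⟨ε, hε, rF⟩ : ∃ ε : ℚ, (ε = 1 ∨ ε = -1) ∧
      AbsRel G 8 (D.β (mon eN FN)) (ε • D'.β (mon eN FN)) := by
    rcases hpt hF with e | e
    · exact ⟨1, Or.inl rfl, hF, by rw [e, one_smul]⟩
    · exact ⟨-1, Or.inr rfl, hF, by rw [e, neg_smul, one_smul]⟩
  have w := hτ ![0, 1, 0, 0, 1, 0] (by simp)
  have e1 : absXs ![0, 1, 0, 0, 1, 0] = m2 0 2 + m2 1 3 := by simp [absXs]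
  have e2 : absXs (NoIso.st ![0, 1, 0, 0, 1, 0]) = (-1 : ℚ) • (m2 0 2 + m2 1 3) := by
    simp [absXs, NoIso.st, add_comm]
  rw [e1, e2, map_smul, map_smul, smul_smul] at w
  have w2 := AbsRel.mul D hm (r := 4) (by norm_num) w w
  have w4 := AbsRel.mul D hm (r := 8) (by norm_num) w2 w2
  simp only [smul_mul_assoc, mul_smul_comm, ← map_mul, four_eq, map_smul, smul_smul] at w4
  have k := w4.uniq (rF.smul 216)
  rw [smul_smul] at k
  have k4 : τ ^ 4 = ε := by have := D'.inj k; linarith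
  have hε1 : ε = 1 := by
    rcases hε with e | e
    · exact e
    · exfalso; rw [e] at k4; nlinarith [sq_nonneg (τ ^ 2)]
  subst hε1
  have hτ1 : τ = 1 ∨ τ = -1 := by
    have k3 : (τ - 1) * (τ + 1) * (τ ^ 2 + 1) = 0 := by linarith
    rcases mul_eq_zero.1 k3 with k5 | k5
    · rcases mul_eq_zero.1 k5 with k6 | k6
      · left; linarith
      · right; linarith
    · nlinarith [sq_nonneg τ]
  choose g hg using fun i : Fin 4 ⊕ Fin 4 =>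
    D'.cls_onto (G 3 ⟨D.cls (Pi.single i 1), D.cls_mem _⟩).2
  have r3 : ∀ i, AbsRel G 3 (D.cls (Pi.single i 1)) (D'.cls (g i)) := fun i => ⟨_, hg i⟩
  refine NoIso.no_matrix 1 1 τ one_ne_zero one_ne_zero hτ1 (Matrix.of g).transpose fun c hc => ?_
  ext i j
  have m := AbsRel.mul D hm (r := 8) (by norm_num)
    (AbsRel.mul D hm (r := 5) (by norm_num) (hτ c hc) (r3 i)) (r3 j)
  rw [smul_mul_assoc, smul_mul_assoc, D.cls_mul, D'.cls_mul, smul_smul] at m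
  have k' := m.uniq (rF.smul _)
  rw [smul_smul] at k'
  have k2 := D'.inj k'
  have e3 : NoIso.wX (-3 * 1 ^ 2) (-1 ^ 2) (NoIso.st c) = NoIso.wY (-3 * 1 ^ 2) (-1 ^ 2) c := by
    have : NoIso.st (NoIso.st c) = c := by funext i; fin_cases i <;> simp [NoIso.st]
    rw [NoIso.wX, NoIso.wY, this]
  rw [e3, Matrix.mulVec_single_one, single_one_dotProduct] at k2
  have e4 : ((Matrix.of g).transpose.transpose * (τ • NoIso.wY (-3 * 1 ^ 2) (-1 ^ 2) c) *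
      (Matrix.of g).transpose) i j = τ * (g i ⬝ᵥ (NoIso.wY (-3 * 1 ^ 2) (-1 ^ 2) c).mulVec (g j)) := by
    rw [Matrix.transpose_transpose, Matrix.mul_assoc, Matrix.smul_mul, Matrix.mul_smul,
      Matrix.smul_apply, smul_eq_mul]
    rfl
  rw [e4]
  change _ = 6 * NoIso.wX (-3 * 1 ^ 2) (-1 ^ 2) c i j * 1 at k2
  linarith

/-- averages of elements of degree two -/
theorem avg_two {u : EN} (hu : u ∈ ⋀[ℚ]^2 (V × V)) : ∃ c : Fin 4 → Fin 4 → ℚ,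
    ∑ s, act s u = ∑ i, ∑ j, c i j • tl (ι ℚ (Pi.single i 1) * ι ℚ (Pi.single j 1)) := by
  let Y : Submodule ℚ EN :=
    { carrier := {y | ∃ c : Fin 4 → Fin 4 → ℚ,
        y = ∑ i, ∑ j, c i j • tl (ι ℚ (Pi.single i 1) * ι ℚ (Pi.single j 1))}
      zero_mem' := ⟨0, by simp⟩
      add_mem' := by
        rintro _ _ ⟨c, rfl⟩ ⟨d, rfl⟩
        exact ⟨c + d, by simp only [Pi.add_apply, add_smul, Finset.sum_add_distrib]⟩
      smul_mem' := by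
        rintro a _ ⟨c, rfl⟩
        exact ⟨a • c, by simp only [Pi.smul_apply, smul_eq_mul, mul_smul, Finset.smul_sum]⟩ }
  have two : ∀ v w : V, tl (ι ℚ v * ι ℚ w) ∈ Y := fun v w => ⟨fun i j => v i * w j, by
    rw [iota_expand v, iota_expand w, Finset.sum_mul_sum]
    simp only [map_sum, smul_mul_smul_comm, map_smul, eA_single]⟩
  change _ ∈ Y
  rw [← ιMulti_span_fixedDegree] at hu
  induction hu using Submodule.span_induction with
  | mem x hx =>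
    obtain ⟨v, rfl⟩ := hx
    have e : ιMulti ℚ 2 v = ι ℚ (v 0) * ι ℚ (v 1) := by
      rw [ιMulti_apply]; simp [List.ofFn_succ]
    rw [e, absA_rey2]
    simp only [map_sub, map_add, map_smul]
    exact Y.sub_mem (Y.sub_mem (Y.add_mem (Y.smul_mem _ (two _ _)) (Y.smul_mem _ (two _ _)))
      (two _ _)) (two _ _)
  | zero => simp
  | add x y _ _ hx hy =>
    simp only [map_add, Finset.sum_add_distrib]
    exact Y.add_mem hx hy
  | smul c x _ hx =>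
    simp only [map_smul, ← Finset.smul_sum]
    exact Y.smul_mem _ hx

/-- eight independent classes: a dimension bound gives `span` -/
theorem span_of_bound {A : Type} [Ring A] [Algebra ℚ A] (β : EN →ₐ[ℚ] A) (tw : V →ₗ[ℚ] A)
    (S3 : Submodule ℚ A) (hβ : ∀ u ∈ ⋀[ℚ]^3 (V × V), (∀ s, act s u = u) → β u ∈ S3)
    (htw : ∀ v, tw v ∈ S3)
    (p1 : ∀ x ∈ ⋀[ℚ]^2 V, ∀ v w, β (tl x) * tw v * tw w = -β (tl x * push (ι ℚ v * ι ℚ w)))
    (p3 : ∀ x ∈ ⋀[ℚ]^2 V, ∀ v, ∀ u ∈ ⋀[ℚ]^3 (V × V), β (tl x) * β u * tw v = 0)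
    (top : β (mon eN FN) ≠ 0) (ρ : S3 →ₗ[ℚ] V)
    (hρ : ∀ a : S3, ρ a = 0 → ∃ u ∈ ⋀[ℚ]^3 (V × V), (∀ s, act s u = u) ∧ a.1 = β u) :
    ∀ a ∈ S3, ∃ u ∈ ⋀[ℚ]^3 (V × V), (∀ s, act s u = u) ∧ ∃ v, a = β u + tw v := by
  let f : V →ₗ[ℚ] V := ρ ∘ₗ tw.codRestrict S3 htw
  have hf : Function.Injective f := by
    rw [injective_iff_map_eq_zero]
    intro v hv
    obtain ⟨u, hu, -, e⟩ := hρ _ hv
    change tw v = β u at e
    have z : ∀ (c : Fin 6 → ℚ) (w : V), v ⬝ᵥ (NoIso.alt (NoIso.st c)).mulVec w = 0 := by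
      intro c w
      have k := p1 _ (absXs_mem c) v w
      rw [e, p3 _ (absXs_mem c) _ _ hu, absXs_push, map_smul, eq_comm, neg_eq_zero] at k
      have := (smul_eq_zero.1 k).resolve_right top
      linarith
    have z0 := z ![0, 0, 0, 0, 0, 1] ![0, 1, 0, 0]
    have z1 := z ![0, 0, 0, 0, 0, 1] ![1, 0, 0, 0]
    have z2 := z ![1, 0, 0, 0, 0, 0] ![0, 0, 0, 1]
    have z3 := z ![1, 0, 0, 0, 0, 0] ![0, 0, 1, 0]
    simp [NoIso.alt, NoIso.st, Matrix.mulVec, dotProduct, Fin.sum_univ_four] at z0 z1 z2 z3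
    funext i
    fin_cases i
    exacts [z0, z1, z2, z3]
  intro a ha
  obtain ⟨v, hv⟩ := LinearMap.injective_iff_surjective.1 hf (ρ ⟨a, ha⟩)
  obtain ⟨u, hu, hs, e⟩ := hρ (⟨a, ha⟩ - ⟨tw v, htw v⟩) (by rw [map_sub, ← hv]; exact sub_self _)
  exact ⟨u, hu, hs, v, eq_add_of_sub_eq e⟩

end Pool.Agent.Lib.MP_d3d358_ag.AS
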