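import Pool.Agent.Lib.MP_d3d358_ag.Orb.NoIso
import Pool.Agent.Lib.MP_d3d358_ag.NoIso

/-! Exterior algebra computations for the abstract obstruction. -/

set_option autoImplicit false

namespace Pool.Agent.Lib.MP_d3d358_ag.AS

open ExteriorAlgebra Orb

theorem absA_map_mem {M N : Type} [AddCommGroup M] [Module ℚ M] [AddCommGroup N] [Module ℚ N]
    (f : M →ₗ[ℚ] N) (k : ℕ) {x : ExteriorAlgebra ℚ M} (hx : x ∈ ⋀[ℚ]^k M) :
    map f x ∈ ⋀[ℚ]^k N := by
  rw [← ιMulti_span_fixedDegree] at hx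
  induction hx using Submodule.span_induction with
  | mem x hx =>
    obtain ⟨v, rfl⟩ := hx
    rw [map_apply_ιMulti]
    exact ιMulti_range ℚ k ⟨_, rfl⟩
  | zero => simp
  | add x y _ _ hx hy => rw [map_add]; exact Submodule.add_mem _ hx hy
  | smul c x _ hx => rw [map_smul]; exact Submodule.smul_mem _ _ hx

theorem absA_tl_mem (k : ℕ) {x : EA} (hx : x ∈ ⋀[ℚ]^k V) : tl x ∈ ⋀[ℚ]^k (V × V) := by
  simp only [tl, LinearMap.sum_apply, AlgHom.toLinearMap_apply]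
  exact Submodule.sum_mem _ fun a _ => absA_map_mem _ k hx

theorem absA_tl_inv (x : EA) (s : Equiv.Perm (Fin 3)) : act s (tl x) = tl x := by
  rw [tl_apply]; exact mem_R.1 (til x).2 s

theorem absA_mon_mem (l : List ℕ) : mon eA l ∈ ⋀[ℚ]^l.length V := by
  induction l with
  | nil => simp [exteriorPower, Submodule.one_eq_range]
  | cons a l ih =>
    rw [mon_cons, List.length_cons, exteriorPower, pow_succ']
    exact Submodule.mul_mem_mul ⟨_, rfl⟩ ih

theorem absA_m2_mem (i j : ℕ) : m2 i j ∈ ⋀[ℚ]^2 V := absA_mon_mem [i, j]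

theorem absA_uu_mem (α : Fin 4 → ℚ) : uu α ∈ ⋀[ℚ]^3 (V × V) := by
  refine Submodule.sum_mem _ fun k _ => Submodule.smul_mem _ _ (absA_tl_mem 3 ?_)
  have h : (yL k).length = 3 := by revert k; decide
  exact h ▸ absA_mon_mem (yL k)

theorem absA_uu_inv (α : Fin 4 → ℚ) (s : Equiv.Perm (Fin 3)) : act s (uu α) = uu α := by
  simp only [uu, map_sum, map_smul, absA_tl_inv]

theorem absA_act_F (s : Equiv.Perm (Fin 3)) : act s (mon eN FN) = mon eN FN := by
  have h := act_push s vol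
  rw [push_vol, map_smul] at h
  exact smul_right_injective _ (by norm_num : (3 : ℚ) ≠ 0) h

def absA_q (i j k l : Fin 4) : Pol :=
  pm (col (tilP [(1, [i.val, j.val])])) (pc (subL (pa 0) [k.val, l.val]) (col (subL (pd 0 1) FA)))

theorem absA_chk : ∀ i j k l : Fin 4,
    (okF FN (absA_q i j k l) && cf (absA_q i j k l) == 6 * sg i j k l) = true := by
  decide +kernel

theorem absA_push0 (i j k l : Fin 4) :
    tl (m2 i j) * push (ι ℚ (eA k) * ι ℚ (eA l)) = (18 * (sg i j k l : ℚ)) • mon eN FN := by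
  have hF : ∀ i ∈ FA, i < 4 := by decide
  have h1 : lt4 [(1, [i.val, j.val])] = true := by simp [lt4]
  have e : ι ℚ (eA k) * ι ℚ (eA l) = mon eA [k.val, l.val] := by simp [mon]
  have h0 : tl (m2 i j) * (map (p 0) (ι ℚ (eA k) * ι ℚ (eA l)) * map (p 0 - p 1) vol)
      = ((6 * sg i j k l : ℤ) : ℚ) • mon eN FN := by
    rw [e, vol_eq, map_mon _ _ (pa_ok 0) _ (by simp), map_mon _ _ (pd_ok 0 1) _ hF, m2, ← ev_one,
      tl_apply, til_ev _ h1, ← ev_col eN (tilP _), ← ev_col eN (subL (pd 0 1) FA), ← ev_pc,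
      ← ev_pm]
    exact ev_chk eN FN _ _ (absA_chk i j k l)
  have h : ∀ s : Equiv.Perm (Fin 3), tl (m2 i j) *
      act s (map (p 0) (ι ℚ (eA k) * ι ℚ (eA l)) * map (p 0 - p 1) vol)
      = ((6 * sg i j k l : ℤ) : ℚ) • mon eN FN := by
    intro s
    rw [← absA_tl_inv (m2 i j) s, ← map_mul, h0, map_smul, absA_act_F]
  simp only [push, mul_smul_comm, Finset.mul_sum, h, Finset.sum_const, Finset.card_univ,
    Fintype.card_perm, Fintype.card_fin]
  rw [← Nat.cast_smul_eq_nsmul ℚ, smul_smul, smul_smul]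
  congr 1
  push_cast
  norm_num [Nat.factorial]
  ring

theorem absA_push_add (v w : EA) : push (v + w) = push v + push w := by
  simp only [push, map_add, add_mul, Finset.sum_add_distrib, smul_add]

theorem absA_push_sum {J : Type} (t : Finset J) (f : J → EA) :
    push (∑ j ∈ t, f j) = ∑ j ∈ t, push (f j) := by
  classical
  induction t using Finset.induction_on with
  | empty => simp [push_zero]
  | insert a t ha ih => rw [Finset.sum_insert ha, Finset.sum_insert ha, absA_push_add, ih]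

theorem absA_push (i j : Fin 4) (v w : V) : tl (m2 i j) * push (ι ℚ v * ι ℚ w)
    = (∑ l, ∑ k, w l * (v k * (18 * (sg i j k l : ℚ)))) • mon eN FN := by
  rw [iota_expand v, iota_expand w]
  simp only [Finset.mul_sum, Finset.sum_mul, mul_smul_comm, smul_mul_assoc, absA_push_sum,
    push_smul, absA_push0, Finset.sum_smul, Finset.smul_sum, smul_smul, mul_assoc]

theorem absA_P01 (v w : V) : tl (m2 0 1) * push (ι ℚ v * ι ℚ w)
    = (18 * (v 2 * w 3 - v 3 * w 2)) • mon eN FN :=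
  (absA_push 0 1 v w).trans (by congr 1; simp [Fin.sum_univ_four, sg, nf, ins]; ring)
theorem absA_P02 (v w : V) : tl (m2 0 2) * push (ι ℚ v * ι ℚ w)
    = (18 * (v 3 * w 1 - v 1 * w 3)) • mon eN FN :=
  (absA_push 0 2 v w).trans (by congr 1; simp [Fin.sum_univ_four, sg, nf, ins]; ring)
theorem absA_P03 (v w : V) : tl (m2 0 3) * push (ι ℚ v * ι ℚ w)
    = (18 * (v 1 * w 2 - v 2 * w 1)) • mon eN FN :=
  (absA_push 0 3 v w).trans (by congr 1; simp [Fin.sum_univ_four, sg, nf, ins]; ring)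
theorem absA_P12 (v w : V) : tl (m2 1 2) * push (ι ℚ v * ι ℚ w)
    = (18 * (v 0 * w 3 - v 3 * w 0)) • mon eN FN :=
  (absA_push 1 2 v w).trans (by congr 1; simp [Fin.sum_univ_four, sg, nf, ins]; ring)
theorem absA_P13 (v w : V) : tl (m2 1 3) * push (ι ℚ v * ι ℚ w)
    = (18 * (v 2 * w 0 - v 0 * w 2)) • mon eN FN :=
  (absA_push 1 3 v w).trans (by congr 1; simp [Fin.sum_univ_four, sg, nf, ins]; ring)
theorem absA_P23 (v w : V) : tl (m2 2 3) * push (ι ℚ v * ι ℚ w)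
    = (18 * (v 0 * w 1 - v 1 * w 0)) • mon eN FN :=
  (absA_push 2 3 v w).trans (by congr 1; simp [Fin.sum_univ_four, sg, nf, ins]; ring)

/-- the two form with coordinates `c` -/
noncomputable def absXs (c : Fin 6 → ℚ) : EA :=
  c 0 • m2 0 1 + c 1 • m2 0 2 + c 2 • m2 0 3 + c 3 • m2 1 2 + c 4 • m2 1 3 + c 5 • m2 2 3

theorem absXs_mem (c : Fin 6 → ℚ) : absXs c ∈ ⋀[ℚ]^2 V := by
  unfold absXs
  repeat first
    | exact absA_m2_mem _ _
    | apply Submodule.add_mem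
    | apply Submodule.smul_mem

/-- signs -/
def absSgn (α : Fin 4 → ℚ) : Fin 4 → ℚ := ![α 0, -α 1, α 2, -α 3]

theorem absSgn_sgn (α : Fin 4 → ℚ) : absSgn (absSgn α) = α := by
  funext i; fin_cases i <;> simp [absSgn]

theorem absXs_push (c : Fin 6 → ℚ) (v w : V) : tl (absXs c) * push (ι ℚ v * ι ℚ w)
    = (18 * (v ⬝ᵥ (NoIso.alt (NoIso.st c)).mulVec w)) • mon eN FN := by
  simp only [absXs, map_add, map_smul, add_mul, smul_mul_assoc, absA_P01, absA_P02, absA_P03, absA_P12, absA_P13, absA_P23,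
    smul_smul, ← add_smul]
  congr 1
  simp [NoIso.alt, NoIso.st, Matrix.mulVec, dotProduct, Fin.sum_univ_four]
  ring

theorem absXs_uu (c : Fin 6 → ℚ) (α β : Fin 4 → ℚ) : tl (absXs c) * uu (absSgn α) * uu (absSgn β)
    = (-6 * (α ⬝ᵥ (NoIso.alt c).mulVec β)) • mon eN FN := by
  simp only [absXs, map_add, map_smul, add_mul, smul_mul_assoc, N01, N02, N03, N12, N13, N23,
    smul_smul, ← add_smul]
  congr 1
  simp [NoIso.alt, absSgn, Matrix.mulVec, dotProduct, Fin.sum_univ_four]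
  ring

theorem absA_six (f : Fin 4 → Fin 4 → ℂ) (h0 : ∀ i, f i i = 0) (hs : ∀ i j, f j i = -f i j)
    (P : Matrix (Fin 2) (Fin 4) ℂ) : ∑ i, ∑ j, P 0 i * P 1 j * f i j =
      f 0 1 * (P 0 0 * P 1 1 - P 0 1 * P 1 0) + f 0 2 * (P 0 0 * P 1 2 - P 0 2 * P 1 0)
      + f 0 3 * (P 0 0 * P 1 3 - P 0 3 * P 1 0) + f 1 2 * (P 0 1 * P 1 2 - P 0 2 * P 1 1)
      + f 1 3 * (P 0 1 * P 1 3 - P 0 3 * P 1 1) + f 2 3 * (P 0 2 * P 1 3 - P 0 3 * P 1 2) := by
  simp only [Fin.sum_univ_four, h0]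
  rw [hs 0 1, hs 0 2, hs 0 3, hs 1 2, hs 1 3, hs 2 3]
  ring

theorem absA_single (i j : Fin 4) :
    ι ℚ (Pi.single i 1 : V) * ι ℚ (Pi.single j 1 : V) = m2 i j := by
  simp [m2, mon, eA_single]

theorem absA_m2_self (i : ℕ) : m2 i i = 0 := by simp [m2, mon]

theorem absA_m2_swap (i j : ℕ) : m2 j i = -m2 i j := by
  simp only [m2, mon, List.map, List.prod_cons, List.prod_nil, mul_one]
  exact eq_neg_of_add_eq_zero_left (ι_add_mul_swap _ _)

theorem absA_core2 {A : Type} [Ring A] (a0 a1 b0 b1 c0 c1 d0 d1 : A) :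
    (a0 + b1) * (c0 + d1) + (a0 + (-b0 - b1)) * (c0 + (-d0 - d1)) + (a1 + b0) * (c1 + d0)
      + (a1 + (-b0 - b1)) * (c1 + (-d0 - d1)) + (-a0 - a1 + b0) * (-c0 - c1 + d0)
      + (-a0 - a1 + b1) * (-c0 - c1 + d1)
    = (a0 * c0 + a1 * c1 + (-a0 - a1) * (-c0 - c1)) + (a0 * c0 + a1 * c1 + (-a0 - a1) * (-c0 - c1))
      + ((b0 * d0 + b1 * d1 + (-b0 - b1) * (-d0 - d1))
        + (b0 * d0 + b1 * d1 + (-b0 - b1) * (-d0 - d1)))
      - (a0 * d0 + a1 * d1 + (-a0 - a1) * (-d0 - d1))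
      - (b0 * c0 + b1 * c1 + (-b0 - b1) * (-c0 - c1)) := by
  simp only [mul_add, add_mul, mul_sub, sub_mul, neg_mul, mul_neg]
  abel

theorem absA_tl2 (x y : V) : tl (ι ℚ x * ι ℚ y) =
    ι ℚ (p 0 x) * ι ℚ (p 0 y) + ι ℚ (p 1 x) * ι ℚ (p 1 y) + ι ℚ (p 2 x) * ι ℚ (p 2 y) := by
  simp [tl, Fin.sum_univ_three]

theorem absA_rey2 (w0 w1 : V × V) : ∑ s, act s (ι ℚ w0 * ι ℚ w1) =
    tl ((2 : ℚ) • (ι ℚ w0.1 * ι ℚ w1.1) + (2 : ℚ) • (ι ℚ w0.2 * ι ℚ w1.2)
      - ι ℚ w0.1 * ι ℚ w1.2 - ι ℚ w0.2 * ι ℚ w1.1) := by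
  have h : ∀ (s : Equiv.Perm (Fin 3)) (w : V × V),
      act s (ι ℚ w) = ι ℚ (p (s 0) w.1) + ι ℚ (p (s 1) w.2) := by
    intro s w
    rw [act, map_apply_ι, LinearMap.coprod_apply, map_add]
  simp only [map_mul, h]
  rw [sum_perm3 (fun a c => (ι ℚ (p a w0.1) + ι ℚ (p c w0.2)) * (ι ℚ (p a w1.1) + ι ℚ (p c w1.2)))]
  simp only [map_sub, map_add, two_smul, absA_tl2, p_two]
  exact absA_core2 _ _ _ _ _ _ _ _

end Pool.Agent.Lib.MP_d3d358_ag.AS
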