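import Pool.Agent.Lib.MP_d3d358_ag.AS.Defs

set_option autoImplicit false

namespace Pool.Agent.Lib.MP_d3d358_ag.AS

open Topology Set

variable (Z R : Type) [CommRing R]

def Ch0 : Submodule R (List Z → R) where
  carrier := {φ | φ [] = 0}
  zero_mem' := rfl
  add_mem' := fun {a b} ha hb => by simp_all
  smul_mem' := fun c a ha => by simp_all

def Ch : Type := Ch0 Z R
instance : AddCommGroup (Ch Z R) := Submodule.addCommGroup _
instance : Module R (Ch Z R) := Submodule.module _
variable {Z R}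

theorem Alg_d_nil (φ : List Z → R) : d φ [] = 0 := by simp [d]

theorem Alg_d_cons (φ : List Z → R) (x : Z) (l : List Z) :
    d φ (x :: l) = φ l - d (fun m => φ (x :: m)) l := by
  simp only [d, List.length_cons, Finset.sum_range_succ', List.eraseIdx_cons_succ,
    List.eraseIdx_cons_zero, pow_zero, one_mul, pow_succ, mul_neg, mul_one, neg_mul,
    Finset.sum_neg_distrib]
  ring

theorem Alg_cup_nil (φ ψ : List Z → R) : cup φ ψ [] = 0 := by simp [cup]

theorem Alg_cup_cons (φ ψ : List Z → R) (x : Z) (l : List Z) :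
    cup φ ψ (x :: l) = φ [x] * ψ (x :: l) + cup (fun m => φ (x :: m)) ψ l := by
  simp only [cup, List.length_cons, Finset.sum_range_succ', List.take_succ_cons,
    List.drop_succ_cons, List.take_zero, List.drop_zero]
  ring

theorem Alg_d_add (φ ψ : List Z → R) (l : List Z) :
    d (fun m => φ m + ψ m) l = d φ l + d ψ l := congrFun (d_add φ ψ) l

theorem Alg_d_mul (c : R) (φ : List Z → R) (l : List Z) :
    d (fun m => c * φ m) l = c * d φ l := congrFun (d_smul c φ) l

theorem Alg_d_sub (φ ψ : List Z → R) (l : List Z) :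
    d (fun m => φ m - ψ m) l = d φ l - d ψ l := by
  simp [d, mul_sub, Finset.sum_sub_distrib]

theorem Alg_d_neg (φ : List Z → R) (l : List Z) : d (fun m => -φ m) l = -d φ l := by
  simp [d]

theorem Alg_add_cup (φ φ' ψ : List Z → R) (l : List Z) :
    cup (fun m => φ m + φ' m) ψ l = cup φ ψ l + cup φ' ψ l := by
  simp [cup, add_mul, Finset.sum_add_distrib]

theorem Alg_sub_cup (φ φ' ψ : List Z → R) (l : List Z) :
    cup (fun m => φ m - φ' m) ψ l = cup φ ψ l - cup φ' ψ l := by
  simp [cup, sub_mul, Finset.sum_sub_distrib]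

theorem Alg_neg_cup (φ ψ : List Z → R) (l : List Z) :
    cup (fun m => -φ m) ψ l = -cup φ ψ l := by
  simp [cup]

theorem Alg_mul_cup (c : R) (φ ψ : List Z → R) (l : List Z) :
    cup (fun m => c * φ m) ψ l = c * cup φ ψ l := by
  simp [cup, Finset.mul_sum, mul_assoc]

theorem Alg_cup_add (φ ψ ψ' : List Z → R) (l : List Z) :
    cup φ (fun m => ψ m + ψ' m) l = cup φ ψ l + cup φ ψ' l := by
  simp [cup, mul_add, Finset.sum_add_distrib]

theorem Alg_cup_mul (c : R) (φ ψ : List Z → R) (l : List Z) :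
    cup φ (fun m => c * ψ m) l = c * cup φ ψ l := by
  simp [cup, Finset.mul_sum, mul_left_comm]

theorem Alg_fn_one (f : Z → R) (x : Z) : fn f [x] = f x := by simp [fn]

theorem Alg_fn_two (f : Z → R) (x y : Z) (l : List Z) : fn f (x :: y :: l) = 0 := by simp [fn]

theorem Alg_cup_zero {φ : List Z → R} (h : ∀ y m, φ (y :: m) = 0) (ψ : List Z → R) (l : List Z) :
    cup φ ψ l = 0 := by
  cases l with
  | nil => exact Alg_cup_nil _ _
  | cons x l =>
    refine Finset.sum_eq_zero fun i _ => ?_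
    rw [List.take_succ_cons, h, zero_mul]

theorem Alg_fn_cup (f : Z → R) (ψ : List Z → R) (x : Z) (l : List Z) :
    cup (fn f) ψ (x :: l) = f x * ψ (x :: l) := by
  rw [Alg_cup_cons, Alg_fn_one, Alg_cup_zero (fun y m => Alg_fn_two f x y m), add_zero]

theorem cup_assoc (a b c : List Z → R) : cup (cup a b) c = cup a (cup b c) := by
  funext l
  induction l generalizing a with
  | nil => simp [Alg_cup_nil]
  | cons x l ih =>
    simp only [Alg_cup_cons, Alg_cup_nil, Alg_add_cup, Alg_mul_cup]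
    rw [ih]; ring

theorem one_cup (a : List Z → R) (h : a [] = 0) : cup (fn 1) a = a := by
  funext l
  cases l with
  | nil => rw [Alg_cup_nil, h]
  | cons x l => rw [Alg_fn_cup]; simp

theorem Alg_cup_one (a : List Z → R) (x : Z) (l : List Z) :
    cup a (fn 1) (x :: l) = a (x :: l) := by
  induction l generalizing a x with
  | nil => rw [Alg_cup_cons, Alg_cup_nil, Alg_fn_one]; simp
  | cons y l ih => rw [Alg_cup_cons, ih, Alg_fn_two]; simp

theorem cup_one (a : List Z → R) (h : a [] = 0) : cup a (fn 1) = a := by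
  funext l
  cases l with
  | nil => rw [Alg_cup_nil, h]
  | cons x l => exact Alg_cup_one a x l

theorem Alg_dd (φ : List Z → R) (l : List Z) : d (d φ) l = 0 := by
  induction l generalizing φ with
  | nil => exact Alg_d_nil _
  | cons x l ih =>
    simp only [Alg_d_cons, Alg_d_sub]
    rw [ih]; ring

theorem Alg_leib (a b : List Z → R) (hb : b [] = 0) (l : List Z) :
    d (cup a b) l = cup (d a) b l - a [] * b l +
      cup (fun m => (-1) ^ (m.length + 1) * a m) (d b) l := by
  induction l generalizing a with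
  | nil => simp [Alg_d_nil, Alg_cup_nil, hb]
  | cons x l ih =>
    have e : (fun m : List Z => (-1 : R) ^ ((x :: m).length + 1) * a (x :: m)) =
        fun m => -((-1) ^ (m.length + 1) * a (x :: m)) := by
      funext m; rw [List.length_cons, pow_succ]; ring
    rw [Alg_cup_cons (fun m => (-1) ^ (m.length + 1) * a m), e, Alg_neg_cup]
    simp only [Alg_d_cons, Alg_cup_cons, Alg_d_add, Alg_d_mul, Alg_sub_cup, Alg_d_nil,
      List.length_cons, List.length_nil]
    rw [ih]; ring

theorem Alg_sg_cup (a b : List Z → R) (l : List Z) :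
    (-1) ^ (l.length + 1) * cup a b l =
      cup (fun m => (-1) ^ (m.length + 1) * a m) (fun m => (-1) ^ (m.length + 1) * b m) l := by
  induction l generalizing a with
  | nil => simp [Alg_cup_nil]
  | cons x l ih =>
    have e : (fun m : List Z => (-1 : R) ^ ((x :: m).length + 1) * a (x :: m)) =
        fun m => -((-1) ^ (m.length + 1) * a (x :: m)) := by
      funext m; rw [List.length_cons, pow_succ]; ring
    rw [Alg_cup_cons (fun m => (-1) ^ (m.length + 1) * a m), e, Alg_neg_cup, ← ih, Alg_cup_cons]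
    simp only [List.length_cons, List.length_nil]
    ring

theorem Alg_d_map {Z' : Type} (f : Z' → Z) (a : List Z → R) (l : List Z') :
    d (fun m => a (m.map f)) l = d a (l.map f) := by
  induction l generalizing a with
  | nil => simp [Alg_d_nil]
  | cons x l ih =>
    rw [List.map_cons, Alg_d_cons, Alg_d_cons, ← ih]; rfl

theorem Alg_cup_map {Z' : Type} (f : Z' → Z) (a b : List Z → R) (l : List Z') :
    cup a b (l.map f) = cup (fun m => a (m.map f)) (fun m => b (m.map f)) l := by
  simp [cup, List.map_take, List.map_drop]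

noncomputable instance : Ring (Ch Z R) :=
  { (inferInstance : AddCommGroup (Ch Z R)) with
    mul := fun a b => ⟨cup a.1 b.1, by simp [Ch0, cup]⟩
    one := ⟨fn 1, by simp [Ch0, fn]⟩
    mul_assoc := fun a b c => Subtype.ext (cup_assoc _ _ _)
    one_mul := fun a => Subtype.ext (one_cup _ a.2)
    mul_one := fun a => Subtype.ext (cup_one _ a.2)
    left_distrib := fun a b c => Subtype.ext (funext fun l => Alg_cup_add a.1 b.1 c.1 l)
    right_distrib := fun a b c => Subtype.ext (funext fun l => Alg_add_cup a.1 b.1 c.1 l)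
    zero_mul := fun a => Subtype.ext (funext fun l => Alg_cup_zero (fun _ _ => rfl) a.1 l)
    mul_zero := fun a => Subtype.ext (funext fun l => show cup a.1 (fun _ => 0) l = 0 by
      simp [cup]) }

noncomputable instance : Algebra R (Ch Z R) := Algebra.ofModule
  (fun c a b => Subtype.ext (funext fun l => Alg_mul_cup c a.1 b.1 l))
  (fun c a b => Subtype.ext (funext fun l => Alg_cup_mul c a.1 b.1 l))

theorem Alg_ext {a b : Ch Z R} (h : ∀ l, a.1 l = b.1 l) : a = b := Subtype.ext (funext h)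
theorem Alg_nil (a : Ch Z R) : a.1 [] = 0 := a.2
theorem Alg_zero (l : List Z) : (0 : Ch Z R).1 l = 0 := rfl
theorem Alg_add (a b : Ch Z R) (l : List Z) : (a + b).1 l = a.1 l + b.1 l := rfl
theorem Alg_sub (a b : Ch Z R) (l : List Z) : (a - b).1 l = a.1 l - b.1 l := rfl
theorem Alg_neg (a : Ch Z R) (l : List Z) : (-a).1 l = -a.1 l := rfl
theorem Alg_smul (c : R) (a : Ch Z R) (l : List Z) : (c • a).1 l = c * a.1 l := rfl
theorem Alg_mul (a b : Ch Z R) : (a * b).1 = cup a.1 b.1 := rfl
theorem Alg_one : (1 : Ch Z R).1 = fn 1 := rfl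

/-- coboundary -/
def dC : Ch Z R →ₗ[R] Ch Z R where
  toFun a := ⟨d a.1, by simp [Ch0, d]⟩
  map_add' a b := Subtype.ext (d_add _ _)
  map_smul' c a := Subtype.ext (d_smul _ _)

/-- sign: `(-1)^k` in degree `k` -/
noncomputable def sg : Ch Z R →ₐ[R] Ch Z R :=
  AlgHom.ofLinearMap
    { toFun := fun a => ⟨fun l => (-1) ^ (l.length + 1) * a.1 l,
        show _ * a.1 [] = 0 by rw [Alg_nil, mul_zero]⟩
      map_add' := fun a b => Alg_ext fun l => mul_add _ _ _
      map_smul' := fun c a => Alg_ext fun l => mul_left_comm _ _ _ }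
    (Alg_ext fun l => show (-1) ^ (l.length + 1) * fn 1 l = fn 1 l by
      by_cases h : l.length = 1 <;> simp [fn, h])
    (fun a b => Alg_ext fun l => Alg_sg_cup a.1 b.1 l)

/-- cochain of a function -/
def fnC (f : Z → R) : Ch Z R := ⟨fn f, by simp [Ch0, fn]⟩

/-- degree -/
def DZ (k : ℤ) : Submodule R (Ch Z R) where
  carrier := {a | ∀ l : List Z, (l.length : ℤ) ≠ k + 1 → a.1 l = 0}
  zero_mem' := fun _ _ => rfl
  add_mem' := fun {a b} ha hb l hl => by rw [Alg_add, ha l hl, hb l hl, add_zero]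
  smul_mem' := fun c a ha l hl => by rw [Alg_smul, ha l hl, mul_zero]

/-- component of degree `k` -/
noncomputable def prj (k : ℤ) : Ch Z R →ₗ[R] Ch Z R where
  toFun a := ⟨fun l => if (l.length : ℤ) = k + 1 then a.1 l else 0,
    show ite _ (a.1 []) 0 = 0 by rw [Alg_nil, ite_self]⟩
  map_add' a b := Alg_ext fun l => by
    change (if (l.length : ℤ) = k + 1 then a.1 l + b.1 l else 0) =
      (if (l.length : ℤ) = k + 1 then a.1 l else 0) + if (l.length : ℤ) = k + 1 then b.1 l else 0
    split_ifs <;> simp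
  map_smul' c a := Alg_ext fun l => by
    change (if (l.length : ℤ) = k + 1 then c * a.1 l else 0) =
      c * if (l.length : ℤ) = k + 1 then a.1 l else 0
    split_ifs <;> simp

/-- pull back along any map -/
noncomputable def pullC {Z' : Type} (f : Z' → Z) : Ch Z R →ₐ[R] Ch Z' R :=
  AlgHom.ofLinearMap
    { toFun := fun a => ⟨fun l => a.1 (l.map f), a.2⟩
      map_add' := fun _ _ => rfl, map_smul' := fun _ _ => rfl }
    (Alg_ext fun l => show fn 1 (l.map f) = fn 1 l by
      rw [fn, fn, List.length_map, List.map_map]; rfl)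
    (fun a b => Alg_ext fun l => Alg_cup_map f a.1 b.1 l)

/-- change of coefficients along an additive map -/
def coef {R' : Type} [CommRing R'] (t : R →+ R') : Ch Z R →+ Ch Z R' where
  toFun a := ⟨fun l => t (a.1 l), show t (a.1 []) = 0 by rw [Alg_nil, map_zero]⟩
  map_zero' := Subtype.ext (funext fun _ => map_zero t)
  map_add' _ _ := Subtype.ext (funext fun _ => map_add t _ _)

theorem Alg_dC (a : Ch Z R) : (dC a).1 = d a.1 := rfl
theorem Alg_sg (a : Ch Z R) (l : List Z) : (sg a).1 l = (-1) ^ (l.length + 1) * a.1 l := rfl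
theorem Alg_fnC (f : Z → R) : (fnC f).1 = fn f := rfl
theorem Alg_prj (k : ℤ) (a : Ch Z R) (l : List Z) :
    (prj k a).1 l = if (l.length : ℤ) = k + 1 then a.1 l else 0 := rfl
theorem Alg_pullC {Z' : Type} (f : Z' → Z) (a : Ch Z R) (l : List Z') :
    (pullC f a).1 l = a.1 (l.map f) := rfl
theorem Alg_coef {R' : Type} [CommRing R'] (t : R →+ R') (a : Ch Z R) (l : List Z) :
    (coef t a).1 l = t (a.1 l) := rfl

theorem dC_dC (a : Ch Z R) : dC (dC a) = 0 := Alg_ext fun l => Alg_dd a.1 l
theorem dC_mul (a b : Ch Z R) : dC (a * b) = dC a * b + sg a * dC b :=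
  Alg_ext fun l => by
    have := Alg_leib a.1 b.1 b.2 l
    rw [Alg_nil, zero_mul, sub_zero] at this
    exact this
theorem dC_one : dC (1 : Ch Z R) = 0 := by
  have h := dC_mul (1 : Ch Z R) 1
  rw [mul_one, mul_one, map_one sg, one_mul] at h
  exact left_eq_add.1 h
theorem sg_sg (a : Ch Z R) : sg (sg a) = a := Alg_ext fun l => by
  rw [Alg_sg, Alg_sg, ← mul_assoc, ← mul_pow]; simp
theorem dC_sg (a : Ch Z R) : dC (sg a) = -sg (dC a) := Alg_ext fun l => by
  rw [Alg_neg, Alg_sg, Alg_dC, Alg_dC, d, d, Finset.mul_sum, ← Finset.sum_neg_distrib]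
  refine Finset.sum_congr rfl fun i hi => ?_
  have hi' := Finset.mem_range.1 hi
  rw [Alg_sg, List.length_eraseIdx_of_lt hi', Nat.sub_add_cancel (by omega)]
  ring
theorem sg_of_mem {k : ℤ} {a : Ch Z R} (h : a ∈ DZ k) : sg a = (k.negOnePow : ℤ) • a := by
  rw [← Int.cast_smul_eq_zsmul R]
  refine Alg_ext fun l => ?_
  rw [Alg_sg, Alg_smul]
  by_cases hl : (l.length : ℤ) = k + 1
  · have e : k.negOnePow = ((l.length + 1 : ℕ) : ℤ).negOnePow := by
      rw [Int.negOnePow_eq_iff]
      exact ⟨-1, by push_cast; omega⟩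
    rw [e, Int.coe_negOnePow_natCast]
    simp
  · rw [h l hl, mul_zero, mul_zero]
theorem DZ_neg {k : ℤ} (hk : k < 0) {a : Ch Z R} (h : a ∈ DZ k) : a = 0 :=
  Alg_ext fun l => by
    cases l with
    | nil => exact a.2
    | cons x l => exact h _ (by rw [List.length_cons]; push_cast; omega)
theorem dC_mem {k : ℤ} {a : Ch Z R} (h : a ∈ DZ k) : dC a ∈ DZ (k + 1) := fun l hl => by
  rw [Alg_dC, d]
  refine Finset.sum_eq_zero fun i hi => ?_
  have hi' := Finset.mem_range.1 hi
  rw [h _ (by rw [List.length_eraseIdx_of_lt hi']; omega), mul_zero]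
theorem sg_mem {k : ℤ} {a : Ch Z R} (h : a ∈ DZ k) : sg a ∈ DZ k := fun l hl => by
  rw [Alg_sg, h l hl, mul_zero]
theorem mul_mem_DZ {p q : ℤ} {a b : Ch Z R} (ha : a ∈ DZ p) (hb : b ∈ DZ q) :
    a * b ∈ DZ (p + q) := fun l hl => by
  rw [Alg_mul, cup]
  refine Finset.sum_eq_zero fun i hi => ?_
  have hi' := Finset.mem_range.1 hi
  by_cases e : (i : ℤ) = p
  · rw [hb _ (by rw [List.length_drop]; omega), mul_zero]
  · rw [ha _ (by rw [List.length_take]; omega), zero_mul]
theorem fnC_mem (f : Z → R) : fnC f ∈ DZ 0 := fun l hl => if_neg (by omega)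
theorem eq_fnC {a : Ch Z R} (h : a ∈ DZ 0) : a = fnC fun x => a.1 [x] :=
  Alg_ext fun l => by
    rcases l with _ | ⟨x, _ | ⟨y, l⟩⟩
    · exact a.2.trans (fnC _).2.symm
    · rw [Alg_fnC, Alg_fn_one]
    · rw [Alg_fnC, Alg_fn_two, h _ (by simp only [List.length_cons]; omega)]
theorem fnC_mul (f g : Z → R) : fnC (f * g) = fnC f * fnC g :=
  Alg_ext fun l => by
    rcases l with _ | ⟨x, _ | ⟨y, l⟩⟩
    · exact (fnC _).2.trans (_ * _ : Ch Z R).2.symm
    · rw [Alg_mul, Alg_fnC, Alg_fnC, Alg_fnC, Alg_fn_cup, Alg_fn_one, Alg_fn_one, Pi.mul_apply]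
    · rw [Alg_mul, Alg_fnC, Alg_fnC, Alg_fnC, Alg_fn_cup, Alg_fn_two, Alg_fn_two, mul_zero]
theorem dC_fnC_pair (f : Z → R) (x y : Z) : (dC (fnC f)).1 [x, y] = f y - f x := by
  simp [Alg_dC, Alg_fnC, Alg_d_cons, Alg_d_nil, Alg_fn_one]
theorem prj_mem (k : ℤ) (a : Ch Z R) : prj k a ∈ DZ k := fun _ hl => if_neg hl
theorem prj_of_mem {k : ℤ} {a : Ch Z R} (h : a ∈ DZ k) : prj k a = a := Alg_ext fun l => by
  rw [Alg_prj]
  split_ifs with e
  · rfl
  · exact (h l e).symm
theorem dC_prj (k : ℤ) (a : Ch Z R) : dC (prj k a) = prj (k + 1) (dC a) :=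
  Alg_ext fun l => by
    rw [Alg_prj]
    split_ifs with e
    · rw [Alg_dC, Alg_dC, d, d]
      refine Finset.sum_congr rfl fun i hi => ?_
      have hi' := Finset.mem_range.1 hi
      rw [Alg_prj, if_pos (by rw [List.length_eraseIdx_of_lt hi']; omega)]
    · exact dC_mem (prj_mem k a) l e
theorem dC_pullC {Z' : Type} (f : Z' → Z) (a : Ch Z R) : dC (pullC f a) = pullC f (dC a) :=
  Alg_ext fun l => Alg_d_map f a.1 l
theorem sg_pullC {Z' : Type} (f : Z' → Z) (a : Ch Z R) : sg (pullC f a) = pullC f (sg a) :=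
  Alg_ext fun l => by rw [Alg_sg, Alg_pullC, Alg_pullC, Alg_sg, List.length_map]
theorem pullC_mem {Z' : Type} (f : Z' → Z) {k : ℤ} {a : Ch Z R} (h : a ∈ DZ k) :
    pullC f a ∈ DZ k := fun l hl => h _ (by rwa [List.length_map])
theorem pullC_pullC {Z' Z'' : Type} (f : Z' → Z) (g : Z'' → Z') (a : Ch Z R) :
    pullC g (pullC f a) = pullC (f ∘ g) a :=
  Alg_ext fun l => by rw [Alg_pullC, Alg_pullC, Alg_pullC, List.map_map]
theorem pullC_id (a : Ch Z R) : pullC id a = a := Alg_ext fun l => by rw [Alg_pullC, List.map_id]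
theorem pullC_fnC {Z' : Type} (f : Z' → Z) (u : Z → R) : pullC f (fnC u) = fnC (u ∘ f) :=
  Alg_ext fun l => by simp [Alg_pullC, Alg_fnC, fn, List.map_map]
theorem dC_coef {R' : Type} [CommRing R'] (t : R →+ R') (a : Ch Z R) :
    dC (coef t a) = coef t (dC a) := Subtype.ext (funext fun l => by
  change d (fun m => t (a.1 m)) l = t (d a.1 l)
  rw [d, d, map_sum]
  refine Finset.sum_congr rfl fun i _ => ?_
  rcases Nat.even_or_odd i with e | e <;> simp [e.neg_one_pow])
theorem coef_mul {R' : Type} [CommRing R'] (t : R →+* R') (a b : Ch Z R) :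
    coef (t : R →+ R') (a * b) = coef (t : R →+ R') a * coef (t : R →+ R') b :=
  Subtype.ext (funext fun l => by
    change t (cup a.1 b.1 l) = cup (fun m => t (a.1 m)) (fun m => t (b.1 m)) l
    simp [cup])

end Pool.Agent.Lib.MP_d3d358_ag.AS
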