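import Pool.Agent.Lib.MP_d3d358_ag.AS.Theory
import Pool.Agent.Lib.MP_d3d358_ag.AS.NullM

set_option autoImplicit false

namespace Pool.Agent.Lib.MP_d3d358_ag.AS

open Topology Set

variable {B : Type} [MetricSpace B]

theorem asTh_compact {Z : Type} [MetricSpace Z] {E : Set Z} (hE : IsCompact E) {f : Z → B}
    (hf : ContinuousOn f E) {K : Set B} (hK : IsClosed K) : IsCompact (E ∩ f ⁻¹' K) :=
  hE.of_isClosed_subset (hf.preimage_isClosed_of_isClosed hE.isClosed hK) inter_subset_left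

theorem asTh_up {Z : Type} [MetricSpace Z] {E : Set Z} {f : Z → B} (hf : ContinuousOn f E)
    {K V : Set B} (hV : V ∈ 𝓝ˢ K) :
    ∃ U ∈ 𝓝ˢ (E ∩ f ⁻¹' K), ∀ x ∈ E, x ∈ U → f x ∈ V := by
  obtain ⟨O, hO, hKO, hOV⟩ := mem_nhdsSet_iff_exists.1 hV
  obtain ⟨U, hU, e⟩ := continuousOn_iff'.1 hf O hO
  refine ⟨U, hU.mem_nhdsSet.2 fun x hx => ?_, fun x hx hxU => hOV ?_⟩
  · exact (e.subset ⟨hKO hx.2, hx.1⟩).1
  · exact (e.symm.subset ⟨hxU, hx⟩).1

theorem asTh_down {Z : Type} [MetricSpace Z] {E : Set Z} (hE : IsCompact E) {f : Z → B}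
    (hf : ContinuousOn f E) {K : Set B} {U : Set Z} (hU : U ∈ 𝓝ˢ (E ∩ f ⁻¹' K)) :
    ∃ V ∈ 𝓝ˢ K, ∀ x ∈ E, f x ∈ V → x ∈ U := by
  obtain ⟨O, hO, hKO, hOU⟩ := mem_nhdsSet_iff_exists.1 hU
  have hc : IsCompact (f '' (E \ O)) :=
    (hE.diff hO).image_of_continuousOn (hf.mono sdiff_subset)
  refine ⟨(f '' (E \ O))ᶜ, hc.isClosed.isOpen_compl.mem_nhdsSet.2 ?_, fun x hx h => hOU ?_⟩
  · rintro _ hy ⟨x, hx, rfl⟩
    exact hx.2 (hKO ⟨hx.1, hy⟩)
  · by_contra hxO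
    exact h ⟨x, ⟨hx, hxO⟩, rfl⟩

/-- the theory of a compact set `E` over `B` -/
noncomputable def asTh (R : Type) [CommRing R] {Z : Type} [MetricSpace Z] {E : Set Z}
    (hE : IsCompact E) (f : Z → B) (hf : ContinuousOn f E) : Th R B where
  M := Ch Z R
  d := dC
  D := DZ
  N K := N (E ∩ f ⁻¹' K)
  low := ⟨0, fun _ hk _ hm => DZ_neg hk hm⟩
  d_deg := fun _ _ hm => dC_mem hm
  d_N := fun _ _ hm => N_dC hm
  dd := fun m => by rw [dC_dC]; exact zero_mem _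
  mono := fun _ _ h => N_mono (inter_subset_inter_right _ (preimage_mono h))
  empty := fun m => by rw [preimage_empty, inter_empty]; exact N_empty m
  split := fun K L k hL a ha h => N_split (asTh_compact hE hf hL).isClosed ha (by
    rwa [preimage_inter, inter_inter_distrib_left] at h)
  union := fun K L k hK hL a ha h1 h2 h => by
    rw [preimage_union, inter_union_distrib_left] at h ⊢
    exact N_union (asTh_compact hE hf hK) (asTh_compact hE hf hL) ha h1 h2 h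
  nhds := fun K L k hK hL hKL a ha h1 V hV h => by
    obtain ⟨U, hU, hUV⟩ := asTh_up hf hV
    obtain ⟨b, hb, b1, U', hU', e⟩ := N_nhds (asTh_compact hE hf hK) (asTh_compact hE hf hL)
      (inter_subset_inter_right _ (preimage_mono hKL)) ha h1 hU
      (N_mono (L := E ∩ f ⁻¹' (V ∩ L)) (fun x hx => ⟨hx.2.1, hUV x hx.2.1 hx.1, hx.2.2⟩) h)
    obtain ⟨V', hV', hVU⟩ := asTh_down hE hf hU'
    exact ⟨b, hb, b1, V', hV', N_mono (K := E ∩ f ⁻¹' (V' ∩ L)) (L := U' ∩ (E ∩ f ⁻¹' L))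
      (fun x hx => ⟨hVU x hx.1 hx.2.1, hx.1, hx.2.2⟩) e⟩

end Pool.Agent.Lib.MP_d3d358_ag.AS
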