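import Pool.Agent.Lib.MP_d3d358_ag.AS.Ring
import Pool.Agent.Lib.MP_d3d358_ag.AS.Abs

/-! From the statement `HodgeFrob` to the abstract obstruction. -/

set_option autoImplicit false

namespace Pool.Agent.Lib.MP_d3d358_ag.AS

open Topology Set ExteriorAlgebra

theorem link_equiv {Z : Type} [TopologicalSpace Z] {A : Type} [Ring A] [Algebra ℚ A]
    (j : HT ℚ (univ : Set Z) →ₐ[ℚ] A) (hj : ∀ (k : ℤ), ∀ x ∈ Hk univ k, j x = 0 → x = 0) (n : ℕ) :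
    ∃ E : H Z ℚ n ≃ₗ[ℚ] (Hk (R := ℚ) (univ : Set Z) (n : ℤ)).map j.toLinearMap,
      (∀ a : H Z ℚ n, ∃ (c : Ch Z ℚ) (_ : dC c ∈ N univ), c ∈ DZ (n : ℤ) ∧ Cls a c.1) ∧
      (∀ (a : H Z ℚ n) (φ : List Z → ℚ), Cls a φ →
        ∃ (c : Ch Z ℚ) (_ : dC c ∈ N univ), c ∈ DZ (n : ℤ) ∧ c.1 = φ) ∧
      (∀ (a : H Z ℚ n) (c : Ch Z ℚ) (h : dC c ∈ N univ), Cls a c.1 → (E a).1 = j (AS.mk c h)) ∧
      ∀ (a : H Z ℚ n) (c : Ch Z ℚ) (h : dC c ∈ N univ), c ∈ DZ (n : ℤ) →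
        (E a).1 = j (AS.mk c h) → Cls a c.1 := by
  obtain ⟨i, hi, hr, hc⟩ := exists_iota (Z := Z) (R := ℚ) n
  have hm : ∀ a, i a ∈ Hk (R := ℚ) (univ : Set Z) (n : ℤ) := fun a => (hr _).2 ⟨a, rfl⟩
  let f : H Z ℚ n →ₗ[ℚ] (Hk (R := ℚ) (univ : Set Z) (n : ℤ)).map j.toLinearMap :=
    (j.toLinearMap ∘ₗ i).codRestrict _ fun a => Submodule.mem_map_of_mem (hm a)
  have hf : Function.Bijective f := by
    refine ⟨(injective_iff_map_eq_zero _).2 fun a ha => ?_, ?_⟩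
    · exact hi ((hj _ _ (hm a) (congrArg Subtype.val ha)).trans (map_zero i).symm)
    · rintro ⟨_, x, hx, rfl⟩
      obtain ⟨a, rfl⟩ := (hr x).1 hx
      exact ⟨a, rfl⟩
  refine ⟨LinearEquiv.ofBijective f hf, fun a => ?_, fun a φ h => ?_, fun a c h hh => ?_,
    fun a c h hk e => ?_⟩
  · obtain ⟨c, h, hk, e⟩ := hm a
    exact ⟨c, h, hk, (hc a _).2 ⟨c, h, rfl, hk, e⟩⟩
  · obtain ⟨c, h, e, hk, -⟩ := (hc a φ).1 h
    exact ⟨c, h, hk, e⟩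
  · obtain ⟨c', h', e, -, e'⟩ := (hc a _).1 hh
    obtain rfl : c' = c := Subtype.ext e
    exact congrArg j e'
  · refine (hc a _).2 ⟨c, h, rfl, hk, sub_eq_zero.1 (hj n _ (Submodule.sub_mem _ (hm a)
      ⟨c, h, hk, rfl⟩) ?_)⟩
    rw [map_sub]
    exact sub_eq_zero.2 e

theorem link_dC_mul {Z : Type} [TopologicalSpace Z] {a b : Ch Z ℚ} (ha : dC a ∈ N univ)
    (hb : dC b ∈ N univ) : dC (a * b) ∈ N univ := by
  rw [dC_mul]
  exact Submodule.add_mem _ (N_mul_right ha _) (N_mul_left _ hb)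

theorem link {X Y : Type} [TopologicalSpace X] [TopologicalSpace Y] {A A' : Type} [Ring A]
    [Algebra ℚ A] [Ring A'] [Algebra ℚ A'] (j : HT ℚ (univ : Set X) →ₐ[ℚ] A)
    (j' : HT ℚ (univ : Set Y) →ₐ[ℚ] A') (hj : ∀ (k : ℤ), ∀ x ∈ Hk univ k, j x = 0 → x = 0)
    (hj' : ∀ (k : ℤ), ∀ x ∈ Hk univ k, j' x = 0 → x = 0)
    (D : KData A fun k => (Hk univ k).map j.toLinearMap)
    (D' : KData A' fun k => (Hk univ k).map j'.toLinearMap)
    (hp : ∃ (a : H X ℚ 8) (c : Ch X ℚ) (h : dC c ∈ N univ), PtClass a ∧ Cls a c.1 ∧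
      j (AS.mk c h) = (6 : ℚ) • D.β (Orb.mon Orb.eN Orb.FN))
    (hp' : ∃ (a : H Y ℚ 8) (c : Ch Y ℚ) (h : dC c ∈ N univ), PtClass a ∧ Cls a c.1 ∧
      j' (AS.mk c h) = (6 : ℚ) • D'.β (Orb.mon Orb.eN Orb.FN))
    {Per : (List X → ℂ) → Prop} {Per' : (List Y → ℂ) → Prop} {z : Fin 3 → ℂ}
    (hz : AlgebraicIndependent ℚ z) {Q : Matrix (Fin 2) (Fin 4) ℂ}
    (hQ : Q * (!![1, z 0, 0, z 1; 0, z 1, 5, z 2] : Matrix (Fin 2) (Fin 4) ℂ).transpose = 0)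
    (hper : ∀ {r : ℕ} (c : Fin r → ℂ) (φ : Fin r → Ch X ℚ), (∀ i, φ i ∈ DZ 2) →
      ∀ hd : ∀ i, dC (φ i) ∈ N univ, Per (comb c fun i => (φ i).1) →
      ∃ t : ℂ, t ≠ 0 ∧ ∀ L : A →ₗ[ℚ] ℚ, ∑ i, c i * (L (j (AS.mk (φ i) (hd i))) : ℂ)
        = t * ∑ i, ∑ k, (!![1, z 0, 0, z 1; 0, z 1, 5, z 2] : Matrix (Fin 2) (Fin 4) ℂ) 0 i
          * (!![1, z 0, 0, z 1; 0, z 1, 5, z 2] : Matrix (Fin 2) (Fin 4) ℂ) 1 k
          * (L (D.β (Orb.tl (ι ℚ (Pi.single i 1) * ι ℚ (Pi.single k 1)))) : ℂ))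
    (hper' : ∀ {r : ℕ} (c : Fin r → ℂ) (φ : Fin r → Ch Y ℚ), (∀ i, φ i ∈ DZ 2) →
      ∀ hd : ∀ i, dC (φ i) ∈ N univ, Per' (comb c fun i => (φ i).1) →
      ∃ t : ℂ, t ≠ 0 ∧ ∀ L : A' →ₗ[ℚ] ℚ, ∑ i, c i * (L (j' (AS.mk (φ i) (hd i))) : ℂ)
        = t * ∑ i, ∑ k, Q 0 i * Q 1 k
          * (L (D'.β (Orb.tl (ι ℚ (Pi.single i 1) * ι ℚ (Pi.single k 1)))) : ℂ)) :
    ¬∃ g : ∀ k, H X ℚ k ≃ₗ[ℚ] H Y ℚ k, HodgeFrob 8 Per Per' g := by
  rintro ⟨g, hm, hpt, r, c, a, φ, φ', ha, ha', hP, hP'⟩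
  choose E E1 E2 E3 E4 using link_equiv j hj
  choose E' E1' E2' E3' E4' using link_equiv j' hj'
  have z0 : ∀ k : ℤ, k < 0 → ∀ x : (Hk (R := ℚ) (univ : Set X) k).map j.toLinearMap, x = 0 := by
    rintro k hk ⟨_, x, hx, rfl⟩
    exact Subtype.ext ((congrArg j (Hk_neg hk hx)).trans (map_zero _))
  have z0' : ∀ k : ℤ, k < 0 → ∀ x : (Hk (R := ℚ) (univ : Set Y) k).map j'.toLinearMap, x = 0 := by
    rintro k hk ⟨_, x, hx, rfl⟩
    exact Subtype.ext ((congrArg j' (Hk_neg hk hx)).trans (map_zero _))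
  obtain ⟨G, hG⟩ : ∃ G : ∀ k : ℤ, (Hk (R := ℚ) (univ : Set X) k).map j.toLinearMap ≃ₗ[ℚ]
      (Hk (R := ℚ) (univ : Set Y) k).map j'.toLinearMap,
      ∀ (n : ℕ) (x : H X ℚ n), G n (E n x) = E' n (g n x) := by
    refine ⟨fun k => match k with
      | Int.ofNat n => (E n).symm ≪≫ₗ g n ≪≫ₗ E' n
      | Int.negSucc n =>
        haveI := subsingleton_of_forall_eq 0 (z0 _ (Int.negSucc_lt_zero n))
        haveI := subsingleton_of_forall_eq 0 (z0' _ (Int.negSucc_lt_zero n))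
        LinearEquiv.ofSubsingleton _ _, fun n x => ?_⟩
    change E' n (g n ((E n).symm (E n x))) = _
    rw [LinearEquiv.symm_apply_apply]
  choose ψ hd hk e using fun i => E2 2 _ _ (ha i)
  choose ψ' hd' hk' e' using fun i => E2' 2 _ _ (ha' i)
  obtain rfl : φ = fun i => (ψ i).1 := funext fun i => (e i).symm
  obtain rfl : φ' = fun i => (ψ' i).1 := funext fun i => (e' i).symm
  obtain ⟨t, ht, h1⟩ := hper c ψ hk hd hP
  obtain ⟨t', -, h2⟩ := hper' c ψ' hk' hd' hP'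
  have hx : ∀ i k : Fin 4, D.β (Orb.tl (ι ℚ (Pi.single i 1) * ι ℚ (Pi.single k 1))) ∈
      (Hk (R := ℚ) (univ : Set X) 2).map j.toLinearMap := fun i k =>
    D.β_mem 2 _ (absA_tl_mem 2 (by rw [absA_single]; exact absA_m2_mem _ _)) (absA_tl_inv _)
  refine abs_no_iso D D' G ?_ ?_ hz Q hQ (t' / t) (fun i k => ⟨_, hx i k⟩) (fun _ _ => rfl) ?_
  · intro p q x y h
    rcases lt_or_ge p 0 with hp0 | hp0
    · obtain rfl := z0 p hp0 x
      rw [map_zero]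
      exact (congrArg Subtype.val ((congrArg (G (p + q)) (Subtype.ext (zero_mul _))).trans
        (map_zero _))).trans (zero_mul _).symm
    rcases lt_or_ge q 0 with hq0 | hq0
    · obtain rfl := z0 q hq0 y
      rw [map_zero]
      exact (congrArg Subtype.val ((congrArg (G (p + q)) (Subtype.ext (mul_zero _))).trans
        (map_zero _))).trans (mul_zero _).symm
    lift p to ℕ using hp0
    lift q to ℕ using hq0
    obtain ⟨x, rfl⟩ := (E p).surjective x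
    obtain ⟨y, rfl⟩ := (E q).surjective y
    obtain ⟨w, hw⟩ := (E (p + q)).surjective ⟨(E p x).1 * (E q y).1, h⟩
    obtain ⟨u, du, ku, cu⟩ := E1 p x
    obtain ⟨v, dv, kv, cv⟩ := E1 q y
    obtain ⟨u', du', -, cu'⟩ := E1' p (g p x)
    obtain ⟨v', dv', -, cv'⟩ := E1' q (g q y)
    have cw : Cls w (u * v).1 := E4 (p + q) w (u * v) (link_dC_mul du dv) (mul_mem_DZ ku kv) (by
      rw [hw, mk_mul du dv, map_mul, ← E3 p x u du cu, ← E3 q y v dv cv])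
    have k := E3' (p + q) _ (u' * v') (link_dC_mul du' dv')
      (hm p q x y w _ _ _ _ cu cv cw cu' cv')
    rw [mk_mul du' dv', map_mul, ← E3' p _ u' du' cu', ← E3' q _ v' dv' cv', ← hG, ← hG, ← hG,
      hw] at k
    exact k
  · intro h
    obtain ⟨b, u, du, pb, cb, eb⟩ := hp
    obtain ⟨b', u', du', pb', cb', eb'⟩ := hp'
    have e1 : E 8 b = (6 : ℚ) • ⟨D.β (Orb.mon Orb.eN Orb.FN), h⟩ :=
      Subtype.ext ((E3 8 b u du cb).trans eb)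
    have e2 : (E' 8 b').1 = (6 : ℚ) • D'.β (Orb.mon Orb.eN Orb.FN) := (E3' 8 b' u' du' cb').trans eb'
    have k := congrArg Subtype.val (hG 8 b)
    rw [e1, map_smul, Submodule.coe_smul] at k
    have inj := smul_right_injective A' (by norm_num : (6 : ℚ) ≠ 0)
    rcases hpt b b' pb pb' with e3 | e3
    · rw [e3, e2] at k
      exact Or.inl (inj k)
    · rw [e3, map_neg, Submodule.coe_neg, e2, ← smul_neg] at k
      exact Or.inr (inj k)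
  · intro L'
    obtain ⟨L, hL⟩ := LinearMap.exists_extend (L' ∘ₗ Submodule.subtype _ ∘ₗ (G 2).toLinearMap)
    have hL' : ∀ x : (Hk (R := ℚ) (univ : Set X) 2).map j.toLinearMap, L x.1 = L' (G 2 x).1 :=
      fun x => LinearMap.congr_fun hL x
    have k1 := h1 L
    have k2 := h2 L'
    have k3 : ∀ i, L (j (AS.mk (ψ i) (hd i))) = L' (j' (AS.mk (ψ' i) (hd' i))) := fun i => by
      rw [← E3 2 _ _ (hd i) (ha i), ← E3' 2 _ _ (hd' i) (ha' i), ← hG]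
      exact hL' _
    simp only [k3] at k1
    rw [k2] at k1
    simp only [← hL']
    rw [div_mul_eq_mul_div, k1, mul_div_cancel_left₀ _ ht]

end Pool.Agent.Lib.MP_d3d358_ag.AS
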