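import Pool.Agent.Lib.MP_d3d358_ag.AS.PointA

/-! The class of a point pulls back to six times the top class of the torus. -/

set_option autoImplicit false

namespace Pool.Agent.Lib.MP_d3d358_ag.AS

open Topology Set ExteriorAlgebra Filter

variable {P : Matrix (Fin 2) (Fin 4) ℂ} {X : Type} [MetricSpace X] [CompactSpace X] {m : ℕ}
  {S : Set (EuclideanSpace ℂ (Fin m))} {pr : EuclideanSpace ℂ (Fin m) → X}

theorem KumTop.exists_pt (T : KumTop P S pr) : ∃ (a : H X ℚ 8) (c : Ch X ℚ) (h : dC c ∈ N univ),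
    PtClass a ∧ Cls a c.1 ∧ T.j ℚ (AS.mk c h) = (6 : ℚ) • T.β (Orb.mon Orb.eN Orb.FN) := by
  obtain ⟨t, r, Φ, hr, hr2, src, fr, hΦ⟩ := T.pt_chart
  have s0 : (0 : Fin 8 → ℝ) ∈ Φ.source := src ▸ Metric.mem_ball_self hr
  let u : Fin 8 → X → ℚ := fun i x => if 0 ≤ Φ.symm x i then 1 else 0
  let J : Fin 8 → Ch X ℚ := fun i => dC (fnC (u i))
  let A : Ch X ℚ := ((List.finRange 8).map J).prod
  let K : Set X := Φ '' Metric.closedBall 0 (r / 2)
  have sub : Metric.closedBall (0 : Fin 8 → ℝ) (r / 2) ⊆ Φ.source :=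
    src ▸ Metric.closedBall_subset_ball (by linarith)
  have Kc : IsClosed K :=
    ((isCompact_closedBall _ _).image_of_continuousOn (Φ.continuousOn.mono sub)).isClosed
  have Kn : K ∈ 𝓝 (Φ 0) := Φ.image_mem_nhds s0 (Metric.closedBall_mem_nhds _ (by linarith))
  have off : ∀ x, x ≠ Φ 0 → ptCut K A ∈ ptN (𝓝 x) := by
    intro x hx
    by_cases hK : x ∈ K
    · obtain ⟨y, hy, rfl⟩ := hK
      obtain ⟨i, hi⟩ := Function.ne_iff.1 (show y ≠ 0 from fun e => hx (by rw [e]))
      have c : ContinuousAt (fun x => Φ.symm x i) (Φ y) :=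
        (continuous_apply i).continuousAt.comp (Φ.continuousAt_symm (Φ.map_source (sub hy)))
      have e : Φ.symm (Φ y) i = y i := by rw [Φ.left_inv (sub hy)]
      rcases lt_or_gt_of_ne hi with h | h
      · exact ⟨_, c.eventually_lt continuousAt_const (e.trans_lt h), pt_cut_N (pt_prod_N
          (List.mem_finRange i) (pt_const (c := 0) fun x hx => if_neg (not_le.2 hx)))⟩
      · exact ⟨_, continuousAt_const.eventually_lt c (h.trans_eq e.symm), pt_cut_N (pt_prod_N
          (List.mem_finRange i) (pt_const (c := 1) fun x hx => if_pos (le_of_lt hx)))⟩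
    · exact ⟨_, Kc.isOpen_compl.mem_nhds hK, pt_cut_out A⟩
  have dA : dC A ∈ N K :=
    (pt_prod_mk (List.finRange 8) fun i => by rw [dC_dC]; exact zero_mem _).1
  have hc : dC (ptCut K A) ∈ N univ := Circle_local fun x _ => by
    rw [nhdsWithin_univ]
    by_cases hx : x = Φ 0
    · refine ⟨K, hx ▸ Kn, ?_⟩
      simpa using add_mem (N_dC (pt_cut_in (K := K) A)) dA
    · obtain ⟨V, hV, e⟩ := off x hx
      exact ⟨V, hV, N_dC e⟩
  have dg8 : ptCut K A ∈ DZ ((List.finRange 8).length : ℤ) :=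
    pt_cut_deg K (pt_deg _ fun i => dC_mem (fnC_mem _))
  have coc : (ptCut K A).1 ∈ Coc X ℚ 8 :=
    ⟨fun l hl => dg8 l fun e => hl (by simp at e; omega), mem_N_univ.1 hc⟩
  refine ⟨Submodule.Quotient.mk ⟨_, coc⟩, ptCut K A, hc, ⟨Φ 0, Φ.symm, _, Φ.map_source s0,
    Φ.left_inv s0, ⟨coc, rfl⟩, fun x hx => ptN_null (off x hx), ?_⟩, ⟨coc, rfl⟩, ?_⟩
  · have := ptN_null (x := Φ 0) ⟨K, Kn, pt_cut_in A⟩
    rw [show (ptCut K A - A).1 = (ptCut K A).1 - A.1 from rfl, pt_val, List.map_map] at this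
    rw [List.ofFn_eq_map]
    exact this
  let cc : Equiv.Perm (Fin 3) → Fin 8 → Tor I8 × X → UnitAddCircle := fun s i z =>
    sm s z.1 (ptE.symm i) - ptG t 0 (ptE.symm i)
  have c1 : ∀ s i, Continuous fun z : Tor I8 × X => sm s z.1 (ptE.symm i) := fun s i =>
    (continuous_apply _).comp ((continuous_sm s).comp continuous_fst)
  have c2 : ∀ s i, Continuous (cc s i) := fun s i => (c1 s i).sub continuous_const
  let Ω : Equiv.Perm (Fin 3) → Ch (Tor I8 × X) ℚ := fun s =>
    ((List.finRange 8).map fun i => pullC (cc s i) (thetaC ℚ)).prod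
  have cl : ∀ s, ∃ h : dC (Ω s) ∈ N T.Xt, AS.mk (Ω s) h = T.β (Orb.mon Orb.eN Orb.FN) := by
    intro s
    obtain ⟨h, e⟩ := pt_prod_mk (K := T.Xt) (List.finRange 8)
      fun i => Circle_coc (R := ℚ) (c2 s i).continuousOn
    refine ⟨h, e.trans ?_⟩
    rw [← absA_act_F s, KumTop.β, ← bet_sm _ s ((continuous_sm s).comp continuous_fst).continuousOn,
      pt_bet]
    congr 1
    exact List.map_congr_left fun i _ =>
      (Circle_cls _).symm.trans (pt_cls_sub (c1 s i).continuousOn _)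
  choose dΩ eΩ using cl
  have nul : ∀ s (z : Tor I8 × X), sm s z.1 ≠ ptG t 0 → Ω s ∈ ptN (𝓝[T.Xt] z) := by
    intro s z hz
    obtain ⟨j, hj⟩ := Function.ne_iff.1 hz
    obtain ⟨i, rfl⟩ := ptE.symm.surjective j
    obtain ⟨V, hV, e⟩ := ptN_pull (c2 s i) T.Xt (z := z) (a := thetaC ℚ)
      ⟨_, isOpen_compl_singleton.mem_nhds (sub_ne_zero.2 hj), pt_theta⟩
    exact ⟨V, hV, pt_prod_N (List.mem_finRange i) e⟩
  have f0 : Free (ptG t 0) := fr 0 (Metric.mem_ball_self hr)
  have key : pullC Prod.snd (ptCut K A) - ∑ s, Ω s ∈ N T.Xt := Circle_local fun z hz => by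
    change _ ∈ ptN (𝓝[T.Xt] z)
    by_cases hx : z.2 = Φ 0
    · obtain ⟨s, hs⟩ := (T.q_iff z.1 (ptG t 0)).1 (hz.trans (by rw [hx, hΦ, T.π_sec]))
      rw [← Finset.add_sum_erase _ _ (Finset.mem_univ s), ← sub_sub,
        ← sub_add_sub_cancel _ (pullC Prod.snd A) (Ω s), ← map_sub]
      refine sub_mem (add_mem (ptN_pull continuous_snd _ ⟨K, hx ▸ Kn, pt_cut_in A⟩) ?_)
        (Submodule.sum_mem _ fun s' hs' => nul s' z fun e => (Finset.mem_erase.1 hs').1 ?_)
      · let V := T.Xt ∩ (fun z : Tor I8 × X => sm s z.1) ⁻¹' (ptG t '' Metric.ball 0 r)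
        have hV : V ∈ 𝓝[T.Xt] z := inter_mem_nhdsWithin _
          (((continuous_sm s).comp continuous_fst).continuousAt.preimage_mem_nhds
            (((ptG_open t).2 _ Metric.isOpen_ball).mem_nhds ⟨0, Metric.mem_ball_self hr, hs⟩))
        have pt : ∀ w ∈ V, w.2 ∈ Φ.target ∧ Φ.symm w.2 ∈ Metric.ball 0 r ∧
            sm s w.1 = ptG t (Φ.symm w.2) := by
          rintro w ⟨hw, y, hy, e⟩
          have e2 : w.2 = Φ y := by
            rw [hΦ]
            exact T.uniq _ _ (fr y hy) (hw.symm.trans ((T.q_iff _ _).2 ⟨s, e⟩))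
          rw [e2, Φ.left_inv (src ▸ hy)]
          exact ⟨Φ.map_source (src ▸ hy), hy, e.symm⟩
        refine ⟨V, hV, ?_⟩
        rw [map_list_prod, List.map_map]
        refine pt_prod_sub _ fun i => ?_
        have a := thetaC_lift ℚ (K := V) (c := cc s i) (t := fun w => Φ.symm w.2 i)
          ((continuous_apply i).comp_continuousOn (Φ.continuousOn_symm.comp continuousOn_snd
            fun w hw => (pt w hw).1)) fun w hw => by
            rw [← ptG_sub t, ← (pt w hw).2.2]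
        have b : dC (fnC (u i ∘ Prod.snd - fun w : Tor I8 × X => ((⌊Φ.symm w.2 i⌋ : ℤ) : ℚ))) ∈
            N V := pt_const (c := 1) fun w hw => by
          have h : |Φ.symm w.2 i| < 1 / 2 := (norm_le_pi_norm (Φ.symm w.2) i).trans_lt
            ((mem_ball_zero_iff.1 (pt w hw).2.1).trans_le hr2)
          rw [abs_lt] at h
          change ite _ _ _ - ((⌊Φ.symm w.2 i⌋ : ℤ) : ℚ) = 1
          split_ifs with h0
          · rw [Int.floor_eq_zero_iff.2 ⟨h0, by linarith [h.2]⟩]; simp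
          · rw [(Int.floor_eq_iff (z := -1)).2 ⟨by push_cast; linarith [h.1],
              by push_cast; linarith [not_le.1 h0]⟩]; simp
        rw [Circle_fn_sub, map_sub, ← pullC_fnC, dC_pullC] at b
        simpa using sub_mem b a
      · have fz : Free z.1 := free_sm.1 (hs ▸ f0)
        refine mul_inv_eq_one.1 (pt_stab fz ?_)
        rw [← sm_sm, e, hs, KumB_sm_inv]
    · refine sub_mem (ptN_pull continuous_snd _ (off _ hx))
        (Submodule.sum_mem _ fun s _ => nul s z fun e => hx ?_)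
      rw [hΦ]
      exact T.uniq _ _ f0 (hz.symm.trans ((T.q_iff _ _).2 ⟨s, e.symm⟩))
  obtain ⟨dS, eS⟩ := pt_sum_mk Finset.univ dΩ
  have dP : dC (pullC Prod.snd (ptCut K A)) ∈ N T.Xt := by
    rw [dC_pullC]
    exact N_pullC continuous_snd.continuousOn (mapsTo_univ _ _) hc
  rw [KumTop.j, pull_mk _ _ _ _ dP, (mk_eq_iff dP dS).2 ⟨0, by simpa using key⟩, eS]
  simp only [eΩ, Finset.sum_const, Finset.card_univ, Fintype.card_perm, Fintype.card_fin]
  exact (Nat.cast_smul_eq_nsmul ℚ 6 _).symm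

end Pool.Agent.Lib.MP_d3d358_ag.AS
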