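import Pool.Agent.Lib.MP_d3d358_ag.AS.TwK

/-! The twisted classes of degree three and their products. -/

set_option autoImplicit false

namespace Pool.Agent.Lib.MP_d3d358_ag.AS

open Topology Set ExteriorAlgebra

variable {P : Matrix (Fin 2) (Fin 4) ℂ} {X : Type} [MetricSpace X] [CompactSpace X] {m : ℕ}
  {S : Set (EuclideanSpace ℂ (Fin m))} {pr : EuclideanSpace ℂ (Fin m) → X}

theorem tw_tl_mem {k : ℕ} {x : Orb.EA} (hx : x ∈ ⋀[ℚ]^k Orb.V) :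
    Orb.tl x ∈ ⋀[ℚ]^k (Orb.V × Orb.V) := by
  rw [Orb.tl, LinearMap.sum_apply]
  exact Submodule.sum_mem _ fun a _ => torus_map_mem _ k hx

theorem tw_push_mem (v w : Orb.V) : Orb.push (ι ℚ v * ι ℚ w) ∈ ⋀[ℚ]^6 (Orb.V × Orb.V) := by
  refine Submodule.smul_mem _ _ (Submodule.sum_mem _ fun s _ => tw_act_mem s ?_)
  rw [map_mul, map_apply_ι, map_apply_ι]
  exact tw_mul_mem (tw_mul_mem (tw_ι_mem _) (tw_ι_mem _))
    (torus_map_mem _ 4 (Orb.vol_multi ▸ ιMulti_range ℚ 4 ⟨_, rfl⟩))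

theorem KumTop.exists_tw (T : KumTop P S pr) (hP : Conv P) :
    ∃ tw : Orb.V →ₗ[ℚ] HT ℚ T.Xt, (∀ v, tw v ∈ T.Sk 3) ∧
      (∀ x ∈ ⋀[ℚ]^2 Orb.V, ∀ v w, T.β (Orb.tl x) * tw v * tw w
        = -T.β (Orb.tl x * Orb.push (ι ℚ v * ι ℚ w))) ∧
      ∀ x ∈ ⋀[ℚ]^2 Orb.V, ∀ v, ∀ u ∈ ⋀[ℚ]^3 (Orb.V × Orb.V),
        T.β (Orb.tl x) * tw v * T.β u = 0 ∧ T.β (Orb.tl x) * T.β u * tw v = 0 := by
  obtain ⟨D, hδ, hβ, hT⟩ := T.exists_twD hP
  let L : Set (Tor I8 × X) := T.Xt ∩ {p | twGap p.1 ≤ 1 / 8}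
  have cL : IsCompact L :=
    T.Xt_compact.inter_right (isClosed_le (tw_gap_cont.comp continuous_fst) continuous_const)
  have hK : T.twK ⊆ T.Xt := inter_subset_left
  have hL : L ⊆ T.Xt := inter_subset_left
  have cov : T.Xt ⊆ T.twK ∪ L := fun p hp =>
    (le_total (1 / 8) (twGap p.1)).imp (fun h => ⟨hp, h⟩) fun h => ⟨hp, h⟩
  have βK : ∀ u, res hK (T.β u) = D.β u := fun u => by rw [hβ]; exact pull_bet _ u
  have βL : ∀ u ∈ ⋀[ℚ]^2 (Orb.V × Orb.V), res hL (T.β u) = 0 := fun u hu =>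
    tw_zero_of_gen ((res hL).comp T.β) (fun a i => by
      rw [AlgHom.comp_apply, KumTop.β, bet_p _ a i (KumTop.tw_cpa a i).continuousOn]
      exact eps_res_cls _ _ fun p hp => tw_miss hp.2 a i) hu
  have βm : ∀ k : ℕ, ∀ u ∈ ⋀[ℚ]^k (Orb.V × Orb.V), T.β u ∈ Hk T.Xt (k : ℤ) := fun k u hu =>
    bet_mem _ k hu
  have hz : ∀ i : Fin 4, ∃ z ∈ Hk T.Xt 3, res hK z = D.t0 (Pi.single i 1) ∧ res hL z = 0 :=
    fun i => by
      have e : D.β (ι ℚ (Orb.p 0 (Pi.single i 1))) =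
          cls ℚ (fun p => pa 0 p.1 i) (KumTop.tw_cpa 0 i).continuousOn := by
        rw [hβ]; exact bet_p _ 0 i _
      refine glue T.twK_compact cL hK hL cov ?_ (zero_mem _) ?_
      · rw [TwD.t0_apply, e]; exact mul_mem_Hk hδ (cls_mem _)
      · rw [TwD.t0_apply, e, map_mul, map_zero,
          eps_res_cls _ _ fun p hp => tw_miss hp.2.2 0 i, mul_zero]
  obtain ⟨ext, em, eK, eL⟩ := tw_ext (res hK) (res hL) (Hk T.Xt 3) D.t0 hz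
  obtain ⟨tw, htw⟩ : ∃ tw : Orb.V →ₗ[ℚ] HT ℚ T.Xt,
      ∀ v, tw v = (1 / 2 : ℚ) • ∑ s, T.sx s (ext v) :=
    ⟨(1 / 2 : ℚ) • ∑ s, (T.sx s).toLinearMap ∘ₗ ext, fun v => by
      rw [LinearMap.smul_apply, LinearMap.sum_apply]; rfl⟩
  have tm : ∀ v, tw v ∈ Hk T.Xt 3 := fun v => by
    rw [htw]
    exact Submodule.smul_mem _ _ (Submodule.sum_mem _ fun s _ => pull_mem (em v))
  have tK : ∀ v, res hK (tw v) = (1 / 2 : ℚ) • ∑ s, D.T s (D.t0 v) := fun v => by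
    rw [htw, map_smul, map_sum]
    refine congrArg _ (Finset.sum_congr rfl fun s _ => ?_)
    rw [hT, ← eK]
    exact eps_res_pull _ _ hK hK (T.twK_maps s) _
  have key : ∀ x ∈ ⋀[ℚ]^2 Orb.V, ∀ y ∈ Hk T.Xt 6, res hK y = 0 → T.β (Orb.tl x) * y = 0 :=
    fun x hx y hy h => mul_eq_zero_of_cover cL T.twK_compact hL hK (union_comm _ _ ▸ cov)
      (βm 2 _ (tw_tl_mem hx)) hy (βL _ (tw_tl_mem hx)) h
  refine ⟨tw, fun v => T.mem_Sk.2 ⟨tm v, fun s => ?_⟩, fun x hx v w => ?_,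
    fun x hx v u hu => ⟨?_, ?_⟩⟩
  · rw [htw, map_smul, map_sum]
    simp only [T.sx_sx]
    exact congrArg _ (Equiv.sum_comp (Equiv.mulLeft s) fun t => T.sx t (ext v))
  · rw [map_mul, mul_assoc, eq_neg_iff_add_eq_zero, ← mul_add]
    refine key x hx _ (add_mem (mul_mem_Hk (tm v) (tm w)) (βm 6 _ (tw_push_mem v w))) ?_
    rw [map_add, map_mul, tK, tK, D.pp, βK, neg_add_cancel]
  · rw [mul_assoc]
    refine key x hx _ (mul_mem_Hk (tm v) (βm 3 u hu)) ?_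
    rw [map_mul, tK, βK, D.pr v hu]
  · rw [mul_assoc]
    refine key x hx _ (mul_mem_Hk (βm 3 u hu) (tm v)) ?_
    rw [map_mul, tK, βK, D.pl v hu]

end Pool.Agent.Lib.MP_d3d358_ag.AS
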