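import Pool.Agent.Lib.MP_d3d358_ag.AS.Period
import Pool.Agent.Lib.MP_d3d358_ag.AS.Point
import Pool.Agent.Lib.MP_d3d358_ag.AS.Tw
import Pool.Agent.Lib.MP_d3d358_ag.AS.Link

set_option autoImplicit false

namespace Pool.Agent.Lib.MP_d3d358_ag.AS

open Topology Set ExteriorAlgebra

variable {P : Matrix (Fin 2) (Fin 4) ℂ} {X : Type} [MetricSpace X] [CompactSpace X] {m : ℕ}
  {S : Set (EuclideanSpace ℂ (Fin m))} {pr : EuclideanSpace ℂ (Fin m) → X}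

theorem betti_conv (hP : Conv P) (t : Fin 4 → ℝ) (h : cx P t = 0) : t = 0 :=
  hP 0 ⟨le_rfl, zero_le_one⟩ t (by simpa using h)

theorem betti_data (T : KumTop P S pr) (hP : Conv P) :
    ∃ D : KData (HT ℚ T.Xt) fun k => (Hk univ k).map (T.j ℚ).toLinearMap, D.β = T.β := by
  obtain ⟨θ, η, hθ, hη, hdη, hdθ, hF⟩ := T.cb.exists_eta
  rw [T.onto] at hdη hF
  have e : coef (algebraMap ℚ ℚ : ℚ →+ ℚ) θ = θ := Alg_ext fun _ => rfl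
  have hF' : ∀ n, ∀ w, FibOK (S ∩ pr ⁻¹' {w}) 1 n θ := fun n w => e ▸ hF ℚ n w (mem_univ w)
  obtain ⟨tw, h0, h1, h2⟩ := T.exists_tw hP
  have top := T.top_ne hθ hη hdη hdθ hF'
  obtain ⟨ρ, hρ⟩ := T.bound_three hθ hη hdη hdθ hF'
  have hβ : ∀ k : ℕ, ∀ u ∈ ⋀[ℚ]^k (Orb.V × Orb.V), (∀ s, Orb.act s u = u) → T.β u ∈ T.Sk k :=
    fun k u hu hs => T.mem_Sk.2 ⟨bet_mem _ k hu, fun s => by rw [T.sx_β, hs]⟩
  refine ⟨⟨T.β, tw, ?_, hβ, h0, h1, fun x hx v u hu => (h2 x hx v u hu).1,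
    fun x hx v u hu => (h2 x hx v u hu).2, top,
    span_of_bound T.β tw _ (hβ 3) h0 h1 (fun x hx v u hu => (h2 x hx v u hu).2) top ρ hρ⟩, rfl⟩
  rintro p q _ ⟨a, ha, rfl⟩ _ ⟨b, hb, rfl⟩
  exact ⟨a * b, mul_mem_Hk ha hb, map_mul (T.j ℚ) a b⟩

theorem betti {Y : Type} [MetricSpace Y] [CompactSpace Y] {Per : (List X → ℂ) → Prop}
    {Per' : (List Y → ℂ) → Prop} {z : Fin 3 → ℂ} (hz : AlgebraicIndependent ℚ z)
    {Q : Matrix (Fin 2) (Fin 4) ℂ}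
    (hQ : Q * (!![1, z 0, 0, z 1; 0, z 1, 5, z 2] : Matrix (Fin 2) (Fin 4) ℂ).transpose = 0)
    (G : Geo !![1, z 0, 0, z 1; 0, z 1, 5, z 2] X Per) (G' : Geo Q Y Per')
    (hc : Conv !![1, z 0, 0, z 1; 0, z 1, 5, z 2]) (hc' : Conv Q) :
    ¬∃ g : ∀ k, H X ℚ k ≃ₗ[ℚ] H Y ℚ k, HodgeFrob 8 Per Per' g := by
  obtain ⟨T, h1, h2⟩ := G.exists_top (betti_conv hc)
  obtain ⟨T', h1', h2'⟩ := G'.exists_top (betti_conv hc')
  obtain ⟨D, hD⟩ := betti_data T hc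
  obtain ⟨D', hD'⟩ := betti_data T' hc'
  refine link (T.j ℚ) (T'.j ℚ) (fun _ _ hx h => T.j_inj hx h) (fun _ _ hx h => T'.j_inj hx h) D D'
    (hD ▸ T.exists_pt) (hD' ▸ T'.exists_pt) hz hQ ?_ ?_
  · intro r c φ hφ hd h
    rw [hD]
    exact G.period T h1 h2 c φ hφ hd h
  · intro r c φ hφ hd h
    rw [hD']
    exact G'.period T' h1' h2' c φ hφ hd h

end Pool.Agent.Lib.MP_d3d358_ag.AS
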