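import Pool.Agent.Lib.MP_d3d358_ag.AS.MV

set_option autoImplicit false

namespace Pool.Agent.Lib.MP_d3d358_ag.AS

open Topology Set

variable {Z R : Type} [CommRing R] [MetricSpace Z] {K : Set Z}
variable {Z' : Type} [MetricSpace Z'] {K' : Set Z'}

/-- `π` is a closed map on `K'` -/
theorem Blow_open (hK' : IsCompact K') {π : Z' → Z} (hπ : ContinuousOn π K') (O : Set Z') :
    IsOpen (π '' (K' \ interior O))ᶜ :=
  ((hK'.diff isOpen_interior).image_of_continuousOn (hπ.mono sdiff_subset)).isClosed.isOpen_compl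

theorem Blow_compact (hK' : IsCompact K') {π : Z' → Z} (hπ : ContinuousOn π K') {D : Set Z}
    (hD : IsCompact D) : IsCompact (K' ∩ π ⁻¹' D) :=
  hK'.of_isClosed_subset (hπ.preimage_isClosed_of_isClosed hK'.isClosed hD.isClosed)
    inter_subset_left

/-- a cochain that vanishes near `D` and whose pull back vanishes, vanishes -/
theorem Blow_refl (hK' : IsCompact K') {π : Z' → Z} (hπ : ContinuousOn π K') (hs : SurjOn π K' K)
    {D : Set Z} (hi : InjOn π (K' \ π ⁻¹' D)) {a : Ch Z R} (h1 : pullC π a ∈ N K') {U : Set Z}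
    (hU : U ∈ 𝓝ˢ D) (h2 : a ∈ N (U ∩ K)) : a ∈ N K := by
  intro y hy
  by_cases hD : y ∈ D
  · have hy' : U ∈ 𝓝 y := mem_nhdsSet_iff_forall.1 hU y hD
    obtain ⟨V, hV, e⟩ := h2 y ⟨mem_of_mem_nhds hy', hy⟩
    exact ⟨V ∩ U, Filter.inter_mem hV hy', fun l hl =>
      e l fun z hz => ⟨(hl z hz).1.1, (hl z hz).1.2, (hl z hz).2⟩⟩
  obtain ⟨x, hx, rfl⟩ := hs hy
  obtain ⟨O, hO, e⟩ := h1 x hx
  have : Nonempty Z' := ⟨x⟩
  refine ⟨(π '' (K' \ interior O))ᶜ, (Blow_open hK' hπ O).mem_nhds ?_, fun l hl => ?_⟩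
  · rintro ⟨x', hx', e'⟩
    have : x' = x := hi ⟨hx'.1, fun h => hD (e' ▸ h)⟩ ⟨hx, hD⟩ e'
    exact hx'.2 (this ▸ mem_interior_iff_mem_nhds.2 hO)
  · have e1 : (l.map (Function.invFunOn π K')).map π = l := by
      rw [List.map_map]
      exact (List.map_congr_left fun z hz => hs.rightInvOn_invFunOn (hl z hz).2).trans
        (List.map_id l)
    have e2 := e (l.map (Function.invFunOn π K')) fun z hz => by
      obtain ⟨w, hw, rfl⟩ := List.mem_map.1 hz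
      have h3 := hs.mapsTo_invFunOn (hl w hw).2
      refine ⟨interior_subset ?_, h3⟩
      by_contra h4
      exact (hl w hw).1 ⟨_, ⟨h3, h4⟩, hs.rightInvOn_invFunOn (hl w hw).2⟩
    rw [← e1]
    exact e2

/-- a cochain that vanishes near `E` descends -/
theorem Blow_desc (hK' : IsCompact K') {π : Z' → Z} (hπ : ContinuousOn π K') (hm : MapsTo π K' K)
    (hs : SurjOn π K' K) {D : Set Z} (hD : IsCompact D) (hi : InjOn π (K' \ π ⁻¹' D)) {k : ℤ}
    {φ : Ch Z' R} (hk : φ ∈ DZ k) {V : Set Z'} (hV : V ∈ 𝓝ˢ (K' ∩ π ⁻¹' D))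
    (h : φ ∈ N (V ∩ K')) :
    ∃ ψ : Ch Z R, ψ ∈ DZ k ∧ pullC π ψ - φ ∈ N K' ∧ ∃ U ∈ 𝓝ˢ D, ψ ∈ N (U ∩ K) := by
  classical
  rcases isEmpty_or_nonempty Z' with h0 | h0
  · exact ⟨0, zero_mem _, fun x _ => h0.elim x, univ, Filter.univ_mem, zero_mem _⟩
  have hV' : interior V ∈ 𝓝ˢ (K' ∩ π ⁻¹' D) :=
    isOpen_interior.mem_nhdsSet.2 (subset_interior_iff_mem_nhdsSet.2 hV)
  obtain ⟨W, hW, Wc, hWV⟩ :=
    exists_mem_nhdsSet_isClosed_subset hV' (Blow_compact hK' hπ hD).isClosed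
  have hEW : K' ∩ π ⁻¹' D ⊆ interior W := subset_interior_iff_mem_nhdsSet.2 hW
  let φ' : Ch Z' R := ⟨fun l => if ∃ y ∈ l, y ∈ W then 0 else φ.1 l, by
    change (if _ then _ else _) = _
    split_ifs
    · rfl
    · exact φ.2⟩
  have z1 : ∀ l : List Z', (∃ y ∈ l, y ∈ W) → φ'.1 l = 0 := fun l hl => if_pos hl
  have z2 : ∀ l : List Z', φ.1 l = 0 → φ'.1 l = 0 := fun l hl => by
    change (if _ then _ else _) = _
    split_ifs
    · rfl
    · exact hl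
  have k' : φ' ∈ DZ k := fun l hl => z2 l (hk l hl)
  have e1 : φ' - φ ∈ N K' := by
    intro x hx
    by_cases hxW : x ∈ W
    · obtain ⟨U, hU, e⟩ := h x ⟨interior_subset (hWV hxW), hx⟩
      refine ⟨U ∩ V, Filter.inter_mem hU (mem_interior_iff_mem_nhds.1 (hWV hxW)), fun l hl => ?_⟩
      have := e l fun y hy => ⟨(hl y hy).1.1, (hl y hy).1.2, (hl y hy).2⟩
      change φ'.1 l - φ.1 l = 0
      rw [z2 l this, this, sub_zero]
    · refine ⟨Wᶜ, Wc.isOpen_compl.mem_nhds hxW, fun l hl => ?_⟩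
      change (if _ then _ else _) - φ.1 l = 0
      rw [if_neg fun ⟨y, hy, hw⟩ => (hl y hy).1 hw, sub_self]
  let s := Function.invFunOn π K'
  have s1 : ∀ y ∈ K, s y ∈ K' := fun y hy => hs.mapsTo_invFunOn hy
  have s2 : ∀ y ∈ K, π (s y) = y := fun y hy => hs.rightInvOn_invFunOn hy
  have e2 : pullC π (pullC s φ') - φ' ∈ N K' := by
    refine fun x _ => ⟨univ, Filter.univ_mem, fun l hl => ?_⟩
    change φ'.1 ((l.map π).map s) - φ'.1 l = 0
    by_cases hD' : ∃ y ∈ l, π y ∈ D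
    · obtain ⟨y, hy, hyD⟩ := hD'
      have hyK := (hl y hy).2
      rw [z1 l ⟨y, hy, interior_subset (hEW ⟨hyK, hyD⟩)⟩,
        z1 _ ⟨s (π y), List.mem_map_of_mem (List.mem_map_of_mem hy),
          interior_subset (hEW ⟨s1 _ (hm hyK), by rwa [mem_preimage, s2 _ (hm hyK)]⟩)⟩, sub_zero]
    · have : (l.map π).map s = l := by
        rw [List.map_map]
        refine (List.map_congr_left fun y hy => ?_).trans (List.map_id l)
        have hyK := (hl y hy).2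
        have hyD : π y ∉ D := fun h => hD' ⟨y, hy, h⟩
        exact hi ⟨s1 _ (hm hyK), by rwa [mem_preimage, s2 _ (hm hyK)]⟩ ⟨hyK, hyD⟩
          (s2 _ (hm hyK))
      rw [this, sub_self]
  refine ⟨pullC s φ', pullC_mem s k', ?_, (π '' (K' \ interior W))ᶜ,
    (Blow_open hK' hπ W).mem_nhdsSet.2 ?_, fun y _ => ⟨univ, Filter.univ_mem, fun l hl => ?_⟩⟩
  · have := add_mem e2 e1
    rwa [sub_add_sub_cancel] at this
  · rintro y hy ⟨x, hx, rfl⟩
    exact hx.2 (hEW ⟨hx.1, hy⟩)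
  · change φ'.1 (l.map s) = 0
    cases l with
    | nil => exact φ'.2
    | cons y l =>
      have hy := (hl y List.mem_cons_self).2
      refine z1 _ ⟨s y, List.mem_cons_self, interior_subset ?_⟩
      by_contra h4
      exact hy.1 ⟨_, ⟨s1 y hy.2, h4⟩, s2 y hy.2⟩

theorem Blow_pre {π : Z' → Z} (hπ : ContinuousOn π K') {D U : Set Z} (hU : U ∈ 𝓝ˢ D) :
    ∃ V ∈ 𝓝ˢ (K' ∩ π ⁻¹' D), MapsTo π (V ∩ K') U := by
  obtain ⟨O, hO, e⟩ := continuousOn_iff'.1 hπ (interior U) isOpen_interior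
  refine ⟨O, hO.mem_nhdsSet.2 fun x hx => ?_, fun x hx => interior_subset ?_⟩
  · have : x ∈ π ⁻¹' interior U ∩ K' := ⟨subset_interior_iff_mem_nhdsSet.2 hU hx.2, hx.1⟩
    exact (e ▸ this).1
  · have : x ∈ π ⁻¹' interior U ∩ K' := e ▸ hx
    exact this.1

/-- blow down: `π` is injective off `D`; `E` is the part over `D` -/
theorem blow_surj (hK' : IsCompact K') {π : Z' → Z} (hπ : ContinuousOn π K') (hm : MapsTo π K' K)
    (hs : SurjOn π K' K) {D : Set Z} (hD : IsCompact D) (hDK : D ⊆ K)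
    (hi : InjOn π (K' \ π ⁻¹' D)) {k : ℤ} {u : HT R K'} (hu : u ∈ Hk K' k) {e : HT R D}
    (he : e ∈ Hk D k) (h : res (inter_subset_left : K' ∩ π ⁻¹' D ⊆ K') u =
      pull π (hπ.mono inter_subset_left) (fun _ h => h.2) e) :
    ∃ w ∈ Hk K k, pull π hπ hm w = u := by
  have _ := hDK
  obtain ⟨a, ha, ak, rfl⟩ := hu
  obtain ⟨U, hU, hDU, _, ⟨ε, hε, εk, rfl⟩, rfl⟩ := taut_ext hD he
  obtain ⟨V, hV, hVU⟩ := Blow_pre hπ hU
  have d1 : dC (pullC π ε) ∈ N (V ∩ K') := by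
    rw [dC_pullC]; exact N_pullC (hπ.mono inter_subset_right) hVU hε
  have hEV : K' ∩ π ⁻¹' D ⊆ V ∩ K' := fun x hx => ⟨subset_of_mem_nhdsSet hV hx, hx.1⟩
  have d2 : dC (a - pullC π ε) ∈ N (V ∩ K') := by
    rw [map_sub]; exact sub_mem (N_mono inter_subset_right ha) d1
  rw [res_mk, res_mk, pull_mk _ _ _ _ (N_mono hEV d1), ← sub_eq_zero,
    ← MV_mk_sub _ _ (N_mono hEV d2)] at h
  have k2 := sub_mem ak (pullC_mem π εk)
  obtain ⟨c, ck, ec⟩ := (mk_eq_zero_iff k2 _).1 h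
  have k3 := sub_mem k2 (MV_dC_mem ck)
  obtain ⟨b, bk, -, V', hV', eb⟩ := N_nhds (Blow_compact hK' hπ hD) hK' inter_subset_left k3 ec hV
    (by rwa [map_sub, dC_dC, sub_zero])
  obtain ⟨ψ, ψk, eψ, U', hU', hψ⟩ :=
    Blow_desc hK' hπ hm hs hD hi (sub_mem k3 (MV_dC_mem bk)) hV' eb
  have e1 : pullC π (ε + ψ) - a - dC (-(c + b)) ∈ N K' := by
    convert eψ using 1
    rw [map_add, map_neg, map_add]
    abel
  have d3 : dC (pullC π (ε + ψ)) ∈ N K' := by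
    have := add_mem (N_dC e1) ha
    rwa [map_sub, map_sub, dC_dC, sub_zero, sub_add_cancel] at this
  have d4 : dC (ε + ψ) ∈ N K := by
    refine Blow_refl hK' hπ hs hi (by rwa [← dC_pullC]) (Filter.inter_mem hU hU') ?_
    rw [map_add]
    exact add_mem (N_mono (fun _ h => h.1.1) hε)
      (N_mono (inter_subset_inter_left K inter_subset_right) (N_dC hψ))
  refine ⟨mk _ d4, ⟨_, _, add_mem εk ψk, rfl⟩, ?_⟩
  rw [pull_mk π hπ hm d4 d3]
  exact (mk_eq_iff _ _).2 ⟨_, e1⟩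

theorem blow_inj (hK' : IsCompact K') {π : Z' → Z} (hπ : ContinuousOn π K') (hm : MapsTo π K' K)
    (hs : SurjOn π K' K) {D : Set Z} (hD : IsCompact D) (hDK : D ⊆ K)
    (hi : InjOn π (K' \ π ⁻¹' D)) {k : ℤ} (hv : Van R (K' ∩ π ⁻¹' D) (k - 1)) (hv' : Van R D k)
    {w : HT R K} (hw : w ∈ Hk K k) (h : pull π hπ hm w = 0) : w = 0 := by
  have hK : IsCompact K := (hs.image_eq_of_mapsTo hm) ▸ hK'.image_of_continuousOn hπ
  have hE := Blow_compact hK' hπ hD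
  obtain ⟨U, hU, eU⟩ := taut_zero hD hK hDK hw (hv' _ (MV_res_mem hDK hw))
  obtain ⟨a, ha, ak, aU, rfl⟩ := MV_rep_zero inter_subset_right hw eU
  have d1 : dC (pullC π a) ∈ N K' := by rw [dC_pullC]; exact N_pullC hπ hm ha
  rw [pull_mk π hπ hm ha d1] at h
  obtain ⟨b, bk, eb⟩ := (mk_eq_zero_iff (pullC_mem π ak) _).1 h
  obtain ⟨V, hV, hVU⟩ := Blow_pre hπ hU
  have d2 : dC b ∈ N (V ∩ K') := by
    have := sub_mem (N_pullC (hπ.mono inter_subset_right)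
      (fun x hx => (⟨hVU hx, hm hx.2⟩ : π x ∈ U ∩ K)) aU) (N_mono inter_subset_right eb)
    rwa [sub_sub_cancel] at this
  have hEV : K' ∩ π ⁻¹' D ⊆ V ∩ K' := fun x hx => ⟨subset_of_mem_nhdsSet hV hx, hx.1⟩
  obtain ⟨c, ck, ec⟩ := (mk_eq_zero_iff bk (N_mono hEV d2)).1 (hv _ ⟨_, _, bk, rfl⟩)
  have k3 := sub_mem bk (MV_dC_mem ck)
  obtain ⟨c', ck', -, V', hV', ec'⟩ := N_nhds hE hK' inter_subset_left k3 ec hV
    (by rwa [map_sub, dC_dC, sub_zero])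
  obtain ⟨ψ, -, eψ, U', hU', hψ⟩ :=
    Blow_desc hK' hπ hm hs hD hi (sub_mem k3 (MV_dC_mem ck')) hV' ec'
  refine MV_mk_zero_of (c := ψ) ha (Blow_refl hK' hπ hs hi ?_ (Filter.inter_mem hU hU')
    (sub_mem (N_mono (inter_subset_inter_left K inter_subset_left) aU)
      (N_mono (inter_subset_inter_left K inter_subset_right) (N_dC hψ))))
  convert sub_mem eb (N_dC eψ) using 1
  simp only [map_sub, dC_dC, dC_pullC]
  abel

end Pool.Agent.Lib.MP_d3d358_ag.AS
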