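import Pool.Agent.Lib.MP_d3d358_ag.AS.MV

set_option autoImplicit false

namespace Pool.Agent.Lib.MP_d3d358_ag.AS

open Topology Set

/-- vanishing is carried along a continuous bijection of compact sets -/
theorem sphere_van_iff {R : Type} [CommRing R] {Z Z' : Type} [MetricSpace Z] [MetricSpace Z']
    {K : Set Z} {K' : Set Z'} (hK' : IsCompact K') {f : Z' → Z} (hf : ContinuousOn f K')
    (hb : BijOn f K' K) (k : ℤ) : Van R K' k ↔ Van R K k := by
  obtain ⟨hi, hs⟩ := pull_bij (R := R) hK' hf hb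
  constructor
  · intro h x hx
    apply hi
    rw [map_zero]
    exact h _ (pull_mem hx)
  · intro h y hy
    obtain ⟨x, hx, rfl⟩ := hs k y hy
    rw [h x hx, map_zero]

section
variable {E : Type} [NormedAddCommGroup E] [NormedSpace ℝ E]

/-- the suspension of the unit sphere -/
def sphereSusp (E : Type) [NormedAddCommGroup E] : Set (E × ℝ) := {p | ‖p.1‖ + |p.2| = 1}

omit [NormedSpace ℝ E] in
theorem sphere_bij_half (s : ℝ) (hs : s = 1 ∨ s = -1) :
    BijOn (fun x : E => (x, s * (1 - ‖x‖))) (Metric.closedBall 0 1)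
      (sphereSusp E ∩ {p | 0 ≤ s * p.2}) := by
  have h1 : |s| = 1 := by rcases hs with rfl | rfl <;> simp
  have h2 : s * s = 1 := by rcases hs with rfl | rfl <;> simp
  refine ⟨fun x hx => ?_, fun x _ y _ h => congrArg Prod.fst h, fun p hp => ?_⟩
  · have hx' : ‖x‖ ≤ 1 := by simpa using hx
    refine ⟨?_, ?_⟩
    · show ‖x‖ + |s * (1 - ‖x‖)| = 1
      rw [abs_mul, h1, one_mul, abs_of_nonneg (by linarith)]; ring
    · show 0 ≤ s * (s * (1 - ‖x‖))
      rw [← mul_assoc, h2]; linarith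
  · have e1 : ‖p.1‖ + |p.2| = 1 := hp.1
    have e2 : 0 ≤ s * p.2 := hp.2
    have e3 : |p.2| = s * p.2 := by
      rw [← abs_of_nonneg e2, abs_mul, h1, one_mul]
    refine ⟨p.1, ?_, Prod.ext rfl ?_⟩
    · have := abs_nonneg p.2
      simp only [mem_closedBall_zero_iff]; linarith
    · show s * (1 - ‖p.1‖) = p.2
      have : 1 - ‖p.1‖ = s * p.2 := by linarith
      rw [this, ← mul_assoc, h2, one_mul]

omit [NormedSpace ℝ E] in
theorem sphere_bij_equator : BijOn (fun x : E => (x, (0 : ℝ))) (Metric.sphere 0 1)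
    ((sphereSusp E ∩ {p | 0 ≤ 1 * p.2}) ∩ (sphereSusp E ∩ {p | 0 ≤ -1 * p.2})) := by
  refine ⟨fun x hx => ?_, fun x _ y _ h => congrArg Prod.fst h, fun p hp => ?_⟩
  · have hx' : ‖x‖ = 1 := by simpa using hx
    have : (x, (0 : ℝ)) ∈ sphereSusp E := by simpa [sphereSusp] using hx'
    exact ⟨⟨this, by simp⟩, this, by simp⟩
  · have e1 : ‖p.1‖ + |p.2| = 1 := hp.1.1
    have e2 : 0 ≤ 1 * p.2 := hp.1.2
    have e3 : 0 ≤ -1 * p.2 := hp.2.2
    have e4 : p.2 = 0 := by linarith
    refine ⟨p.1, ?_, Prod.ext rfl e4.symm⟩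
    simpa [e4] using e1

theorem sphere_susp_van (R : Type) [CommRing R] [FiniteDimensional ℝ E] {k : ℤ} (hk : 0 < k)
    (h1 : k = 1 → IsPreconnected (Metric.sphere (0 : E) 1))
    (h2 : 1 < k → Van R (Metric.sphere (0 : E) 1) (k - 1)) : Van R (sphereSusp E) k := by
  have hc : ∀ s : ℝ, Continuous fun x : E => (x, s * (1 - ‖x‖)) := fun s => by fun_prop
  have hB : IsCompact (Metric.closedBall (0 : E) 1) := isCompact_closedBall _ _
  have hK : ∀ s : ℝ, s = 1 ∨ s = -1 → IsCompact (sphereSusp E ∩ {p | 0 ≤ s * p.2}) :=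
    fun s hs => (sphere_bij_half (E := E) s hs).image_eq ▸ hB.image (hc s)
  have hV : ∀ s : ℝ, s = 1 ∨ s = -1 → Van R (sphereSusp E ∩ {p | 0 ≤ s * p.2}) k := fun s hs =>
    (sphere_van_iff hB (hc s).continuousOn (sphere_bij_half s hs) k).1
      (van_starConvex (c := (0 : E)) hB ((convex_closedBall (0 : E) 1).starConvex
        (Metric.mem_closedBall_self zero_le_one)) hk)
  have hS : sphereSusp E ⊆
      (sphereSusp E ∩ {p | 0 ≤ 1 * p.2}) ∪ (sphereSusp E ∩ {p | 0 ≤ -1 * p.2}) := fun p hp => by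
    rcases le_total 0 p.2 with h | h
    · exact Or.inl ⟨hp, by simpa using h⟩
    · exact Or.inr ⟨hp, by simpa using h⟩
  have hq : Continuous fun x : E => (x, (0 : ℝ)) := by fun_prop
  intro u hu
  have u1 := hV 1 (Or.inl rfl) (res inter_subset_left u) (pull_mem hu)
  have u2 := hV (-1) (Or.inr rfl) (res inter_subset_left u) (pull_mem hu)
  rcases (show k = 1 ∨ 1 < k by omega) with h | h
  · obtain ⟨b, hb1, hb2⟩ := exists_bd (R := R) (hK 1 (Or.inl rfl)) (hK (-1) (Or.inr rfl))
      inter_subset_left inter_subset_left hS k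
    obtain ⟨c, hc'⟩ := (hb1 ⟨u, hu⟩).1 ⟨u1, u2⟩
    have hp := (h1 h).image _ hq.continuousOn
    rw [sphere_bij_equator.image_eq] at hp
    have e0 : k - 1 = 0 := by omega
    obtain ⟨a, ha⟩ := Hk_zero hp (x := c.1) (by rw [← e0]; exact c.2)
    have : b c = 0 := (hb2 c).2 ⟨a • 1, by rw [e0]; exact Submodule.smul_mem _ a one_mem_Hk, 0,
      Submodule.zero_mem _, by rw [ha, map_smul, map_one, map_zero, sub_zero]⟩
    rw [this] at hc'
    exact (congrArg Subtype.val hc').symm
  · exact mv_zero (hK 1 (Or.inl rfl)) (hK (-1) (Or.inr rfl)) inter_subset_left inter_subset_left hS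
      ((sphere_van_iff (isCompact_sphere _ _) hq.continuousOn sphere_bij_equator _).1 (h2 h))
      hu u1 u2

/-- radial projection -/
theorem sphere_bij_radial {F : Type} [NormedAddCommGroup F] [NormedSpace ℝ F]
    (e : F ≃L[ℝ] E × ℝ) (c : F) {r : ℝ} (hr : 0 < r) :
    ContinuousOn (fun x : F => (‖(e (x - c)).1‖ + |(e (x - c)).2|)⁻¹ • e (x - c))
      (Metric.sphere c r) ∧
    BijOn (fun x : F => (‖(e (x - c)).1‖ + |(e (x - c)).2|)⁻¹ • e (x - c)) (Metric.sphere c r)
      (sphereSusp E) := by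
  have hpos : ∀ p : E × ℝ, p ≠ 0 → 0 < ‖p.1‖ + |p.2| := fun p hp => by
    have a1 := norm_nonneg p.1
    have a2 := abs_nonneg p.2
    by_contra hn
    apply hp
    exact Prod.ext (norm_eq_zero.1 (by linarith)) (abs_eq_zero.1 (by linarith))
  have hne : ∀ x ∈ Metric.sphere c r, e (x - c) ≠ 0 := fun x hx h => by
    have h' : x - c = 0 := e.injective (h.trans (map_zero e).symm)
    have : ‖x - c‖ = r := by simpa [dist_eq_norm] using hx
    rw [h', norm_zero] at this
    exact hr.ne this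
  have hsm : ∀ (t : ℝ) (p : E × ℝ), 0 < t → ‖(t • p).1‖ + |(t • p).2| = t * (‖p.1‖ + |p.2|) :=
    fun t p ht => by
      rw [Prod.smul_fst, Prod.smul_snd, norm_smul, smul_eq_mul, abs_mul, Real.norm_eq_abs,
        abs_of_pos ht]; ring
  refine ⟨?_, fun x hx => ?_, fun x hx y hy h => ?_, fun p hp => ?_⟩
  · refine ContinuousOn.smul (ContinuousOn.inv₀ (by fun_prop) fun x hx =>
      (hpos _ (hne x hx)).ne') (by fun_prop)
  · show ‖(_ • e (x - c)).1‖ + |(_ • e (x - c)).2| = 1
    rw [hsm _ _ (inv_pos.2 (hpos _ (hne x hx))), inv_mul_cancel₀ (hpos _ (hne x hx)).ne']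
  · have hx' : ‖x - c‖ = r := by simpa [dist_eq_norm] using hx
    have hy' : ‖y - c‖ = r := by simpa [dist_eq_norm] using hy
    have ax := inv_pos.2 (hpos _ (hne x hx))
    have ay := inv_pos.2 (hpos _ (hne y hy))
    simp only at h
    generalize (‖(e (x - c)).1‖ + |(e (x - c)).2|)⁻¹ = s at h ax
    generalize (‖(e (y - c)).1‖ + |(e (y - c)).2|)⁻¹ = t at h ay
    rw [← map_smul, ← map_smul] at h
    have h' := e.injective h
    have hn := congrArg norm h'
    rw [norm_smul, norm_smul, hx', hy', Real.norm_eq_abs, Real.norm_eq_abs, abs_of_pos ax,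
      abs_of_pos ay] at hn
    have st : s = t := mul_right_cancel₀ hr.ne' hn
    subst st
    exact sub_left_injective (smul_right_injective F ax.ne' h')
  · have hp' : ‖p.1‖ + |p.2| = 1 := hp
    have hp0 : e.symm p ≠ 0 := fun h => by
      have : p = 0 := by simpa using h
      simp [this] at hp'
    have hn : 0 < ‖e.symm p‖ := norm_pos_iff.2 hp0
    have ht : 0 < r / ‖e.symm p‖ := div_pos hr hn
    refine ⟨c + (r / ‖e.symm p‖) • e.symm p, ?_, ?_⟩
    · rw [mem_sphere_iff_norm, add_sub_cancel_left, norm_smul, Real.norm_eq_abs, abs_of_pos ht,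
        div_mul_cancel₀ _ hn.ne']
    · simp only [add_sub_cancel_left, map_smul, ContinuousLinearEquiv.apply_symm_apply]
      rw [hsm _ _ ht, hp', mul_one, smul_smul, inv_mul_cancel₀ ht.ne', one_smul]
end

theorem sphere_van_aux (R : Type) [CommRing R] (n : ℕ) : ∀ {E : Type} [NormedAddCommGroup E]
    [NormedSpace ℝ E] [FiniteDimensional ℝ E] (c : E) {r : ℝ}, 0 < r → ∀ {k : ℤ}, 0 < k →
    Module.finrank ℝ E = n → k + 1 ≠ n → Van R (Metric.sphere c r) k := by
  induction n with
  | zero =>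
    intro E _ _ _ c r _ k hk hE _
    have : Subsingleton E := Module.finrank_zero_iff.1 hE
    exact van_finite (Set.toFinite _) hk
  | succ n ih =>
    intro E _ _ _ c r hr k hk hE hn
    have hF : Module.finrank ℝ (Fin n → ℝ) = n := by simp
    let e : E ≃L[ℝ] (Fin n → ℝ) × ℝ := ContinuousLinearEquiv.ofFinrankEq (by simp [hE])
    obtain ⟨hc, hb⟩ := sphere_bij_radial e c hr
    refine (sphere_van_iff (isCompact_sphere _ _) hc hb k).2 (sphere_susp_van R hk ?_ ?_)
    · intro h
      rcases (show n = 0 ∨ 1 < n by omega) with h0 | h0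
      · subst h0
        exact Set.subsingleton_of_subsingleton.isPreconnected
      · refine isPreconnected_sphere ?_ _ _
        rw [← Module.finrank_eq_rank, hF]
        exact_mod_cast h0
    · intro h
      exact ih 0 one_pos (by omega) hF (by omega)

theorem van_sphere (R : Type) [CommRing R] {E : Type} [NormedAddCommGroup E] [NormedSpace ℝ E]
    [FiniteDimensional ℝ E] (c : E) {r : ℝ} (hr : 0 < r) {k : ℤ} (hk : 0 < k)
    (hn : k + 1 ≠ Module.finrank ℝ E) : Van R (Metric.sphere c r) k :=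
  sphere_van_aux R _ c hr hk rfl hn

end Pool.Agent.Lib.MP_d3d358_ag.AS
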