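import Pool.Agent.Lib.MP_d3d358_ag.AS.Torus
import Pool.Agent.Lib.MP_d3d358_ag.AS.Sphere
import Pool.Agent.Lib.MP_d3d358_ag.AS.Blow

/-! A compact space over the four torus with fibres of type `P¹` off the points of order three. -/

set_option autoImplicit false

namespace Pool.Agent.Lib.MP_d3d358_ag.AS

open Topology Set

theorem bound_van_tor {k : ℤ} (hk : 4 < k) : Van ℚ (univ : Set (Tor (Fin 4))) k := by
  intro y hy
  obtain ⟨n, rfl⟩ := Int.eq_ofNat_of_zero_le (show 0 ≤ k by omega)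
  obtain ⟨x, hx, rfl⟩ := (torus ℚ (Fin 4)).2 n y hy
  have h0 : Module.finrank ℚ (⋀[ℚ]^n (Fin 4 → ℚ)) = 0 := by
    rw [exteriorPower.finrank_eq, Module.finrank_fin_fun, Nat.choose_eq_zero_of_lt (by omega)]
  have := Module.finrank_zero_iff.1 h0
  have e : (⟨x, hx⟩ : ⋀[ℚ]^n (Fin 4 → ℚ)) = 0 := Subsingleton.elim _ _
  rw [show x = 0 from congrArg Subtype.val e, map_zero]

theorem bound_van_sphere (a : Tor (Fin 4)) {ε : ℝ} (h0 : 0 < ε) (h1 : ε < 1 / 2) {k : ℤ}
    (hk : 3 < k) : Van ℚ (Metric.sphere a ε) k := by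
  have hc : Continuous fun (t : Fin 4 → ℝ) (i : Fin 4) => a i + (t i : UnitAddCircle) :=
    continuous_pi fun i => continuous_const.add
      ((AddCircle.continuous_mk' 1).comp (continuous_apply i))
  have hn : ∀ t : Fin 4 → ℝ, (∀ i, ‖(t i : UnitAddCircle)‖ = |t i|) →
      dist (fun i => a i + (t i : UnitAddCircle)) a = ‖t‖ := fun t h => by
    rw [dist_eq_norm]
    refine le_antisymm ((pi_norm_le_iff_of_nonneg (norm_nonneg _)).2 fun i => ?_)
      ((pi_norm_le_iff_of_nonneg (norm_nonneg _)).2 fun i => ?_)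
    · rw [Pi.sub_apply, add_sub_cancel_left, h i]; exact norm_le_pi_norm t i
    · have := norm_le_pi_norm ((fun i => a i + (t i : UnitAddCircle)) - a) i
      rwa [Pi.sub_apply, add_sub_cancel_left, h i] at this
  have hs : ∀ t ∈ Metric.sphere (0 : Fin 4 → ℝ) ε, ∀ i, |t i| ≤ ε := fun t ht i =>
    (norm_le_pi_norm t i).trans (mem_sphere_zero_iff_norm.1 ht).le
  have hb : BijOn (fun (t : Fin 4 → ℝ) (i : Fin 4) => a i + (t i : UnitAddCircle))
      (Metric.sphere 0 ε) (Metric.sphere a ε) := by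
    refine ⟨fun t ht => ?_, fun t ht s hs' e => funext fun i => ?_, fun x hx => ?_⟩
    · rw [Metric.mem_sphere, hn t fun i => (AddCircle.norm_coe_eq_abs_iff 1 one_ne_zero).2
        ((hs t ht i).trans (by rw [abs_one]; exact h1.le))]
      exact mem_sphere_zero_iff_norm.1 ht
    · have e1 : (t i : UnitAddCircle) = s i := add_left_cancel (congrFun e i)
      have a1 := abs_le.1 (hs t ht i)
      have a2 := abs_le.1 (hs s hs' i)
      exact (AddCircle.coe_eq_coe_iff_of_mem_Ico (p := 1) (a := -1 / 2)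
        ⟨by linarith, by linarith⟩ ⟨by linarith, by linarith⟩).1 e1
    · have : ∀ i, ∃ t : ℝ, (t : UnitAddCircle) = x i - a i ∧ ‖(t : UnitAddCircle)‖ = |t| :=
        fun i => by
          obtain ⟨s, hs⟩ := QuotientAddGroup.mk_surjective (x i - a i)
          have e : ((s - round s : ℝ) : UnitAddCircle) = s := by
            rw [AddCircle.coe_sub, sub_eq_self, AddCircle.coe_eq_zero_iff]
            exact ⟨round s, by simp⟩
          exact ⟨s - round s, e.trans hs, by rw [e, UnitAddCircle.norm_eq]⟩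
      choose t ht ht' using this
      have e : (fun i => a i + (t i : UnitAddCircle)) = x := funext fun i => by rw [ht i]; abel
      refine ⟨t, ?_, e⟩
      rw [mem_sphere_zero_iff_norm, ← hn t ht', e]
      exact hx
  exact (sphere_van_iff (isCompact_sphere _ _) hc.continuousOn hb k).1
    (van_sphere ℚ 0 h0 (by omega) (by simp; omega))

theorem bound_finite : {a : Tor (Fin 4) | 3 • a = 0}.Finite :=
  (Finite.pi' fun _ : Fin 4 => AddCircle.finite_torsion (1 : ℝ) three_pos).subset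
    fun _ h i => congrFun h i

variable {Z : Type} [MetricSpace Z] {E : Set Z} {f : Z → Tor (Fin 4)} {η : Ch Z ℚ}

theorem bound_van_over (hE : IsCompact E) (hf : ContinuousOn f E) (hη : η ∈ DZ 2)
    (hd : dC η ∈ N E) {A : Set (Tor (Fin 4))} (hA : IsCompact A) {k : ℤ}
    (h : ∀ a ∈ A, FibOK (E ∩ f ⁻¹' {a}) 2 k η) (h1 : Van ℚ A k) (h2 : Van ℚ A (k - 2)) :
    Van ℚ (E ∩ f ⁻¹' A) k := by
  intro c hc
  obtain ⟨a, ha, b, hb, rfl⟩ := (leray_cls (Blow_compact hE hf hA) hA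
    (hf.mono inter_subset_left) (fun _ h => h.2) two_pos hη (N_mono inter_subset_left hd)
    (n := k) fun w hw => by
      have : E ∩ f ⁻¹' A ∩ f ⁻¹' {w} = E ∩ f ⁻¹' {w} :=
        Subset.antisymm (fun x hx => ⟨hx.1.1, hx.2⟩)
          fun x hx => ⟨⟨hx.1, mem_preimage.2 ((show f x = w from hx.2) ▸ hw)⟩, hx.2⟩
      rw [this]
      exact h w hw).2 k le_rfl c hc
  rw [h1 a ha, h2 b hb, map_zero, zero_mul, add_zero]

theorem bound_van_seven (hE : IsCompact E) (hf : ContinuousOn f E) (hη : η ∈ DZ 2)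
    (hd : dC η ∈ N E) (h1 : ∀ a, 3 • a ≠ 0 → ∀ n, FibOK (E ∩ f ⁻¹' {a}) 2 n η)
    (h2 : ∀ a, 3 • a = 0 → Van ℚ (E ∩ f ⁻¹' {a}) 7) : Van ℚ E 7 := by
  intro u hu
  set T : Set (Tor (Fin 4)) := {a | 3 • a = 0}
  have hT : T.Finite := bound_finite
  have : Finite T := hT
  have hF : IsCompact (E ∩ f ⁻¹' T) := Blow_compact hE hf hT.isCompact
  have u0 : res (inter_subset_left : E ∩ f ⁻¹' T ⊆ E) u = 0 :=
    zero_of_disjoint (P := fun a : T => E ∩ f ⁻¹' {a.1})
      (fun a => Blow_compact hE hf isCompact_singleton)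
      (fun a b hab => disjoint_left.2 fun x hx hy =>
        hab (Subtype.ext ((show f x = a.1 from hx.2).symm.trans hy.2)))
      (fun a x hx => And.intro hx.1 (mem_preimage.2 ((show f x = a.1 from hx.2) ▸ a.2)))
      (fun x hx => mem_iUnion.2 ⟨⟨f x, hx.2⟩, hx.1, rfl⟩) (MV_res_mem _ hu)
      fun a => h2 a.1 a.2 _ (MV_res_mem _ (MV_res_mem _ hu))
  obtain ⟨V, hV, uV⟩ := taut_zero hF hE inter_subset_left hu u0
  have hI : IsCompact (f '' (E \ interior V)) :=
    (hE.diff isOpen_interior).image_of_continuousOn (hf.mono sdiff_subset)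
  obtain ⟨δ, δ0, hδ⟩ := hT.isCompact.exists_cthickening_subset_open hI.isClosed.isOpen_compl
    (fun a ha ⟨x, hx, e⟩ => hx.2 (subset_interior_iff_mem_nhdsSet.2 hV ⟨hx.1, mem_preimage.2 (e ▸ ha)⟩))
  obtain ⟨C, C0, hC⟩ : ∃ C : ℝ, 0 < C ∧ ∀ x ∈ T, ∀ y ∈ T, x ≠ y → C ≤ dist x y := by
    obtain ⟨C, C0, hC⟩ := hT.relatively_discrete
    obtain ⟨c, c0, hc⟩ := ENNReal.lt_iff_exists_real_btwn.1 C0
    refine ⟨c, ENNReal.ofReal_pos.1 hc.1, fun x hx y hy h => ?_⟩
    have := hc.2.le.trans (hC x hx y hy h)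
    rwa [edist_dist, ENNReal.ofReal_le_ofReal_iff dist_nonneg] at this
  obtain ⟨ε, ε0, ε1, ε2, ε3⟩ : ∃ ε : ℝ, 0 < ε ∧ ε ≤ δ ∧ ε < 1 / 2 ∧ 2 * ε < C :=
    ⟨min δ (min (1 / 4) (C / 4)), by positivity, min_le_left _ _,
      ((min_le_right _ _).trans (min_le_left _ _)).trans_lt (by norm_num), by
      have := (min_le_right δ _).trans (min_le_right (1 / 4) (C / 4)); linarith⟩
  set B : Set (Tor (Fin 4)) := ⋃ a ∈ T, Metric.closedBall a ε
  set D : Set (Tor (Fin 4)) := (⋃ a ∈ T, Metric.ball a ε)ᶜ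
  have hB : IsCompact B := hT.isCompact_biUnion fun a _ => isCompact_closedBall a ε
  have hD : IsCompact D :=
    (isOpen_biUnion fun a _ => Metric.isOpen_ball).isClosed_compl.isCompact
  have hDB : ∀ x, x ∈ D ∪ B := fun x => by
    by_cases h : x ∈ D
    · exact Or.inl h
    · obtain ⟨a, ha, hx⟩ := mem_iUnion₂.1 (not_not.1 h)
      exact Or.inr (mem_iUnion₂.2 ⟨a, ha, Metric.ball_subset_closedBall hx⟩)
  have far : ∀ a ∈ T, ∀ b ∈ T, ∀ x, dist x a ≤ ε → dist x b ≤ ε → a = b :=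
    fun a ha b hb x xa xb => by
      by_contra h
      have := (hC a ha b hb h).trans (dist_triangle_left a b x)
      linarith
  have vS : ∀ k : ℤ, 3 < k → Van ℚ (D ∩ B) k := fun k hk x hx =>
    zero_of_disjoint (P := fun a : T => Metric.sphere a.1 ε) (fun a => isCompact_sphere _ _)
      (fun a b hab => disjoint_left.2 fun x hx hy =>
        hab (Subtype.ext (far _ a.2 _ b.2 x (le_of_eq hx) (le_of_eq hy))))
      (fun a x hx => And.intro (fun h => by
        obtain ⟨b, hb, hx'⟩ := mem_iUnion₂.1 h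
        have e := far _ a.2 b hb x (le_of_eq hx) (le_of_lt hx')
        exact (e ▸ hx' : dist x a.1 < ε).ne hx)
        (mem_iUnion₂.2 ⟨a.1, a.2, Metric.sphere_subset_closedBall hx⟩))
      (fun x hx => by
        obtain ⟨a, ha, hx'⟩ := mem_iUnion₂.1 hx.2
        exact mem_iUnion.2 ⟨⟨a, ha⟩, le_antisymm hx'
          (not_lt.1 fun h => hx.1 (mem_iUnion₂.2 ⟨a, ha, h⟩))⟩) hx
      fun a => bound_van_sphere a.1 ε0 ε2 hk _ (MV_res_mem _ hx)
  have vD : ∀ k : ℤ, 4 < k → Van ℚ D k := fun k hk x hx => by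
    obtain ⟨z, hz, rfl, -⟩ := glue hD hB (subset_univ _) (subset_univ _) (fun x _ => hDB x) hx
      (Submodule.zero_mem _) (by rw [map_zero]; exact vS k (by omega) _ (MV_res_mem _ hx))
    rw [bound_van_tor hk z hz, map_zero]
  have nT : ∀ a ∈ D, 3 • a ≠ 0 := fun a ha h => ha (mem_iUnion₂.2 ⟨a, h, Metric.mem_ball_self ε0⟩)
  have hBV : E ∩ f ⁻¹' B ⊆ V ∩ E := fun x hx => by
    obtain ⟨a, ha, hx'⟩ := mem_iUnion₂.1 hx.2
    refine ⟨interior_subset (not_not.1 fun h => ?_), hx.1⟩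
    exact hδ (Metric.mem_cthickening_of_dist_le _ a δ T ha (le_trans hx' ε1)) ⟨x, ⟨hx.1, h⟩, rfl⟩
  refine mv_zero (Blow_compact hE hf hD) (Blow_compact hE hf hB)
    inter_subset_left inter_subset_left
    (fun x hx => (hDB (f x)).imp (fun h => ⟨hx, h⟩) fun h => ⟨hx, h⟩) ?_ hu ?_ ?_
  · have e : E ∩ f ⁻¹' D ∩ (E ∩ f ⁻¹' B) = E ∩ f ⁻¹' (D ∩ B) :=
      Subset.antisymm (fun x hx => ⟨hx.1.1, hx.1.2, hx.2.2⟩)
        fun x hx => ⟨⟨hx.1, hx.2.1⟩, hx.1, hx.2.2⟩
    rw [e]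
    exact bound_van_over hE hf hη hd (hD.inter hB) (fun a ha => h1 a (nT a ha.1) _)
      (vS _ (by norm_num)) (vS _ (by norm_num))
  · exact bound_van_over hE hf hη hd hD (fun a ha => h1 a (nT a ha) _) (vD _ (by norm_num))
      (vD _ (by norm_num)) _ (MV_res_mem _ hu)
  · rw [← MV_res_res hBV inter_subset_right u, uV, map_zero]

/-- a linear map that measures the failure of `r m ∈ A` -/
theorem bound_lin {M M' V : Type} [AddCommGroup M] [Module ℚ M] [Ring M'] [Algebra ℚ M']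
    [AddCommGroup V] [Module ℚ V] (r : M →ₗ[ℚ] M') (A : Submodule ℚ M') (B : V →ₗ[ℚ] M')
    (e : M') (h : ∀ m, ∃ v, r m - B v * e ∈ A) : ∃ ρ : M →ₗ[ℚ] V, ∀ m, ρ m = 0 → r m ∈ A := by
  obtain ⟨ρ, hρ⟩ := Module.projective_lifting_property
    (A.mkQ ∘ₗ LinearMap.mulRight ℚ e ∘ₗ B).rangeRestrict
    ((A.mkQ ∘ₗ r).codRestrict _ fun m => by
      obtain ⟨v, hv⟩ := h m
      exact ⟨v, ((Submodule.Quotient.eq A).2 hv).symm⟩) (LinearMap.surjective_rangeRestrict _)
  refine ⟨ρ, fun m hm => (Submodule.Quotient.mk_eq_zero A).1 ?_⟩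
  have := congrArg Subtype.val (LinearMap.congr_fun hρ m)
  rw [LinearMap.comp_apply, hm, map_zero] at this
  exact this.symm

end Pool.Agent.Lib.MP_d3d358_ag.AS
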