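import Pool.Agent.Lib.MP_d3d358_ag.AS.AsTh
import Pool.Agent.Lib.MP_d3d358_ag.AS.MV

set_option autoImplicit false

namespace Pool.Agent.Lib.MP_d3d358_ag.AS

open Topology Set

/-- a theory read through a projector that commutes with everything -/
def Th.proj {R B : Type} [CommRing R] [MetricSpace B] (T : Th R B) (p : T.M →ₗ[R] T.M)
    (pp : ∀ a, p (p a) = p a) (pd : ∀ a, p (T.d a) = T.d (p a))
    (pD : ∀ k, ∀ a ∈ T.D k, p a ∈ T.D k) (pN : ∀ K, ∀ a ∈ T.N K, p a ∈ T.N K) : Th R B where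
  M := T.M
  d := T.d
  D := T.D
  N K := (T.N K).comap p
  low := T.low
  d_deg := T.d_deg
  d_N := fun K m hm => T.mem_of_eq (T.d_N K _ hm) (pd m)
  dd := fun m => pN _ _ (T.dd m)
  mono := fun K L h _ hm => T.mono K L h hm
  empty := fun _ => T.empty _
  split := fun K L k hL a ha h => by
    obtain ⟨b, hb, b1, b2⟩ := T.split K L k hL (p a) (pD _ _ ha) h
    exact ⟨b, hb, pN _ _ b1, T.mem_of_eq (pN _ _ b2) (by rw [map_sub, map_sub, pp])⟩
  union := fun K L k hK hL a ha h1 h2 h => by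
    obtain ⟨b, hb, b1, b2, e⟩ := T.union K L k hK hL (p a) (pD _ _ ha) h1 h2
      (T.mem_of_eq h (pd a).symm)
    exact ⟨b, hb, pN _ _ b1, pN _ _ b2, T.mem_of_eq (pN _ _ e) (by rw [map_sub, map_sub, pp])⟩
  nhds := fun K L k hK hL hKL a ha h1 V hV h => by
    obtain ⟨b, hb, b1, V', hV', e⟩ := T.nhds K L k hK hL hKL (p a) (pD _ _ ha) h1 V hV
      (T.mem_of_eq h (pd a).symm)
    exact ⟨b, hb, pN _ _ b1, V', hV', T.mem_of_eq (pN _ _ e) (by rw [map_sub, map_sub, pp])⟩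

variable {Z Z' R G : Type} [Field R] [CharZero R] [MetricSpace Z] [MetricSpace Z'] [Group G]
  [Fintype G] [MulAction G Z'] {K : Set Z} {K' : Set Z'}

variable (G) in
/-- the average over the group -/
noncomputable def trAvg : Ch Z' R →ₗ[R] Ch Z' R where
  toFun a := (Fintype.card G : R)⁻¹ • ∑ g : G, pullC (fun x : Z' => g • x) a
  map_add' a b := by simp only [map_add, Finset.sum_add_distrib, smul_add]
  map_smul' c a := by
    simp only [map_smul, RingHom.id_apply, ← Finset.smul_sum, smul_smul, mul_comm]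

omit [CharZero R] [MetricSpace Z'] in
theorem trAvg_apply (a : Ch Z' R) :
    trAvg G a = (Fintype.card G : R)⁻¹ • ∑ g : G, pullC (fun x : Z' => g • x) a := rfl

omit [CharZero R] [MetricSpace Z'] in
theorem trAvg_inv (h : G) (a : Ch Z' R) : pullC (fun x : Z' => h • x) (trAvg G a) = trAvg G a := by
  rw [trAvg_apply, map_smul, map_sum]
  congr 1
  rw [← Equiv.sum_comp (Equiv.mulRight h) fun g : G => pullC (fun x : Z' => g • x) a]
  refine Finset.sum_congr rfl fun g _ => ?_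
  rw [pullC_pullC]
  congr 2
  funext x
  simp [mul_smul]

omit [MetricSpace Z'] [Group G] [MulAction G Z'] in
theorem trAvg_const [Nonempty G] (a : Ch Z' R) : (Fintype.card G : R)⁻¹ • ∑ _g : G, a = a := by
  rw [Finset.sum_const, Finset.card_univ, ← Nat.cast_smul_eq_nsmul R, smul_smul,
    inv_mul_cancel₀ (Nat.cast_ne_zero.2 Fintype.card_ne_zero), one_smul]

omit [MetricSpace Z'] in
theorem trAvg_avg (a : Ch Z' R) : trAvg G (trAvg G a) = trAvg G a := by
  rw [trAvg_apply (trAvg G a)]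
  simp only [trAvg_inv]
  exact trAvg_const _

omit [CharZero R] [MetricSpace Z'] in
theorem trAvg_d (a : Ch Z' R) : trAvg G (dC a) = dC (trAvg G a) := by
  simp only [trAvg_apply, map_smul, map_sum, dC_pullC]

omit [CharZero R] [MetricSpace Z'] in
theorem trAvg_mem {k : ℤ} {a : Ch Z' R} (h : a ∈ DZ k) : trAvg G a ∈ DZ k := by
  rw [trAvg_apply]
  exact Submodule.smul_mem _ _ (Submodule.sum_mem _ fun g _ => pullC_mem _ h)

omit [CharZero R] in
theorem trAvg_N {S : Set Z'} (hc : ∀ g : G, ContinuousOn (fun x : Z' => g • x) S)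
    (hG : ∀ g : G, MapsTo (fun x : Z' => g • x) S S) {a : Ch Z' R} (h : a ∈ N S) :
    trAvg G a ∈ N S := by
  rw [trAvg_apply]
  exact Submodule.smul_mem _ _ (Submodule.sum_mem _ fun g _ => N_pullC (hc g) (hG g) h)

theorem trAvg_sub {S : Set Z'} {a : Ch Z' R} (c : G → Ch Z' R)
    (h : ∀ g : G, pullC (fun x : Z' => g • x) a - a - dC (c g) ∈ N S) :
    trAvg G a - a - dC ((Fintype.card G : R)⁻¹ • ∑ g : G, c g) ∈ N S := by
  have := Submodule.smul_mem _ (Fintype.card G : R)⁻¹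
    (Submodule.sum_mem _ fun g (_ : g ∈ Finset.univ) => h g)
  rwa [Finset.sum_sub_distrib, Finset.sum_sub_distrib, smul_sub, smul_sub, trAvg_const,
    ← trAvg_apply, ← map_sum, ← map_smul] at this

theorem trAvg_pull {f : Z' → Z} (h : ∀ x ∈ K', ∀ g : G, f (g • x) = f x) (a : Ch Z R) :
    trAvg G (pullC f a) - pullC f a ∈ N K' := by
  have := trAvg_sub (S := K') (a := pullC f a) (fun _ : G => 0) fun g => by
    rw [map_zero, sub_zero, pullC_pullC]
    exact pullC_congr (fun x hx => h x hx g) a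
  simpa using this

theorem transfer_inj {f : Z' → Z} (hfg : ∀ x ∈ K', ∀ g : G, f (g • x) = f x) {y : Z'}
    (hy : y ∈ K') (a : Ch Z R) (b : Ch Z' R)
    (e : trAvg G (pullC f a - dC b) ∈ N (K' ∩ f ⁻¹' {f y})) :
    a - dC (pullC (fun _ : Z => y) (trAvg G b)) ∈ N (K ∩ id ⁻¹' {f y}) := by
  have e1 := N_pullC (K' := K ∩ id ⁻¹' {f y}) (K := K' ∩ f ⁻¹' {f y}) (f := fun _ : Z => y)
    continuousOn_const (fun _ _ => ⟨hy, rfl⟩)
    (sub_mem e (N_mono inter_subset_left (trAvg_pull hfg a)))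
  have e2 := pullC_congr (K' := K ∩ id ⁻¹' {f y}) (f := id) (g := f ∘ fun _ : Z => y)
    (fun z hz => hz.2) a
  convert add_mem e1 e2 using 1
  simp only [map_sub, trAvg_d, pullC_pullC, pullC_id, dC_pullC]
  abel

theorem transfer_surj {f : Z' → Z} (hfg : ∀ x ∈ K', ∀ g : G, f (g • x) = f x) {y : Z'}
    (hy : y ∈ K') (horb : ∀ z ∈ K' ∩ f ⁻¹' {f y}, ∃ g : G, g • y = z)
    (hN : ∀ a : Ch Z' R, a ∈ N (K' ∩ f ⁻¹' {f y}) → trAvg G a ∈ N (K' ∩ f ⁻¹' {f y})) {k : ℤ}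
    {b : Ch Z' R} (hb : b ∈ DZ k) (h : trAvg G (dC b) ∈ N (K' ∩ f ⁻¹' {f y})) :
    ∃ a : Ch Z R, a ∈ DZ k ∧ dC a ∈ N (K ∩ id ⁻¹' {f y}) ∧ ∃ b' : Ch Z' R, b' ∈ DZ (k - 1) ∧
      trAvg G (b - pullC f a - dC b') ∈ N (K' ∩ f ⁻¹' {f y}) := by
  rw [trAvg_d] at h
  rcases lt_trichotomy k 0 with hk | rfl | hk
  · refine ⟨0, zero_mem _, by simp, 0, zero_mem _, ?_⟩
    rw [DZ_neg hk hb]
    simp
  · refine ⟨pullC (fun _ : Z => y) (trAvg G b), pullC_mem _ (trAvg_mem hb), ?_, 0, zero_mem _, ?_⟩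
    · rw [dC_pullC]
      exact N_pullC (K := K' ∩ f ⁻¹' {f y}) continuousOn_const (fun _ _ => ⟨hy, rfl⟩) h
    · have e : trAvg G b - pullC f (pullC (fun _ : Z => y) (trAvg G b))
          ∈ N (K' ∩ f ⁻¹' {f y}) := by
        refine fun z _ => ⟨univ, Filter.univ_mem, fun l hl => ?_⟩
        by_cases h1 : (l.length : ℤ) = 0 + 1
        · obtain ⟨w, rfl⟩ := List.length_eq_one_iff.1 (show l.length = 1 by omega)
          obtain ⟨g, rfl⟩ := horb w (hl w (by simp)).2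
          have := congrArg (fun c : Ch Z' R => c.1 [y]) (trAvg_inv g b)
          exact sub_eq_zero.2 this
        · exact sub_mem (trAvg_mem hb) (pullC_mem _ (pullC_mem _ (trAvg_mem hb))) l h1
      convert sub_mem e (N_mono inter_subset_left
        (trAvg_pull hfg (pullC (fun _ : Z => y) (trAvg G b)))) using 1
      simp only [map_sub, map_zero]
      abel
  · obtain ⟨c, hc, e⟩ := N_finite ((finite_range fun g : G => g • y).subset horb) hk
      (trAvg_mem hb) h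
    refine ⟨0, zero_mem _, by simp, c, hc, ?_⟩
    convert hN _ e using 1
    simp only [map_sub, map_zero, trAvg_avg, sub_zero]

theorem transfer (hK' : IsCompact K') (hc : ∀ g : G, ContinuousOn (fun x : Z' => g • x) K')
    (hG : ∀ g : G, MapsTo (fun x : Z' => g • x) K' K') {f : Z' → Z} (hf : ContinuousOn f K')
    (hm : MapsTo f K' K) (hs : SurjOn f K' K)
    (hfib : ∀ x ∈ K', ∀ y ∈ K', f x = f y ↔ ∃ g : G, g • x = y) :
    (∀ k, ∀ u ∈ Hk (R := R) K k, pull f hf hm u = 0 → u = 0) ∧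
    ∀ k, ∀ y ∈ Hk (R := R) K' k, (∀ g : G, pull _ (hc g) (hG g) y = y) →
      ∃ u ∈ Hk K k, pull f hf hm u = y := by
  have hK : IsCompact K := by
    rw [← (hs.image_eq_of_mapsTo hm : f '' K' = K)]
    exact hK'.image_of_continuousOn hf
  have hfg : ∀ x ∈ K', ∀ g : G, f (g • x) = f x := fun x hx g =>
    ((hfib x hx _ (hG g hx)).2 ⟨g, rfl⟩).symm
  have hN : ∀ (S : Set Z) (a : Ch Z' R), a ∈ N (K' ∩ f ⁻¹' S) → trAvg G a ∈ N (K' ∩ f ⁻¹' S) :=
    fun S a h => trAvg_N (fun g => (hc g).mono inter_subset_left)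
      (fun g x hx => ⟨hG g hx.1, by rw [mem_preimage, hfg x hx.1]; exact hx.2⟩) h
  have key : ∀ n : ℤ, (∀ k ≤ n + 1, ∀ a : Ch Z R, a ∈ DZ k → dC a ∈ N (K ∩ id ⁻¹' K) →
      (∃ b : Ch Z' R, b ∈ DZ (k - 1) ∧ trAvg G (pullC f a - dC b) ∈ N (K' ∩ f ⁻¹' K)) →
      ∃ a' : Ch Z R, a' ∈ DZ (k - 1) ∧ a - dC a' ∈ N (K ∩ id ⁻¹' K)) ∧
      ∀ k ≤ n, ∀ b : Ch Z' R, b ∈ DZ k → trAvg G (dC b) ∈ N (K' ∩ f ⁻¹' K) →
      ∃ a : Ch Z R, a ∈ DZ k ∧ dC a ∈ N (K ∩ id ⁻¹' K) ∧ ∃ b' : Ch Z' R, b' ∈ DZ (k - 1) ∧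
        trAvg G (b - pullC f a - dC b') ∈ N (K' ∩ f ⁻¹' K) := fun n =>
    Th.compare (asTh R hK id continuousOn_id)
      ((asTh R hK' f hf).proj (trAvg G) trAvg_avg trAvg_d (fun _ _ => trAvg_mem) hN)
      (pullC f).toLinearMap (fun _ _ h => pullC_mem f h)
      (fun S a h => hN S _ (N_pullC (K := K ∩ id ⁻¹' S) (hf.mono inter_subset_left)
        (fun x hx => ⟨hm hx.1, hx.2⟩) h))
      (fun a : Ch Z R => hN univ _ (by
        change pullC f (dC a) - dC (pullC f a) ∈ _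
        rw [dC_pullC, sub_self]
        exact zero_mem _)) hK n
      (fun x hx k _ a _ _ ⟨b, hb, e⟩ => by
        obtain ⟨y, hy, rfl⟩ := hs hx
        exact ⟨_, pullC_mem _ (trAvg_mem hb), transfer_inj hfg hy a b e⟩)
      (fun x hx k _ b hb h => by
        obtain ⟨y, hy, rfl⟩ := hs hx
        exact transfer_surj hfg hy (fun z hz => (hfib y hy z hz.1).1 hz.2.symm) (hN _) hb h)
  have e1 : K ∩ id ⁻¹' K = K := inter_self K
  have e2 : K' ∩ f ⁻¹' K = K' := inter_eq_left.2 hm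
  have hN' := hN K
  rw [e1, e2] at key
  rw [e2] at hN'
  constructor
  · rintro k _ ⟨a, h, ha, rfl⟩ h0
    rw [pull_mk f hf hm h (by rw [dC_pullC]; exact N_pullC hf hm h),
      mk_eq_zero_iff (pullC_mem f ha)] at h0
    obtain ⟨c, hc, e⟩ := h0
    exact (mk_eq_zero_iff ha h).2 ((key k).1 k (by omega) a ha h ⟨c, hc, hN' _ e⟩)
  · rintro k _ ⟨b, h, hb, rfl⟩ hy
    obtain ⟨a, ha, da, b', -, e⟩ := (key k).2 k le_rfl b hb (hN' _ h)
    have hg : ∀ g : G, ∃ c, pullC (fun x : Z' => g • x) b - b - dC c ∈ N K' := fun g => by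
      have := hy g
      rwa [pull_mk _ (hc g) (hG g) h (by rw [dC_pullC]; exact N_pullC (hc g) (hG g) h),
        mk_eq_iff] at this
    choose c hc using hg
    refine ⟨mk a da, ⟨a, da, ha, rfl⟩, ?_⟩
    rw [pull_mk f hf hm da (by rw [dC_pullC]; exact N_pullC hf hm da), mk_eq_iff]
    refine ⟨(Fintype.card G : R)⁻¹ • ∑ g : G, c g - trAvg G b', ?_⟩
    have := sub_mem (sub_mem (trAvg_sub c hc) e) (trAvg_pull hfg a)
    rw [map_sub, map_sub, trAvg_d] at this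
    convert this using 1
    rw [map_sub]
    abel

end Pool.Agent.Lib.MP_d3d358_ag.AS
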