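import Pool.Agent.Lib.MP_d3d358_ag.AS.Hopf
import Pool.Agent.Lib.MP_d3d358_ag.AS.Leray
import Pool.Agent.Lib.MP_d3d358_ag.AS.Transfer
import Pool.Agent.Lib.MP_d3d358_ag.AS.Sphere

set_option autoImplicit false

namespace Pool.Agent.Lib.MP_d3d358_ag.AS

open Topology Set

variable {m : ℕ} {P : Type} [MetricSpace P]
variable {S : Set (EuclideanSpace ℂ (Fin m))} {pr : EuclideanSpace ℂ (Fin m) → P}

theorem WP_res {R : Type} [CommRing R] {A B C : Set P} (h : A ⊆ B) (h' : B ⊆ C) (x : HT R C) :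
    res h (res h' x) = res (h.trans h') x := pull_pull x

theorem WP_pow {R : Type} [CommRing R] {F : Set P} {x : HT R F} (hx : x ∈ Hk F 2) (n : ℕ) :
    x ^ n ∈ Hk F (2 * n) := by
  induction n with
  | zero => simpa using one_mem_Hk
  | succ n ih =>
    rw [pow_succ, Nat.cast_succ, mul_add, mul_one]
    exact mul_mem_Hk ih hx

theorem WP_nil {R : Type} [CommRing R] {F : Set P} {x : HT R F} (hx : x ∈ Hk F 2) {ι : Type}
    {A : ι → Set P} (hA : ∀ i, IsCompact (A i)) (hF : ∀ i, A i ⊆ F) (h0 : ∀ i, res (hF i) x = 0)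
    (s : Finset ι) : ∀ (T : Set P) (hT : T ⊆ F), IsCompact T → T ⊆ ⋃ i ∈ s, A i →
      res hT (x ^ s.card) = 0 := by
  classical
  induction s using Finset.induction_on with
  | empty =>
    intro T hT _ h
    obtain rfl : T = ∅ := by simpa using h
    obtain ⟨a, da, ha, e⟩ := pull_mem (hf := continuousOn_id) (hm := hT) (WP_pow hx _)
    exact e.trans ((mk_eq_zero_iff ha da).2 ⟨0, Submodule.zero_mem _, N_empty _⟩)
  | insert j s hj ih =>
    intro T hT cT h
    have cL : IsCompact (T ∩ ⋃ i ∈ s, A i) :=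
      cT.inter_right (s.isCompact_biUnion fun i _ => hA i).isClosed
    rw [Finset.card_insert_of_notMem hj, pow_succ', map_mul]
    refine mul_eq_zero_of_cover (cT.inter_right (hA j).isClosed) cL inter_subset_left
      inter_subset_left ?_ (pull_mem hx) (pull_mem (WP_pow hx _)) ?_ ?_
    · rwa [← inter_union_distrib_left, subset_inter_iff, and_iff_right subset_rfl,
        ← Finset.set_biUnion_insert]
    · rw [WP_res, ← WP_res inter_subset_right (hF j), h0, map_zero]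
    · rw [WP_res]
      exact ih _ _ cL inter_subset_right

/-- the class `η` is nilpotent -/
theorem WP_eta (h : CB S pr) {R : Type} [CommRing R] {θ : Ch (EuclideanSpace ℂ (Fin m)) R}
    {η : Ch P R} (hθ : θ ∈ DZ 1) (hη : η ∈ DZ 2) (hdη : dC η ∈ N (pr '' S))
    (hdθ : dC θ - pullC pr η ∈ N S) : mk η hdη ^ m = 0 := by
  let T : Fin m → Set (EuclideanSpace ℂ (Fin m)) := fun j =>
    S ∩ {v | (v j).im = 0 ∧ ∀ i, ‖v i‖ ≤ (v j).re}
  have cT : ∀ j, IsCompact (T j) := fun j => h.cpt.inter_right (by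
    simp only [setOf_and, setOf_forall]
    exact (isClosed_eq (by fun_prop) continuous_const).inter
      (isClosed_iInter fun i => isClosed_le (by fun_prop) (by fun_prop)))
  have nz : ∀ v ∈ S, ¬∀ i, v i = 0 := fun v hv e => by
    have := h.unit v hv
    rw [show v = 0 from by ext i; exact e i, norm_zero] at this
    exact zero_ne_one this
  have ct : ∀ j, ContinuousOn pr (T j) := fun j => h.cont.mono inter_subset_left
  have inj : ∀ j, InjOn pr (T j) := fun j v hv w hw e => by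
    obtain ⟨c, rfl⟩ := (h.fib v hv.1 w hw.1).1 e
    have c1 : ‖c‖ = 1 := by simpa [norm_smul, h.unit v hv.1] using h.unit _ hw.1
    have r1 : ∀ z : ℂ, z.im = 0 → ‖z‖ ≤ z.re → z = ‖z‖ := fun z a b =>
      Complex.ext (by simpa using (Complex.re_le_norm z).antisymm b) (by simpa using a)
    have v0 : v j ≠ 0 := fun e => nz v hv.1 fun i =>
      norm_le_zero_iff.1 (by simpa [e] using hv.2.2 i)
    have e1 := r1 _ hv.2.1 (hv.2.2 j)
    have e2 := r1 _ hw.2.1 (hw.2.2 j)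
    rw [PiLp.smul_apply, norm_smul, c1, one_mul, ← e1, smul_eq_mul] at e2
    rw [(mul_eq_right₀ v0).1 e2, one_smul]
  have := WP_nil (⟨η, hdη, hη, rfl⟩ : mk η hdη ∈ Hk _ 2) (A := fun j => pr '' T j)
    (fun j => (cT j).image_of_continuousOn (ct j)) (fun j => image_mono inter_subset_left)
    (fun j => ?_) Finset.univ _ subset_rfl (h.cpt.image_of_continuousOn h.cont) ?_
  · rwa [res_self, Finset.card_univ, Fintype.card_fin] at this
  · have d := N_mono (inter_subset_left : T j ⊆ S) hdθ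
    have d' : dC (pullC pr η) ∈ N (T j) := by
      rw [dC_pullC]; exact N_pullC (ct j) (fun v hv => mem_image_of_mem _ hv.1) hdη
    refine (pull_bij (cT j) (ct j) (inj j).bijOn_image).1 ?_
    rw [map_zero, res_mk, pull_mk _ _ _ _ d', mk_eq_zero_iff (pullC_mem _ hη)]
    exact ⟨θ, hθ, by rw [← neg_sub]; exact Submodule.neg_mem _ d⟩
  · rintro _ ⟨v, hv, rfl⟩
    obtain ⟨i, hi⟩ := not_forall.1 (nz v hv)
    haveI : Nonempty (Fin m) := ⟨i⟩
    obtain ⟨j, hj⟩ := Finite.exists_max fun i => ‖v i‖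
    have v0 : v j ≠ 0 := fun e => hi (norm_le_zero_iff.1 (by simpa [e] using hj i))
    have n0 : (‖v j‖ : ℂ) ≠ 0 := by simpa using v0
    have c1 : ‖(‖v j‖ : ℂ) / v j‖ = 1 := by simp [v0]
    have e : (((‖v j‖ : ℂ) / v j) • v) j = ‖v j‖ := by
      rw [PiLp.smul_apply, smul_eq_mul, div_mul_cancel₀ _ v0]
    refine mem_biUnion (Finset.mem_univ j) ⟨_, ⟨h.inv v hv _ c1, by rw [e]; simp, fun i => ?_⟩,
      ((h.fib v hv _ (h.inv v hv _ c1)).2 ⟨_, rfl⟩).symm⟩
    rw [e, PiLp.smul_apply, norm_smul, c1, one_mul, Complex.ofReal_re]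
    exact hj i

/-- (WP): `u` is homogeneous up to the finite group `G`; the fibre is the image of the sphere -/
theorem CB.wp (h : CB S pr) {R : Type} [Field R] [CharZero R]
    {θ : Ch (EuclideanSpace ℂ (Fin m)) R} {η : Ch P R} (hθ : θ ∈ DZ 1) (hη : η ∈ DZ 2)
    (hdη : dC η ∈ N (pr '' S)) (hdθ : dC θ - pullC pr η ∈ N S)
    (hF : ∀ n, ∀ w ∈ pr '' S, FibOK (S ∩ pr ⁻¹' {w}) 1 n θ) {r : ℕ} (hr : 1 ≤ r) {G : Type} [Group G]
    [Fintype G] [MulAction G (EuclideanSpace ℂ (Fin (r + 1)))]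
    (hc : ∀ g : G, Continuous fun x : EuclideanSpace ℂ (Fin (r + 1)) => g • x)
    (hG : ∀ (g : G) (x : EuclideanSpace ℂ (Fin (r + 1))), ‖g • x‖ = ‖x‖)
    {u : EuclideanSpace ℂ (Fin (r + 1)) → EuclideanSpace ℂ (Fin m)}
    (hu : ContinuousOn u (Metric.sphere 0 1)) {F : Set P}
    (him : u '' Metric.sphere 0 1 = S ∩ pr ⁻¹' F) (hFS : F ⊆ pr '' S)
    (hfib : ∀ x ∈ Metric.sphere (0 : EuclideanSpace ℂ (Fin (r + 1))) 1,
      ∀ y ∈ Metric.sphere (0 : EuclideanSpace ℂ (Fin (r + 1))) 1, u x = u y ↔ ∃ g : G, g • x = y) :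
    FibOK F 2 3 η ∧ ∀ k : ℤ, 2 * r < k → Van R F k := by
  have cS : IsCompact (Metric.sphere (0 : EuclideanSpace ℂ (Fin (r + 1))) 1) := isCompact_sphere _ _
  have cE : IsCompact (S ∩ pr ⁻¹' F) := him ▸ cS.image_of_continuousOn hu
  have cp : ContinuousOn pr (S ∩ pr ⁻¹' F) := h.cont.mono inter_subset_left
  have mp : MapsTo pr (S ∩ pr ⁻¹' F) F := fun _ hv => hv.2
  have eF : F = pr '' (S ∩ pr ⁻¹' F) := by rw [image_inter_preimage, inter_eq_right.2 hFS]
  have cF : IsCompact F := eF ▸ cE.image_of_continuousOn cp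
  have rk : Module.finrank ℝ (EuclideanSpace ℂ (Fin (r + 1))) = 2 * (r + 1) := by
    rw [finrank_real_of_complex, finrank_euclideanSpace_fin]
  have cn : IsConnected F := by
    rw [eF]
    refine IsConnected.image ?_ _ cp
    rw [← him]
    refine (isConnected_sphere ?_ _ zero_le_one).image _ hu
    rw [← Module.finrank_eq_rank, rk]
    exact_mod_cast (by omega : 1 < 2 * (r + 1))
  have mu : MapsTo u (Metric.sphere 0 1) (S ∩ pr ⁻¹' F) := him ▸ mapsTo_image _ _
  have vE : ∀ k : ℤ, 0 < k → k ≠ 2 * r + 1 → Van R (S ∩ pr ⁻¹' F) k := fun k k0 k1 x hx =>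
    (transfer cS (fun g => (hc g).continuousOn) (fun g x hx => by simpa [hG] using hx) hu mu
      him.ge hfib).1 k x hx
      (van_sphere R 0 one_pos k0 (by rw [rk]; push_cast; omega) _ (pull_mem hx))
  have dη : dC η ∈ N F := N_mono hFS hdη
  have dθ : dC θ - pullC pr η ∈ N (S ∩ pr ⁻¹' F) := N_mono inter_subset_left hdθ
  have L : ∀ k : ℤ, 0 < k → k ≠ 2 * r + 1 → ∀ a ∈ DZ k, ∀ b ∈ DZ (k - 1), dC b ∈ N F →
      sg b * η + dC a ∈ N F → ∃ a' ∈ DZ (k - 1), ∃ b' ∈ DZ (k - 1 - 1), b - dC b' ∈ N F ∧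
        a - (sg b' * η + dC a') ∈ N F := fun k k0 k1 a ha b hb db da => by
    refine (leray cE cF cp mp one_pos hθ hη dη dθ (n := k) fun w hw => ?_).1 k (by omega) a ha b hb
      db da ?_
    · have : S ∩ pr ⁻¹' F ∩ pr ⁻¹' {w} = S ∩ pr ⁻¹' {w} := by
        rw [inter_assoc, inter_eq_right.2 (preimage_mono (singleton_subset_iff.2 hw))]
      exact this ▸ hF k w (hFS hw)
    have d : dC (pullC pr a + pullC pr b * θ) ∈ N (S ∩ pr ⁻¹' F) := by
      have : dC (pullC pr a + pullC pr b * θ) = pullC pr (sg b * η + dC a) +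
          pullC pr (dC b) * θ + pullC pr (sg b) * (dC θ - pullC pr η) := by
        rw [map_add, map_add, dC_mul, map_mul, dC_pullC, dC_pullC, sg_pullC, mul_sub]
        abel
      rw [this]
      exact Submodule.add_mem _ (Submodule.add_mem _ (N_pullC cp mp da)
        (N_mul_right (N_pullC cp mp db) _)) (N_mul_left _ dθ)
    exact (mk_eq_zero_iff (Leray_deg hθ ha hb) d).1 (vE k k0 k1 _ ⟨_, d, Leray_deg hθ ha hb, rfl⟩)
  have dsg : ∀ b : Ch P R, dC b ∈ N F → dC (sg b) ∈ N F := fun b db => by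
    rw [dC_sg]; exact Submodule.neg_mem _ (N_sg db)
  have dm : ∀ b : Ch P R, dC b ∈ N F → dC (b * η) ∈ N F := fun b db => by
    rw [dC_mul]; exact Submodule.add_mem _ (N_mul_right db _) (N_mul_left _ dη)
  have onto : ∀ k : ℤ, 0 < k → k ≠ 2 * r + 1 → ∀ x ∈ Hk (R := R) F k,
      ∃ y ∈ Hk F (k - 1 - 1), x = y * AS.mk η dη := by
    rintro k k0 k1 _ ⟨a, da, ha, rfl⟩
    obtain ⟨a', -, b', b1, b2, e⟩ := L k k0 k1 a ha 0 (Submodule.zero_mem _)
      (by rw [map_zero]; exact Submodule.zero_mem _) (by rwa [map_zero, zero_mul, zero_add])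
    rw [zero_sub, Submodule.neg_mem_iff] at b2
    refine ⟨_, ⟨sg b', dsg _ b2, sg_mem b1, rfl⟩, ?_⟩
    rw [← mk_mul _ _ (dm _ (dsg _ b2)), mk_eq_iff]
    exact ⟨a', by rwa [sub_sub]⟩
  have into : ∀ j : ℤ, 0 ≤ j → j ≠ 2 * r → ∀ y ∈ Hk (R := R) F j, y * AS.mk η dη = 0 → y = 0 := by
    rintro j j0 j1 _ ⟨b, db, hb, rfl⟩ e
    have hm := mul_mem_DZ hb hη
    rw [← mk_mul _ _ (dm _ db), mk_eq_zero_iff hm] at e
    obtain ⟨a, ha, e⟩ := e
    obtain ⟨-, -, b', b1, b2, -⟩ := L (j + 1) (by omega) (by omega) (-a)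
      (Submodule.neg_mem _ (by rwa [show j + 1 = j + 2 - 1 by ring])) (sg b)
      (by rw [add_sub_cancel_right]; exact sg_mem hb) (dsg _ db)
      (by rwa [sg_sg, map_neg, ← sub_eq_add_neg])
    have := N_sg b2
    rw [map_sub, sg_sg, sub_eq_add_neg, ← dC_sg, ← sub_neg_eq_add, ← map_neg] at this
    rw [add_sub_cancel_right] at b1
    exact (mk_eq_zero_iff hb db).2 ⟨_, Submodule.neg_mem _ (sg_mem b1), this⟩
  have eη : AS.mk η dη ∈ Hk F 2 := ⟨η, dη, hη, rfl⟩
  have top : ∀ k : ℤ, 2 * r < k → Van R F k := fun k hk x hx => by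
    have nil : AS.mk η dη ^ m = 0 := by
      rw [← res_mk hFS hdη, ← map_pow, WP_eta h hθ hη hdη hdθ, map_zero]
    have : ∀ n : ℕ, x * AS.mk η dη ^ n = 0 → x = 0 := fun n => by
      induction n with
      | zero => simp
      | succ n ih =>
        intro e
        rw [pow_succ, ← mul_assoc] at e
        exact ih (into _ (by omega) (by omega) _ (mul_mem_Hk hx (WP_pow eη n)) e)
    exact this m (by rw [nil, mul_zero])
  have one : Van R F 1 := fun x hx => by
    obtain ⟨y, hy, rfl⟩ := onto 1 one_pos (by omega) x hx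
    rw [Hk_neg (by norm_num) hy, zero_mul]
  refine ⟨⟨cn.isPreconnected, cn.nonempty, fun k k0 k3 k2 x hx => ?_, dη, fun e => ?_,
    fun x hx => ?_⟩, top⟩
  · obtain rfl | rfl : k = 1 ∨ k = 3 := by omega
    · exact one x hx
    by_cases r1 : r = 1
    · exact top 3 (by omega) x hx
    · obtain ⟨y, hy, rfl⟩ := onto 3 (by omega) (by omega) x hx
      rw [one y hy, zero_mul]
  · have := into 0 le_rfl (by omega) 1 one_mem_Hk (by rw [e, mul_zero])
    exact one_ne_zero (smul_one_ne (c := (1 : R)) cn.nonempty (by rw [this, smul_zero]))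
  · obtain ⟨y, hy, rfl⟩ := onto 2 two_pos (by omega) x hx
    obtain ⟨c, rfl⟩ := Hk_zero cn.isPreconnected hy
    exact ⟨c, by rw [smul_mul_assoc, one_mul]⟩

end Pool.Agent.Lib.MP_d3d358_ag.AS
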