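import Pool.Agent.Lib.MP_d3d358_ag.AS.KumB
import Pool.Agent.Lib.MP_d3d358_ag.AS.WP
import Pool.Agent.Lib.MP_d3d358_ag.AS.Blow
import Pool.Agent.Lib.MP_d3d358_ag.AS.BoundA

set_option autoImplicit false

namespace Pool.Agent.Lib.MP_d3d358_ag.AS

open Topology Set ExteriorAlgebra

variable {P : Matrix (Fin 2) (Fin 4) ℂ} {X : Type} [MetricSpace X] [CompactSpace X] {m : ℕ}
  {S : Set (EuclideanSpace ℂ (Fin m))} {pr : EuclideanSpace ℂ (Fin m) → X}

namespace KumTop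

section
variable (T : KumTop P S pr)

/-- the singular locus of the quotient, parametrised by the four torus -/
def boundG (a : Tor (Fin 4)) : T.W := T.q (dg a)

/-- the exceptional divisor -/
def boundE : Set X := univ ∩ T.π ⁻¹' range T.boundG

/-- the projection of the exceptional divisor -/
noncomputable def boundF (x : X) : Tor (Fin 4) := Function.invFun T.boundG (T.π x)

omit [CompactSpace X] in
theorem bound_cG : Continuous T.boundG :=
  T.cq.comp (continuous_pi fun i => by cases i <;> exact continuous_apply _)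

omit [CompactSpace X] in
theorem bound_GF {x : X} (hx : x ∈ T.boundE) : T.boundG (T.boundF x) = T.π x :=
  Function.invFun_eq hx.2

theorem bound_cF : ContinuousOn T.boundF T.boundE :=
  (T.bound_cG.isClosedEmbedding T.q_dg_inj).isInducing.continuousOn_iff.2
    (T.cπ.continuousOn.congr fun _ hx => T.bound_GF hx)

theorem bound_cE : IsCompact T.boundE :=
  Blow_compact isCompact_univ T.cπ.continuousOn (isCompact_range T.bound_cG)

theorem bound_fib (a : Tor (Fin 4)) : T.boundE ∩ T.boundF ⁻¹' {a} = T.π ⁻¹' {T.q (dg a)} := by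
  ext x
  constructor
  · rintro ⟨hx, rfl⟩
    exact (T.bound_GF hx).symm
  · intro hx
    have hE : x ∈ T.boundE := ⟨trivial, a, Eq.symm hx⟩
    exact ⟨hE, T.q_dg_inj ((T.bound_GF hE).trans hx)⟩

omit [CompactSpace X] in
theorem bound_maps : MapsTo T.π univ (range T.q) := fun x _ => T.rng ▸ mem_range_self x

omit [CompactSpace X] in
theorem bound_surj : SurjOn T.π univ (range T.q) := fun w hw => by
  rw [image_univ, T.rng]; exact hw

omit [CompactSpace X] in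
theorem bound_sub : range T.boundG ⊆ range T.q := fun _ ⟨a, h⟩ => ⟨dg a, h⟩

omit [CompactSpace X] in
theorem bound_inj : InjOn T.π (univ \ T.π ⁻¹' range T.boundG) := fun x hx y _ h => by
  obtain ⟨n, hn⟩ := T.bound_maps (mem_univ x)
  have fr : Free n := by
    by_contra hf
    obtain ⟨s, a, rfl⟩ := not_free_iff.1 hf
    exact hx.2 ⟨a, ((T.q_iff _ _).2 ⟨s, rfl⟩).trans hn⟩
  rw [T.uniq n x fr hn.symm, T.uniq n y fr (h ▸ hn.symm)]

theorem bound_bij : BijOn T.boundG univ (range T.boundG) :=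
  ⟨mapsTo_univ_iff.2 mem_range_self, T.q_dg_inj.injOn, by rw [SurjOn, image_univ]⟩

theorem bound_desc (k : ℕ) {x : HT ℚ (univ : Set X)} (hx : x ∈ Hk univ (k : ℤ))
    {a : HT ℚ (univ : Set (Tor (Fin 4)))} (ha : a ∈ Hk univ (k : ℤ))
    (h : res (subset_univ T.boundE) x = pull T.boundF T.bound_cF (mapsTo_univ _ _) a) :
    ∃ u ∈ ⋀[ℚ]^k (Orb.V × Orb.V), (∀ s, Orb.act s u = u) ∧ T.j ℚ x = T.β u := by
  obtain ⟨e, he, rfl⟩ := (pull_bij (R := ℚ) isCompact_univ T.bound_cG.continuousOn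
    T.bound_bij).2 k a ha
  obtain ⟨w, hw, rfl⟩ := blow_surj isCompact_univ T.cπ.continuousOn T.bound_maps T.bound_surj
    (isCompact_range T.bound_cG) T.bound_sub T.bound_inj hx he
    (h.trans ((pull_pull e).trans (pull_congr (fun _ hx => T.bound_GF hx) e)))
  exact T.W_cls k hw _ _
end

variable (T : KumTop P S pr) {θ : Ch (EuclideanSpace ℂ (Fin m)) ℚ} {η : Ch X ℚ} (hθ : θ ∈ DZ 1)
  (hη : η ∈ DZ 2) (hdη : dC η ∈ N univ) (hdθ : dC θ - pullC pr η ∈ N S)
  (hF : ∀ n, ∀ w, FibOK (S ∩ pr ⁻¹' {w}) 1 n θ)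
include hθ hη hdθ hF

section
include hdη

include T in
omit [CompactSpace X] in
theorem bound_wp {F : Set X} {r : ℕ} (hr : 1 ≤ r) (h : WPData S pr F r) :
    FibOK F 2 3 η ∧ ∀ k : ℤ, 2 * r < k → Van ℚ F k := by
  obtain ⟨G, _, _, _, u, h1, h2, h3, h4, h5⟩ := h
  exact T.cb.wp hθ hη (T.onto ▸ hdη) hdθ (fun n w _ => hF n w) hr h1 h2 h3 h4
    (T.onto ▸ subset_univ _) h5

theorem bound_leray {k : ℤ} (hk : k ≤ 3) {x : HT ℚ (univ : Set X)} (hx : x ∈ Hk univ k) :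
    ∃ a ∈ Hk univ k, ∃ b ∈ Hk univ (k - 2), res (subset_univ T.boundE) x =
      pull T.boundF T.bound_cF (mapsTo_univ _ _) a + pull T.boundF T.bound_cF (mapsTo_univ _ _) b *
        res (subset_univ T.boundE) (AS.mk η hdη) := by
  rw [res_mk]
  refine (leray_cls T.bound_cE isCompact_univ T.bound_cF (mapsTo_univ _ _) two_pos hη _ (n := 3)
    fun a _ => ?_).2 k hk _ (MV_res_mem _ hx)
  rw [T.bound_fib]
  by_cases h : 3 • a = 0
  · exact (T.bound_wp hθ hη hdη hdθ hF one_le_two (T.fib₂ a h)).1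
  · exact (T.bound_wp hθ hη hdη hdθ hF le_rfl (T.fib₁ a h)).1

theorem bound_seven : Van ℚ T.boundE 7 := by
  refine bound_van_seven T.bound_cE T.bound_cF hη (N_mono (subset_univ _) hdη) (fun a h n => ?_)
    fun a h => ?_
  · rw [T.bound_fib]
    obtain ⟨⟨h1, h2, h3, h4⟩, h5⟩ := T.bound_wp hθ hη hdη hdθ hF le_rfl (T.fib₁ a h)
    refine ⟨h1, h2, fun k k0 _ k2 => ?_, h4⟩
    by_cases k3 : k ≤ 3
    · exact h3 k k0 k3 k2
    · exact h5 k (by push_cast; omega)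
  · rw [T.bound_fib]
    exact (T.bound_wp hθ hη hdη hdθ hF one_le_two (T.fib₂ a h)).2 7 (by norm_num)
end

theorem bound_two {x : HT ℚ (univ : Set X)} (hx : x ∈ Hk univ 2) :
    ∃ u ∈ ⋀[ℚ]^2 (Orb.V × Orb.V), (∀ s, Orb.act s u = u) ∧ ∃ c : ℚ,
      T.j ℚ x = T.β u + c • T.j ℚ (AS.mk η hdη) := by
  obtain ⟨a, ha, b, hb, e⟩ := T.bound_leray hθ hη hdη hdθ hF (by norm_num) hx
  obtain ⟨c, rfl⟩ := Hk_zero isPreconnected_univ hb
  obtain ⟨u, hu, hi, h⟩ := T.bound_desc 2 (x := x - c • AS.mk η hdη)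
    (Submodule.sub_mem _ hx (Submodule.smul_mem _ c ⟨η, hdη, hη, rfl⟩)) ha (by
      rw [map_sub, e, map_smul, map_one, smul_mul_assoc, one_mul, map_smul, add_sub_cancel_right])
  exact ⟨u, hu, hi, c, by rw [← h, map_sub, map_smul, sub_add_cancel]⟩

include hdη
theorem bound_three : ∃ ρ : T.Sk 3 →ₗ[ℚ] Orb.V, ∀ a : T.Sk 3, ρ a = 0 →
    ∃ u ∈ ⋀[ℚ]^3 (Orb.V × Orb.V), (∀ s, Orb.act s u = u) ∧ a.1 = T.β u := by
  obtain ⟨σ, hσ⟩ := Module.projective_lifting_property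
    ((T.j ℚ).toLinearMap.submoduleMap (Hk univ 3)) LinearMap.id
    (LinearMap.submoduleMap_surjective _ _)
  have hσ' : ∀ a : T.Sk 3, T.j ℚ (σ a).1 = a.1 := fun a =>
    congrArg Subtype.val (LinearMap.congr_fun hσ a)
  obtain ⟨ρ, hρ⟩ := bound_lin
    ((res (subset_univ T.boundE)).toLinearMap ∘ₗ (Hk univ 3).subtype ∘ₗ σ)
    ((Hk univ 3).map (pull T.boundF T.bound_cF (mapsTo_univ _ _)).toLinearMap)
    ((pull T.boundF T.bound_cF (mapsTo_univ _ _)).toLinearMap ∘ₗ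
      (torLam ℚ (Fin 4)).toLinearMap ∘ₗ ι ℚ) (res (subset_univ T.boundE) (AS.mk η hdη))
    fun a => by
      obtain ⟨c, hc, b, hb, e⟩ := T.bound_leray hθ hη hdη hdθ hF le_rfl (σ a).2
      obtain ⟨y, hy, rfl⟩ := (torus ℚ (Fin 4)).2 1 b hb
      obtain ⟨v, rfl⟩ : y ∈ LinearMap.range (ι ℚ : (Fin 4 → ℚ) →ₗ[ℚ] _) := by
        rw [← pow_one (LinearMap.range _)]; exact hy
      exact ⟨v, c, hc, eq_sub_of_add_eq e.symm⟩
  refine ⟨ρ, fun a ha => ?_⟩
  obtain ⟨c, hc, e⟩ := hρ a ha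
  rw [← hσ' a]
  exact T.bound_desc 3 (σ a).2 hc e.symm

theorem top_ne : T.β (Orb.mon Orb.eN Orb.FN) ≠ 0 := by
  intro h0
  have hm : Orb.mon Orb.eN Orb.FN ∈ ⋀[ℚ]^8 (Orb.V × Orb.V) := by
    have : ∀ l : List ℕ, Orb.mon Orb.eN l ∈ ⋀[ℚ]^l.length (Orb.V × Orb.V) := fun l => by
      induction l with
      | nil => exact Submodule.one_le.1 (le_of_eq (pow_zero _).symm)
      | cons a l ih =>
        rw [Orb.mon_cons, List.length_cons, ExteriorAlgebra.exteriorPower, pow_succ']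
        exact Submodule.mul_mem_mul (LinearMap.mem_range_self _ _) ih
    exact this Orb.FN
  have hi : ∀ s, Orb.act s (Orb.mon Orb.eN Orb.FN) = Orb.mon Orb.eN Orb.FN := fun s => by
    have := Orb.act_push s Orb.vol
    rw [Orb.push_vol, map_smul] at this
    exact smul_right_injective _ (by norm_num) this
  have hn : Orb.mon Orb.eN Orb.FN ≠ 0 := fun h => by
    obtain ⟨L, hL⟩ := Orb.ex_topN
    rw [h, map_zero] at hL
    exact zero_ne_one hL
  obtain ⟨w, hw, w0, e⟩ := T.W_cls' 8 hm hi hn T.cπ.continuousOn T.bound_maps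
  refine w0 (blow_inj isCompact_univ T.cπ.continuousOn T.bound_maps T.bound_surj
    (isCompact_range T.bound_cG) T.bound_sub T.bound_inj (T.bound_seven hθ hη hdη hdθ hF) ?_ hw
    (T.j_inj (pull_mem hw) (e.trans h0)))
  exact (sphere_van_iff isCompact_univ T.bound_cG.continuousOn T.bound_bij _).1
    (bound_van_tor (by norm_num))

end KumTop

end Pool.Agent.Lib.MP_d3d358_ag.AS
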