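import Pool.Agent.Lib.MP_d3d358_ag.AS.MV

set_option autoImplicit false

namespace Pool.Agent.Lib.MP_d3d358_ag.AS

open Topology Set

variable {Z : Type} (R : Type) [CommRing R] [TopologicalSpace Z] {K : Set Z}

/-- the generator of the circle -/
noncomputable def thetaC : Ch UnitAddCircle R :=
  ⟨fun l => match l with
    | [x, y] => ((-round (((AddCircle.equivIco 1 0 y : ℝ) - (AddCircle.equivIco 1 0 x : ℝ))) : ℤ) : R)
    | _ => 0, rfl⟩

theorem thetaC_mem : thetaC R ∈ DZ 1 := by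
  intro l hl
  match l, hl with
  | [], _ => rfl
  | [_], _ => rfl
  | [_, _], h => exact absurd rfl h
  | _ :: _ :: _ :: _, _ => rfl

theorem Circle_fr (t : ℝ) :
    (AddCircle.equivIco 1 0 (t : UnitAddCircle) : ℝ) = Int.fract t := by
  simpa using AddCircle.coe_equivIco_mk_apply (1 : ℝ) t

theorem Circle_local {R : Type} [CommRing R] {a : Ch Z R}
    (h : ∀ x ∈ K, ∃ V ∈ 𝓝[K] x, a ∈ N V) : a ∈ N K := by
  intro x hx
  obtain ⟨V, hV, e⟩ := h x hx
  obtain ⟨U, hU, e'⟩ := e x (mem_of_mem_nhdsWithin hx hV)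
  obtain ⟨W, hW, hs⟩ := mem_nhdsWithin_iff_exists_mem_nhds_inter.1 hV
  exact ⟨U ∩ W, Filter.inter_mem hU hW, fun l hl =>
    e' l fun y hy => ⟨(hl y hy).1.1, hs ⟨(hl y hy).1.2, (hl y hy).2⟩⟩⟩

theorem thetaC_lift {c : Z → UnitAddCircle} {t : Z → ℝ} (ht : ContinuousOn t K)
    (h : ∀ x ∈ K, c x = (t x : UnitAddCircle)) :
    pullC c (thetaC R) - dC (fnC fun x => ((⌊t x⌋ : ℤ) : R)) ∈ N K := by
  have hd : pullC c (thetaC R) - dC (fnC fun x => ((⌊t x⌋ : ℤ) : R)) ∈ DZ 1 :=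
    Submodule.sub_mem _ (pullC_mem c (thetaC_mem R)) (dC_mem (fnC_mem _))
  intro x hx
  obtain ⟨U, hU, hs⟩ := mem_nhdsWithin_iff_exists_mem_nhds_inter.1
    (ht x hx (Metric.ball_mem_nhds (t x) (by norm_num : (0 : ℝ) < 1 / 4)))
  refine ⟨U, hU, fun l hl => ?_⟩
  by_cases h2 : (l.length : ℤ) = 1 + 1
  swap
  · exact hd l h2
  obtain ⟨y, z, rfl⟩ := List.length_eq_two.1 (by omega : l.length = 2)
  have hy := hl y (by simp)
  have hz := hl z (by simp)
  have y1 := abs_lt.1 (show |t y - t x| < 1 / 4 from hs hy)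
  have z1 := abs_lt.1 (show |t z - t x| < 1 / 4 from hs hz)
  change (thetaC R).1 [c y, c z] - (dC (fnC fun x => ((⌊t x⌋ : ℤ) : R))).1 [y, z] = 0
  rw [dC_fnC_pair, h y hy.2, h z hz.2]
  change ((-round (((AddCircle.equivIco 1 0 (t z : UnitAddCircle) : ℝ) -
    (AddCircle.equivIco 1 0 (t y : UnitAddCircle) : ℝ))) : ℤ) : R) - _ = 0
  have e : Int.fract (t z) - Int.fract (t y) = t z - t y - ((⌊t z⌋ - ⌊t y⌋ : ℤ) : ℝ) := by
    rw [Int.fract, Int.fract]; push_cast; ring
  rw [Circle_fr, Circle_fr, e, round_sub_intCast,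
    round_eq_zero_iff.2 ⟨by linarith [y1.2, z1.1], by linarith [y1.1, z1.2]⟩]
  push_cast; ring

theorem Circle_miss {c : Z → UnitAddCircle} (hc : ContinuousOn c K) {p : UnitAddCircle}
    (h : ∀ x ∈ K, c x ≠ p) :
    ∃ t : Z → ℝ, ContinuousOn t K ∧ ∀ x ∈ K, c x = (t x : UnitAddCircle) := by
  obtain ⟨a, rfl⟩ := QuotientAddGroup.mk_surjective p
  refine ⟨fun x => AddCircle.equivIco 1 a (c x), fun x hx => ?_,
    fun x _ => AddCircle.coe_equivIco.symm⟩
  exact (continuous_subtype_val.continuousAt.comp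
    (AddCircle.continuousAt_equivIco 1 a (h x hx))).comp_continuousWithinAt (hc x hx)

theorem Circle_half : ((1 / 2 : ℝ) : UnitAddCircle) ≠ 0 := fun h => by
  have := Circle_fr (1 / 2)
  rw [h, ← AddCircle.coe_zero, Circle_fr, Int.fract_zero, Int.fract_eq_self.2 (by norm_num)] at this
  norm_num at this

/-- local lifts -/
theorem Circle_lift {c : Z → UnitAddCircle} (hc : ContinuousOn c K) {x : Z} (hx : x ∈ K) :
    ∃ V ∈ 𝓝[K] x, ∃ t : Z → ℝ, ContinuousOn t V ∧ ∀ y ∈ V, c y = (t y : UnitAddCircle) := by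
  have h : c x ≠ c x + ((1 / 2 : ℝ) : UnitAddCircle) := fun h =>
    Circle_half (left_eq_add.1 h)
  exact ⟨K ∩ c ⁻¹' {c x + ((1 / 2 : ℝ) : UnitAddCircle)}ᶜ,
    Filter.inter_mem self_mem_nhdsWithin (hc x hx (isOpen_compl_singleton.mem_nhds h)),
    Circle_miss (hc.mono inter_subset_left) fun y hy => hy.2⟩

theorem thetaC_coc : dC (thetaC R) ∈ N univ := by
  refine Circle_local fun x hx => ?_
  obtain ⟨V, hV, t, ht, e⟩ := Circle_lift (c := id) continuousOn_id hx
  have := N_dC (thetaC_lift R ht e)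
  rw [map_sub, dC_dC, sub_zero, pullC_id] at this
  exact ⟨V, hV, this⟩

/-- the class of a circle valued function -/
noncomputable def cls (c : Z → UnitAddCircle) (hc : ContinuousOn c K) : HT R K :=
  pull c hc (mapsTo_univ _ _) (mk (thetaC R) (thetaC_coc R))

variable {R}

theorem Circle_coc {c : Z → UnitAddCircle} (hc : ContinuousOn c K) :
    dC (pullC c (thetaC R)) ∈ N K := by
  rw [dC_pullC]; exact N_pullC hc (mapsTo_univ _ _) (thetaC_coc R)

theorem Circle_cls {c : Z → UnitAddCircle} (hc : ContinuousOn c K) :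
    cls R c hc = mk (pullC c (thetaC R)) (Circle_coc hc) := pull_mk _ _ _ _ _

theorem cls_mem {c : Z → UnitAddCircle} (hc : ContinuousOn c K) : cls R c hc ∈ Hk K 1 :=
  pull_mem ⟨_, _, thetaC_mem R, rfl⟩

omit [TopologicalSpace Z] in
theorem Circle_fn_sub (f g : Z → R) : fnC (f - g) = fnC f - fnC g := by
  refine Subtype.ext (funext fun l => ?_)
  change fn (f - g) l = fn f l - fn g l
  unfold fn
  split_ifs with h
  · obtain ⟨x, rfl⟩ := List.length_eq_one_iff.1 h
    simp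
  · simp

theorem cls_add {c c' : Z → UnitAddCircle} (hc : ContinuousOn c K) (hc' : ContinuousOn c' K) :
    cls R (c + c') (hc.add hc') = cls R c hc + cls R c' hc' := by
  have d : dC (pullC c (thetaC R) + pullC c' (thetaC R)) ∈ N K := by
    rw [map_add]; exact Submodule.add_mem _ (Circle_coc hc) (Circle_coc hc')
  rw [Circle_cls, Circle_cls, Circle_cls, ← mk_add _ _ d, mk_eq_iff]
  let u : Z → R := fun x =>
    (⌊(AddCircle.equivIco 1 0 (c x) : ℝ) + (AddCircle.equivIco 1 0 (c' x) : ℝ)⌋ : ℤ)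
  refine ⟨fnC u, Circle_local fun x hx => ?_⟩
  obtain ⟨V, hV, t, ht, e⟩ := Circle_lift hc hx
  obtain ⟨V', hV', t', ht', e'⟩ := Circle_lift hc' hx
  refine ⟨V ∩ V', Filter.inter_mem hV hV', ?_⟩
  have h1 := N_mono (inter_subset_left : V ∩ V' ⊆ V) (thetaC_lift R ht e)
  have h2 := N_mono (inter_subset_right : V ∩ V' ⊆ V') (thetaC_lift R ht' e')
  have h3 := thetaC_lift R (K := V ∩ V') (c := c + c') (t := fun y => t y + t' y)
    ((ht.mono inter_subset_left).add (ht'.mono inter_subset_right)) fun y hy => by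
      rw [Pi.add_apply, e y hy.1, e' y hy.2, AddCircle.coe_add]
  have h4 : dC (fnC ((fun y => ((⌊t y + t' y⌋ : ℤ) : R)) - (fun y => ((⌊t y⌋ : ℤ) : R)) -
      (fun y => ((⌊t' y⌋ : ℤ) : R)) - u)) ∈ N (V ∩ V') := by
    have z : ∀ y ∈ V ∩ V', ((fun y => ((⌊t y + t' y⌋ : ℤ) : R)) - (fun y => ((⌊t y⌋ : ℤ) : R)) -
        (fun y => ((⌊t' y⌋ : ℤ) : R)) - u) y = 0 := fun y hy => by
      have : t y + t' y = Int.fract (t y) + Int.fract (t' y) + ((⌊t y⌋ + ⌊t' y⌋ : ℤ) : ℝ) := by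
        rw [Int.fract, Int.fract]; push_cast; ring
      simp only [Pi.sub_apply, u]
      rw [e y hy.1, e' y hy.2, Circle_fr, Circle_fr, this, Int.floor_add_intCast]
      push_cast; ring
    exact dC_fnC_mem_N.2 fun y hy =>
      Filter.mem_of_superset self_mem_nhdsWithin fun w hw => (z w hw).trans (z y hy).symm
  simp only [Circle_fn_sub, map_sub] at h4
  convert Submodule.add_mem _ (Submodule.sub_mem _ (Submodule.sub_mem _ h3 h1) h2) h4 using 1
  abel

theorem cls_lift {c : Z → UnitAddCircle} (hc : ContinuousOn c K) {t : Z → ℝ}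
    (ht : ContinuousOn t K) (h : ∀ x ∈ K, c x = (t x : UnitAddCircle)) : cls R c hc = 0 := by
  rw [Circle_cls, mk_eq_zero_iff (pullC_mem c (thetaC_mem R))]
  exact ⟨_, fnC_mem _, thetaC_lift R ht h⟩

theorem cls_miss {c : Z → UnitAddCircle} (hc : ContinuousOn c K) {p : UnitAddCircle}
    (h : ∀ x ∈ K, c x ≠ p) : cls R c hc = 0 := by
  obtain ⟨t, ht, e⟩ := Circle_miss hc h
  exact cls_lift hc ht e

theorem cls_sum {ι : Type} (s : Finset ι) (n : ι → ℤ) {c : ι → Z → UnitAddCircle}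
    (hc : ∀ i, ContinuousOn (c i) K) (h) :
    cls R (fun x => ∑ i ∈ s, n i • c i x) h = ∑ i ∈ s, n i • cls R (c i) (hc i) := by
  let G : AddSubgroup (Z → UnitAddCircle) :=
    { carrier := {u | ContinuousOn u K}
      add_mem' := ContinuousOn.add
      zero_mem' := continuousOn_const
      neg_mem' := ContinuousOn.neg }
  let Φ : G →+ HT R K := AddMonoidHom.mk' (fun u => cls R u.1 u.2) fun u v => cls_add u.2 v.2
  have e : (⟨fun x => ∑ i ∈ s, n i • c i x, h⟩ : G) = ∑ i ∈ s, n i • (⟨c i, hc i⟩ : G) :=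
    Subtype.ext (funext fun x => by simp)
  have := congrArg Φ e
  rw [map_sum] at this
  simp only [map_zsmul] at this
  exact this

theorem pull_cls {Z' : Type} [TopologicalSpace Z'] {K' : Set Z'} {f : Z' → Z}
    {hf : ContinuousOn f K'} {hm : MapsTo f K' K} {c : Z → UnitAddCircle} (hc : ContinuousOn c K) :
    pull f hf hm (cls R c hc) = cls R (c ∘ f) (hc.comp hf hm) := pull_pull _

theorem cc_cls {R' : Type} [CommRing R'] (t : R →+* R') {c : Z → UnitAddCircle}
    (hc : ContinuousOn c K) : cc t (cls R c hc) = cls R' c hc := by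
  have e : coef (t : R →+ R') (thetaC R) = thetaC R' := by
    refine Subtype.ext (funext fun l => ?_)
    match l with
    | [] => exact map_zero t
    | [_] => exact map_zero t
    | [_, _] => exact map_intCast t _
    | _ :: _ :: _ :: _ => exact map_zero t
  rw [cls, cls, cc_pull, cc_mk t _ (e ▸ thetaC_coc R')]
  simp only [e]

/-- an arc of length one half -/
def Circle_arc (a : ℝ) : Set UnitAddCircle := (fun t : ℝ => (t : UnitAddCircle)) '' Icc a (a + 1 / 2)

theorem Circle_arc_cpt (a : ℝ) : IsCompact (Circle_arc a) :=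
  isCompact_Icc.image (AddCircle.continuous_mk' 1)

theorem Circle_arc_van (a : ℝ) {k : ℤ} (hk : 0 < k) : Van R (Circle_arc a) k := fun u hu => by
  have hb : BijOn (fun t : ℝ => (t : UnitAddCircle)) (Icc a (a + 1 / 2)) (Circle_arc a) :=
    InjOn.bijOn_image fun x hx y hy h => (AddCircle.coe_eq_coe_iff_of_mem_Ico (p := 1) (a := a)
      ⟨hx.1, by linarith [hx.2]⟩ ⟨hy.1, by linarith [hy.2]⟩).1 h
  refine (pull_bij (R := R) isCompact_Icc (AddCircle.continuous_mk' 1).continuousOn hb).1 ?_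
  rw [map_zero]
  exact van_starConvex isCompact_Icc
    ((convex_Icc _ _).starConvex (left_mem_Icc.2 (by linarith))) hk _ (pull_mem hu)

theorem Circle_cover : (univ : Set UnitAddCircle) ⊆ Circle_arc 0 ∪ Circle_arc (1 / 2) := by
  intro p _
  obtain ⟨t, ht, rfl⟩ : ∃ t ∈ Ico (0 : ℝ) (0 + 1), (t : UnitAddCircle) = p :=
    ⟨_, (AddCircle.equivIco 1 0 p).2, AddCircle.coe_equivIco⟩
  rcases le_total t (1 / 2) with h | h
  · exact Or.inl ⟨t, ⟨ht.1, by linarith⟩, rfl⟩
  · exact Or.inr ⟨t, ⟨h, by linarith [ht.2]⟩, rfl⟩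

theorem Circle_inter :
    Circle_arc 0 ∩ Circle_arc (1 / 2) ⊆ {0, ((1 / 2 : ℝ) : UnitAddCircle)} := by
  rintro _ ⟨⟨s, hs, rfl⟩, t, ht, h⟩
  rcases eq_or_lt_of_le ht.2 with e | e
  · left
    rw [← h, e, add_halves]
    exact AddCircle.coe_period 1
  · right
    have : t = s := (AddCircle.coe_eq_coe_iff_of_mem_Ico (p := 1) (a := 0)
      ⟨by linarith [ht.1], by linarith⟩ ⟨hs.1, by linarith [hs.2]⟩).1 h
    change ((s : ℝ) : UnitAddCircle) = _
    rw [show s = 1 / 2 by linarith [hs.2, ht.1]]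

theorem Circle_ne [Nontrivial R] : mk (thetaC R) (thetaC_coc R) ≠ 0 := fun h => by
  obtain ⟨c, hc, e⟩ := (mk_eq_zero_iff (thetaC_mem R) _).1 h
  obtain ⟨u, rfl⟩ : ∃ u, c = fnC u := ⟨_, eq_fnC hc⟩
  have h1 := N_pullC (K' := (univ : Set ℝ)) (AddCircle.continuous_mk' (1 : ℝ)).continuousOn
    (mapsTo_univ _ _) e
  have h2 := thetaC_lift R (K := (univ : Set ℝ)) (c := QuotientAddGroup.mk' _) continuousOn_id
    fun _ _ => rfl
  rw [map_sub, ← dC_pullC, pullC_fnC] at h1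
  have h3 := Submodule.sub_mem _ h1 h2
  rw [sub_sub_sub_cancel_left, ← map_sub, ← Circle_fn_sub, dC_fnC_mem_N] at h3
  simp only [nhdsWithin_univ] at h3
  have h4 := ((IsLocallyConstant.iff_eventually_eq _).2 fun x : ℝ =>
    h3 x trivial).apply_eq_of_preconnectedSpace 1 0
  have h5 : ((1 : ℝ) : UnitAddCircle) = 0 := AddCircle.coe_period 1
  simp [h5] at h4

theorem circle_fib (R : Type) [Field R] (n : ℤ) : FibOK univ 1 n (thetaC R) := by
  have fin : (Circle_arc 0 ∩ Circle_arc (1 / 2)).Finite := (toFinite _).subset Circle_inter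
  refine ⟨isPreconnected_univ, univ_nonempty, fun k h0 _ h1 u hu => ?_, thetaC_coc R, Circle_ne,
    ?_⟩
  · exact mv_zero (Circle_arc_cpt 0) (Circle_arc_cpt (1 / 2)) (subset_univ _) (subset_univ _)
      Circle_cover (van_finite fin (by omega)) hu (Circle_arc_van _ h0 _ (pull_mem hu))
      (Circle_arc_van _ h0 _ (pull_mem hu))
  obtain ⟨b, b1, b2⟩ := exists_bd (R := R) (Circle_arc_cpt 0) (Circle_arc_cpt (1 / 2))
    (subset_univ _) (subset_univ _) Circle_cover 1
  have lc : ∀ f : UnitAddCircle → R, dC (fnC f) ∈ N (Circle_arc 0 ∩ Circle_arc (1 / 2)) :=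
    fun f => dC_fnC_mem_N.2 fun x _ => by
      filter_upwards [self_mem_nhdsWithin, mem_nhdsWithin_of_mem_nhds
        ((fin.subset (diff_subset (t := {x}))).isClosed.isOpen_compl.mem_nhds
          fun h => h.2 rfl)] with y h1 h2
      rw [show y = x from by_contra fun h => h2 ⟨h1, h⟩]
  classical
  let χ : UnitAddCircle → R := fun x => if x = 0 then 0 else 1
  let w : Hk (R := R) (Circle_arc 0 ∩ Circle_arc (1 / 2)) (1 - 1) :=
    ⟨mk (fnC χ) (lc χ), _, _, fnC_mem _, rfl⟩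
  have sp : ∀ x ∈ Hk (R := R) (univ : Set UnitAddCircle) 1, ∃ c : R, x = c • (b w).1 := by
    intro x hx
    obtain ⟨c, hc⟩ := (b1 ⟨x, hx⟩).1 ⟨Circle_arc_van _ one_pos _ (pull_mem hx),
      Circle_arc_van _ one_pos _ (pull_mem hx)⟩
    obtain ⟨a, da, ha, e⟩ := c.2
    obtain ⟨f, rfl⟩ : ∃ f, a = fnC f := ⟨_, eq_fnC ha⟩
    refine ⟨f ((1 / 2 : ℝ) : UnitAddCircle) - f 0, ?_⟩
    have z : b (c - (f ((1 / 2 : ℝ) : UnitAddCircle) - f 0) • w) = 0 := by
      refine (b2 _).2 ⟨f 0 • 1, Submodule.smul_mem _ _ one_mem_Hk, 0, Submodule.zero_mem _, ?_⟩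
      have d1 : dC (1 : Ch UnitAddCircle R) ∈ N (Circle_arc 0 ∩ Circle_arc (1 / 2)) := lc 1
      have d2 := Submodule.smul_mem _ (f 0) d1
      have d3 := Submodule.smul_mem _ (f ((1 / 2 : ℝ) : UnitAddCircle) - f 0) (lc χ)
      have d4 := Submodule.add_mem _ d2 d3
      rw [← map_smul] at d2 d3
      rw [← map_smul, ← map_smul, ← map_add] at d4
      rw [map_zero, sub_zero, map_smul, map_one, Submodule.coe_sub, sub_eq_iff_eq_add, e]
      change _ = f 0 • mk 1 d1 + _ • mk (fnC χ) (lc χ)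
      rw [← mk_smul _ d1 d2, ← mk_smul _ _ d3, ← mk_add d2 d3 d4, mk_eq_iff]
      refine ⟨0, fun p _ => ⟨univ, Filter.univ_mem, fun l hl => ?_⟩⟩
      rw [map_zero, sub_zero]
      change fn f l - (f 0 * fn 1 l + _ * fn χ l) = 0
      unfold fn
      split_ifs with h
      · obtain ⟨y, rfl⟩ := List.length_eq_one_iff.1 h
        rcases Circle_inter (hl y (by simp)).2 with rfl | rfl
        · simp [χ]
        · simp only [χ, List.map_cons, List.map_nil, List.sum_cons, List.sum_nil, Circle_half,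
            if_false, Pi.one_apply]
          ring
      · simp
    rw [map_sub, map_smul, hc, sub_eq_zero] at z
    exact congrArg Subtype.val z
  obtain ⟨s, hs⟩ := sp _ ⟨_, thetaC_coc R, thetaC_mem R, rfl⟩
  have s0 : s ≠ 0 := fun h => Circle_ne (by rw [hs, h, zero_smul])
  intro x hx
  obtain ⟨c, hc⟩ := sp x hx
  exact ⟨c * s⁻¹, by rw [hc, hs, mul_smul, inv_smul_smul₀ s0]⟩

end Pool.Agent.Lib.MP_d3d358_ag.AS
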