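import Mathlib

/-! Alexander-Spanier cohomology, the class of a point, classes of holomorphic two forms. -/

set_option autoImplicit false

namespace Pool.Agent.Lib.MP_d3d358_ag.AS

open Topology

variable {Z R : Type} [CommRing R]

/-- The coboundary of a cochain. A list of length `k + 1` is a `k`-simplex. -/
def d (φ : List Z → R) : List Z → R :=
  fun l => ∑ i ∈ Finset.range l.length, (-1) ^ i * φ (l.eraseIdx i)

/-- The cup product. -/
def cup (φ ψ : List Z → R) : List Z → R :=
  fun l => ∑ i ∈ Finset.range l.length, φ (l.take (i + 1)) * ψ (l.drop i)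

/-- `φ` is a cochain of degree `k`. -/
def Deg (k : ℕ) (φ : List Z → R) : Prop := ∀ l, l.length ≠ k + 1 → φ l = 0

/-- The cochain of degree zero given by a function. -/
def fn (f : Z → R) : List Z → R := fun l => if l.length = 1 then (l.map f).sum else 0

theorem d_add (φ ψ : List Z → R) : d (φ + ψ) = d φ + d ψ := by
  funext l; simp [d, mul_add, Finset.sum_add_distrib]

theorem d_smul (c : R) (φ : List Z → R) : d (c • φ) = c • d φ := by
  funext l; simp [d, Finset.mul_sum, mul_left_comm]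

theorem d_zero : d (0 : List Z → R) = 0 := by funext l; simp [d]

variable [TopologicalSpace Z]

/-- `φ` vanishes on all simplices close to `x`. -/
def NullAt (x : Z) (φ : List Z → R) : Prop := ∃ U ∈ 𝓝 x, ∀ l, (∀ y ∈ l, y ∈ U) → φ l = 0

theorem NullAt.add {x : Z} {φ ψ : List Z → R} (h : NullAt x φ) (h' : NullAt x ψ) :
    NullAt x (φ + ψ) := by
  obtain ⟨U, hU, e⟩ := h
  obtain ⟨V, hV, e'⟩ := h'
  exact ⟨U ∩ V, Filter.inter_mem hU hV, fun l hl => by
    rw [Pi.add_apply, e l fun y hy => (hl y hy).1, e' l fun y hy => (hl y hy).2, add_zero]⟩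

theorem NullAt.smul {x : Z} {φ : List Z → R} (c : R) (h : NullAt x φ) : NullAt x (c • φ) := by
  obtain ⟨U, hU, e⟩ := h
  exact ⟨U, hU, fun l hl => by rw [Pi.smul_apply, e l hl, smul_zero]⟩

theorem nullAt_zero (x : Z) : NullAt x (0 : List Z → R) := ⟨_, Filter.univ_mem, fun _ _ => rfl⟩

variable (Z R)

/-- Cocycles of degree `k`. -/
def Coc (k : ℕ) : Submodule R (List Z → R) where
  carrier := {φ | Deg k φ ∧ ∀ x, NullAt x (d φ)}
  zero_mem' := ⟨fun _ _ => rfl, fun x => by rw [d_zero]; exact nullAt_zero x⟩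
  add_mem' := fun {φ ψ} h h' => ⟨fun l hl => by rw [Pi.add_apply, h.1 l hl, h'.1 l hl, add_zero],
    fun x => d_add φ ψ ▸ (h.2 x).add (h'.2 x)⟩
  smul_mem' := fun c φ h => ⟨fun l hl => by rw [Pi.smul_apply, h.1 l hl, smul_zero],
    fun x => d_smul c φ ▸ (h.2 x).smul c⟩

/-- Cochains that are coboundaries near the diagonal. -/
def Cob : Submodule R (List Z → R) where
  carrier := {φ | ∃ ψ : List Z → R, ψ [] = 0 ∧ ∀ x, NullAt x (φ - d ψ)}
  zero_mem' := ⟨0, rfl, fun x => by rw [d_zero, sub_zero]; exact nullAt_zero x⟩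
  add_mem' := fun {φ φ'} ⟨ψ, h, e⟩ ⟨ψ', h', e'⟩ => ⟨ψ + ψ', by simp [h, h'], fun x => by
    rw [d_add, add_sub_add_comm]; exact (e x).add (e' x)⟩
  smul_mem' := fun c φ ⟨ψ, h, e⟩ => ⟨c • ψ, by simp [h], fun x => by
    rw [d_smul, ← smul_sub]; exact (e x).smul c⟩

/-- Alexander-Spanier cohomology in degree `k`. -/
def H (k : ℕ) : Type := Coc Z R k ⧸ (Cob Z R).submoduleOf (Coc Z R k)

instance grpH (k : ℕ) : AddCommGroup (H Z R k) := Submodule.Quotient.addCommGroup _
instance modH (k : ℕ) : Module R (H Z R k) := Submodule.Quotient.module _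

variable {Z R}

/-- The cochain `φ` is a cocycle in the class `a`. -/
def Cls {k : ℕ} (a : H Z R k) (φ : List Z → R) : Prop :=
  ∃ h : φ ∈ Coc Z R k, a = Submodule.Quotient.mk ⟨φ, h⟩

/-- The jump of a real function across zero, a cochain of degree one. -/
noncomputable def jump (t : Z → ℝ) : List Z → R := d (fn fun x => if 0 ≤ t x then 1 else 0)

/-- `a` is, up to sign, the class of a point of the `n`-manifold `Z`: for a chart `h` centred at `p`
it has a cocycle that vanishes away from `p` and is near `p` the product of the jumps of the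
coordinates. -/
def PtClass {n : ℕ} (a : H Z R n) : Prop :=
  ∃ (p : Z) (h : OpenPartialHomeomorph Z (Fin n → ℝ)) (φ : List Z → R),
    p ∈ h.source ∧ h p = 0 ∧ Cls a φ ∧ (∀ x, x ≠ p → NullAt x φ) ∧
    NullAt p (φ - (List.ofFn fun i => jump fun x => h x i).foldr cup (fn 1))

/-- A complex linear combination of rational cochains. -/
noncomputable def comb {m : ℕ} (c : Fin m → ℂ) (φ : Fin m → List Z → ℚ) : List Z → ℂ :=
  fun l => ∑ i, c i * φ i l

/-- `g` is multiplicative, keeps the class of a point up to sign (real dimension `n`), and sends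
some complex class with the property `P` to a class with the property `P'`. -/
def HodgeFrob {Z' : Type} [TopologicalSpace Z'] (n : ℕ) (P : (List Z → ℂ) → Prop)
    (P' : (List Z' → ℂ) → Prop) (g : ∀ k, H Z ℚ k ≃ₗ[ℚ] H Z' ℚ k) : Prop :=
  (∀ p q a b c φ ψ φ' ψ', Cls a φ → Cls b ψ → Cls c (cup φ ψ) → Cls (g p a) φ' → Cls (g q b) ψ' →
    Cls (g (p + q) c) (cup φ' ψ')) ∧
  (∀ a a', PtClass a → PtClass a' → g n a = a' ∨ g n a = -a') ∧
  ∃ (m : ℕ) (c : Fin m → ℂ) (a : Fin m → H Z ℚ 2) (φ : Fin m → List Z → ℚ)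
    (φ' : Fin m → List Z' → ℚ), (∀ i, Cls (a i) (φ i)) ∧ (∀ i, Cls (g 2 (a i)) (φ' i)) ∧
    P (comb c φ) ∧ P' (comb c φ')

end Pool.Agent.Lib.MP_d3d358_ag.AS
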