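import Pool.Agent.Lib.MP_d3d358_ag.AS.EpsB

/-! The class of the exceptional curve on the blown up torus. -/

set_option autoImplicit false

namespace Pool.Agent.Lib.MP_d3d358_ag.AS

open Topology Set

theorem BlT_compact : IsCompact BlT := eps_compact

section
variable {Z Z' : Type} [TopologicalSpace Z] [TopologicalSpace Z'] {K L M : Set Z} {K' L' : Set Z'}

theorem eps_res_res (h : K ⊆ L) (h' : L ⊆ M) (x : HT ℚ M) :
    res h (res h' x) = res (h.trans h') x := pull_pull x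

theorem eps_res_pull {f : Z' → Z} (hf : ContinuousOn f K') (hm : MapsTo f K' K) (h' : L' ⊆ K')
    (h : L ⊆ K) (hn : MapsTo f L' L) (x : HT ℚ K) :
    res h' (pull f hf hm x) = pull f (hf.mono h') hn (res h x) :=
  (pull_pull x).trans (pull_pull (f := id) (hf := continuousOn_id) (hm := h) x).symm

theorem eps_res_mem {k : ℤ} (h : K ⊆ L) {x : HT ℚ L} (hx : x ∈ Hk L k) : res h x ∈ Hk K k :=
  pull_mem hx

theorem eps_res_cls (h : K ⊆ L) {c : Z → UnitAddCircle} (hc : ContinuousOn c L) {p : UnitAddCircle}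
    (hp : ∀ x ∈ K, c x ≠ p) : res h (cls ℚ c hc) = 0 :=
  (pull_cls hc).trans (cls_miss _ hp)

theorem eps_cls_neg {c : Z → UnitAddCircle} (hc : ContinuousOn c K) :
    cls ℚ (fun x => -c x) hc.neg = -cls ℚ c hc := by
  have h := cls_add (R := ℚ) hc.neg hc
  rw [cls_lift _ (t := fun _ => 0) continuousOn_const (fun x _ => by simp)] at h
  exact eq_neg_of_add_eq_zero_left h.symm

theorem eps_res_pull_zero {f : Z' → Z} (hf : ContinuousOn f K') (hm : MapsTo f K' K)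
    (h' : L' ⊆ K') (h : L ⊆ K) (hn : MapsTo f L' L) {x : HT ℚ K} (hx : res h x = 0) :
    res h' (pull f hf hm x) = 0 := by
  rw [eps_res_pull hf hm h' h hn, hx, map_zero]
end

theorem eps_ring {A : Type} [Ring A] {a b c d e : A} (h : (a * b - e) * (c * d - e) = 0)
    (h1 : b * e = 0) (h2 : e * c = 0) : e * e = -(a * b * c * d) := by
  rw [sub_mul, mul_sub, mul_sub, mul_assoc a b e, h1, mul_zero, ← mul_assoc e, h2, zero_mul,
    ← mul_assoc] at h
  exact eq_neg_of_add_eq_zero_right (by simpa using h)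

theorem eps_glue {Z : Type} [MetricSpace Z] {X A O K : Set Z} (cA : IsCompact A)
    (cO : IsCompact O) (cK : IsCompact K) (sA : A ⊆ X) (sO : O ⊆ X) (sK : K ⊆ X)
    (cov : X ⊆ A ∪ O ∪ K) {f : HT ℚ X} (hf : f ∈ Hk X 2)
    (h0 : res (inter_subset_left.trans sA : A ∩ O ⊆ X) f = 0) (hv : Van ℚ ((A ∪ O) ∩ K) 2) :
    ∃ ε ∈ Hk X 2, res sO ε = 0 ∧ res sA (f - ε) = 0 := by
  obtain ⟨z, hz, hA, hO⟩ := glue (R := ℚ) (S := A ∪ O) cA cO subset_union_left
    subset_union_right subset_rfl (eps_res_mem sA hf) (Submodule.zero_mem _)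
    (by rw [eps_res_res, map_zero]; exact h0)
  obtain ⟨ε, hε, h1, -⟩ := glue (R := ℚ) (S := X) (cA.union cO) cK (union_subset sA sO) sK cov hz
    (Submodule.zero_mem _) (by rw [map_zero]; exact hv _ (eps_res_mem _ hz))
  rw [← h1, eps_res_res] at hA hO
  exact ⟨ε, hε, hO, by rw [map_sub, ← hA, sub_self]⟩

theorem eps_A_sub : epsA ⊆ BlT := inter_subset_left
theorem eps_O_sub : epsO ⊆ BlT := inter_subset_left
theorem eps_B_sub : epsB ⊆ BlT := inter_subset_left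

theorem eps_e_cont (i : Fin 4) (K : Set EpsX) : ContinuousOn (fun p : EpsX => p.1 i) K :=
  ((continuous_apply i).comp continuous_fst).continuousOn

/-- the degree one classes -/
noncomputable def epsE (i : Fin 4) : HT ℚ BlT := cls ℚ (fun p : EpsX => p.1 i) (eps_e_cont i _)

theorem eps_E_mem (i : Fin 4) : epsE i ∈ Hk BlT 1 := cls_mem _

theorem eps_f_mem (i j : Fin 4) : epsE i * epsE j ∈ Hk BlT 2 :=
  mul_mem_Hk (eps_E_mem i) (eps_E_mem j)

theorem eps_E_B (i : Fin 4) : res eps_B_sub (epsE i) = 0 := by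
  refine eps_res_cls _ _ (p := ((1 / 2 : ℝ) : UnitAddCircle)) fun x hx e => ?_
  have h := (eps_coord_le x.1 i).trans hx.2
  rw [e, AddCircle.norm_half_period_eq] at h
  norm_num at h

theorem eps_OB : BlT ⊆ epsO ∪ epsB := fun p hp =>
  (le_total (1 / 4) ‖zl p.1‖).imp (fun h => ⟨hp, h⟩) fun h => ⟨hp, h⟩

theorem eps_f_AO : res (inter_subset_left.trans eps_A_sub : epsA ∩ epsO ⊆ BlT)
    (epsE 0 * epsE 1) = 0 := by
  have c : ∀ i, IsCompact (epsA ∩ epsO ∩ {p : EpsX | 1 / 8 ≤ ‖p.1 i‖}) := fun i =>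
    (eps_A_cpt.inter_right eps_O_cpt.isClosed).inter_right
      (isClosed_le continuous_const (by fun_prop))
  have z : ∀ i, res (inter_subset_left : epsA ∩ epsO ∩ {p : EpsX | 1 / 8 ≤ ‖p.1 i‖} ⊆ _)
      (res (inter_subset_left.trans eps_A_sub : epsA ∩ epsO ⊆ BlT) (epsE i)) = 0 := by
    intro i
    rw [eps_res_res]
    refine eps_res_cls _ _ (p := 0) fun x hx e => ?_
    have h : 1 / 8 ≤ ‖x.1 i‖ := hx.2
    rw [e] at h
    norm_num at h
  rw [map_mul]
  exact mul_eq_zero_of_cover (c 0) (c 1) inter_subset_left inter_subset_left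
    (fun p hp => (eps_AO hp).imp (fun h => ⟨hp, h⟩) fun h => ⟨hp, h⟩)
    (eps_res_mem _ (eps_E_mem 0)) (eps_res_mem _ (eps_E_mem 1)) (z 0) (z 1)

theorem eps_exists : ∃ ε ∈ Hk (R := ℚ) BlT 2, res eps_O_sub ε = 0 ∧
    res eps_A_sub (epsE 0 * epsE 1 - ε) = 0 := by
  refine eps_glue eps_A_cpt eps_O_cpt eps_K_cpt eps_A_sub eps_O_sub inter_subset_left
    (fun p hp => ?_) (eps_f_mem 0 1) eps_f_AO eps_van_K
  rcases eps_OB hp with h | h
  · exact Or.inl (Or.inr h)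
  · rcases le_total ‖p.2 1 1‖ ‖p.2 0 0‖ with h2 | h2
    · exact Or.inl (Or.inl ⟨hp, Or.inl ⟨h.2, h2⟩⟩)
    · exact Or.inr ⟨hp, h.2, h2⟩

theorem eps_fix {ε : HT ℚ BlT} (hε : ε ∈ Hk BlT 2) (hO : res eps_O_sub ε = 0) :
    pull epsS eps_S_cont.continuousOn eps_S_mem ε = ε := by
  have a : res eps_O_sub (pull epsS eps_S_cont.continuousOn eps_S_mem ε - ε) = 0 := by
    rw [map_sub, hO, eps_res_pull_zero _ _ eps_O_sub eps_O_sub
      (fun p hp => ⟨eps_S_mem hp.1, le_of_le_of_eq hp.2 (eps_S_n p).symm⟩) hO, sub_self]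
  have b : res eps_B_sub (pull epsS eps_S_cont.continuousOn eps_S_mem ε - ε) = 0 := by
    rw [map_sub, sub_eq_zero]
    exact (pull_pull ε).trans
      (pull_homotopy eps_B_cpt eps_compact eps_F_cont eps_F_mem eps_F_zero eps_F_one hε).symm
  exact sub_eq_zero.1 (mv_zero eps_O_cpt eps_B_cpt eps_O_sub eps_B_sub eps_OB
    eps_van_OB (Submodule.sub_mem _ (pull_mem hε) hε) a b)

theorem eps_S_f : pull epsS eps_S_cont.continuousOn eps_S_mem (epsE 0 * epsE 1) =
    epsE 2 * epsE 3 := by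
  have h0 : pull epsS eps_S_cont.continuousOn eps_S_mem (epsE 0) = -epsE 3 :=
    (pull_cls _).trans (eps_cls_neg (eps_e_cont 3 _))
  have h1 : pull epsS eps_S_cont.continuousOn eps_S_mem (epsE 1) = epsE 2 := pull_cls _
  rw [map_mul, h0, h1, comm_one (eps_E_mem 2) (eps_E_mem 3)]
  simp

theorem exists_eps : ∃ ε ∈ Hk (R := ℚ) BlT 2,
    res (inter_subset_left : BlT ∩ {p | 1 / 4 ≤ ‖zl p.1‖} ⊆ BlT) ε = 0 ∧
    (∀ (i : Fin 4) (h), ε * cls ℚ (fun p => p.1 i) h = 0) ∧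
    (∀ h0 h1 h2 h3, ε * ε = -(cls ℚ (fun p => p.1 0) h0 * cls ℚ (fun p => p.1 1) h1
      * cls ℚ (fun p => p.1 2) h2 * cls ℚ (fun p => p.1 3) h3)) ∧
    ∀ h h', pull (K := BlT) (K' := BlT) (fun p => (-p.1, p.2)) h h' ε = ε := by
  obtain ⟨ε, hε, hO, hA⟩ := eps_exists
  have fix := eps_fix hε hO
  have r : ∀ i, ε * epsE i = 0 := fun i =>
    mul_eq_zero_of_cover eps_O_cpt eps_B_cpt eps_O_sub eps_B_sub eps_OB hε
      (eps_E_mem i) hO (eps_E_B i)
  have l : ∀ i, epsE i * ε = 0 := fun i =>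
    mul_eq_zero_of_cover eps_B_cpt eps_O_cpt eps_B_sub eps_O_sub
      (eps_OB.trans (union_comm _ _).subset) (eps_E_mem i) hε (eps_E_B i) hO
  refine ⟨ε, hε, hO, fun i _ => r i, fun _ _ _ _ => ?_, fun h h' => ?_⟩
  · have c : IsCompact (BlT ∩ epsS ⁻¹' epsA) :=
      eps_compact.inter_right (eps_A_cpt.isClosed.preimage eps_S_cont)
    have z : res (inter_subset_left : BlT ∩ epsS ⁻¹' epsA ⊆ BlT) (epsE 2 * epsE 3 - ε) = 0 := by
      have y := eps_res_pull_zero eps_S_cont.continuousOn eps_S_mem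
        (inter_subset_left : BlT ∩ epsS ⁻¹' epsA ⊆ BlT) eps_A_sub (fun p hp => hp.2) hA
      rwa [map_sub, eps_S_f, fix] at y
    have cov : BlT ⊆ epsA ∪ BlT ∩ epsS ⁻¹' epsA := by
      intro p hp
      rcases eps_OB hp with h | h
      · have h2 : 1 / 4 ≤ ‖zl p.1‖ := h.2
        rw [eps_norm2, le_max_iff] at h2
        rcases h2 with h2 | h2
        · exact Or.inl ⟨hp, Or.inr h2⟩
        · exact Or.inr ⟨hp, eps_S_mem hp, Or.inr (le_of_le_of_eq h2 (eps_S_n0 p).symm)⟩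
      · rcases le_total ‖p.2 1 1‖ ‖p.2 0 0‖ with h2 | h2
        · exact Or.inl ⟨hp, Or.inl ⟨h.2, h2⟩⟩
        · exact Or.inr ⟨hp, eps_S_mem hp, Or.inl ⟨(eps_S_n p).le.trans h.2, h2⟩⟩
    exact eps_ring (mul_eq_zero_of_cover eps_A_cpt c eps_A_sub inter_subset_left cov
      (Submodule.sub_mem _ (eps_f_mem 0 1) hε) (Submodule.sub_mem _ (eps_f_mem 2 3) hε) hA z)
      (l 1) (r 2)
  · have e := pull_pull (hf := eps_S_cont.continuousOn) (hm := eps_S_mem)
      (hg := eps_S_cont.continuousOn) (hn := eps_S_mem) ε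
    rw [fix, fix] at e
    exact (pull_congr (fun p _ => (eps_S_S p).symm) ε).trans e.symm

end Pool.Agent.Lib.MP_d3d358_ag.AS
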