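import Pool.Agent.Lib.MP_d3d358_ag.AS.Torus
import Pool.Agent.Lib.MP_d3d358_ag.AS.Sphere

/-! The blow up of the four dimensional torus at the origin: definitions and point set facts. -/

set_option autoImplicit false

namespace Pool.Agent.Lib.MP_d3d358_ag.AS

open Topology Set

/-- small lift to `ℂ²` -/
noncomputable def zl (t : Tor (Fin 4)) : Fin 2 → ℂ :=
  let s : Fin 4 → ℝ := fun i => AddCircle.equivIco 1 (-1 / 2) (t i)
  ![s 0 + s 1 * Complex.I, s 2 + s 3 * Complex.I]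

/-- orthogonal projector on the line through `v` -/
noncomputable def prj1 (v : Fin 2 → ℂ) : Fin 2 → Fin 2 → ℂ :=
  fun i j => v i * (starRingEnd ℂ) (v j) / ((‖v 0‖ ^ 2 + ‖v 1‖ ^ 2 : ℝ) : ℂ)

/-- the blow up -/
def BlT : Set (Tor (Fin 4) × (Fin 2 → Fin 2 → ℂ)) :=
  {p | ∃ v : Fin 2 → ℂ, v ≠ 0 ∧ (∃ c : ℂ, zl p.1 = c • v) ∧
    p.2 = (max 0 (3 / 8 - ‖zl p.1‖) : ℝ) • prj1 v}

/-- the small lift of a point of the circle -/
noncomputable def epsL (x : UnitAddCircle) : ℝ := AddCircle.equivIco 1 (-1 / 2) x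

theorem eps_L_coe (x : UnitAddCircle) : ((epsL x : ℝ) : UnitAddCircle) = x :=
  AddCircle.coe_equivIco

theorem eps_abs_L (x : UnitAddCircle) : |epsL x| = ‖x‖ := by
  have h : epsL x ∈ Ico (-1 / 2 : ℝ) (-1 / 2 + 1) := (AddCircle.equivIco 1 (-1 / 2) x).2
  have h2 := (AddCircle.norm_coe_eq_abs_iff (1 : ℝ) (x := epsL x) one_ne_zero).2
    (by rw [abs_one, abs_le]; constructor <;> linarith [h.1, h.2])
  rw [← h2, eps_L_coe]

theorem eps_L_of {s : ℝ} (h : |s| < 1 / 2) : epsL (s : UnitAddCircle) = s := by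
  rw [abs_lt] at h
  exact AddCircle.equivIco_coe_of_mem ⟨by linarith [h.1], by linarith [h.2]⟩

theorem eps_L_cont {x : UnitAddCircle} (h : ‖x‖ < 1 / 2) : ContinuousAt epsL x := by
  refine continuousAt_subtype_val.comp (AddCircle.continuousAt_equivIco 1 (-1 / 2) ?_)
  rintro rfl
  have h2 := (AddCircle.norm_coe_eq_abs_iff (1 : ℝ) (x := (-1 / 2 : ℝ)) one_ne_zero).2
    (by rw [abs_one, abs_le]; constructor <;> linarith)
  rw [h2, abs_of_neg (by norm_num)] at h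
  linarith

theorem eps_zl0 (t : Tor (Fin 4)) : zl t 0 = epsL (t 0) + epsL (t 1) * Complex.I := rfl
theorem eps_zl1 (t : Tor (Fin 4)) : zl t 1 = epsL (t 2) + epsL (t 3) * Complex.I := rfl

theorem eps_norm2 (z : Fin 2 → ℂ) : ‖z‖ = max ‖z 0‖ ‖z 1‖ := by
  refine le_antisymm ((pi_norm_le_iff_of_nonneg (by positivity)).2 fun i => ?_)
    (max_le (norm_le_pi_norm z 0) (norm_le_pi_norm z 1))
  fin_cases i
  · exact le_max_left _ _
  · exact le_max_right _ _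

theorem eps_norm_pair (x y : UnitAddCircle) :
    ‖(epsL x : ℂ) + epsL y * Complex.I‖ = √(‖x‖ ^ 2 + ‖y‖ ^ 2) := by
  rw [Complex.norm_add_mul_I, ← eps_abs_L, ← eps_abs_L, sq_abs, sq_abs]

theorem eps_n0 (t : Tor (Fin 4)) : ‖zl t 0‖ = √(‖t 0‖ ^ 2 + ‖t 1‖ ^ 2) := eps_norm_pair _ _
theorem eps_n1 (t : Tor (Fin 4)) : ‖zl t 1‖ = √(‖t 2‖ ^ 2 + ‖t 3‖ ^ 2) := eps_norm_pair _ _

theorem eps_cont_n0 : Continuous fun t : Tor (Fin 4) => ‖zl t 0‖ := by
  simp only [eps_n0]; fun_prop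
theorem eps_cont_n1 : Continuous fun t : Tor (Fin 4) => ‖zl t 1‖ := by
  simp only [eps_n1]; fun_prop
theorem eps_cont_n : Continuous fun t : Tor (Fin 4) => ‖zl t‖ := by
  simp only [eps_norm2]; exact eps_cont_n0.max eps_cont_n1

theorem eps_coord_le (t : Tor (Fin 4)) (i : Fin 4) : ‖t i‖ ≤ ‖zl t‖ := by
  have h0 := norm_le_pi_norm (zl t) 0
  have h1 := norm_le_pi_norm (zl t) 1
  rw [eps_n0] at h0
  rw [eps_n1] at h1
  have a : ∀ x y : ℝ, 0 ≤ x → x ≤ √(x ^ 2 + y ^ 2) := fun x y _ =>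
    Real.le_sqrt_of_sq_le (by nlinarith [sq_nonneg y])
  have b : ∀ x y : ℝ, 0 ≤ y → y ≤ √(x ^ 2 + y ^ 2) := fun x y _ =>
    Real.le_sqrt_of_sq_le (by nlinarith [sq_nonneg x])
  fin_cases i
  · exact (a _ _ (norm_nonneg _)).trans h0
  · exact (b _ _ (norm_nonneg _)).trans h0
  · exact (a _ _ (norm_nonneg _)).trans h1
  · exact (b _ _ (norm_nonneg _)).trans h1

theorem eps_zl_cont {t : Tor (Fin 4)} (h : ‖zl t‖ < 1 / 2) : ContinuousAt zl t := by
  have c : ∀ i, ContinuousAt (fun u : Tor (Fin 4) => ((epsL (u i) : ℝ) : ℂ)) t := fun i =>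
    Complex.continuous_ofReal.continuousAt.comp
      (ContinuousAt.comp (f := fun u : Tor (Fin 4) => u i)
        (eps_L_cont ((eps_coord_le t i).trans_lt h)) (continuous_apply i).continuousAt)
  refine continuousAt_pi.2 fun i => ?_
  fin_cases i
  · exact (c 0).add ((c 1).mul continuousAt_const)
  · exact (c 2).add ((c 3).mul continuousAt_const)

/-- the covering map `ℂ² → T` -/
noncomputable def epsT (z : Fin 2 → ℂ) : Tor (Fin 4) :=
  ![((z 0).re : UnitAddCircle), ((z 0).im : UnitAddCircle), ((z 1).re : UnitAddCircle),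
    ((z 1).im : UnitAddCircle)]

theorem eps_T_cont : Continuous epsT := by
  have c : Continuous fun x : ℝ => (x : UnitAddCircle) := AddCircle.continuous_mk' 1
  refine continuous_pi fun i => ?_
  fin_cases i
  · exact c.comp (Complex.continuous_re.comp (continuous_apply 0))
  · exact c.comp (Complex.continuous_im.comp (continuous_apply 0))
  · exact c.comp (Complex.continuous_re.comp (continuous_apply 1))
  · exact c.comp (Complex.continuous_im.comp (continuous_apply 1))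

theorem eps_T_zl (t : Tor (Fin 4)) : epsT (zl t) = t := by
  funext i
  fin_cases i <;> simp [epsT, eps_zl0, eps_zl1, eps_L_coe]

theorem eps_zl_T {z : Fin 2 → ℂ} (h : ‖z‖ < 1 / 2) : zl (epsT z) = z := by
  have h0 := (norm_le_pi_norm z 0).trans_lt h
  have h1 := (norm_le_pi_norm z 1).trans_lt h
  funext i
  fin_cases i
  · change (epsL ((z 0).re : UnitAddCircle) : ℂ) + epsL ((z 0).im : UnitAddCircle) * Complex.I = z 0
    rw [eps_L_of ((Complex.abs_re_le_norm _).trans_lt h0),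
      eps_L_of ((Complex.abs_im_le_norm _).trans_lt h0), Complex.re_add_im]
  · change (epsL ((z 1).re : UnitAddCircle) : ℂ) + epsL ((z 1).im : UnitAddCircle) * Complex.I = z 1
    rw [eps_L_of ((Complex.abs_re_le_norm _).trans_lt h1),
      eps_L_of ((Complex.abs_im_le_norm _).trans_lt h1), Complex.re_add_im]

theorem eps_den_pos {v : Fin 2 → ℂ} (h : v ≠ 0) : 0 < ‖v 0‖ ^ 2 + ‖v 1‖ ^ 2 := by
  by_contra hc
  apply h
  have a : ‖v 0‖ = 0 := by nlinarith [sq_nonneg ‖v 0‖, sq_nonneg ‖v 1‖, norm_nonneg (v 0)]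
  have b : ‖v 1‖ = 0 := by nlinarith [sq_nonneg ‖v 0‖, sq_nonneg ‖v 1‖, norm_nonneg (v 1)]
  funext i
  fin_cases i
  · exact norm_eq_zero.1 a
  · exact norm_eq_zero.1 b

theorem eps_den_eq (v : Fin 2 → ℂ) : ((‖v 0‖ ^ 2 + ‖v 1‖ ^ 2 : ℝ) : ℂ) =
    v 0 * (starRingEnd ℂ) (v 0) + v 1 * (starRingEnd ℂ) (v 1) := by
  rw [Complex.mul_conj, Complex.mul_conj, Complex.normSq_eq_norm_sq, Complex.normSq_eq_norm_sq]
  push_cast; ring

theorem eps_prj_smul {c : ℂ} (hc : c ≠ 0) (v : Fin 2 → ℂ) : prj1 (c • v) = prj1 v := by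
  have hc' : (starRingEnd ℂ) c ≠ 0 := by simpa using hc
  funext i j
  unfold prj1
  rw [eps_den_eq, eps_den_eq]
  simp only [Pi.smul_apply, smul_eq_mul, map_mul]
  rw [show c * v i * ((starRingEnd ℂ) c * (starRingEnd ℂ) (v j)) =
      (c * (starRingEnd ℂ) c) * (v i * (starRingEnd ℂ) (v j)) by ring,
    show c * v 0 * ((starRingEnd ℂ) c * (starRingEnd ℂ) (v 0)) +
      c * v 1 * ((starRingEnd ℂ) c * (starRingEnd ℂ) (v 1)) = (c * (starRingEnd ℂ) c) *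
      (v 0 * (starRingEnd ℂ) (v 0) + v 1 * (starRingEnd ℂ) (v 1)) by ring,
    mul_div_mul_left _ _ (mul_ne_zero hc hc')]

theorem eps_prj_cont : ContinuousOn prj1 {v | v ≠ 0} := by
  refine continuousOn_pi.2 fun i => continuousOn_pi.2 fun j => ?_
  refine ContinuousOn.div (by fun_prop) (by fun_prop) fun v hv => ?_
  exact_mod_cast (eps_den_pos hv).ne'

theorem eps_prj_diag (v : Fin 2 → ℂ) (i : Fin 2) :
    ‖prj1 v i i‖ = ‖v i‖ ^ 2 / (‖v 0‖ ^ 2 + ‖v 1‖ ^ 2) := by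
  unfold prj1
  rw [norm_div, norm_mul, Complex.norm_conj, Complex.norm_real, Real.norm_of_nonneg (by positivity),
    sq ‖v i‖]

theorem eps_diag_le {r : ℝ} (hr : 0 < r) {v : Fin 2 → ℂ} (hv : v ≠ 0) (i j : Fin 2) :
    ‖(r • prj1 v) i i‖ ≤ ‖(r • prj1 v) j j‖ ↔ ‖v i‖ ≤ ‖v j‖ := by
  simp only [Pi.smul_apply, norm_smul, Real.norm_of_nonneg hr.le, eps_prj_diag]
  rw [mul_le_mul_iff_right₀ hr, div_le_div_iff_of_pos_right (eps_den_pos hv),
    sq_le_sq₀ (norm_nonneg _) (norm_nonneg _)]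

/-- the point of the blow up over `z` with direction `v` -/
noncomputable def epsQ (z v : Fin 2 → ℂ) : Tor (Fin 4) × (Fin 2 → Fin 2 → ℂ) :=
  (epsT z, (3 / 8 - ‖z‖ : ℝ) • prj1 v)

theorem eps_zl_Q {z : Fin 2 → ℂ} (h : ‖z‖ ≤ 3 / 8) (v : Fin 2 → ℂ) : zl (epsQ z v).1 = z :=
  eps_zl_T (by linarith)

theorem eps_Q_mem {c : ℂ} {v : Fin 2 → ℂ} (hv : v ≠ 0) (h : ‖c • v‖ ≤ 3 / 8) :
    epsQ (c • v) v ∈ BlT := by
  refine ⟨v, hv, ⟨c, eps_zl_Q h v⟩, ?_⟩
  rw [eps_zl_Q h v, max_eq_right (by linarith)]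
  rfl

theorem eps_exists_Q {p : Tor (Fin 4) × (Fin 2 → Fin 2 → ℂ)} (hp : p ∈ BlT)
    (h : ‖zl p.1‖ ≤ 3 / 8) : ∃ (c : ℂ) (v : Fin 2 → ℂ), v ≠ 0 ∧ zl p.1 = c • v ∧
      p = epsQ (c • v) v := by
  obtain ⟨v, hv, ⟨c, hc⟩, e⟩ := hp
  refine ⟨c, v, hv, hc, Prod.ext ?_ ?_⟩
  · rw [← hc]; exact (eps_T_zl _).symm
  · rw [e, max_eq_right (by linarith), hc]; rfl

theorem eps_far_mem {p : Tor (Fin 4) × (Fin 2 → Fin 2 → ℂ)} (h : 3 / 8 ≤ ‖zl p.1‖)
    (h2 : p.2 = 0) : p ∈ BlT := by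
  refine ⟨zl p.1, fun e => ?_, ⟨1, (one_smul _ _).symm⟩, ?_⟩
  · rw [e, norm_zero] at h; linarith
  · rw [h2, max_eq_left (by linarith), zero_smul]

theorem eps_far_zero {p : Tor (Fin 4) × (Fin 2 → Fin 2 → ℂ)} (hp : p ∈ BlT)
    (h : 3 / 8 ≤ ‖zl p.1‖) : p.2 = 0 := by
  obtain ⟨v, -, -, e⟩ := hp
  rw [e, max_eq_left (by linarith), zero_smul]

theorem eps_Q_cont {X : Type} [TopologicalSpace X] {S : Set X} {z v : X → Fin 2 → ℂ}
    (hz : ContinuousOn z S) (hv : ContinuousOn v S) (h : ∀ x ∈ S, v x ≠ 0) :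
    ContinuousOn (fun x => epsQ (z x) (v x)) S :=
  (eps_T_cont.comp_continuousOn hz).prodMk
    ((continuousOn_const.sub hz.norm).smul (eps_prj_cont.comp hv h))

theorem eps_compact : IsCompact BlT := by
  have h1 : IsCompact ((univ ×ˢ {0} : Set (Tor (Fin 4) × (Fin 2 → Fin 2 → ℂ))) ∩
      {p | 3 / 8 ≤ ‖zl p.1‖}) :=
    (isCompact_univ.prod isCompact_singleton).inter_right
      (isClosed_le continuous_const (eps_cont_n.comp continuous_fst))
  have h2 : IsCompact ((fun x : ℂ × (Fin 2 → ℂ) => epsQ (x.1 • x.2) x.2) ''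
      (Metric.closedBall 0 (3 / 8) ×ˢ Metric.sphere 0 1)) := by
    refine ((isCompact_closedBall _ _).prod (isCompact_sphere _ _)).image_of_continuousOn
      (eps_Q_cont (by fun_prop) (by fun_prop) fun x hx e => ?_)
    have := hx.2
    rw [e] at this
    simp at this
  convert h1.union h2 using 1
  ext p
  constructor
  · intro hp
    rcases le_total (3 / 8) ‖zl p.1‖ with h | h
    · exact Or.inl ⟨⟨trivial, eps_far_zero hp h⟩, h⟩
    · obtain ⟨c, v, hv, hc, e⟩ := eps_exists_Q hp h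
      have hn : (‖v‖ : ℂ) ≠ 0 := by exact_mod_cast norm_ne_zero_iff.2 hv
      have e2 : (c * ‖v‖) • ((‖v‖ : ℂ)⁻¹ • v) = c • v := by
        rw [smul_smul, mul_assoc, mul_inv_cancel₀ hn, mul_one]
      refine Or.inr ⟨(c * ‖v‖, (‖v‖ : ℂ)⁻¹ • v), ⟨?_, ?_⟩, ?_⟩
      · rw [hc, norm_smul] at h
        simpa using h
      · simp [norm_smul, norm_ne_zero_iff.2 hv]
      · rw [e]
        simp only [e2, epsQ, eps_prj_smul (inv_ne_zero hn)]
  · rintro (⟨⟨-, h⟩, h2⟩ | ⟨⟨c, v⟩, ⟨h1, h2⟩, rfl⟩)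
    · exact eps_far_mem h2 h
    · have hv : ‖v‖ = 1 := by simpa using h2
      refine eps_Q_mem (c := c) (v := v) (fun e => ?_) ?_
      · rw [e] at hv; simp at hv
      · rw [norm_smul, hv, mul_one]; simpa using h1

end Pool.Agent.Lib.MP_d3d358_ag.AS
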