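import Pool.Agent.Lib.MP_d3d358_ag.AS.EpsA

/-! The symmetry `(x, y) ↦ (i y, i x)` of the blown up torus, its homotopy near the exceptional
curve, and the two spheres. -/

set_option autoImplicit false

namespace Pool.Agent.Lib.MP_d3d358_ag.AS

open Topology Set

/-- ambient space of the blow up -/
abbrev EpsX : Type := Tor (Fin 4) × (Fin 2 → Fin 2 → ℂ)

/-- the symmetry -/
noncomputable def epsS (p : EpsX) : EpsX :=
  (![-p.1 3, p.1 2, -p.1 1, p.1 0], fun i j => p.2 i.rev j.rev)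

theorem eps_S_cont : Continuous epsS := by
  refine Continuous.prodMk (continuous_pi fun i => ?_) (by fun_prop)
  fin_cases i
  · exact ((continuous_apply 3).comp continuous_fst).neg
  · exact (continuous_apply 2).comp continuous_fst
  · exact ((continuous_apply 1).comp continuous_fst).neg
  · exact (continuous_apply 0).comp continuous_fst

theorem eps_S_S (p : EpsX) : epsS (epsS p) = (-p.1, p.2) := by
  refine Prod.ext (funext fun i => ?_) (funext fun i => funext fun j => ?_)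
  · fin_cases i <;> rfl
  · simp [epsS]

theorem eps_S_n0 (p : EpsX) : ‖zl (epsS p).1 0‖ = ‖zl p.1 1‖ := by
  rw [eps_n0, eps_n1]
  change √(‖-p.1 3‖ ^ 2 + ‖p.1 2‖ ^ 2) = _
  rw [norm_neg, add_comm]

theorem eps_S_n1 (p : EpsX) : ‖zl (epsS p).1 1‖ = ‖zl p.1 0‖ := by
  rw [eps_n0, eps_n1]
  change √(‖-p.1 1‖ ^ 2 + ‖p.1 0‖ ^ 2) = _
  rw [norm_neg, add_comm]

theorem eps_S_n (p : EpsX) : ‖zl (epsS p).1‖ = ‖zl p.1‖ := by
  rw [eps_norm2, eps_norm2, eps_S_n0, eps_S_n1, max_comm]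

/-- the path of linear maps from the identity to `i` times the swap -/
noncomputable def epsG (τ : ℝ) (z : Fin 2 → ℂ) : Fin 2 → ℂ :=
  fun i => (1 - τ) * z i + Complex.I * τ * z i.rev

/-- its action on matrices -/
noncomputable def epsC (τ : ℝ) (M : Fin 2 → Fin 2 → ℂ) : Fin 2 → Fin 2 → ℂ :=
  fun i j => ((1 - τ) ^ 2 * M i j - Complex.I * τ * (1 - τ) * M i j.rev
    + Complex.I * τ * (1 - τ) * M i.rev j + τ ^ 2 * M i.rev j.rev) / (((1 - τ) ^ 2 + τ ^ 2 : ℝ) : ℂ)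

theorem eps_D_ne (τ : ℝ) : (((1 - τ) ^ 2 + τ ^ 2 : ℝ) : ℂ) ≠ 0 := by
  have : 0 < (1 - τ) ^ 2 + τ ^ 2 := by nlinarith [sq_nonneg (2 * τ - 1)]
  exact_mod_cast this.ne'

theorem eps_G_smul (τ : ℝ) (c : ℂ) (v : Fin 2 → ℂ) : epsG τ (c • v) = c • epsG τ v := by
  funext i; simp only [epsG, Pi.smul_apply, smul_eq_mul]; ring

theorem eps_G_norm {τ : ℝ} (h : τ ∈ Icc (0 : ℝ) 1) (z : Fin 2 → ℂ) : ‖epsG τ z‖ ≤ ‖z‖ := by
  refine (pi_norm_le_iff_of_nonneg (norm_nonneg _)).2 fun i => (norm_add_le _ _).trans ?_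
  have e : (1 - τ : ℂ) = ((1 - τ : ℝ) : ℂ) := by push_cast; rfl
  rw [norm_mul, norm_mul, norm_mul, Complex.norm_I, e, Complex.norm_real, Complex.norm_real,
    Real.norm_of_nonneg h.1, Real.norm_of_nonneg (by linarith [h.2])]
  have a := mul_le_mul_of_nonneg_left (norm_le_pi_norm z i) (sub_nonneg.2 h.2)
  have b := mul_le_mul_of_nonneg_left (norm_le_pi_norm z i.rev) h.1
  linarith

theorem eps_G_mul (τ : ℝ) (v : Fin 2 → ℂ) (i j : Fin 2) :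
    epsG τ v i * (starRingEnd ℂ) (epsG τ v j) = (1 - τ) ^ 2 * (v i * (starRingEnd ℂ) (v j))
      - Complex.I * τ * (1 - τ) * (v i * (starRingEnd ℂ) (v j.rev))
      + Complex.I * τ * (1 - τ) * (v i.rev * (starRingEnd ℂ) (v j))
      + τ ^ 2 * (v i.rev * (starRingEnd ℂ) (v j.rev)) := by
  simp only [epsG, map_add, map_mul, map_sub, map_one, Complex.conj_ofReal, Complex.conj_I]
  linear_combination (-(τ : ℂ) ^ 2 * v i.rev * (starRingEnd ℂ) (v j.rev)) * Complex.I_sq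

theorem eps_G_den (τ : ℝ) (v : Fin 2 → ℂ) : ((‖epsG τ v 0‖ ^ 2 + ‖epsG τ v 1‖ ^ 2 : ℝ) : ℂ) =
    (((1 - τ) ^ 2 + τ ^ 2 : ℝ) : ℂ) * ((‖v 0‖ ^ 2 + ‖v 1‖ ^ 2 : ℝ) : ℂ) := by
  rw [eps_den_eq, eps_den_eq, eps_G_mul, eps_G_mul, show (0 : Fin 2).rev = 1 from rfl,
    show (1 : Fin 2).rev = 0 from rfl]
  push_cast; ring

theorem eps_G_ne (τ : ℝ) {v : Fin 2 → ℂ} (hv : v ≠ 0) : epsG τ v ≠ 0 := by
  intro e
  have h := eps_G_den τ v
  rw [e] at h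
  have h2 : ((‖v 0‖ ^ 2 + ‖v 1‖ ^ 2 : ℝ) : ℂ) ≠ 0 := by exact_mod_cast (eps_den_pos hv).ne'
  exact mul_ne_zero (eps_D_ne τ) h2 (by rw [← h]; simp)

theorem eps_C_prj (τ r : ℝ) (v : Fin 2 → ℂ) : epsC τ (r • prj1 v) = r • prj1 (epsG τ v) := by
  funext i j
  simp only [epsC, prj1, Pi.smul_apply, Complex.real_smul]
  rw [eps_G_mul, eps_G_den]
  generalize ((‖v 0‖ ^ 2 + ‖v 1‖ ^ 2 : ℝ) : ℂ) = n
  generalize (((1 - τ) ^ 2 + τ ^ 2 : ℝ) : ℂ) = m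
  ring

/-- the homotopy -/
noncomputable def epsF (q : ℝ × EpsX) : EpsX :=
  (epsT (epsG q.1 (zl q.2.1)),
    ((3 / 8 - ‖epsG q.1 (zl q.2.1)‖) / (3 / 8 - ‖zl q.2.1‖) : ℝ) • epsC q.1 q.2.2)

theorem eps_F_Q (τ : ℝ) {z : Fin 2 → ℂ} (h : ‖z‖ < 3 / 8) (v : Fin 2 → ℂ) :
    epsF (τ, epsQ z v) = epsQ (epsG τ z) (epsG τ v) := by
  unfold epsF
  rw [eps_zl_Q h.le]
  refine Prod.ext rfl ?_
  change _ • epsC τ (_ • prj1 v) = _ • prj1 _
  rw [eps_C_prj, smul_smul, div_mul_cancel₀ _ (by linarith)]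

theorem eps_G_zero (z : Fin 2 → ℂ) : epsG 0 z = z := by funext i; simp [epsG]

theorem eps_S_Q (z v : Fin 2 → ℂ) : epsS (epsQ z v) = epsQ (epsG 1 z) (epsG 1 v) := by
  have n : ‖epsG 1 z‖ = ‖z‖ := by
    rw [eps_norm2, eps_norm2 z, max_comm]
    simp [epsG, show (0 : Fin 2).rev = 1 from rfl, show (1 : Fin 2).rev = 0 from rfl]
  refine Prod.ext (funext fun i => ?_) ?_
  · fin_cases i <;>
      simp [epsS, epsQ, epsT, epsG, show (0 : Fin 2).rev = 1 from rfl,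
        show (1 : Fin 2).rev = 0 from rfl]
  · change _ = _ • prj1 _
    rw [← eps_C_prj, n]
    funext i j
    simp [epsS, epsQ, epsC]

theorem eps_S_mem : MapsTo epsS BlT BlT := by
  intro p hp
  rcases le_total (3 / 8) ‖zl p.1‖ with h | h
  · refine eps_far_mem (by rwa [eps_S_n]) ?_
    funext i j
    simp [epsS, eps_far_zero hp h]
  · obtain ⟨c, v, hv, hc, e⟩ := eps_exists_Q hp h
    rw [e, eps_S_Q, eps_G_smul]
    refine eps_Q_mem (eps_G_ne 1 hv) ?_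
    rw [← eps_G_smul, ← hc]
    exact (eps_G_norm ⟨zero_le_one, le_rfl⟩ _).trans h

/-- the part over the small ball -/
def epsB : Set EpsX := BlT ∩ {p | ‖zl p.1‖ ≤ 1 / 4}

/-- the outer part -/
def epsO : Set EpsX := BlT ∩ {p | 1 / 4 ≤ ‖zl p.1‖}

theorem eps_B_cpt : IsCompact epsB :=
  eps_compact.inter_right (isClosed_le (eps_cont_n.comp continuous_fst) continuous_const)

theorem eps_O_cpt : IsCompact epsO :=
  eps_compact.inter_right (isClosed_le continuous_const (eps_cont_n.comp continuous_fst))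

theorem eps_B_Q {p : EpsX} (hp : p ∈ epsB) : ∃ (c : ℂ) (v : Fin 2 → ℂ), v ≠ 0 ∧ zl p.1 = c • v ∧
    ‖c • v‖ ≤ 1 / 4 ∧ p = epsQ (c • v) v := by
  have h : ‖zl p.1‖ ≤ 1 / 4 := hp.2
  obtain ⟨c, v, hv, hc, e⟩ := eps_exists_Q hp.1 (by linarith)
  exact ⟨c, v, hv, hc, hc ▸ h, e⟩

theorem eps_G_cont : Continuous fun x : ℝ × (Fin 2 → ℂ) => epsG x.1 x.2 := by
  unfold epsG; fun_prop

theorem eps_C_cont : Continuous fun x : ℝ × (Fin 2 → Fin 2 → ℂ) => epsC x.1 x.2 := by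
  refine continuous_pi fun i => continuous_pi fun j => ?_
  exact Continuous.div (by fun_prop) (by fun_prop) fun x => eps_D_ne x.1

theorem eps_F_cont : ContinuousOn epsF (Icc 0 1 ×ˢ epsB) := by
  have hz : ContinuousOn (fun q : ℝ × EpsX => zl q.2.1) (Icc 0 1 ×ˢ epsB) := by
    intro q hq
    have h : ‖zl q.2.1‖ ≤ 1 / 4 := hq.2.2
    have c : Continuous fun q : ℝ × EpsX => q.2.1 := continuous_fst.comp continuous_snd
    exact (ContinuousAt.comp (g := zl) (f := fun q : ℝ × EpsX => q.2.1)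
      (eps_zl_cont (by linarith)) c.continuousAt).continuousWithinAt
  have hG : ContinuousOn (fun q : ℝ × EpsX => epsG q.1 (zl q.2.1)) (Icc 0 1 ×ˢ epsB) :=
    eps_G_cont.comp_continuousOn (f := fun q : ℝ × EpsX => (q.1, zl q.2.1))
      (continuousOn_fst.prodMk hz)
  have hC : Continuous fun q : ℝ × EpsX => epsC q.1 q.2.2 :=
    eps_C_cont.comp (f := fun q : ℝ × EpsX => (q.1, q.2.2)) (by fun_prop)
  have hr : ContinuousOn (fun q : ℝ × EpsX =>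
      ((3 / 8 - ‖epsG q.1 (zl q.2.1)‖) / (3 / 8 - ‖zl q.2.1‖) : ℝ)) (Icc 0 1 ×ˢ epsB) := by
    refine (continuousOn_const.sub hG.norm).div (continuousOn_const.sub hz.norm) fun q hq => ?_
    have h : ‖zl q.2.1‖ ≤ 1 / 4 := hq.2.2
    linarith
  exact (eps_T_cont.comp_continuousOn hG).prodMk (hr.smul hC.continuousOn)

theorem eps_F_mem : MapsTo epsF (Icc 0 1 ×ˢ epsB) BlT := by
  rintro ⟨τ, p⟩ ⟨hτ, hp⟩
  obtain ⟨c, v, hv, -, h, rfl⟩ := eps_B_Q hp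
  rw [eps_F_Q τ (by linarith), eps_G_smul]
  refine eps_Q_mem (eps_G_ne τ hv) ?_
  rw [← eps_G_smul]
  exact (eps_G_norm hτ _).trans (by linarith)

theorem eps_F_zero (p : EpsX) (hp : p ∈ epsB) : epsF (0, p) = id p := by
  obtain ⟨c, v, -, -, h, rfl⟩ := eps_B_Q hp
  rw [eps_F_Q 0 (by linarith), eps_G_zero, eps_G_zero, id]

theorem eps_F_one (p : EpsX) (hp : p ∈ epsB) : epsF (1, p) = (epsS ∘ id) p := by
  obtain ⟨c, v, -, -, h, rfl⟩ := eps_B_Q hp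
  rw [eps_F_Q 1 (by linarith), ← eps_S_Q]; rfl

theorem eps_van_of {Z Z' : Type} [MetricSpace Z] [MetricSpace Z'] {K : Set Z} {K' : Set Z'}
    (hK' : IsCompact K') {f : Z' → Z} (hf : ContinuousOn f K') (hb : BijOn f K' K) {k : ℤ}
    (h : Van ℚ K' k) : Van ℚ K k := fun _ hx =>
  (pull_bij hK' hf hb).1 ((h _ (pull_mem hx)).trans (map_zero _).symm)

theorem eps_rank : Module.finrank ℝ (Fin 2 → ℂ) = 4 := by
  simp [Module.finrank_pi_fintype]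

theorem eps_van_OB : Van ℚ (epsO ∩ epsB) (2 - 1) := by
  have ne : ∀ z ∈ Metric.sphere (0 : Fin 2 → ℂ) (1 / 4), z ≠ 0 := by
    rintro z hz rfl
    norm_num at hz
  refine eps_van_of (isCompact_sphere (0 : Fin 2 → ℂ) (1 / 4)) (f := fun z => epsQ z z)
    (eps_Q_cont continuousOn_id continuousOn_id ne) ⟨fun z hz => ?_, fun z hz w hw e => ?_, ?_⟩
    (van_sphere ℚ _ (by norm_num) (by norm_num) (by rw [eps_rank]; norm_num))
  · have hn : ‖z‖ = 1 / 4 := mem_sphere_zero_iff_norm.1 hz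
    have m := eps_Q_mem (c := 1) (ne z hz) (by rw [one_smul]; linarith)
    rw [one_smul] at m
    have e : ‖zl (epsQ z z).1‖ = 1 / 4 := by rw [eps_zl_Q (by linarith), hn]
    exact ⟨⟨m, e.ge⟩, m, e.le⟩
  · have hn : ‖z‖ = 1 / 4 := mem_sphere_zero_iff_norm.1 hz
    have hn' : ‖w‖ = 1 / 4 := mem_sphere_zero_iff_norm.1 hw
    have := congrArg (fun p : EpsX => zl p.1) e
    simpa only [eps_zl_Q (show ‖z‖ ≤ 3 / 8 by linarith),
      eps_zl_Q (show ‖w‖ ≤ 3 / 8 by linarith)] using this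
  · rintro p ⟨hO, hB⟩
    obtain ⟨c, v, -, hc, h, e⟩ := eps_B_Q hB
    have h2 : 1 / 4 ≤ ‖zl p.1‖ := hO.2
    rw [hc] at h2
    have c0 : c ≠ 0 := by
      rintro rfl
      norm_num at h2
    refine ⟨c • v, mem_sphere_zero_iff_norm.2 (le_antisymm h h2), ?_⟩
    rw [e]
    simp only [epsQ, eps_prj_smul c0]

/-- first chart together with the part where the first coordinate is large -/
def epsA : Set EpsX :=
  BlT ∩ ({p | ‖zl p.1‖ ≤ 1 / 4 ∧ ‖p.2 1 1‖ ≤ ‖p.2 0 0‖} ∪ {p | 1 / 4 ≤ ‖zl p.1 0‖})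

/-- second chart -/
def epsK : Set EpsX := BlT ∩ {p | ‖zl p.1‖ ≤ 1 / 4 ∧ ‖p.2 0 0‖ ≤ ‖p.2 1 1‖}

theorem eps_chart_closed (i j : Fin 2) :
    IsClosed {p : EpsX | ‖zl p.1‖ ≤ 1 / 4 ∧ ‖p.2 i i‖ ≤ ‖p.2 j j‖} :=
  (isClosed_le (eps_cont_n.comp continuous_fst) continuous_const).inter
    (isClosed_le (f := fun p : EpsX => ‖p.2 i i‖) (g := fun p : EpsX => ‖p.2 j j‖)
      (by fun_prop) (by fun_prop))

theorem eps_A_cpt : IsCompact epsA :=
  eps_compact.inter_right ((eps_chart_closed 1 0).union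
    (isClosed_le continuous_const (eps_cont_n0.comp continuous_fst)))

theorem eps_K_cpt : IsCompact epsK := eps_compact.inter_right (eps_chart_closed 0 1)

theorem eps_Q_diag {z v : Fin 2 → ℂ} (h : ‖z‖ ≤ 1 / 4) (hv : v ≠ 0) (i j : Fin 2) :
    ‖(epsQ z v).2 i i‖ ≤ ‖(epsQ z v).2 j j‖ ↔ ‖v i‖ ≤ ‖v j‖ :=
  eps_diag_le (by linarith) hv i j

theorem eps_AO {p : EpsX} (hp : p ∈ epsA ∩ epsO) : 1 / 8 ≤ ‖p.1 0‖ ∨ 1 / 8 ≤ ‖p.1 1‖ := by
  have h : 1 / 4 ≤ ‖zl p.1 0‖ := by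
    obtain ⟨⟨hp, h | h⟩, hO⟩ := hp
    · obtain ⟨c, v, hv, hc, hn, e⟩ := eps_B_Q ⟨hp, h.1⟩
      have h2 := h.2
      rw [e, eps_Q_diag hn hv] at h2
      have h3 : 1 / 4 ≤ ‖zl p.1‖ := hO.2
      rw [eps_norm2, max_eq_left] at h3
      · exact h3
      · rw [hc, Pi.smul_apply, Pi.smul_apply, norm_smul, norm_smul]
        exact mul_le_mul_of_nonneg_left h2 (norm_nonneg _)
    · exact h
  rw [eps_n0, Real.le_sqrt' (by norm_num)] at h
  by_contra hc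
  push Not at hc
  nlinarith [norm_nonneg (p.1 0), norm_nonneg (p.1 1), hc.1, hc.2]

theorem eps_vec_ne (u : ℂ) : (![u, 1] : Fin 2 → ℂ) ≠ 0 := fun e => by simpa using congrFun e 1

theorem eps_vec_norm (c : ℂ) {u : ℂ} (h : ‖u‖ ≤ 1) : ‖c • (![u, 1] : Fin 2 → ℂ)‖ = ‖c‖ := by
  rw [norm_smul, eps_norm2, max_eq_right (by simpa using h)]
  simp

theorem eps_van_K : Van ℚ ((epsA ∪ epsO) ∩ epsK) 2 := by
  have b : ∀ w ∈ Metric.sphere (0 : Fin 2 → ℂ) 1, ‖w 0‖ ≤ 1 ∧ ‖w 1‖ ≤ 1 ∧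
      ‖(w 0 / 4) • (![w 1, 1] : Fin 2 → ℂ)‖ = ‖w 0‖ / 4 := by
    intro w hw
    have hn : ‖w‖ = 1 := mem_sphere_zero_iff_norm.1 hw
    have h1 : ‖w 1‖ ≤ 1 := hn ▸ norm_le_pi_norm w 1
    exact ⟨hn ▸ norm_le_pi_norm w 0, h1, by rw [eps_vec_norm _ h1]; simp⟩
  have cv : Continuous fun w : Fin 2 → ℂ => (![w 1, 1] : Fin 2 → ℂ) := by fun_prop
  refine eps_van_of (isCompact_sphere (0 : Fin 2 → ℂ) 1)
    (f := fun w => epsQ ((w 0 / 4) • ![w 1, 1]) ![w 1, 1])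
    (eps_Q_cont (by fun_prop) cv.continuousOn fun w _ => eps_vec_ne _)
    ⟨fun w hw => ?_, fun z hz w hw e => ?_, ?_⟩
    (van_sphere ℚ _ (by norm_num) (by norm_num) (by rw [eps_rank]; norm_num))
  · obtain ⟨h0, h1, hn⟩ := b w hw
    have m := eps_Q_mem (c := w 0 / 4) (eps_vec_ne (w 1)) (by linarith)
    have e : ‖zl (epsQ ((w 0 / 4) • ![w 1, 1]) ![w 1, 1]).1‖ = ‖w 0‖ / 4 := by
      rw [eps_zl_Q (by linarith), hn]
    refine ⟨?_, m, by linarith, (eps_Q_diag (by linarith) (eps_vec_ne _) 0 1).2 (by simpa using h1)⟩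
    have hw1 : ‖w‖ = 1 := mem_sphere_zero_iff_norm.1 hw
    rw [eps_norm2] at hw1
    rcases max_cases ‖w 0‖ ‖w 1‖ with h | h
    · exact Or.inr ⟨m, le_of_le_of_eq (by linarith [h.1]) e.symm⟩
    · refine Or.inl ⟨m, Or.inl ⟨by linarith, (eps_Q_diag (by linarith) (eps_vec_ne _) 1 0).2 ?_⟩⟩
      simpa using (h.1.symm.trans hw1).ge
  · obtain ⟨a0, a1, an⟩ := b z hz
    obtain ⟨h0, h1, hn⟩ := b w hw
    have e1 := congrArg (fun p : EpsX => zl p.1 1) e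
    simp only [eps_zl_Q (show ‖(z 0 / 4) • (![z 1, 1] : Fin 2 → ℂ)‖ ≤ 3 / 8 by linarith),
      eps_zl_Q (show ‖(w 0 / 4) • (![w 1, 1] : Fin 2 → ℂ)‖ ≤ 3 / 8 by linarith)] at e1
    have q : ∀ (y : Fin 2 → ℂ) (u : ℂ), ‖y‖ ≤ 1 / 4 →
        (epsQ y ![u, 1]).2 0 1 / (epsQ y ![u, 1]).2 1 1 = u := by
      intro y u hy
      have d : ((‖(![u, 1] : Fin 2 → ℂ) 0‖ ^ 2 + ‖(![u, 1] : Fin 2 → ℂ) 1‖ ^ 2 : ℝ) : ℂ) ≠ 0 := by
        exact_mod_cast (eps_den_pos (eps_vec_ne u)).ne'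
      have r : ((3 / 8 - ‖y‖ : ℝ) : ℂ) ≠ 0 := by
        exact_mod_cast (show (0 : ℝ) < 3 / 8 - ‖y‖ by linarith).ne'
      simp only [epsQ, prj1, Pi.smul_apply, Complex.real_smul]
      rw [mul_div_mul_left _ _ r, div_div_div_cancel_right₀ d]
      simp
    have e2 := congrArg (fun p : EpsX => p.2 0 1 / p.2 1 1) e
    simp only [q _ _ (show ‖(z 0 / 4) • (![z 1, 1] : Fin 2 → ℂ)‖ ≤ 1 / 4 by linarith),
      q _ _ (show ‖(w 0 / 4) • (![w 1, 1] : Fin 2 → ℂ)‖ ≤ 1 / 4 by linarith)] at e2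
    funext i
    fin_cases i
    · simpa using e1
    · exact e2
  · rintro p ⟨hA, hp, hB, hK⟩
    obtain ⟨c, v, hv, hc, h, e⟩ := eps_B_Q ⟨hp, hB⟩
    rw [e, eps_Q_diag h hv] at hK
    have v1 : v 1 ≠ 0 := by
      intro e1
      rw [e1, norm_zero] at hK
      have := eps_den_pos hv
      rw [e1, le_antisymm hK (norm_nonneg _)] at this
      simp at this
    have n1 := norm_pos_iff.2 v1
    have ev : v = v 1 • ![v 0 / v 1, 1] := by
      funext i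
      fin_cases i
      · simp [mul_div_cancel₀ _ v1]
      · simp
    have u1 : ‖v 0 / v 1‖ ≤ 1 := by rw [norm_div, div_le_one n1]; exact hK
    have ez : (4 * (c * v 1) / 4) • (![v 0 / v 1, 1] : Fin 2 → ℂ) = c • v := by
      rw [mul_div_cancel_left₀ _ (by norm_num), mul_smul, ← ev]
    have en : ‖4 * (c * v 1)‖ = 4 * ‖c • v‖ := by
      rw [← ez, eps_vec_norm _ u1, mul_div_cancel_left₀ _ (by norm_num), norm_mul]
      simp
    refine ⟨![4 * (c * v 1), v 0 / v 1], mem_sphere_zero_iff_norm.2 ?_, ?_⟩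
    · rw [eps_norm2]
      change max ‖4 * (c * v 1)‖ ‖v 0 / v 1‖ = 1
      have far : 1 / 4 ≤ ‖zl p.1‖ → max ‖4 * (c * v 1)‖ ‖v 0 / v 1‖ = 1 := fun h2 => by
        rw [hc] at h2
        rw [max_eq_left (by linarith)]
        linarith
      rcases hA with ⟨-, hA | hA⟩ | hA
      · have h2 := hA.2
        rw [e, eps_Q_diag h hv] at h2
        have : ‖v 0 / v 1‖ = 1 := by rw [norm_div, le_antisymm hK h2, div_self n1.ne']
        rw [this, max_eq_right (by linarith)]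
      · exact far (le_trans hA (norm_le_pi_norm _ 0))
      · exact far hA.2
    · change epsQ ((4 * (c * v 1) / 4) • ![v 0 / v 1, 1]) ![v 0 / v 1, 1] = p
      rw [ez, e]
      refine Prod.ext rfl ?_
      change _ • prj1 _ = _ • prj1 v
      rw [← eps_prj_smul v1 ![v 0 / v 1, 1], ← ev]

end Pool.Agent.Lib.MP_d3d358_ag.AS
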