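import Pool.Agent.Lib.MP_d3d358_ag.AS.GeoTriA

/-! The fibre over a mirror point that is not a triple point is a projective line. -/

set_option autoImplicit false

namespace Pool.Agent.Lib.MP_d3d358_ag.AS

open Topology Set Filter

variable {P : Matrix (Fin 2) (Fin 4) ℂ} {X : Type} [MetricSpace X] {Per : (List X → ℂ) → Prop}

/-- `cx P` as a real linear map -/
noncomputable def GeoMir_cx (P : Matrix (Fin 2) (Fin 4) ℂ) : (Fin 4 → ℝ) →ₗ[ℝ] Fin 2 → ℂ where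
  toFun := cx P
  map_add' a b := by
    funext i; simp [cx, Matrix.mulVec, dotProduct, mul_add, Finset.sum_add_distrib]
  map_smul' c a := by
    funext i; simp [cx, Matrix.mulVec, dotProduct, Finset.mul_sum, mul_left_comm]

theorem GeoMir_surj (hP : ∀ t, cx P t = 0 → t = 0) : Function.Surjective (cx P) := by
  have hi : Function.Injective (GeoMir_cx P) := (injective_iff_map_eq_zero _).2 hP
  exact (LinearMap.injective_iff_surjective_of_finrank_eq_finrank (f := GeoMir_cx P) (by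
    simp [Module.finrank_pi_fintype])).1 hi

theorem Geo.mir_mem (G : Geo P X Per) (hP : ∀ t, cx P t = 0 → t = 0) {t : I8 → ℝ}
    (h1 : pa 0 t = pa 1 t) (h2 : pa 0 (mkT t) ≠ pa 2 (mkT t)) {δ : Fin 2 → ℂ} (hδ : δ ≠ 0) :
    nrm (tens G.e (G.M t δ) (G.g t)) ∈ G.S := by
  obtain ⟨r, rfl⟩ := GeoMir_surj hP δ
  let s : ℝ → I8 → ℝ := fun k => t + k • Sum.elim r 0
  have hs : Tendsto s (𝓝[≠] 0) (𝓝 t) := by
    have : Continuous s := by fun_prop
    have h := (this.tendsto 0).mono_left (nhdsWithin_le_nhds (s := {0}ᶜ))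
    rwa [show s 0 = t by simp [s]] at h
  have e : ∀ k, pa 0 (s k) - pa 1 (s k) = k • r := fun k => by
    funext j
    have : t (.inl j) = t (.inr j) := congrFun h1 j
    change t (.inl j) + k * r j - (t (.inr j) + k * 0) = k * r j
    rw [this]; ring
  refine G.mem_S (c := fun k : ℝ => (k : ℂ)⁻¹) hs ?_ fun h =>
    hδ (G.M_inj t h1 h2 (h.trans (map_zero _).symm))
  have h3 : Tendsto (fun k => G.M (s k) (cx P r)) (𝓝[≠] 0) (𝓝 (G.M t (cx P r))) :=
    ((G.cM.clm_apply continuous_const).tendsto t).comp hs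
  refine h3.congr' ?_
  filter_upwards [self_mem_nhdsWithin] with k hk
  have hk' : (k : ℂ) ≠ 0 := Complex.ofReal_ne_zero.2 hk
  have : cx P (k • r) = (k : ℂ) • cx P r := (GeoMir_cx P).map_smul k r
  rw [G.f_eq, e, this, map_smul, smul_smul, inv_mul_cancel₀ hk', one_smul]

theorem Geo.mir_of_mem (G : Geo P X Per) {t : I8 → ℝ} (h1 : pa 0 t = pa 1 t)
    (h2 : pa 0 (mkT t) ≠ pa 2 (mkT t)) {v : EuclideanSpace ℂ (Fin G.m)} (hv : v ∈ G.S)
    {b : Fin G.m₁ → ℂ} (e : v = tens G.e b (G.g t)) : ∃ δ, δ ≠ 0 ∧ G.M t δ = b := by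
  obtain ⟨c, s, hs, hb⟩ := G.exists_seq hv e
  obtain ⟨δ, -, eδ⟩ := lim_of_inj ((G.cM.tendsto t).comp hs) (G.M_inj t h1 h2)
    (w := fun k => c k • cx P (pa 0 (s k) - pa 1 (s k)))
    (hb.congr fun k => by rw [G.f_eq, map_smul]; rfl)
  exact ⟨δ, fun h => G.ne_zero_of_mem hv (by rw [e, ← eδ, h, map_zero, GeoTri_tens_zero]), eδ⟩

theorem Geo.mir (G : Geo P X Per) (hP : ∀ t, cx P t = 0 → t = 0) {t : I8 → ℝ}
    (h1 : pa 0 t = pa 1 t) (h2 : pa 0 (mkT t) ≠ pa 2 (mkT t)) {F : Set X}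
    (hF : ∀ v ∈ G.S, G.pr v ∈ F ↔ ∃ b, v = tens G.e b (G.g t)) : WPData G.S G.pr F 1 := by
  have hi := G.M_inj t h1 h2
  have o0 : ∀ x : EuclideanSpace ℂ (Fin 2), x ≠ 0 → x.ofLp ≠ 0 := fun x hx h =>
    hx (PiLp.ext fun i => congrFun h i)
  have t0 : ∀ x : EuclideanSpace ℂ (Fin 2), x ≠ 0 → tens G.e (G.M t x.ofLp) (G.g t) ≠ 0 :=
    fun x hx => GeoTri_tens_ne G.e (fun h => o0 x hx (hi (h.trans (map_zero _).symm))) (G.g_ne t)
  have s0 : ∀ x ∈ Metric.sphere (0 : EuclideanSpace ℂ (Fin 2)) 1, x ≠ 0 :=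
    fun x hx => ne_zero_of_mem_unit_sphere ⟨x, hx⟩
  have sc : ∀ (ρ : ℂ) (x : EuclideanSpace ℂ (Fin 2)), tens G.e (G.M t (ρ • x).ofLp) (G.g t)
      = ρ • tens G.e (G.M t x.ofLp) (G.g t) := fun ρ x => by
    rw [WithLp.ofLp_smul, map_smul, GeoTri_tens_smul_left]
  refine ⟨PUnit, inferInstance, inferInstance,
    { smul := fun _ x => x, one_smul := fun _ => rfl, mul_smul := fun _ _ _ => rfl },
    fun x => nrm (tens G.e (G.M t x.ofLp) (G.g t)), fun _ => continuous_id, fun _ _ => rfl,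
    fun x hx => ?_, ?_, fun x hx y hy => ⟨fun h => ⟨1, ?_⟩, ?_⟩⟩
  · have : Continuous fun x : EuclideanSpace ℂ (Fin 2) => tens G.e (G.M t x.ofLp) (G.g t) :=
      (GeoTri_tens_cont G.e).comp
        (((G.M t).continuous.comp (PiLp.continuous_ofLp 2 _)).prodMk continuous_const)
    exact (ContinuousAt.comp (g := nrm)
      (f := fun x : EuclideanSpace ℂ (Fin 2) => tens G.e (G.M t x.ofLp) (G.g t))
      (GeoTri_nrm_cont (t0 x (s0 x hx))) this.continuousAt).continuousWithinAt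
  · refine Subset.antisymm ?_ ?_
    · rintro _ ⟨x, hx, rfl⟩
      have hS := G.mir_mem hP h1 h2 (o0 x (s0 x hx))
      exact ⟨hS, (hF _ hS).2 ⟨_, (GeoTri_tens_smul_left G.e _ _ _).symm⟩⟩
    · rintro v ⟨hv, hvF⟩
      obtain ⟨b, e⟩ := (hF v hv).1 hvF
      obtain ⟨δ, hδ, eδ⟩ := G.mir_of_mem h1 h2 hv e
      let x : EuclideanSpace ℂ (Fin 2) := WithLp.toLp 2 δ
      have hx : x ≠ 0 := fun h => hδ (congrArg WithLp.ofLp h)
      have hn := norm_pos_iff.2 hx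
      refine ⟨((‖x‖⁻¹ : ℝ) : ℂ) • x, ?_, ?_⟩
      · rw [mem_sphere_zero_iff_norm, norm_smul, Complex.norm_real, norm_inv, norm_norm,
          inv_mul_cancel₀ hn.ne']
      · change nrm (tens G.e (G.M t (((‖x‖⁻¹ : ℝ) : ℂ) • x).ofLp) (G.g t)) = v
        rw [sc, GeoTri_nrm_smul (by positivity), eδ, ← e, GeoTri_nrm_of_norm (G.cb.unit v hv)]
  · obtain ⟨ρ, hρ, e⟩ := GeoTri_nrm_eq (t0 x (s0 x hx)) (t0 y (s0 y hy)) h
    rw [← sc] at e
    have ey : y = (ρ : ℂ) • x :=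
      PiLp.ext fun i => congrFun (hi (GeoTri_tens_cancel G.e (G.g_ne t) e)) i
    have h1 := mem_sphere_zero_iff_norm.1 hy
    rw [ey, norm_smul, mem_sphere_zero_iff_norm.1 hx, Complex.norm_real, Real.norm_of_nonneg hρ.le,
      mul_one] at h1
    rw [h1, Complex.ofReal_one, one_smul] at ey
    exact ey.symm
  · rintro ⟨_, rfl⟩
    rfl

end Pool.Agent.Lib.MP_d3d358_ag.AS
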