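import Pool.Agent.Lib.MP_d3d358_ag.AS.GeoTriA

/-! The fibre over a triple point is the weighted projective plane `P(1,1,3)`. -/

set_option autoImplicit false

namespace Pool.Agent.Lib.MP_d3d358_ag.AS

open Topology Set Filter

/-- the cone over the twisted cubic -/
def GeoTri_cub (x : EuclideanSpace ℂ (Fin 3)) : Fin 5 → ℂ :=
  ![x 0 ^ 3, x 1 ^ 3, x 1 ^ 2 * x 2, x 1 * x 2 ^ 2, x 2 ^ 3]

theorem GeoTri_cub_cont : Continuous GeoTri_cub := by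
  refine continuous_pi fun i => ?_
  fin_cases i <;> simp only [GeoTri_cub] <;> simp <;> fun_prop

theorem GeoTri_cub_smul (c : ℂ) (x : EuclideanSpace ℂ (Fin 3)) :
    GeoTri_cub (c • x) = c ^ 3 • GeoTri_cub x := by
  funext i
  fin_cases i <;> simp [GeoTri_cub] <;> ring

theorem GeoTri_cub_ne {x : EuclideanSpace ℂ (Fin 3)} (h : x ≠ 0) : GeoTri_cub x ≠ 0 := fun e => by
  have h0 : x 0 ^ 3 = 0 := congrFun e 0
  have h1 : x 1 ^ 3 = 0 := congrFun e 1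
  have h2 : x 2 ^ 3 = 0 := congrFun e 4
  refine h (PiLp.ext fun i => ?_)
  fin_cases i
  exacts [pow_eq_zero_iff (by norm_num) |>.1 h0, pow_eq_zero_iff (by norm_num) |>.1 h1,
    pow_eq_zero_iff (by norm_num) |>.1 h2]

theorem GeoTri_cub_surj {w : Fin 5 → ℂ} (h1 : w 2 * w 2 = w 1 * w 3) (h2 : w 2 * w 3 = w 1 * w 4)
    (h3 : w 3 * w 3 = w 2 * w 4) : ∃ x, GeoTri_cub x = w := by
  obtain ⟨r, hr⟩ := IsAlgClosed.exists_pow_nat_eq (w 0) (by norm_num : 0 < 3)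
  by_cases h0 : w 1 = 0
  · obtain ⟨t, ht⟩ := IsAlgClosed.exists_pow_nat_eq (w 4) (by norm_num : 0 < 3)
    have e2 : w 2 = 0 := mul_self_eq_zero.1 (by rw [h1, h0, zero_mul])
    have e3 : w 3 = 0 := mul_self_eq_zero.1 (by rw [h3, e2, zero_mul])
    refine ⟨WithLp.toLp 2 ![r, 0, t], funext fun i => ?_⟩
    fin_cases i <;> simp [GeoTri_cub, hr, ht, h0, e2, e3]
  · obtain ⟨s, hs⟩ := IsAlgClosed.exists_pow_nat_eq (w 1) (by norm_num : 0 < 3)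
    have s0 : s ≠ 0 := fun e => h0 (by rw [← hs, e]; norm_num)
    obtain ⟨t, ht⟩ : ∃ t, s ^ 2 * t = w 2 := ⟨w 2 / s ^ 2, by field_simp⟩
    have e3 : s * t ^ 2 = w 3 := by
      apply mul_left_cancel₀ h0
      rw [← h1, ← hs, ← ht]; ring
    have e4 : t ^ 3 = w 4 := by
      apply mul_left_cancel₀ h0
      rw [← h2, ← hs, ← ht, ← e3]; ring
    refine ⟨WithLp.toLp 2 ![r, s, t], funext fun i => ?_⟩
    fin_cases i <;> simp [GeoTri_cub, hr, hs, ht, e3, e4]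

theorem GeoTri_root {x y : ℂ} (h : x ^ 3 = y ^ 3) : ∃ a : ℂ, a ^ 3 = 1 ∧ a * x = y := by
  by_cases h0 : x = 0
  · have : y = 0 := pow_eq_zero_iff (n := 3) (by norm_num) |>.1 (by rw [← h, h0]; norm_num)
    exact ⟨1, one_pow 3, by rw [h0, this, mul_zero]⟩
  · exact ⟨y / x, by rw [div_pow, ← h, div_self (pow_ne_zero 3 h0)], div_mul_cancel₀ y h0⟩

theorem GeoTri_cub_fib {x y : EuclideanSpace ℂ (Fin 3)} (h : GeoTri_cub x = GeoTri_cub y) :
    ∃ a b : ℂ, a ^ 3 = 1 ∧ b ^ 3 = 1 ∧ a * x 0 = y 0 ∧ b * x 1 = y 1 ∧ b * x 2 = y 2 := by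
  have h0 : x 0 ^ 3 = y 0 ^ 3 := congrFun h 0
  have h1 : x 1 ^ 3 = y 1 ^ 3 := congrFun h 1
  have h2 : x 1 ^ 2 * x 2 = y 1 ^ 2 * y 2 := congrFun h 2
  have h4 : x 2 ^ 3 = y 2 ^ 3 := congrFun h 4
  obtain ⟨a, ha, ea⟩ := GeoTri_root h0
  by_cases s0 : x 1 = 0
  · obtain ⟨b, hb, eb⟩ := GeoTri_root h4
    have : y 1 = 0 := pow_eq_zero_iff (n := 3) (by norm_num) |>.1 (by rw [← h1, s0]; norm_num)
    exact ⟨a, b, ha, hb, ea, by rw [s0, this, mul_zero], eb⟩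
  · obtain ⟨b, hb, eb⟩ := GeoTri_root h1
    refine ⟨a, b, ha, hb, ea, eb, mul_left_cancel₀ (pow_ne_zero 2 s0) ?_⟩
    rw [← eb] at h2
    linear_combination b * h2 + x 1 ^ 2 * y 2 * hb

/-- limits of alternants lie on the cone -/
theorem GeoTri_alt_lim {ι : Type} {l : Filter ι} [l.NeBot] {z : ι → Fin 4 → ℂ} {c : ι → ℂ}
    {w : Fin 5 → ℂ} (hz : Tendsto z l (𝓝 0)) (h : Tendsto (fun k => c k • alt5 (z k)) l (𝓝 w)) :
    ∃ x, GeoTri_cub x = w := by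
  have z' : ∀ i, Tendsto (fun k => z k i) l (𝓝 0) := fun i => tendsto_pi_nhds.1 hz i
  have w' : ∀ i, Tendsto (fun k => (c k • alt5 (z k)) i) l (𝓝 (w i)) :=
    fun i => tendsto_pi_nhds.1 h i
  have key : ∀ (i j i' j' : Fin 5) (q : ι → ℂ), Tendsto q l (𝓝 0) →
      (∀ k, alt5 (z k) i * alt5 (z k) j - alt5 (z k) i' * alt5 (z k) j'
        = q k * (alt5 (z k) 0 * alt5 (z k) 0)) → w i * w j = w i' * w j' := by
    intro i j i' j' q hq e
    have h1 := ((w' i).mul (w' j)).sub ((w' i').mul (w' j'))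
    have h2 := hq.mul ((w' 0).mul (w' 0))
    rw [zero_mul] at h2
    refine sub_eq_zero.1 (tendsto_nhds_unique h1 (h2.congr fun k => ?_))
    simp only [Pi.smul_apply, smul_eq_mul]
    linear_combination (-(c k * c k)) * e k
  refine GeoTri_cub_surj (key 2 2 1 3 (fun k => z k 0 * z k 2) ?_ fun k => ?_)
    (key 2 3 1 4 (fun k => z k 0 * z k 3 + z k 1 * z k 2) ?_ fun k => ?_)
    (key 3 3 2 4 (fun k => z k 1 * z k 3) ?_ fun k => ?_)
  · simpa using (z' 0).mul (z' 2)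
  · simp [alt5]; ring
  · simpa using ((z' 0).mul (z' 3)).add ((z' 1).mul (z' 2))
  · simp [alt5]; ring
  · simpa using (z' 1).mul (z' 3)
  · simp [alt5]; ring

/-- every point of the cone is a limit of alternants -/
theorem GeoTri_alt_app (x : EuclideanSpace ℂ (Fin 3)) : ∃ (z : ℂ → Fin 4 → ℂ) (c : ℂ → ℂ),
    Tendsto z (𝓝[≠] 0) (𝓝 0) ∧ Tendsto (fun k => c k • alt5 (z k)) (𝓝[≠] 0) (𝓝 (GeoTri_cub x)) := by
  have key : ∀ (z : ℂ → Fin 4 → ℂ) (c : ℂ → ℂ) (y : ℂ → Fin 5 → ℂ), Continuous z → z 0 = 0 →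
      Continuous y → y 0 = GeoTri_cub x → (∀ k ≠ 0, y k = c k • alt5 (z k)) →
      Tendsto z (𝓝[≠] 0) (𝓝 0) ∧
        Tendsto (fun k => c k • alt5 (z k)) (𝓝[≠] 0) (𝓝 (GeoTri_cub x)) := by
    intro z c y hz z0 hy y0 e
    refine ⟨z0 ▸ (hz.tendsto 0).mono_left nhdsWithin_le_nhds,
      (y0 ▸ (hy.tendsto 0).mono_left nhdsWithin_le_nhds).congr' ?_⟩
    filter_upwards [self_mem_nhdsWithin] with k hk using e k hk
  by_cases h : x 1 = 0 ∧ x 2 = 0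
  · refine ⟨_, _, key (fun k => ![k, 0, 0, k]) (fun k => x 0 ^ 3 / k ^ 2)
      (fun k => ![x 0 ^ 3, k * x 0 ^ 3, 0, 0, -(k * x 0 ^ 3)]) (by fun_prop) ?_ (by fun_prop) ?_
      fun k hk => ?_⟩
    · funext i; fin_cases i <;> simp
    · funext i; fin_cases i <;> simp [GeoTri_cub, h.1, h.2]
    · funext i; fin_cases i <;> simp [alt5] <;> field_simp
  · obtain ⟨p, q, e⟩ : ∃ p q : ℂ, x 0 ^ 3 = x 1 * q - x 2 * p := by
      by_cases h1 : x 1 = 0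
      · have h2 : x 2 ≠ 0 := fun h2 => h ⟨h1, h2⟩
        exact ⟨-(x 0 ^ 3 / x 2), 0, by field_simp; simp⟩
      · exact ⟨0, x 0 ^ 3 / x 1, by field_simp; simp⟩
    refine ⟨_, _, key (fun k => ![k * x 1, k * x 2, k ^ 2 * p, k ^ 2 * q]) (fun k => 1 / k ^ 3)
      (fun k => ![x 0 ^ 3, x 1 ^ 3 - k ^ 3 * p ^ 3, x 1 ^ 2 * x 2 - k ^ 3 * (p ^ 2 * q),
        x 1 * x 2 ^ 2 - k ^ 3 * (p * q ^ 2), x 2 ^ 3 - k ^ 3 * q ^ 3]) (by fun_prop) ?_
      (by fun_prop) ?_ fun k hk => ?_⟩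
    · funext i; fin_cases i <;> simp
    · funext i; fin_cases i <;> simp [GeoTri_cub]
    · funext i; fin_cases i <;> simp [alt5, e] <;> field_simp

/-- the action `(a r, b s, b t)` -/
@[reducible] noncomputable def GeoTri_act :
    MulAction (rootsOfUnity 3 ℂ × rootsOfUnity 3 ℂ) (EuclideanSpace ℂ (Fin 3)) where
  smul g x := WithLp.toLp 2 ![(g.1.1 : ℂ) * x 0, (g.2.1 : ℂ) * x 1, (g.2.1 : ℂ) * x 2]
  one_smul x := PiLp.ext fun i => by
    fin_cases i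
    exacts [one_mul (x 0), one_mul (x 1), one_mul (x 2)]
  mul_smul g h x := PiLp.ext fun i => by
    fin_cases i
    exacts [mul_assoc (g.1.1 : ℂ) h.1.1 (x 0), mul_assoc (g.2.1 : ℂ) h.2.1 (x 1),
      mul_assoc (g.2.1 : ℂ) h.2.1 (x 2)]

theorem GeoTri_cube (a : rootsOfUnity 3 ℂ) : (a.1 : ℂ) ^ 3 = 1 := (mem_rootsOfUnity' 3 a.1).1 a.2

theorem GeoTri_norm_root {a : ℂ} (h : a ^ 3 = 1) : ‖a‖ = 1 :=
  (pow_eq_one_iff_of_nonneg (norm_nonneg a) (by norm_num : 3 ≠ 0)).1 (by rw [← norm_pow, h, norm_one])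

theorem GeoTri_norm_act {a b : ℂ} (ha : a ^ 3 = 1) (hb : b ^ 3 = 1) (x : EuclideanSpace ℂ (Fin 3)) :
    ‖(WithLp.toLp 2 ![a * x 0, b * x 1, b * x 2] : EuclideanSpace ℂ (Fin 3))‖ = ‖x‖ := by
  simp [EuclideanSpace.norm_eq, Fin.sum_univ_three, GeoTri_norm_root ha, GeoTri_norm_root hb]

variable {P : Matrix (Fin 2) (Fin 4) ℂ} {X : Type} [MetricSpace X] {Per : (List X → ℂ) → Prop}

theorem Geo.tri (G : Geo P X Per) {t : I8 → ℝ} (h1 : pa 0 t = pa 1 t)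
    (h2 : pa 0 (mkT t) = pa 2 (mkT t)) {F : Set X}
    (hF : ∀ v ∈ G.S, G.pr v ∈ F ↔ ∃ b, v = tens G.e b (G.g t)) : WPData G.S G.pr F 2 := by
  obtain ⟨τ, E, hτ, hE, hi, hf⟩ := G.triple t h1 h2
  have app : ∀ {ι : Type} {l : Filter ι} {s : ι → I8 → ℝ} {x : ι → Fin 5 → ℂ} {x₀ : Fin 5 → ℂ},
      Tendsto s l (𝓝 t) → Tendsto x l (𝓝 x₀) → Tendsto (fun k => E (s k) (x k)) l (𝓝 (E t x₀)) :=
    fun hs hx => (isBoundedBilinearMap_apply.continuous.tendsto (_, _)).comp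
      ((hE.tendsto.comp hs).prodMk_nhds hx)
  have e0 : ∀ x : EuclideanSpace ℂ (Fin 3), x ≠ 0 → E t (GeoTri_cub x) ≠ 0 := fun x hx h =>
    GeoTri_cub_ne hx (hi (h.trans (map_zero (E t)).symm))
  have t0 : ∀ x : EuclideanSpace ℂ (Fin 3), x ≠ 0 → tens G.e (E t (GeoTri_cub x)) (G.g t) ≠ 0 :=
    fun x hx => GeoTri_tens_ne G.e (e0 x hx) (G.g_ne t)
  have s0 : ∀ x ∈ Metric.sphere (0 : EuclideanSpace ℂ (Fin 3)) 1, x ≠ 0 :=
    fun x hx => ne_zero_of_mem_unit_sphere ⟨x, hx⟩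
  have sc : ∀ (ρ : ℝ) (x : EuclideanSpace ℂ (Fin 3)), tens G.e (E t (GeoTri_cub ((ρ : ℂ) • x))) (G.g t)
      = ((ρ ^ 3 : ℝ) : ℂ) • tens G.e (E t (GeoTri_cub x)) (G.g t) := fun ρ x => by
    rw [GeoTri_cub_smul, map_smul, GeoTri_tens_smul_left, Complex.ofReal_pow]
  refine ⟨rootsOfUnity 3 ℂ × rootsOfUnity 3 ℂ, inferInstance, Fintype.ofFinite _, GeoTri_act,
    fun x => nrm (tens G.e (E t (GeoTri_cub x)) (G.g t)), fun g => ?_,
    fun g x => GeoTri_norm_act (GeoTri_cube g.1) (GeoTri_cube g.2) x, fun x hx => ?_, ?_,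
    fun x hx y hy => ⟨fun h => ?_, ?_⟩⟩
  · change Continuous fun x : EuclideanSpace ℂ (Fin 3) => (WithLp.toLp 2
      ![(g.1.1 : ℂ) * x 0, (g.2.1 : ℂ) * x 1, (g.2.1 : ℂ) * x 2] : EuclideanSpace ℂ (Fin 3))
    exact (PiLp.continuous_toLp 2 _).comp (by fun_prop)
  · have : Continuous fun x : EuclideanSpace ℂ (Fin 3) => tens G.e (E t (GeoTri_cub x)) (G.g t) :=
      (GeoTri_tens_cont G.e).comp
        (((E t).continuous.comp GeoTri_cub_cont).prodMk continuous_const)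
    exact (ContinuousAt.comp (g := nrm)
      (f := fun x : EuclideanSpace ℂ (Fin 3) => tens G.e (E t (GeoTri_cub x)) (G.g t))
      (GeoTri_nrm_cont (t0 x (s0 x hx))) this.continuousAt).continuousWithinAt
  · refine Subset.antisymm ?_ ?_
    · rintro _ ⟨x, hx, rfl⟩
      obtain ⟨z, c, hz, hc⟩ := GeoTri_alt_app x
      let l : Filter (ℂ × (I8 → ℝ)) := (𝓝[≠] 0 ×ˢ 𝓝 t) ⊓ 𝓟 {p | τ p.2 = z p.1}
      have : l.NeBot := inf_principal_neBot_iff.2 fun U hU => by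
        obtain ⟨A, hA, B, hB, hAB⟩ := mem_prod_iff.1 hU
        have h3 : τ '' B ∈ 𝓝 (0 : Fin 4 → ℂ) := hτ ▸ image_mem_map hB
        obtain ⟨k, hk, s, hs, e⟩ := Filter.nonempty_of_mem (inter_mem hA (hz h3))
        exact ⟨(k, s), hAB ⟨hk, hs⟩, e⟩
      have l1 : Tendsto Prod.fst l (𝓝[≠] 0) := tendsto_fst.mono_left inf_le_left
      have l2 : Tendsto Prod.snd l (𝓝 t) := tendsto_snd.mono_left inf_le_left
      have hS : nrm (tens G.e (E t (GeoTri_cub x)) (G.g t)) ∈ G.S := by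
        refine G.mem_S (c := fun p => c p.1) l2 ((app l2 (hc.comp l1)).congr' ?_) (e0 x (s0 x hx))
        filter_upwards [l2.eventually hf, mem_inf_of_right (mem_principal_self _)] with p hp hp'
        have hp'' : τ p.2 = z p.1 := hp'
        rw [hp, hp'', Function.comp_apply, map_smul]
      exact ⟨hS, (hF _ hS).2 ⟨_, (GeoTri_tens_smul_left G.e _ _ _).symm⟩⟩
    · rintro v ⟨hv, hvF⟩
      obtain ⟨b, e⟩ := (hF v hv).1 hvF
      obtain ⟨c, s, hs, hb⟩ := G.exists_seq hv e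
      have h3 : Tendsto (fun k => E (s k) (c k • alt5 (τ (s k)))) atTop (𝓝 b) := by
        refine hb.congr' ?_
        filter_upwards [hs.eventually hf] with k hk
        rw [hk, map_smul]
      obtain ⟨w, hw, ew⟩ := lim_of_inj (hE.tendsto.comp hs) hi h3
      obtain ⟨x, rfl⟩ := GeoTri_alt_lim (Tendsto.comp (show Tendsto τ (𝓝 t) (𝓝 0) from hτ.le) hs) hw
      have hx : x ≠ 0 := fun h => G.ne_zero_of_mem hv (by
        have : GeoTri_cub 0 = 0 := by funext i; fin_cases i <;> simp [GeoTri_cub]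
        rw [e, ← ew, h, this, map_zero, GeoTri_tens_zero])
      have hn := norm_pos_iff.2 hx
      refine ⟨((‖x‖⁻¹ : ℝ) : ℂ) • x, ?_, ?_⟩
      · rw [mem_sphere_zero_iff_norm, norm_smul, Complex.norm_real, norm_inv, norm_norm,
          inv_mul_cancel₀ hn.ne']
      · change nrm (tens G.e (E t (GeoTri_cub (((‖x‖⁻¹ : ℝ) : ℂ) • x))) (G.g t)) = v
        rw [sc, GeoTri_nrm_smul (by positivity), ew, ← e, GeoTri_nrm_of_norm (G.cb.unit v hv)]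
  · obtain ⟨ρ, hρ, e⟩ := GeoTri_nrm_eq (t0 x (s0 x hx)) (t0 y (s0 y hy)) h
    obtain ⟨μ, hμ, rfl⟩ : ∃ μ : ℝ, 0 < μ ∧ μ ^ 3 = ρ :=
      ⟨ρ ^ ((3 : ℕ) : ℝ)⁻¹, by positivity, Real.rpow_inv_natCast_pow hρ.le (by norm_num)⟩
    rw [← sc] at e
    obtain ⟨a, b, ha, hb, e0, e1, e2⟩ :=
      GeoTri_cub_fib (hi (GeoTri_tens_cancel G.e (G.g_ne t) e)).symm
    have ey : (WithLp.toLp 2 ![a * ((μ : ℂ) • x) 0, b * ((μ : ℂ) • x) 1, b * ((μ : ℂ) • x) 2] :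
        EuclideanSpace ℂ (Fin 3)) = y := PiLp.ext fun i => by
      fin_cases i
      exacts [e0, e1, e2]
    have hμ1 : μ = 1 := by
      have := GeoTri_norm_act ha hb ((μ : ℂ) • x)
      rw [ey, norm_smul, mem_sphere_zero_iff_norm.1 hx, mem_sphere_zero_iff_norm.1 hy,
        Complex.norm_real, Real.norm_of_nonneg hμ.le, mul_one] at this
      exact this.symm
    rw [hμ1, Complex.ofReal_one, one_smul] at ey
    exact ⟨(rootsOfUnity.mkOfPowEq a ha, rootsOfUnity.mkOfPowEq b hb), ey⟩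
  · rintro ⟨g, rfl⟩
    have : GeoTri_cub x = GeoTri_cub (WithLp.toLp 2
        ![(g.1.1 : ℂ) * x 0, (g.2.1 : ℂ) * x 1, (g.2.1 : ℂ) * x 2]) := by
      have ha := GeoTri_cube g.1
      have hb := GeoTri_cube g.2
      funext i
      fin_cases i <;> simp [GeoTri_cub]
      · linear_combination (-x 0 ^ 3) * ha
      · linear_combination (-x 1 ^ 3) * hb
      · linear_combination (-(x 1 ^ 2 * x 2)) * hb
      · linear_combination (-(x 1 * x 2 ^ 2)) * hb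
      · linear_combination (-x 2 ^ 3) * hb
    exact congrArg (fun w => nrm (tens G.e (E t w) (G.g t))) this

end Pool.Agent.Lib.MP_d3d358_ag.AS
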