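import Pool.Agent.Lib.MP_d3d358_ag.AS.GeoTopA
import Pool.Agent.Lib.MP_d3d358_ag.AS.GeoTri

/-! The topological interface from the analytic one. -/

set_option autoImplicit false

namespace Pool.Agent.Lib.MP_d3d358_ag.AS

open Topology Set ExteriorAlgebra Filter

variable {P : Matrix (Fin 2) (Fin 4) ℂ} {X : Type} [MetricSpace X]

theorem gt_mirror_uniq {n n' : Tor I8} {s : Equiv.Perm (Fin 3)} (h : pa 0 n = pa 1 n)
    (h' : pa 0 n' = pa 1 n') (e : n' = sm s n) : n' = n := by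
  have a : ∀ i : Fin 3, i ≠ 2 → pa i n = pa 0 n := by
    intro i hi
    fin_cases i
    · rfl
    · exact h.symm
    · exact absurd rfl hi
  have b : pa 0 n' = pa 0 n := by
    by_cases h2 : s 0 = 2
    · rw [h', e, pa_sm]
      exact a _ fun h3 => absurd (s.injective (h2.trans h3.symm)) (by decide)
    · rw [e, pa_sm]
      exact a _ h2
  funext i
  rcases i with j | j
  · exact congrFun b j
  · exact congrFun (h'.symm.trans (b.trans h)) j

theorem gt_lift_mirror {n : Tor I8} (h : pa 0 n = pa 1 n) : pa 0 (gtL n) = pa 1 (gtL n) :=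
  funext fun j => congrArg epsL (congrFun h j)

theorem gt_dg_triple (a : Tor (Fin 4)) : pa 0 (dg a) = pa 2 (dg a) ↔ 3 • a = 0 := by
  have e : pa 2 (dg a) = -a - a := rfl
  have e0 : pa 0 (dg a) = a := rfl
  rw [e, e0, ← sub_eq_zero, show a - (-a - a) = 3 • a by abel]

section
variable {Per : (List X → ℂ) → Prop} (G : Geo P X Per)

/-- the quotient map -/
noncomputable def Geo.gtq (n : Tor I8) : Fin G.m₂ → Fin G.m₂ → ℂ := gtP (G.g (gtL n))

theorem Geo.gtq_of {s : Equiv.Perm (Fin 3)} {t t' : I8 → ℝ} (h : mkT t' = sm s (mkT t)) :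
    gtP (G.g t') = gtP (G.g t) := by
  obtain ⟨c, hc, e⟩ := (G.inv s t t' h).2
  rw [e, gtP_smul hc]

theorem Geo.gtq_mk (t : I8 → ℝ) : G.gtq (mkT t) = gtP (G.g t) :=
  G.gtq_of (s := 1) (by rw [gtL_mk, sm_one])

theorem Geo.gtq_cont : Continuous G.gtq := by
  rw [← gt_oq.continuous_comp_iff, show G.gtq ∘ mkT = gtP ∘ G.g from funext G.gtq_mk]
  exact continuous_iff_continuousAt.2 fun t => (gtP_cont (G.g_ne t)).comp G.cg.continuousAt

theorem Geo.gtq_iff (n n' : Tor I8) : G.gtq n = G.gtq n' ↔ ∃ s, n' = sm s n := by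
  constructor
  · intro h
    obtain ⟨c, hc⟩ := gtP_eq (G.g_ne _) h
    simpa only [gtL_mk] using G.g_sep _ _ c hc
  · rintro ⟨s, e⟩
    exact (G.gtq_of (s := s) (by rwa [gtL_mk, gtL_mk])).symm

variable {π : X → Fin G.m₂ → Fin G.m₂ → ℂ} (hπ : ∀ v ∈ G.S, π (G.pr v) = gtT2 G.e v)
include hπ

theorem Geo.gt_over (t : I8 → ℝ) : ∀ v ∈ G.S, G.pr v ∈ π ⁻¹' {G.gtq (mkT t)} ↔
    ∃ b, v = tens G.e b (G.g t) := by
  intro v hv
  rw [mem_preimage, mem_singleton_iff, hπ v hv, G.gtq_mk]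
  constructor
  · intro h
    obtain ⟨b, t', rfl⟩ := G.exists_tens hv
    rw [gtT2_tens _ (G.cb.unit _ hv)] at h
    obtain ⟨c, hc⟩ := gtP_eq (G.g_ne t') h.symm
    exact ⟨c • b, by rw [hc, GeoTri_tens_smul_left, GeoTri_tens_smul_right]⟩
  · rintro ⟨b, rfl⟩
    exact gtT2_tens _ (G.cb.unit _ hv)

theorem Geo.gt_pt {x : X} {t : I8 → ℝ} (h : π x = G.gtq (mkT t)) :
    ∃ b, tens G.e b (G.g t) ∈ G.S ∧ x = G.pr (tens G.e b (G.g t)) := by
  obtain ⟨v, hv, rfl⟩ : x ∈ G.pr '' G.S := G.onto.symm ▸ mem_univ x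
  obtain ⟨b, rfl⟩ := (G.gt_over hπ t v hv).1 h
  exact ⟨b, hv, rfl⟩

theorem Geo.gt_uniq {x : X} {t : I8 → ℝ} (hf : Free (mkT t)) (h : π x = G.gtq (mkT t)) :
    x = G.pr (nrm (tens G.e (G.f t) (G.g t))) := by
  obtain ⟨b, hb, rfl⟩ := G.gt_pt hπ h
  exact G.gt_free_eq hf hb

theorem Geo.gt_Dr (hP : ∀ t, cx P t = 0 → t = 0) (x : X) : ∃ d : Fin 2 → ℂ, d ≠ 0 ∧
    ∀ t, pa 0 t = pa 1 t → pa 0 (mkT t) ≠ pa 2 (mkT t) → π x = G.gtq (mkT t) →
      x = G.pr (nrm (tens G.e (G.M t d) (G.g t))) := by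
  by_cases ex : ∃ t, pa 0 t = pa 1 t ∧ pa 0 (mkT t) ≠ pa 2 (mkT t) ∧ π x = G.gtq (mkT t)
  · obtain ⟨t₀, a1, a2, a3⟩ := ex
    obtain ⟨b, hb, rfl⟩ := G.gt_pt hπ a3
    obtain ⟨d, d0, rfl⟩ := G.gt_mirror_range a1 a2 hb
    refine ⟨d, d0, fun t h1 h2 h3 => ?_⟩
    obtain ⟨s, hs⟩ := (G.gtq_iff _ _).1 (h3.symm.trans a3)
    have e : mkT t₀ = mkT t :=
      gt_mirror_uniq (by rw [pa_mkT, pa_mkT, h1]) (by rw [pa_mkT, pa_mkT, a1]) hs
    have n : G.M t d ≠ 0 := fun z => d0 (G.M_inj t h1 h2 (z.trans (map_zero _).symm))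
    obtain ⟨c, hc⟩ := G.gt_mirror_line hP h1 a1 e n
    obtain ⟨c', -, hc'⟩ := (G.inv 1 t t₀ (by rw [sm_one, e])).2
    exact G.cb.gt_eq hb (G.gt_mirror_mem hP h1 n) (c := c * c')
      (by rw [hc, hc', GeoTri_tens_smul_left, GeoTri_tens_smul_right, smul_smul])
  · exact ⟨1, one_ne_zero, fun t h1 h2 h3 => absurd ⟨t, h1, h2, h3⟩ ex⟩

theorem Geo.gt_dir (hP : ∀ t, cx P t = 0 → t = 0) {Dr : X → Fin 2 → ℂ} (D0 : ∀ x, Dr x ≠ 0)
    (hD : ∀ x t, pa 0 t = pa 1 t → pa 0 (mkT t) ≠ pa 2 (mkT t) → π x = G.gtq (mkT t) →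
      x = G.pr (nrm (tens G.e (G.M t (Dr x)) (G.g t))))
    (p : Tor I8 × X) (hp : G.gtq p.1 = π p.2) (h1 : pa 0 p.1 = pa 1 p.1)
    (h2 : pa 0 p.1 ≠ pa 2 p.1) :
    ContinuousWithinAt (fun p' : Tor I8 × X => prj1 (if pa 0 p'.1 = pa 1 p'.1 then Dr p'.2
      else cx P (lift4 (pa 0 p'.1 - pa 1 p'.1)))) {p' | G.gtq p'.1 = π p'.2} p := by
  obtain ⟨F, cF, hF⟩ := G.cb.gt_desc G.onto (gtT1_cont G.e) fun c v hc => gtT1_smul G.e hc v
  set d : Tor I8 × X → Fin 2 → ℂ := fun p' => if pa 0 p'.1 = pa 1 p'.1 then Dr p'.2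
    else cx P (lift4 (pa 0 p'.1 - pa 1 p'.1)) with hd
  set l := 𝓝[{p' : Tor I8 × X | G.gtq p'.1 = π p'.2}] p with hl
  have : l.NeBot := nhdsWithin_neBot_of_mem hp
  set t := gtL p.1 with ht
  set s : Tor I8 × X → I8 → ℝ := fun p' => t + gtL (p'.1 - p.1) with hs
  have t1 : pa 0 t = pa 1 t := gt_lift_mirror h1
  have t2 : pa 0 (mkT t) ≠ pa 2 (mkT t) := by rwa [gtL_mk]
  have hi := G.M_inj t t1 t2
  have sm' : ∀ p', mkT (s p') = p'.1 := fun p' => by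
    rw [hs, gt_mk_add, gtL_mk, gtL_mk, add_sub_cancel]
  have l1 : Tendsto (fun p' : Tor I8 × X => p'.1) l (𝓝 p.1) :=
    continuous_fst.continuousWithinAt
  have l2 : Tendsto (fun p' : Tor I8 × X => p'.2) l (𝓝 p.2) :=
    continuous_snd.continuousWithinAt
  have ls : Tendsto s l (𝓝 t) := by
    have a : Tendsto (fun p' : Tor I8 × X => p'.1 - p.1) l (𝓝 0) := by
      simpa using l1.sub_const p.1
    have b := gtL_cont.tendsto.comp a
    rw [gtL_zero] at b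
    simpa using b.const_add t
  have lM := (G.cM.tendsto t).comp ls
  have ne : ∀ i, pa i p.1 ≠ pa 2 p.1 → ∀ᶠ p' in l, pa i p'.1 ≠ pa 2 p'.1 := fun i hi =>
    l1.eventually ((isOpen_ne_fun (continuous_pa i) (continuous_pa 2)).mem_nhds hi)
  have small : ∀ᶠ p' in l, ‖pa 0 (s p') - pa 1 (s p')‖ < 1 / 2 := by
    have a := (((GeoTri_cont_pa 0).sub (GeoTri_cont_pa 1)).norm.tendsto t).comp ls
    refine a.eventually (eventually_lt_nhds ?_)
    change ‖pa 0 t - pa 1 t‖ < _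
    rw [t1, sub_self, norm_zero]; norm_num
  have key : ∀ᶠ p' in l, G.M (s p') (d p') ≠ 0 ∧ F p'.2 = gtP (G.M (s p') (d p')) := by
    filter_upwards [self_mem_nhdsWithin, ne 0 h2, ne 1 (h1 ▸ h2), small] with p' hq n0 n1 hsm
    have hq' : π p'.2 = G.gtq (mkT (s p')) := by rw [sm']; exact hq.symm
    by_cases c : pa 0 p'.1 = pa 1 p'.1
    · have a1 : pa 0 (s p') = pa 1 (s p') := funext fun j => by
        have x := congrFun t1 j
        have y := congrFun c j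
        have z := congrFun h1 j
        change t (.inl j) = t (.inr j) at x
        change p'.1 (.inl j) = p'.1 (.inr j) at y
        change p.1 (.inl j) = p.1 (.inr j) at z
        change t (.inl j) + epsL (p'.1 (.inl j) - p.1 (.inl j)) =
          t (.inr j) + epsL (p'.1 (.inr j) - p.1 (.inr j))
        rw [x, y, z]
      have a2 : pa 0 (mkT (s p')) ≠ pa 2 (mkT (s p')) := by rwa [sm']
      have e : d p' = Dr p'.2 := if_pos c
      have n : G.M (s p') (Dr p'.2) ≠ 0 := fun z =>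
        D0 _ (G.M_inj _ a1 a2 (z.trans (map_zero _).symm))
      rw [e]
      refine ⟨n, ?_⟩
      rw [← gtT1_nrm G.e n (G.g_ne (s p')), ← hF _ (G.gt_mirror_mem hP a1 n), ← hD _ _ a1 a2 hq']
    · have fr : Free (mkT (s p')) := by
        rw [sm']
        intro i j hij
        fin_cases i <;> fin_cases j <;>
          first | exact absurd rfl hij | exact c | exact n0 | exact n1 | exact Ne.symm c |
            exact n0.symm | exact n1.symm
      have e : d p' = cx P (pa 0 (s p') - pa 1 (s p')) := by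
        rw [show d p' = _ from if_neg c, ← sm' p', pa_mkT, pa_mkT, ← gt_mk_sub]
        congr 1
        funext j
        exact eps_L_of ((norm_le_pi_norm (pa 0 (s p') - pa 1 (s p')) j).trans_lt hsm)
      have n : G.f (s p') ≠ 0 := fun z => (G.f_zero _).1 z fr
      rw [e, ← G.f_eq]
      refine ⟨n, ?_⟩
      rw [← gtT1_nrm G.e n (G.g_ne (s p')), ← hF _ (G.gt_free_mem fr), ← G.gt_uniq hπ fr hq']
  have n : G.M t (Dr p.2) ≠ 0 := fun z => D0 _ (hi (z.trans (map_zero _).symm))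
  have Fp : F p.2 = gtP (G.M t (Dr p.2)) := by
    rw [← gtT1_nrm G.e n (G.g_ne t), ← hF _ (G.gt_mirror_mem hP t1 n),
      ← hD _ _ t1 t2 (by rw [gtL_mk]; exact hp.symm)]
  set b := G.M t (Dr p.2) with hb
  set c : Tor I8 × X → ℂ := fun p' =>
    (∑ j, (starRingEnd ℂ) (G.M (s p') (d p') j) * b j) / gtD (G.M (s p') (d p')) with hc
  have lim : Tendsto (fun p' => G.M (s p') (c p' • d p')) l (𝓝 b) := by
    have ca : Continuous fun A : Fin G.m₁ → Fin G.m₁ → ℂ => fun i => ∑ j, A i j * b j := by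
      fun_prop
    have a := (ca.tendsto _).comp ((cF.tendsto _).comp l2)
    rw [Fp, gtP_self n] at a
    refine a.congr' ?_
    filter_upwards [key] with p' h
    change (fun i => ∑ j, F p'.2 i j * b j) = _
    rw [h.2, gtP_app, map_smul]
  obtain ⟨w, lw, hw⟩ := lim_of_inj lM hi lim
  obtain rfl : w = Dr p.2 := hi hw
  have pc : ContinuousAt prj1 (Dr p.2) :=
    eps_prj_cont.continuousAt (isOpen_ne.mem_nhds (D0 p.2))
  change Tendsto (fun p' => prj1 (d p')) l (𝓝 (prj1 (d p)))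
  rw [show d p = Dr p.2 from if_pos h1]
  refine (pc.tendsto.comp lw).congr' ?_
  filter_upwards [lw.eventually_ne (D0 p.2)] with p' h
  exact eps_prj_smul (fun z => h (by rw [z, zero_smul])) _
end

variable [CompactSpace X]

theorem Geo.exists_top {Per : (List X → ℂ) → Prop} (G : Geo P X Per)
    (hP : ∀ t, cx P t = 0 → t = 0) : ∃ T : KumTop P G.S G.pr,
    (∀ t, Free (mkT t) → T.sec (mkT t) = G.pr (nrm (tens G.e (G.f t) (G.g t)))) ∧
    ∀ t, pa 0 t = pa 1 t → pa 0 (mkT t) ≠ pa 2 (mkT t) → ∀ δ, δ ≠ 0 →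
      nrm (tens G.e (G.M t δ) (G.g t)) ∈ G.S ∧
      T.π (G.pr (nrm (tens G.e (G.M t δ) (G.g t)))) = T.q (mkT t) := by
  obtain ⟨π, cπ, hπ⟩ := G.cb.gt_desc G.onto (gtT2_cont G.e) fun c v hc => gtT2_smul G.e hc v
  have m1 : ∀ a, pa 0 (gtL (dg a)) = pa 1 (gtL (dg a)) := fun a => gt_lift_mirror rfl
  have ov : ∀ a, ∀ v ∈ G.S, G.pr v ∈ π ⁻¹' {G.gtq (dg a)} ↔
      ∃ b, v = tens G.e b (G.g (gtL (dg a))) := fun a => by
    simpa only [gtL_mk] using G.gt_over hπ (gtL (dg a))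
  have f1 : ∀ a, 3 • a ≠ 0 → WPData G.S G.pr (π ⁻¹' {G.gtq (dg a)}) 1 := fun a ha =>
    G.gt_fib hP (m1 a) (by rwa [gtL_mk, Ne, gt_dg_triple]) (ov a)
  have f2 : ∀ a, 3 • a = 0 → WPData G.S G.pr (π ⁻¹' {G.gtq (dg a)}) 2 := fun a ha =>
    G.tri (m1 a) (by rwa [gtL_mk, gt_dg_triple]) (ov a)
  have ne : ∀ {F : Set X} {r : ℕ}, WPData G.S G.pr F r → F.Nonempty := by
    rintro F r ⟨_, _, _, _, u, -, -, -, h, -⟩
    obtain ⟨x, hx⟩ : (Metric.sphere (0 : EuclideanSpace ℂ (Fin (r + 1))) 1).Nonempty :=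
      ⟨EuclideanSpace.single 0 1, by simp⟩
    exact ⟨_, (h ▸ mem_image_of_mem u hx : u x ∈ G.S ∩ G.pr ⁻¹' F).2⟩
  have ex : ∀ n, ∃ x, π x = G.gtq n := by
    intro n
    by_cases h : Free n
    · rw [← gtL_mk n] at h ⊢
      exact ⟨_, (G.gt_over hπ _ _ (G.gt_free_mem h)).2 ⟨_, gt_nrm_tens _ _ _⟩⟩
    · obtain ⟨s, a, e⟩ := not_free_iff.1 h
      rw [← (G.gtq_iff _ _).2 ⟨s, e⟩]
      by_cases ha : 3 • a = 0
      · exact ne (f2 a ha)
      · exact ne (f1 a ha)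
  choose sec hsec using ex
  choose Dr D0 hD using G.gt_Dr hπ hP
  have se : ∀ t, Free (mkT t) → sec (mkT t) = G.pr (nrm (tens G.e (G.f t) (G.g t))) :=
    fun t h => G.gt_uniq hπ h (hsec _)
  have cs : ContinuousOn sec {n | Free n} := by
    intro n hn
    obtain ⟨t, rfl⟩ := gt_oq.surjective n
    refine (gt_oq.continuousAt_comp_iff.1 ?_).continuousWithinAt
    have ev : ∀ᶠ t' in 𝓝 t, Free (mkT t') :=
      gt_oq.continuous.continuousAt.eventually (isOpen_free.mem_nhds hn)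
    have c : ContinuousAt (fun t' => nrm (tens G.e (G.f t') (G.g t'))) t :=
      ContinuousAt.comp (g := nrm) (f := fun t' => tens G.e (G.f t') (G.g t'))
        (GeoTri_nrm_cont (GeoTri_tens_ne _ (fun e => (G.f_zero t).1 e hn) (G.g_ne t)))
        (GeoTri_tens_tendsto G.e G.cf.continuousAt G.cg.continuousAt)
    have c2 : ContinuousAt (fun t' => G.pr (nrm (tens G.e (G.f t') (G.g t')))) t :=
      (G.cb.cont _ (G.gt_free_mem hn)).tendsto.comp
        (tendsto_nhdsWithin_iff.2 ⟨c, ev.mono fun t' h => G.gt_free_mem h⟩)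
    exact c2.congr (ev.mono fun t' h => (se t' h).symm)
  have rg : range π = range G.gtq := by
    refine Subset.antisymm ?_ ?_
    · rintro _ ⟨x, rfl⟩
      obtain ⟨v, hv, rfl⟩ : x ∈ G.pr '' G.S := G.onto.symm ▸ mem_univ x
      obtain ⟨b, t, e⟩ := G.exists_tens hv
      exact ⟨mkT t, ((G.gt_over hπ t v hv).2 ⟨b, e⟩).symm⟩
    · rintro _ ⟨n, rfl⟩
      exact ⟨_, hsec n⟩
  have un : ∀ n x, Free n → π x = G.gtq n → x = sec n := by
    intro n x h hx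
    obtain ⟨t, rfl⟩ := gt_oq.surjective n
    rw [se t h]
    exact G.gt_uniq hπ h hx
  refine ⟨{ W := Fin G.m₂ → Fin G.m₂ → ℂ, q := G.gtq, cq := G.gtq_cont, q_iff := G.gtq_iff
            π := π, cπ := cπ, rng := rg, sec := sec, π_sec := hsec, csec := cs, uniq := un
            cb := G.cb, onto := G.onto, fib₁ := f1, fib₂ := f2, Dr := Dr, Dr_ne := D0
            dir := G.gt_dir hπ hP D0 hD }, se, fun t h1 h2 δ hδ => ?_⟩
  have m := G.gt_mirror_mem hP h1 (δ := δ)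
    fun z => hδ (G.M_inj t h1 h2 (z.trans (map_zero _).symm))
  exact ⟨m, (G.gt_over hπ t _ m).2 ⟨_, gt_nrm_tens _ _ _⟩⟩

end Pool.Agent.Lib.MP_d3d358_ag.AS
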