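import Pool.Agent.Lib.MP_d3d358_ag.AS.GeoTriA

/-! Projectors, partial traces, descent along `pr`, and the mirror points. -/

set_option autoImplicit false

namespace Pool.Agent.Lib.MP_d3d358_ag.AS

open Topology Set Filter

section
variable {n : ℕ}

/-- square of the norm -/
noncomputable def gtD (b : Fin n → ℂ) : ℂ := ∑ k, b k * (starRingEnd ℂ) (b k)

/-- projector on a line -/
noncomputable def gtP (b : Fin n → ℂ) : Fin n → Fin n → ℂ :=
  fun i j => b i * (starRingEnd ℂ) (b j) / gtD b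

theorem gtD_ne {b : Fin n → ℂ} (h : b ≠ 0) : gtD b ≠ 0 := by
  intro e
  apply h
  have e2 : ∑ k, Complex.normSq (b k) = 0 := by
    simp only [gtD, Complex.mul_conj] at e
    exact_mod_cast e
  funext k
  exact Complex.normSq_eq_zero.1 ((Finset.sum_eq_zero_iff_of_nonneg
    fun k _ => Complex.normSq_nonneg _).1 e2 k (Finset.mem_univ k))

theorem gtP_smul {c : ℂ} (hc : c ≠ 0) (b : Fin n → ℂ) : gtP (c • b) = gtP b := by
  have hc' : (starRingEnd ℂ) c ≠ 0 := by simpa using hc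
  have d : gtD (c • b) = (c * (starRingEnd ℂ) c) * gtD b := by
    simp only [gtD, Finset.mul_sum, Pi.smul_apply, smul_eq_mul, map_mul]
    exact Finset.sum_congr rfl fun k _ => by ring
  funext i j
  simp only [gtP, d, Pi.smul_apply, smul_eq_mul, map_mul]
  rw [show c * b i * ((starRingEnd ℂ) c * (starRingEnd ℂ) (b j)) =
      (c * (starRingEnd ℂ) c) * (b i * (starRingEnd ℂ) (b j)) by ring,
    mul_div_mul_left _ _ (mul_ne_zero hc hc')]

theorem gtP_cont {b : Fin n → ℂ} (h : b ≠ 0) : ContinuousAt gtP b := by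
  refine continuousAt_pi.2 fun i => continuousAt_pi.2 fun j => ?_
  exact ContinuousAt.div (by fun_prop) (by unfold gtD; fun_prop) (gtD_ne h)

theorem gtP_app (b a : Fin n → ℂ) : (fun i => ∑ j, gtP b i j * a j) =
    ((∑ j, (starRingEnd ℂ) (b j) * a j) / gtD b) • b := by
  funext i
  simp only [gtP, Pi.smul_apply, smul_eq_mul, Finset.sum_div, Finset.sum_mul]
  exact Finset.sum_congr rfl fun k _ => by ring

theorem gtP_self {b : Fin n → ℂ} (h : b ≠ 0) : (fun i => ∑ j, gtP b i j * b j) = b := by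
  rw [gtP_app, show (∑ j, (starRingEnd ℂ) (b j) * b j) = gtD b from
    Finset.sum_congr rfl fun k _ => mul_comm _ _, div_self (gtD_ne h), one_smul]

theorem gtP_eq {b b' : Fin n → ℂ} (h : b' ≠ 0) (e : gtP b = gtP b') : ∃ c : ℂ, b' = c • b :=
  ⟨_, by rw [← gtP_app, e, gtP_self h]⟩

theorem gt_line {ι : Type} {l : Filter ι} [l.NeBot] {a : ι → Fin n → ℂ} {a₀ b : Fin n → ℂ}
    {c : ι → ℂ} (ha : Tendsto a l (𝓝 a₀)) (h0 : a₀ ≠ 0)
    (hb : Tendsto (fun k => c k • a k) l (𝓝 b)) : ∃ c₀ : ℂ, b = c₀ • a₀ := by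
  obtain ⟨i, hi⟩ := Function.ne_iff.1 h0
  have hai := tendsto_pi_nhds.1 ha i
  have hc : Tendsto c l (𝓝 (b i / a₀ i)) := by
    refine ((tendsto_pi_nhds.1 hb i).div hai hi).congr' ?_
    filter_upwards [hai.eventually_ne hi] with k hk
    exact mul_div_cancel_right₀ (c k) hk
  exact ⟨_, tendsto_nhds_unique hb (hc.smul ha)⟩
end

section
variable {m₁ m₂ m : ℕ} (e : Fin m ≃ Fin m₁ × Fin m₂)

/-- partial trace over the second factor -/
noncomputable def gtT1 (v : EuclideanSpace ℂ (Fin m)) : Fin m₁ → Fin m₁ → ℂ :=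
  fun i k => ∑ j, v (e.symm (i, j)) * (starRingEnd ℂ) (v (e.symm (k, j)))

/-- partial trace over the first factor -/
noncomputable def gtT2 (v : EuclideanSpace ℂ (Fin m)) : Fin m₂ → Fin m₂ → ℂ :=
  fun j k => ∑ i, v (e.symm (i, j)) * (starRingEnd ℂ) (v (e.symm (i, k)))

theorem gtT1_cont : Continuous (gtT1 e) := by unfold gtT1; fun_prop
theorem gtT2_cont : Continuous (gtT2 e) := by unfold gtT2; fun_prop

theorem gt_unit {c : ℂ} (hc : ‖c‖ = 1) (x y : ℂ) :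
    c * x * (starRingEnd ℂ) (c * y) = x * (starRingEnd ℂ) y := by
  have h : c * (starRingEnd ℂ) c = 1 := by
    rw [Complex.mul_conj, Complex.normSq_eq_norm_sq, hc]; simp
  rw [map_mul]
  linear_combination (x * (starRingEnd ℂ) y) * h

theorem gtT1_smul {c : ℂ} (hc : ‖c‖ = 1) (v : EuclideanSpace ℂ (Fin m)) :
    gtT1 e (c • v) = gtT1 e v := by
  funext i k
  simp only [gtT1, PiLp.smul_apply, smul_eq_mul, gt_unit hc]

theorem gtT2_smul {c : ℂ} (hc : ‖c‖ = 1) (v : EuclideanSpace ℂ (Fin m)) :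
    gtT2 e (c • v) = gtT2 e v := by
  funext i k
  simp only [gtT2, PiLp.smul_apply, smul_eq_mul, gt_unit hc]

theorem gtD_tens {a : Fin m₁ → ℂ} {b : Fin m₂ → ℂ} (h : ‖tens e a b‖ = 1) : gtD a * gtD b = 1 := by
  have h1 : ∑ k, tens e a b k * (starRingEnd ℂ) (tens e a b k) = 1 := by
    have h2 := EuclideanSpace.norm_sq_eq (tens e a b)
    rw [h] at h2
    simp only [Complex.mul_conj, Complex.normSq_eq_norm_sq]
    rw [← Complex.ofReal_sum, ← h2]; simp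
  rw [← h1, ← e.symm.sum_comp, Fintype.sum_prod_type, gtD, gtD, Finset.sum_mul_sum]
  simp only [GeoTri_tens_apply, map_mul]
  exact Finset.sum_congr rfl fun i _ => Finset.sum_congr rfl fun j _ => by ring

theorem gtT1_tens {a : Fin m₁ → ℂ} {b : Fin m₂ → ℂ} (h : ‖tens e a b‖ = 1) :
    gtT1 e (tens e a b) = gtP a := by
  have h1 := gtD_tens e h
  funext i k
  rw [gtP, div_eq_mul_inv, ← eq_inv_of_mul_eq_one_right h1, gtD, Finset.mul_sum]
  simp only [gtT1, GeoTri_tens_apply, map_mul]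
  exact Finset.sum_congr rfl fun j _ => by ring

theorem gtT2_tens {a : Fin m₁ → ℂ} {b : Fin m₂ → ℂ} (h : ‖tens e a b‖ = 1) :
    gtT2 e (tens e a b) = gtP b := by
  have h1 := gtD_tens e h
  funext i k
  rw [gtP, div_eq_mul_inv, ← eq_inv_of_mul_eq_one_left h1, gtD, Finset.mul_sum]
  simp only [gtT2, GeoTri_tens_apply, map_mul]
  exact Finset.sum_congr rfl fun j _ => by ring

theorem gt_nrm_tens (a : Fin m₁ → ℂ) (b : Fin m₂ → ℂ) :
    nrm (tens e a b) = tens e ((‖tens e a b‖ : ℂ)⁻¹ • a) b := (GeoTri_tens_smul_left e _ a b).symm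

theorem gtT1_nrm {a : Fin m₁ → ℂ} {b : Fin m₂ → ℂ} (ha : a ≠ 0) (hb : b ≠ 0) :
    gtT1 e (nrm (tens e a b)) = gtP a := by
  have h := GeoTri_tens_ne e ha hb
  have n := GeoTri_norm_nrm h
  rw [gt_nrm_tens] at n ⊢
  rw [gtT1_tens e n, gtP_smul (inv_ne_zero (Complex.ofReal_ne_zero.2 (norm_ne_zero_iff.2 h)))]

theorem gtT2_nrm {a : Fin m₁ → ℂ} {b : Fin m₂ → ℂ} (ha : a ≠ 0) (hb : b ≠ 0) :
    gtT2 e (nrm (tens e a b)) = gtP b := by
  have n := GeoTri_norm_nrm (GeoTri_tens_ne e ha hb)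
  rw [gt_nrm_tens] at n ⊢
  exact gtT2_tens e n
end

theorem CB.gt_desc {m : ℕ} {X Y : Type} [MetricSpace X] [TopologicalSpace Y]
    {S : Set (EuclideanSpace ℂ (Fin m))} {pr : EuclideanSpace ℂ (Fin m) → X} (h : CB S pr)
    (onto : pr '' S = univ) {φ : EuclideanSpace ℂ (Fin m) → Y} (hφ : Continuous φ)
    (hi : ∀ (c : ℂ) v, ‖c‖ = 1 → φ (c • v) = φ v) :
    ∃ F : X → Y, Continuous F ∧ ∀ v ∈ S, F (pr v) = φ v := by
  have ex : ∀ x, ∃ v ∈ S, pr v = x := fun x => (onto ▸ mem_univ x : x ∈ pr '' S)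
  choose r hr hx using ex
  have key : ∀ v ∈ S, φ (r (pr v)) = φ v := by
    intro v hv
    obtain ⟨c, hc⟩ := (h.fib v hv _ (hr (pr v))).1 (hx _).symm
    have n := h.unit _ (hr (pr v))
    rw [← hc, norm_smul, h.unit v hv, mul_one] at n
    rw [← hc, hi c v n]
  refine ⟨fun x => φ (r x), continuous_iff_isClosed.2 fun C hC => ?_, key⟩
  have e : (fun x => φ (r x)) ⁻¹' C = pr '' (S ∩ φ ⁻¹' C) := by
    ext x
    constructor
    · exact fun hx' => ⟨r x, ⟨hr x, hx'⟩, hx x⟩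
    · rintro ⟨v, ⟨hv, hc⟩, rfl⟩
      rw [mem_preimage, key v hv]
      exact hc
  rw [e]
  exact ((h.cpt.inter_right (hC.preimage hφ)).image_of_continuousOn
    (h.cont.mono inter_subset_left)).isClosed

theorem CB.gt_eq {m : ℕ} {X : Type} [MetricSpace X] {S : Set (EuclideanSpace ℂ (Fin m))}
    {pr : EuclideanSpace ℂ (Fin m) → X} (h : CB S pr) {v w : EuclideanSpace ℂ (Fin m)}
    (hv : v ∈ S) (hw : nrm w ∈ S) {c : ℂ} (e : v = c • w) : pr v = pr (nrm w) := by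
  refine (h.fib v hv _ hw).2 ⟨(‖w‖ : ℂ)⁻¹ * c⁻¹, ?_⟩
  have c0 : c ≠ 0 := by
    rintro rfl
    have := h.unit v hv
    simp [e] at this
  rw [e, smul_smul, mul_assoc, inv_mul_cancel₀ c0, mul_one, nrm]

theorem gt_oq {ι : Type} : IsOpenQuotientMap (mkT : (ι → ℝ) → Tor ι) :=
  IsOpenQuotientMap.piMap fun _ => QuotientAddGroup.isOpenQuotientMap_mk

/-- the small lift -/
noncomputable def gtL {ι : Type} (n : Tor ι) : ι → ℝ := fun i => epsL (n i)

theorem gtL_mk {ι : Type} (n : Tor ι) : mkT (gtL n) = n := funext fun i => eps_L_coe (n i)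

theorem gt_mk_add {ι : Type} (t u : ι → ℝ) : mkT (t + u) = mkT t + mkT u :=
  funext fun i => AddCircle.coe_add 1 (t i) (u i)

theorem gt_mk_sub {ι : Type} (t u : ι → ℝ) : mkT (t - u) = mkT t - mkT u :=
  funext fun i => AddCircle.coe_sub 1 (t i) (u i)

theorem gtL_cont {ι : Type} : ContinuousAt (gtL : Tor ι → ι → ℝ) 0 :=
  continuousAt_pi.2 fun i => ContinuousAt.comp (g := epsL) (f := fun n : Tor ι => n i)
    (eps_L_cont (by simp)) (continuous_apply i).continuousAt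

theorem gtL_zero {ι : Type} : gtL (0 : Tor ι) = 0 :=
  funext fun _ => eps_L_of (s := 0) (by norm_num)

variable {P : Matrix (Fin 2) (Fin 4) ℂ}

theorem gt_cx_smul (ε : ℝ) (τ : Fin 4 → ℝ) : cx P (ε • τ) = (ε : ℂ) • cx P τ := by
  rw [cx, cx, ← Matrix.mulVec_smul]
  congr 1
  funext i
  simp

theorem gt_cx_surj (hP : ∀ t, cx P t = 0 → t = 0) : Function.Surjective (cx P) := by
  let L : (Fin 4 → ℝ) →ₗ[ℝ] Fin 2 → ℂ :=
    { toFun := cx P
      map_add' := fun t u => by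
        rw [cx, cx, cx, ← Matrix.mulVec_add]
        congr 1
        funext i
        simp
      map_smul' := fun ε τ => by rw [gt_cx_smul]; funext i; simp }
  exact (LinearMap.injective_iff_surjective_of_finrank_eq_finrank (f := L)
    (by rw [eps_rank]; simp)).1 ((injective_iff_map_eq_zero L).2 hP)

variable {X : Type} [MetricSpace X] {Per : (List X → ℂ) → Prop} (G : Geo P X Per)

theorem Geo.gt_path {t : I8 → ℝ} (h : pa 0 t = pa 1 t) (τ : Fin 4 → ℝ) (ε : ℝ) :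
    G.f (t + Sum.elim (ε • τ) 0) = (ε : ℂ) • G.M (t + Sum.elim (ε • τ) 0) (cx P τ) := by
  rw [G.f_eq, ← map_smul, ← gt_cx_smul]
  congr 2
  funext j
  have := congrFun h j
  simp only [pa, Matrix.cons_val_zero, Matrix.cons_val_one] at this
  simp [pa, this]

theorem gt_path_lim (t : I8 → ℝ) (τ : Fin 4 → ℝ) :
    Tendsto (fun ε : ℝ => t + Sum.elim (ε • τ) 0) (𝓝[≠] 0) (𝓝 t) := by
  have c : Continuous fun ε : ℝ => t + Sum.elim (ε • τ) (0 : Fin 4 → ℝ) := by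
    refine continuous_const.add (continuous_pi fun i => ?_)
    rcases i with j | j
    · exact continuous_id.mul continuous_const
    · exact continuous_const
  refine tendsto_nhdsWithin_of_tendsto_nhds (c.tendsto' 0 t ?_)
  funext i
  rcases i with j | j <;> simp

theorem Geo.gt_M_lim (t : I8 → ℝ) (τ : Fin 4 → ℝ) (δ : Fin 2 → ℂ) :
    Tendsto (fun ε : ℝ => G.M (t + Sum.elim (ε • τ) 0) δ) (𝓝[≠] 0) (𝓝 (G.M t δ)) :=
  ((G.cM.clm_apply continuous_const).tendsto t).comp (gt_path_lim t τ)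

theorem Geo.gt_mirror_mem (hP : ∀ t, cx P t = 0 → t = 0) {t : I8 → ℝ} (h : pa 0 t = pa 1 t)
    {δ : Fin 2 → ℂ} (h0 : G.M t δ ≠ 0) : nrm (tens G.e (G.M t δ) (G.g t)) ∈ G.S := by
  obtain ⟨τ, rfl⟩ := gt_cx_surj hP δ
  refine G.mem_S (c := fun ε : ℝ => (ε : ℂ)⁻¹) (gt_path_lim t τ) ((G.gt_M_lim t τ _).congr' ?_) h0
  filter_upwards [self_mem_nhdsWithin] with ε hε
  rw [G.gt_path h, smul_smul, inv_mul_cancel₀ (Complex.ofReal_ne_zero.2 hε), one_smul]

theorem Geo.gt_mirror_line (hP : ∀ t, cx P t = 0 → t = 0) {t t' : I8 → ℝ} (h : pa 0 t = pa 1 t)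
    (h' : pa 0 t' = pa 1 t') (e : mkT t' = mkT t) {δ : Fin 2 → ℂ} (h0 : G.M t δ ≠ 0) :
    ∃ c : ℂ, G.M t' δ = c • G.M t δ := by
  obtain ⟨τ, rfl⟩ := gt_cx_surj hP δ
  have ex : ∀ ε : ℝ, ∃ c : ℂ, G.f (t' + Sum.elim (ε • τ) 0) = c • G.f (t + Sum.elim (ε • τ) 0) := by
    intro ε
    obtain ⟨c, -, hc⟩ := (G.inv 1 (t + Sum.elim (ε • τ) 0) (t' + Sum.elim (ε • τ) 0)
      (by rw [sm_one, gt_mk_add, gt_mk_add, e])).1
    exact ⟨c, hc⟩
  choose c hc using ex
  refine gt_line (c := c) (G.gt_M_lim t τ _) h0 ((G.gt_M_lim t' τ _).congr' ?_)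
  filter_upwards [self_mem_nhdsWithin] with ε hε
  have := hc ε
  rw [G.gt_path h, G.gt_path h', smul_comm] at this
  exact smul_right_injective _ (Complex.ofReal_ne_zero.2 hε) this

theorem Geo.gt_mirror_range {t : I8 → ℝ} (h : pa 0 t = pa 1 t) (h2 : pa 0 (mkT t) ≠ pa 2 (mkT t))
    {b : Fin G.m₁ → ℂ} (hv : tens G.e b (G.g t) ∈ G.S) : ∃ w, w ≠ 0 ∧ G.M t w = b := by
  obtain ⟨c, s, hs, hb⟩ := G.exists_seq hv rfl
  obtain ⟨w, -, hw⟩ := lim_of_inj ((G.cM.tendsto t).comp hs) (G.M_inj t h h2)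
    (w := fun k => c k • cx P (pa 0 (s k) - pa 1 (s k))) (b := b)
    (hb.congr fun k => by rw [G.f_eq, ← map_smul]; rfl)
  refine ⟨w, ?_, hw⟩
  rintro rfl
  rw [← hw, map_zero, GeoTri_tens_zero] at hv
  exact G.ne_zero_of_mem hv rfl

theorem Geo.gt_free_mem {t : I8 → ℝ} (h : Free (mkT t)) :
    nrm (tens G.e (G.f t) (G.g t)) ∈ G.S :=
  subset_closure ⟨GeoTri_norm_nrm (GeoTri_tens_ne _ (fun e => (G.f_zero t).1 e h) (G.g_ne t)),
    _, t, rfl⟩

theorem Geo.gt_free_eq {t : I8 → ℝ} (h : Free (mkT t)) {b : Fin G.m₁ → ℂ}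
    (hv : tens G.e b (G.g t) ∈ G.S) :
    G.pr (tens G.e b (G.g t)) = G.pr (nrm (tens G.e (G.f t) (G.g t))) := by
  obtain ⟨c, s, hs, hb⟩ := G.exists_seq hv rfl
  obtain ⟨c₀, e⟩ := gt_line ((G.cf.tendsto t).comp hs) (fun e => (G.f_zero t).1 e h) hb
  exact G.cb.gt_eq hv (G.gt_free_mem h) (c := c₀) (by rw [e, GeoTri_tens_smul_left])

theorem Geo.gt_fib (hP : ∀ t, cx P t = 0 → t = 0) {t : I8 → ℝ} (h : pa 0 t = pa 1 t)
    (h2 : pa 0 (mkT t) ≠ pa 2 (mkT t)) {F : Set X}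
    (hF : ∀ v ∈ G.S, G.pr v ∈ F ↔ ∃ b, v = tens G.e b (G.g t)) : WPData G.S G.pr F 1 := by
  have hi := G.M_inj t h h2
  have ne : ∀ x ∈ Metric.sphere (0 : EuclideanSpace ℂ (Fin (1 + 1))) 1, G.M t x.ofLp ≠ 0 := by
    intro x hx e
    have : x = 0 := by
      apply (WithLp.ofLp_eq_zero 2).1
      exact hi (e.trans (map_zero _).symm)
    simp [this] at hx
  refine ⟨PUnit, inferInstance, inferInstance,
    { smul := fun _ x => x, one_smul := fun _ => rfl, mul_smul := fun _ _ _ => rfl },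
    fun x => nrm (tens G.e (G.M t x.ofLp) (G.g t)), fun _ => continuous_id, fun _ _ => rfl,
    fun x hx => ?_, ?_, fun x hx y hy => ⟨fun e => ⟨1, ?_⟩, ?_⟩⟩
  · have c : Continuous fun x : EuclideanSpace ℂ (Fin (1 + 1)) =>
        tens G.e (G.M t x.ofLp) (G.g t) :=
      (GeoTri_tens_cont G.e).comp (f := fun x : EuclideanSpace ℂ (Fin (1 + 1)) =>
        (G.M t x.ofLp, G.g t)) (by fun_prop)
    exact (ContinuousAt.comp (g := nrm) (f := fun x : EuclideanSpace ℂ (Fin (1 + 1)) =>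
      tens G.e (G.M t x.ofLp) (G.g t)) (GeoTri_nrm_cont
      (GeoTri_tens_ne _ (ne x hx) (G.g_ne t))) c.continuousAt).continuousWithinAt
  · ext v
    constructor
    · rintro ⟨x, hx, rfl⟩
      have m := G.gt_mirror_mem hP h (ne x hx)
      exact ⟨m, (hF _ m).2 ⟨_, gt_nrm_tens _ _ _⟩⟩
    · rintro ⟨hv, hp⟩
      obtain ⟨b, rfl⟩ := (hF v hv).1 hp
      obtain ⟨w, w0, rfl⟩ := G.gt_mirror_range h h2 hv
      have n : 0 < ‖(WithLp.toLp 2 w : EuclideanSpace ℂ (Fin (1 + 1)))‖ :=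
        norm_pos_iff.2 fun e => w0 ((WithLp.toLp_eq_zero 2).1 e)
      refine ⟨((‖(WithLp.toLp 2 w : EuclideanSpace ℂ (Fin (1 + 1)))‖⁻¹ : ℝ) : ℂ) • WithLp.toLp 2 w,
        ?_, ?_⟩
      · simp [norm_smul, n.ne']
      · change nrm (tens G.e (G.M t (_ • w)) (G.g t)) = _
        rw [map_smul, GeoTri_tens_smul_left, GeoTri_nrm_smul (inv_pos.2 n),
          GeoTri_nrm_of_norm (G.cb.unit _ hv)]
  · obtain ⟨ρ, hρ, e2⟩ := GeoTri_nrm_eq (GeoTri_tens_ne _ (ne x hx) (G.g_ne t))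
      (GeoTri_tens_ne _ (ne y hy) (G.g_ne t)) e
    rw [← GeoTri_tens_smul_left, ← map_smul] at e2
    have e3 : y = (ρ : ℂ) • x := WithLp.ofLp_injective 2 (hi (GeoTri_tens_cancel _ (G.g_ne t) e2))
    have n := mem_sphere_zero_iff_norm.1 hy
    rw [e3, norm_smul, mem_sphere_zero_iff_norm.1 hx, mul_one, Complex.norm_real,
      Real.norm_of_nonneg hρ.le] at n
    change x = y
    rw [e3, n]; simp
  · rintro ⟨_, e⟩
    have e' : x = y := e
    rw [e']

end Pool.Agent.Lib.MP_d3d358_ag.AS
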