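import Pool.Agent.Lib.MP_d3d358_ag.AS.KumB

/-! Limits of the vectors `f ⊗ g`. -/

set_option autoImplicit false

namespace Pool.Agent.Lib.MP_d3d358_ag.AS

open Topology Set Filter

section tens
variable {m₁ m₂ m : ℕ} (e : Fin m ≃ Fin m₁ × Fin m₂)

theorem GeoTri_tens_apply (a : Fin m₁ → ℂ) (b : Fin m₂ → ℂ) (i : Fin m₁) (j : Fin m₂) :
    tens e a b (e.symm (i, j)) = a i * b j := by
  simp [tens]

theorem GeoTri_tens_smul_left (c : ℂ) (a : Fin m₁ → ℂ) (b : Fin m₂ → ℂ) :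
    tens e (c • a) b = c • tens e a b := by
  ext k; simp [tens, mul_assoc]

theorem GeoTri_tens_smul_right (c : ℂ) (a : Fin m₁ → ℂ) (b : Fin m₂ → ℂ) :
    tens e a (c • b) = c • tens e a b := by
  ext k; simp [tens, mul_left_comm]

theorem GeoTri_tens_cont :
    Continuous fun p : (Fin m₁ → ℂ) × (Fin m₂ → ℂ) => tens e p.1 p.2 :=
  (PiLp.continuous_toLp 2 _).comp (by fun_prop)

theorem GeoTri_tens_tendsto {ι : Type} {l : Filter ι} {a : ι → Fin m₁ → ℂ} {b : ι → Fin m₂ → ℂ}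
    {a₀ : Fin m₁ → ℂ} {b₀ : Fin m₂ → ℂ} (ha : Tendsto a l (𝓝 a₀)) (hb : Tendsto b l (𝓝 b₀)) :
    Tendsto (fun k => tens e (a k) (b k)) l (𝓝 (tens e a₀ b₀)) :=
  ((GeoTri_tens_cont e).tendsto (a₀, b₀)).comp (ha.prodMk_nhds hb)

theorem GeoTri_tens_cancel {a a' : Fin m₁ → ℂ} {b : Fin m₂ → ℂ} (hb : b ≠ 0)
    (h : tens e a b = tens e a' b) : a = a' := by
  obtain ⟨j, hj⟩ := Function.ne_iff.1 hb
  funext i
  apply mul_right_cancel₀ hj
  rw [← GeoTri_tens_apply e, ← GeoTri_tens_apply e, h]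

theorem GeoTri_tens_zero (b : Fin m₂ → ℂ) : tens e 0 b = 0 := by
  ext k; simp [tens]

theorem GeoTri_tens_ne {a : Fin m₁ → ℂ} {b : Fin m₂ → ℂ} (ha : a ≠ 0) (hb : b ≠ 0) :
    tens e a b ≠ 0 := fun h =>
  ha (GeoTri_tens_cancel e hb (h.trans (GeoTri_tens_zero e b).symm))

theorem GeoTri_tens_right {a a' : Fin m₁ → ℂ} {b b' : Fin m₂ → ℂ} (h : tens e a b = tens e a' b')
    (h0 : tens e a b ≠ 0) : ∃ c : ℂ, b' = c • b := by
  have ha : a' ≠ 0 := fun h1 => h0 (by rw [h, h1, GeoTri_tens_zero])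
  obtain ⟨i, hi⟩ := Function.ne_iff.1 ha
  have hi' : a' i ≠ 0 := hi
  refine ⟨a i / a' i, funext fun j => ?_⟩
  have : a i * b j = a' i * b' j := by rw [← GeoTri_tens_apply e, ← GeoTri_tens_apply e, h]
  rw [Pi.smul_apply, smul_eq_mul, div_mul_eq_mul_div, this, mul_div_cancel_left₀ _ hi']

theorem GeoTri_tens_lim {ι : Type} {l : Filter ι} [l.NeBot] {a : ι → Fin m₁ → ℂ}
    {b : ι → Fin m₂ → ℂ} {v : EuclideanSpace ℂ (Fin m)} {b₀ : Fin m₂ → ℂ}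
    (h : Tendsto (fun k => tens e (a k) (b k)) l (𝓝 v)) (hb : Tendsto b l (𝓝 b₀)) (h0 : b₀ ≠ 0) :
    ∃ a₀, Tendsto a l (𝓝 a₀) ∧ v = tens e a₀ b₀ := by
  obtain ⟨j, hj⟩ := Function.ne_iff.1 h0
  have hj' : b₀ j ≠ 0 := hj
  have hbj := tendsto_pi_nhds.1 hb j
  have ha : Tendsto a l (𝓝 fun i => v (e.symm (i, j)) / b₀ j) := by
    refine tendsto_pi_nhds.2 fun i => ?_
    have h1 : Tendsto (fun k => tens e (a k) (b k) (e.symm (i, j))) l (𝓝 (v (e.symm (i, j)))) :=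
      ((PiLp.continuous_apply 2 _ (e.symm (i, j))).tendsto v).comp h
    refine (h1.div hbj hj').congr' ?_
    filter_upwards [hbj.eventually_ne hj'] with k hk
    rw [Pi.div_apply, GeoTri_tens_apply, mul_div_cancel_right₀ _ hk]
  exact ⟨_, ha, tendsto_nhds_unique h (GeoTri_tens_tendsto e ha hb)⟩

theorem GeoTri_norm_nrm {v : EuclideanSpace ℂ (Fin m)} (h : v ≠ 0) : ‖nrm v‖ = 1 := by
  rw [nrm, norm_smul, norm_inv, Complex.norm_real, norm_norm, inv_mul_cancel₀ (norm_ne_zero_iff.2 h)]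

theorem GeoTri_nrm_of_norm {v : EuclideanSpace ℂ (Fin m)} (h : ‖v‖ = 1) : nrm v = v := by
  rw [nrm, h, Complex.ofReal_one, inv_one, one_smul]

theorem GeoTri_nrm_smul {ρ : ℝ} (h : 0 < ρ) (v : EuclideanSpace ℂ (Fin m)) :
    nrm ((ρ : ℂ) • v) = nrm v := by
  have : (ρ : ℂ) ≠ 0 := Complex.ofReal_ne_zero.2 h.ne'
  rw [nrm, nrm, norm_smul, Complex.norm_real, Real.norm_of_nonneg h.le, smul_smul,
    Complex.ofReal_mul, mul_inv, mul_comm (ρ : ℂ)⁻¹, mul_assoc, inv_mul_cancel₀ this, mul_one]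

theorem GeoTri_nrm_cont {v : EuclideanSpace ℂ (Fin m)} (h : v ≠ 0) : ContinuousAt nrm v :=
  ((Complex.continuous_ofReal.comp continuous_norm).continuousAt.inv₀
    (Complex.ofReal_ne_zero.2 (norm_ne_zero_iff.2 h))).smul continuousAt_id

/-- equal directions -/
theorem GeoTri_nrm_eq {v w : EuclideanSpace ℂ (Fin m)} (hv : v ≠ 0) (hw : w ≠ 0)
    (h : nrm v = nrm w) : ∃ ρ : ℝ, 0 < ρ ∧ w = (ρ : ℂ) • v := by
  have h1 := norm_pos_iff.2 hv
  have h2 := norm_pos_iff.2 hw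
  have h3 : (‖w‖ : ℂ) ≠ 0 := Complex.ofReal_ne_zero.2 h2.ne'
  refine ⟨‖w‖ * ‖v‖⁻¹, by positivity, ?_⟩
  rw [Complex.ofReal_mul, Complex.ofReal_inv, mul_smul]
  change w = (‖w‖ : ℂ) • nrm v
  rw [h, nrm, smul_smul, mul_inv_cancel₀ h3, one_smul]

end tens

/-- limits through a family of linear maps with injective limit -/
theorem lim_of_inj {V W : Type} [NormedAddCommGroup V] [NormedSpace ℂ V] [FiniteDimensional ℂ V]
    [NormedAddCommGroup W] [NormedSpace ℂ W] [FiniteDimensional ℂ W] {ι : Type} {l : Filter ι}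
    [l.NeBot] {E : ι → V →L[ℂ] W} {E₀ : V →L[ℂ] W} (hE : Tendsto E l (𝓝 E₀))
    (hi : Function.Injective E₀) {w : ι → V} {b : W} (h : Tendsto (fun k => E k (w k)) l (𝓝 b)) :
    ∃ w₀, Tendsto w l (𝓝 w₀) ∧ E₀ w₀ = b := by
  have := FiniteDimensional.complete ℂ V
  obtain ⟨L₀, hL₀⟩ := (E₀ : V →ₗ[ℂ] W).exists_leftInverse_of_injective
    (LinearMap.ker_eq_bot.2 hi)
  let L : W →L[ℂ] V := LinearMap.toContinuousLinearMap L₀
  have h1 : L.comp E₀ = 1 := ContinuousLinearMap.ext fun x => LinearMap.congr_fun hL₀ x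
  have hA : Tendsto (fun k => L.comp (E k)) l (𝓝 1) := by
    rw [← h1]
    exact ((ContinuousLinearMap.compL ℂ V W V L).continuous.tendsto E₀).comp hE
  have hI : Tendsto (fun k => Ring.inverse (L.comp (E k))) l (𝓝 1) := by
    have := (NormedRing.inverse_continuousAt (1 : (V →L[ℂ] V)ˣ)).tendsto.comp hA
    rwa [Units.val_one, Ring.inverse_one] at this
  have app : ∀ {V' W' : Type} [NormedAddCommGroup V'] [NormedSpace ℂ V'] [NormedAddCommGroup W']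
      [NormedSpace ℂ W'] {A : ι → V' →L[ℂ] W'} {A₀ : V' →L[ℂ] W'} {x : ι → V'} {x₀ : V'},
      Tendsto A l (𝓝 A₀) → Tendsto x l (𝓝 x₀) → Tendsto (fun k => A k (x k)) l (𝓝 (A₀ x₀)) :=
    fun hA hx => (isBoundedBilinearMap_apply.continuous.tendsto (_, _)).comp (hA.prodMk_nhds hx)
  have hw : Tendsto w l (𝓝 (L b)) := by
    refine (app hI ((L.continuous.tendsto b).comp h)).congr' ?_
    filter_upwards [hA.eventually (Units.isOpen.mem_nhds isUnit_one)] with k hk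
    exact congrArg (fun A : V →L[ℂ] V => A (w k)) (Ring.inverse_mul_cancel _ hk)
  exact ⟨L b, hw, tendsto_nhds_unique (app hE hw) h⟩

theorem GeoTri_cont_pa (i : Fin 3) : Continuous (pa i : (I8 → ℝ) → Fin 4 → ℝ) := by
  fin_cases i
  · change Continuous fun (n : I8 → ℝ) (j : Fin 4) => n (.inl j)
    fun_prop
  · change Continuous fun (n : I8 → ℝ) (j : Fin 4) => n (.inr j)
    fun_prop
  · change Continuous fun (n : I8 → ℝ) (j : Fin 4) => -n (.inl j) - n (.inr j)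
    fun_prop

theorem GeoTri_cont_sm (s : Equiv.Perm (Fin 3)) : Continuous (sm s : (I8 → ℝ) → I8 → ℝ) := by
  refine continuous_pi fun i => ?_
  cases i with
  | inl j => exact (continuous_apply j).comp (GeoTri_cont_pa (s 0))
  | inr j => exact (continuous_apply j).comp (GeoTri_cont_pa (s 1))

theorem GeoTri_sm_mkT (s : Equiv.Perm (Fin 3)) (t : I8 → ℝ) : sm s (mkT t) = mkT (sm s t) := by
  funext i
  cases i with
  | inl j => exact congrFun (pa_mkT (s 0) t) j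
  | inr j => exact congrFun (pa_mkT (s 1) t) j

variable {P : Matrix (Fin 2) (Fin 4) ℂ} {X : Type} [MetricSpace X] {Per : (List X → ℂ) → Prop}
  (G : Geo P X Per)

theorem Geo.move {s : Equiv.Perm (Fin 3)} {t t' : I8 → ℝ} (h : mkT t' = sm s (mkT t)) (c : ℂ) :
    ∃ c' : ℂ, tens G.e (c • G.f t) (G.g t) = tens G.e (c' • G.f t') (G.g t') := by
  obtain ⟨⟨a, ha, e1⟩, b, hb, e2⟩ := G.inv s t t' h
  refine ⟨c / (a * b), ?_⟩
  rw [e1, e2, GeoTri_tens_smul_right, smul_smul, ← GeoTri_tens_smul_left, smul_smul]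
  congr 2
  field_simp

theorem Geo.ne_zero_of_mem {v : EuclideanSpace ℂ (Fin G.m)} (hv : v ∈ G.S) : v ≠ 0 := fun h => by
  have := G.cb.unit v hv
  rw [h, norm_zero] at this
  exact zero_ne_one this

theorem Geo.exists_seq₀ {v : EuclideanSpace ℂ (Fin G.m)} (hv : v ∈ G.S) :
    ∃ (b : Fin G.m₁ → ℂ) (t : I8 → ℝ) (c : ℕ → ℂ) (s : ℕ → I8 → ℝ), v = tens G.e b (G.g t) ∧
      Tendsto s atTop (𝓝 t) ∧ Tendsto (fun k => c k • G.f (s k)) atTop (𝓝 b) := by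
  obtain ⟨x, hx, hxv⟩ := mem_closure_iff_seq_limit.1 hv
  have key : ∀ k, ∃ (c : ℂ) (s : I8 → ℝ), s ∈ Icc (0 : I8 → ℝ) 1 ∧
      x k = tens G.e (c • G.f s) (G.g s) := fun k => by
    obtain ⟨-, c, t, e⟩ := hx k
    have h : mkT (fun i => Int.fract (t i)) = sm 1 (mkT t) := by
      rw [sm_one]
      funext i
      exact AddCircle.coe_fract (t i)
    obtain ⟨c', e'⟩ := G.move h c
    exact ⟨c', _, ⟨fun i => Int.fract_nonneg _, fun i => (Int.fract_lt_one _).le⟩,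
      by rw [e, ← e', GeoTri_tens_smul_left]⟩
  choose c s hs e using key
  obtain ⟨t, -, φ, hφ, hl⟩ := isCompact_Icc.tendsto_subseq hs
  have h1 : Tendsto (fun k => tens G.e (c (φ k) • G.f (s (φ k))) (G.g (s (φ k)))) atTop (𝓝 v) :=
    (hxv.comp hφ.tendsto_atTop).congr fun k => e (φ k)
  obtain ⟨b, hb, ev⟩ := GeoTri_tens_lim G.e h1 ((G.cg.tendsto t).comp hl) (G.g_ne t)
  exact ⟨b, t, c ∘ φ, s ∘ φ, ev, hl, hb⟩

theorem Geo.exists_tens {v : EuclideanSpace ℂ (Fin G.m)} (hv : v ∈ G.S) :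
    ∃ b t, v = tens G.e b (G.g t) := by
  obtain ⟨b, t, -, -, e, -⟩ := G.exists_seq₀ hv
  exact ⟨b, t, e⟩

theorem Geo.exists_seq {v : EuclideanSpace ℂ (Fin G.m)} (hv : v ∈ G.S) {b : Fin G.m₁ → ℂ}
    {t : I8 → ℝ} (h : v = tens G.e b (G.g t)) : ∃ (c : ℕ → ℂ) (s : ℕ → I8 → ℝ),
    Tendsto s atTop (𝓝 t) ∧ Tendsto (fun k => c k • G.f (s k)) atTop (𝓝 b) := by
  obtain ⟨b₀, t₀, c, s, e, hs, hb⟩ := G.exists_seq₀ hv
  obtain ⟨a, ha⟩ := GeoTri_tens_right G.e (e.symm.trans h) (e ▸ G.ne_zero_of_mem hv)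
  obtain ⟨σ, hσ⟩ := G.g_sep t₀ t a ha
  let s' : ℕ → I8 → ℝ := fun k => sm σ (s k) + (t - sm σ t₀)
  have h1 : Tendsto s' atTop (𝓝 t) := by
    have := (((GeoTri_cont_sm σ).tendsto t₀).comp hs).add_const (t - sm σ t₀)
    rwa [add_sub_cancel] at this
  have h2 : ∀ k, mkT (s' k) = sm σ (mkT (s k)) := fun k => by
    rw [GeoTri_sm_mkT] at hσ ⊢
    funext i
    have : ((t i : ℝ) : UnitAddCircle) = (sm σ t₀ i : ℝ) := congrFun hσ i
    change ((sm σ (s k) i + (t i - sm σ t₀ i) : ℝ) : UnitAddCircle) = (sm σ (s k) i : ℝ)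
    rw [AddCircle.coe_add, AddCircle.coe_sub, this, sub_self, add_zero]
  choose c' e' using fun k => G.move (h2 k) (c k)
  have h3 : Tendsto (fun k => tens G.e (c' k • G.f (s' k)) (G.g (s' k))) atTop (𝓝 v) := by
    rw [e]
    exact (GeoTri_tens_tendsto G.e hb ((G.cg.tendsto t₀).comp hs)).congr e'
  obtain ⟨b', hb', ev⟩ := GeoTri_tens_lim G.e h3 ((G.cg.tendsto t).comp h1) (G.g_ne t)
  rw [GeoTri_tens_cancel G.e (G.g_ne t) (ev.symm.trans h)] at hb'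
  exact ⟨c', s', h1, hb'⟩

theorem Geo.mem_S {ι : Type} {l : Filter ι} [l.NeBot] {c : ι → ℂ} {s : ι → I8 → ℝ} {t : I8 → ℝ}
    {b : Fin G.m₁ → ℂ} (hs : Tendsto s l (𝓝 t)) (hb : Tendsto (fun k => c k • G.f (s k)) l (𝓝 b))
    (h0 : b ≠ 0) : nrm (tens G.e b (G.g t)) ∈ G.S := by
  have h1 := GeoTri_tens_ne G.e h0 (G.g_ne t)
  have h2 := GeoTri_tens_tendsto G.e hb ((G.cg.tendsto t).comp hs)
  refine mem_closure_of_tendsto ((GeoTri_nrm_cont h1).tendsto.comp h2) ?_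
  filter_upwards [h2.eventually_ne h1] with k hk
  exact ⟨GeoTri_norm_nrm hk, _, s k, by
    rw [Function.comp_apply, nrm, GeoTri_tens_smul_left, smul_smul]; rfl⟩

end Pool.Agent.Lib.MP_d3d358_ag.AS
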