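import Pool.Agent.Lib.MP_d3d358_ag.AS.Circle

set_option autoImplicit false

namespace Pool.Agent.Lib.MP_d3d358_ag.AS

open Topology Set

variable {m : ℕ} {P : Type} [MetricSpace P]

/-- `S` is a compact circle invariant set of unit vectors, `pr` the quotient by the circle -/
structure CB (S : Set (EuclideanSpace ℂ (Fin m))) (pr : EuclideanSpace ℂ (Fin m) → P) : Prop where
  cpt : IsCompact S
  unit : ∀ v ∈ S, ‖v‖ = 1
  inv : ∀ v ∈ S, ∀ c : ℂ, ‖c‖ = 1 → c • v ∈ S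
  cont : ContinuousOn pr S
  fib : ∀ v ∈ S, ∀ w ∈ S, pr v = pr w ↔ ∃ c : ℂ, c • v = w

variable {S : Set (EuclideanSpace ℂ (Fin m))} {pr : EuclideanSpace ℂ (Fin m) → P}

theorem CB.fib' (h : CB S pr) {v w : EuclideanSpace ℂ (Fin m)} (hv : v ∈ S) (hw : w ∈ S)
    (e : pr v = pr w) : ∃ c : ℂ, ‖c‖ = 1 ∧ c • v = w := by
  obtain ⟨c, rfl⟩ := (h.fib v hv w hw).1 e
  exact ⟨c, by simpa [norm_smul, h.unit v hv] using h.unit _ hw, rfl⟩

/-- nullity descends along the quotient map -/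
theorem CB.desc (h : CB S pr) {R : Type} [CommRing R] {a : Ch P R} (ha : pullC pr a ∈ N S) :
    a ∈ N (pr '' S) := by
  rintro _ ⟨v₀, h0, rfl⟩
  obtain ⟨U, hU, e⟩ := ha v₀ h0
  obtain ⟨O, hOU, hO, h0O⟩ := mem_nhds_iff.1 hU
  let C := S ∩ ⋂ c ∈ {c : ℂ | ‖c‖ = 1}, (fun v : EuclideanSpace ℂ (Fin m) => c • v) ⁻¹' Oᶜ
  have hC : IsCompact C := h.cpt.inter_right (isClosed_biInter fun c _ =>
    hO.isClosed_compl.preimage (continuous_const_smul c))
  have hC' : IsCompact (pr '' C) := hC.image_of_continuousOn (h.cont.mono inter_subset_left)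
  refine ⟨(pr '' C)ᶜ, hC'.isClosed.isOpen_compl.mem_nhds ?_, fun l hl => ?_⟩
  · rintro ⟨v, hv, ev⟩
    obtain ⟨c, c1, rfl⟩ := h.fib' hv.1 h0 ev
    exact mem_iInter₂.1 hv.2 c c1 h0O
  · have : ∀ y ∈ l, ∃ v, (v ∈ U ∧ v ∈ S) ∧ pr v = y := fun y hy => by
      obtain ⟨h1, v, hv, rfl⟩ := hl y hy
      by_contra hn
      refine h1 ⟨v, ⟨hv, mem_iInter₂.2 fun c c1 hc => hn ⟨c • v, ⟨hOU hc, h.inv v hv c c1⟩, ?_⟩⟩,
        rfl⟩
      exact ((h.fib v hv _ (h.inv v hv c c1)).2 ⟨c, rfl⟩).symm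
    choose! s hs using this
    have e1 : l = (l.map s).map pr := by
      rw [List.map_map]
      exact ((List.map_congr_left fun y hy => (hs y hy).2).trans (List.map_id l)).symm
    rw [e1]
    exact e (l.map s) fun v hv => by
      obtain ⟨y, hy, rfl⟩ := List.mem_map.1 hv
      exact (hs y hy).1

/-- the small angle between two vectors -/
noncomputable def hopfA : Ch (EuclideanSpace ℂ (Fin m)) ℝ :=
  ⟨fun l => match l with
    | [v, w] => -(inner ℂ w v).arg / (2 * Real.pi)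
    | _ => 0, rfl⟩

/-- the area of a small triangle -/
noncomputable def hopfB : Ch (EuclideanSpace ℂ (Fin m)) ℝ :=
  ⟨fun l => match l with
    | [v, w, u] => -(inner ℂ w v * inner ℂ u w * inner ℂ v u).arg / (2 * Real.pi)
    | _ => 0, rfl⟩

theorem hopfA_mem : (hopfA : Ch (EuclideanSpace ℂ (Fin m)) ℝ) ∈ DZ 1 := by
  intro l hl
  match l, hl with
  | [], _ => rfl
  | [_], _ => rfl
  | [_, _], h => exact absurd rfl h
  | _ :: _ :: _ :: _, _ => rfl

theorem hopfB_mem : (hopfB : Ch (EuclideanSpace ℂ (Fin m)) ℝ) ∈ DZ 2 := by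
  intro l hl
  match l, hl with
  | [], _ => rfl
  | [_], _ => rfl
  | [_, _], _ => rfl
  | [_, _, _], h => exact absurd rfl h
  | _ :: _ :: _ :: _ :: _, _ => rfl

theorem hopfB_smul {a b c : ℂ} (ha : ‖a‖ = 1) (hb : ‖b‖ = 1) (hc : ‖c‖ = 1)
    (v w u : EuclideanSpace ℂ (Fin m)) : hopfB.1 [a • v, b • w, c • u] = hopfB.1 [v, w, u] := by
  have k : ∀ z : ℂ, ‖z‖ = 1 → (starRingEnd ℂ) z * z = 1 := fun z hz => by
    rw [Complex.conj_mul', hz]; simp
  change -Complex.arg _ / _ = -Complex.arg _ / _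
  congr 3
  simp only [inner_smul_left, inner_smul_right]
  linear_combination (inner ℂ w v * inner ℂ u w * inner ℂ v u) *
    ((starRingEnd ℂ) b * b * ((starRingEnd ℂ) c * c) * k a ha + (starRingEnd ℂ) c * c * k b hb
      + k c hc)

theorem hopf_d (hS : ∀ v ∈ S, ‖v‖ = 1) : dC hopfA - hopfB ∈ N S := by
  intro v₀ h0
  have i1 : inner ℂ v₀ v₀ = 1 := by rw [inner_self_eq_norm_sq_to_K, hS v₀ h0]; simp
  have ci : ContinuousAt (fun p : EuclideanSpace ℂ (Fin m) × EuclideanSpace ℂ (Fin m) =>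
      inner ℂ p.1 p.2) (v₀, v₀) := continuous_inner.continuousAt
  have ca : ContinuousAt (fun p : EuclideanSpace ℂ (Fin m) × EuclideanSpace ℂ (Fin m) =>
      (inner ℂ p.1 p.2).arg) (v₀, v₀) :=
    ContinuousAt.comp (f := fun p : EuclideanSpace ℂ (Fin m) × EuclideanSpace ℂ (Fin m) =>
      inner ℂ p.1 p.2)
      (Complex.continuousAt_arg (by simp only [i1]; exact Complex.one_mem_slitPlane)) ci
  have e1 := ci.eventually_ne (y := 0) (by simp only [i1]; exact one_ne_zero)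
  have e2 := ca.eventually (Ioo_mem_nhds (a := -1) (b := 1) (by simp only [i1]; simp)
    (by simp only [i1]; simp))
  have e3 := e1.and e2
  rw [nhds_prod_eq] at e3
  obtain ⟨U, hU, hs⟩ := Filter.mem_prod_self_iff.1 e3
  refine ⟨U, hU, fun l hl => ?_⟩
  by_cases h3 : (l.length : ℤ) = 2 + 1
  swap
  · exact sub_mem (dC_mem hopfA_mem) hopfB_mem l h3
  obtain ⟨v, w, u, rfl⟩ := List.length_eq_three.1 (by omega : l.length = 3)
  have hv := (hl v (by simp)).1
  have hw := (hl w (by simp)).1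
  have hu := (hl u (by simp)).1
  obtain ⟨n1, a1, b1⟩ := hs (mk_mem_prod hw hv)
  obtain ⟨n2, a2, b2⟩ := hs (mk_mem_prod hu hw)
  obtain ⟨n3, a3, b3⟩ := hs (mk_mem_prod hv hu)
  simp only at n1 a1 b1 n2 a2 b2 n3 a3 b3
  have p3 := Real.pi_gt_three
  have m1 := Complex.arg_mul n1 n2 ⟨by linarith, by linarith⟩
  have m2 := Complex.arg_mul (mul_ne_zero n1 n2) n3 ⟨by linarith, by linarith⟩
  have m3 : (inner ℂ u v).arg = -(inner ℂ v u).arg := by
    rw [← inner_conj_symm, Complex.arg_conj, if_neg (by linarith)]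
  rw [Alg_sub, Null_dC_val]
  simp only [List.length_cons, List.length_nil, Finset.sum_range_succ, Finset.sum_range_zero,
    List.eraseIdx_cons_succ, List.eraseIdx_zero, List.tail_cons, hopfA, hopfB, m1, m2, m3]
  ring

theorem hopf_fib {v₀ : EuclideanSpace ℂ (Fin m)} (h0 : ‖v₀‖ = 1) :
    pullC (fun s : UnitAddCircle => (AddCircle.toCircle s : ℂ) • v₀) hopfA =
      thetaC ℝ + dC (fnC fun s => (AddCircle.equivIco 1 0 s : ℝ)) := by
  refine Alg_ext fun l => ?_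
  by_cases h2 : (l.length : ℤ) = 1 + 1
  swap
  · rw [pullC_mem _ hopfA_mem l h2, add_mem (thetaC_mem ℝ) (dC_mem (fnC_mem _)) l h2]
  obtain ⟨x, y, rfl⟩ := List.length_eq_two.1 (by omega : l.length = 2)
  rw [Alg_add, dC_fnC_pair]
  change -(inner ℂ ((AddCircle.toCircle y : ℂ) • v₀) ((AddCircle.toCircle x : ℂ) • v₀)).arg /
    (2 * Real.pi) = ((-round (((AddCircle.equivIco 1 0 y : ℝ) -
      (AddCircle.equivIco 1 0 x : ℝ))) : ℤ) : ℝ) + _
  obtain ⟨s, hs⟩ : ∃ s : ℝ, s = AddCircle.equivIco 1 0 x := ⟨_, rfl⟩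
  obtain ⟨t, ht⟩ : ∃ t : ℝ, t = AddCircle.equivIco 1 0 y := ⟨_, rfl⟩
  have ex : x = (s : UnitAddCircle) := hs ▸ AddCircle.coe_equivIco.symm
  have ey : y = (t : UnitAddCircle) := ht ▸ AddCircle.coe_equivIco.symm
  rw [← hs, ← ht, ex, ey]
  have r1 := sub_half_lt_round (t - s)
  have r2 := round_le_add_half (t - s)
  have p0 := Real.pi_pos
  have key : inner ℂ ((AddCircle.toCircle (t : UnitAddCircle) : ℂ) • v₀)
      ((AddCircle.toCircle (s : UnitAddCircle) : ℂ) • v₀) =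
      Complex.exp ((2 * Real.pi * (round (t - s) - (t - s)) : ℝ) * Complex.I) := by
    rw [inner_smul_left, inner_smul_right, inner_self_eq_norm_sq_to_K, h0,
      AddCircle.toCircle_apply_mk, AddCircle.toCircle_apply_mk, Circle.coe_exp, Circle.coe_exp,
      ← Complex.exp_conj]
    simp only [RCLike.ofReal_one, one_pow, mul_one, ← Complex.exp_add]
    refine Complex.exp_eq_exp_iff_exists_int.2 ⟨-round (t - s), ?_⟩
    simp only [map_mul, Complex.conj_ofReal, Complex.conj_I]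
    push_cast
    ring
  rw [key, Complex.exp_mul_I, Complex.arg_cos_add_sin_mul_I ⟨by nlinarith, by nlinarith⟩]
  push_cast
  field_simp
  ring

theorem CB.exists_eta (h : CB S pr) : ∃ (θ : Ch (EuclideanSpace ℂ (Fin m)) ℚ) (η : Ch P ℚ),
    θ ∈ DZ 1 ∧ η ∈ DZ 2 ∧ dC η ∈ N (pr '' S) ∧ dC θ - pullC pr η ∈ N S ∧
    ∀ (R : Type) [Field R] [CharZero R] (n : ℤ), ∀ w ∈ pr '' S,
      FibOK (S ∩ pr ⁻¹' {w}) 1 n (coef (algebraMap ℚ R : ℚ →+ R) θ) := by
  obtain ⟨t, ht⟩ : ∃ t : ℝ →ₗ[ℚ] ℚ, t 1 = 1 :=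
    Module.Projective.exists_dual_eq_one ℚ (one_ne_zero : (1 : ℝ) ≠ 0)
  have cm : ∀ {Z A B : Type} [CommRing A] [CommRing B] (u : A →+ B) {k : ℤ} {a : Ch Z A},
      a ∈ DZ k → coef u a ∈ DZ k := fun u _ a ha l hl => by rw [Alg_coef, ha l hl, map_zero]
  let σ := Function.invFunOn pr S
  have hσ : ∀ v ∈ S, ∃ c : ℂ, ‖c‖ = 1 ∧ c • v = σ (pr v) := fun v hv =>
    h.fib' hv (Function.invFunOn_mem ⟨v, hv, rfl⟩) (Function.invFunOn_eq ⟨v, hv, rfl⟩).symm
  have hB : hopfB - pullC pr (pullC σ hopfB) ∈ N S := Null_of_zero fun l hl => by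
    by_cases h3 : (l.length : ℤ) = 2 + 1
    swap
    · exact sub_mem hopfB_mem (pullC_mem _ (pullC_mem _ hopfB_mem)) l h3
    obtain ⟨v, w, u, rfl⟩ := List.length_eq_three.1 (by omega : l.length = 3)
    obtain ⟨a, ha, ea⟩ := hσ v (hl v (by simp))
    obtain ⟨b, hb, eb⟩ := hσ w (hl w (by simp))
    obtain ⟨c, hc, ec⟩ := hσ u (hl u (by simp))
    change hopfB.1 [v, w, u] - hopfB.1 [σ (pr v), σ (pr w), σ (pr u)] = 0
    rw [← ea, ← eb, ← ec, hopfB_smul ha hb hc, sub_self]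
  have hd : dC (coef (t : ℝ →+ ℚ) hopfA) - pullC pr (coef (t : ℝ →+ ℚ) (pullC σ hopfB)) ∈ N S := by
    have := N_coef (t : ℝ →+ ℚ) (add_mem (hopf_d h.unit) hB)
    rwa [sub_add_sub_cancel, map_sub, ← dC_coef] at this
  refine ⟨coef (t : ℝ →+ ℚ) hopfA, coef (t : ℝ →+ ℚ) (pullC σ hopfB), cm _ hopfA_mem,
    cm _ (pullC_mem _ hopfB_mem), h.desc ?_, hd, ?_⟩
  · have := neg_mem (N_dC hd)
    rwa [map_sub, dC_dC, zero_sub, neg_neg, dC_pullC] at this
  rintro R _ _ n _ ⟨v₀, h0, rfl⟩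
  let f := fun s : UnitAddCircle => (AddCircle.toCircle s : ℂ) • v₀
  have hf : Continuous f :=
    (continuous_subtype_val.comp AddCircle.continuous_toCircle).smul continuous_const
  have v0 : v₀ ≠ 0 := fun e => by simpa [e] using h.unit v₀ h0
  have hb : BijOn f univ (S ∩ pr ⁻¹' {pr v₀}) := by
    refine ⟨fun s _ => ?_, fun s _ s' _ e => ?_, fun v hv => ?_⟩
    · have := h.inv v₀ h0 _ (Circle.norm_coe (AddCircle.toCircle s))
      exact ⟨this, ((h.fib v₀ h0 _ this).2 ⟨_, rfl⟩).symm⟩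
    · exact AddCircle.injective_toCircle one_ne_zero (Circle.ext (smul_left_injective ℂ v0 e))
    · obtain ⟨c, c1, rfl⟩ := h.fib' h0 hv.1 hv.2.symm
      obtain ⟨s, hs⟩ := (AddCircle.homeomorphCircle (T := 1) one_ne_zero).surjective
        ⟨c, mem_sphere_zero_iff_norm.2 c1⟩
      rw [AddCircle.homeomorphCircle_apply] at hs
      exact ⟨s, trivial, by simp only [f, hs]⟩
  obtain ⟨inj, -⟩ := pull_bij (R := R) isCompact_univ hf.continuousOn hb
  obtain ⟨-, -, van, dθ, ne, sp⟩ := circle_fib R n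
  have hz : pullC pr (coef (t : ℝ →+ ℚ) (pullC σ hopfB)) ∈ N (S ∩ pr ⁻¹' {pr v₀}) :=
    Null_of_zero fun l hl => by
      by_cases h3 : (l.length : ℤ) = 2 + 1
      swap
      · exact pullC_mem _ (cm _ (pullC_mem _ hopfB_mem)) l h3
      obtain ⟨v, w, u, rfl⟩ := List.length_eq_three.1 (by omega : l.length = 3)
      change t (hopfB.1 [σ (pr v), σ (pr w), σ (pr u)]) = 0
      obtain ⟨a, ha, ea⟩ := hσ v₀ h0
      rw [(hl v (by simp)).2, (hl w (by simp)).2, (hl u (by simp)).2, ← ea, hopfB_smul ha ha ha]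
      simp [hopfB, inner_self_eq_norm_sq_to_K, h.unit v₀ h0]
  have dF : dC (coef (algebraMap ℚ R : ℚ →+ R) (coef (t : ℝ →+ ℚ) hopfA)) ∈
      N (S ∩ pr ⁻¹' {pr v₀}) := by
    rw [dC_coef]
    exact N_coef _ (by simpa using add_mem (N_mono inter_subset_left hd) hz)
  have e : pull f hf.continuousOn hb.mapsTo (AS.mk _ dF) = AS.mk (thetaC R) dθ := by
    rw [pull_mk _ _ _ _ (by rw [dC_pullC]; exact N_pullC hf.continuousOn hb.mapsTo dF), mk_eq_iff]
    refine ⟨coef (algebraMap ℚ R : ℚ →+ R)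
      (coef (t : ℝ →+ ℚ) (fnC fun s => (AddCircle.equivIco 1 0 s : ℝ))), ?_⟩
    have e1 : coef (algebraMap ℚ R : ℚ →+ R) (coef (t : ℝ →+ ℚ) (thetaC ℝ)) = thetaC R := by
      have z : algebraMap ℚ R (t 0) = 0 := by simp
      refine Alg_ext fun l => ?_
      match l with
      | [] => exact z
      | [_] => exact z
      | [x, y] =>
        change algebraMap ℚ R (t ((_ : ℤ) : ℝ)) = ((_ : ℤ) : R)
        rw [← zsmul_one, map_zsmul, ht, zsmul_one, map_intCast]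
      | _ :: _ :: _ :: _ => exact z
    have e2 := congrArg (fun a => coef (algebraMap ℚ R : ℚ →+ R) (coef (t : ℝ →+ ℚ) a))
      (hopf_fib (h.unit v₀ h0))
    simp only [map_add, e1, ← dC_coef] at e2
    rw [sub_sub, ← e2]
    exact Null_of_zero fun l _ => sub_self _
  refine ⟨hb.image_eq ▸ isPreconnected_univ.image _ hf.continuousOn, ⟨v₀, h0, rfl⟩,
    fun k k0 kn k1 x hx => inj (by rw [map_zero]; exact van k k0 kn k1 _ (pull_mem hx)), dF,
    fun z => ne (by rw [← e, z, map_zero]), fun x hx => ?_⟩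
  obtain ⟨c, hc⟩ := sp _ (pull_mem (hf := hf.continuousOn) (hm := hb.mapsTo) hx)
  exact ⟨c, inj (by rw [hc, map_smul, e])⟩

end Pool.Agent.Lib.MP_d3d358_ag.AS
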