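import Pool.Agent.Lib.MP_d3d358_ag.AS.Eps
import Pool.Agent.Lib.MP_d3d358_ag.AS.Hopf
import Pool.Agent.Lib.MP_d3d358_ag.AS.Abs

/-! The torus `N`, the action of `S₃`, and the two interfaces `Geo` (analytic) and `KumTop`. -/

set_option autoImplicit false

namespace Pool.Agent.Lib.MP_d3d358_ag.AS

open Topology Set

abbrev I8 := Fin 4 ⊕ Fin 4

/-- the three projections of `{a₀ + a₁ + a₂ = 0}` in the coordinates `a₀, a₁` -/
def pa {A : Type} [AddCommGroup A] (i : Fin 3) (n : I8 → A) : Fin 4 → A :=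
  ![fun j => n (.inl j), fun j => n (.inr j), fun j => -n (.inl j) - n (.inr j)] i

/-- `pa i (sm s n) = pa (s i) n` -/
def sm {A : Type} [AddCommGroup A] (s : Equiv.Perm (Fin 3)) (n : I8 → A) : I8 → A :=
  Sum.elim (pa (s 0) n) (pa (s 1) n)

/-- free points -/
def Free (n : Tor I8) : Prop := ∀ i j, i ≠ j → pa i n ≠ pa j n

/-- projection of the universal cover -/
def mkT {ι : Type} (t : ι → ℝ) : Tor ι := fun i => (t i : UnitAddCircle)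

/-- complex coordinates of a real vector -/
def cx (P : Matrix (Fin 2) (Fin 4) ℂ) (t : Fin 4 → ℝ) : Fin 2 → ℂ := P.mulVec fun i => (t i : ℂ)

/-- small lift -/
noncomputable def lift4 (a : Tor (Fin 4)) : Fin 4 → ℝ := fun i => AddCircle.equivIco 1 (-1 / 2) (a i)

/-- the five basic alternating polynomials in `(u₁, u₂, v₁, v₂)` -/
def alt5 (z : Fin 4 → ℂ) : Fin 5 → ℂ :=
  ![z 0 * z 3 - z 1 * z 2, z 0 ^ 3 - z 2 ^ 3, z 0 ^ 2 * z 1 - z 2 ^ 2 * z 3,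
    z 0 * z 1 ^ 2 - z 2 * z 3 ^ 2, z 1 ^ 3 - z 3 ^ 3]

/-- tensor of two vectors; `e` numbers the pairs -/
def tens {m₁ m₂ m : ℕ} (e : Fin m ≃ Fin m₁ × Fin m₂) (a : Fin m₁ → ℂ) (b : Fin m₂ → ℂ) :
    EuclideanSpace ℂ (Fin m) := WithLp.toLp 2 fun k => a (e k).1 * b (e k).2

/-- normalisation -/
noncomputable def nrm {m : ℕ} (v : EuclideanSpace ℂ (Fin m)) : EuclideanSpace ℂ (Fin m) :=
  ((‖v‖ : ℂ)⁻¹) • v

/-- the symplectic form on real vectors -/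
def omg (P : Matrix (Fin 2) (Fin 4) ℂ) (l l' : I8 → ℝ) : ℂ :=
  ∑ a, (cx P (pa a l) 0 * cx P (pa a l') 1 - cx P (pa a l) 1 * cx P (pa a l') 0)

/-- ANALYTIC INTERFACE (from S2a). `f` = alternating, `g` = invariant theta functions in lattice
coordinates, `Per` = the predicate `Period σ`. -/
structure Geo (P : Matrix (Fin 2) (Fin 4) ℂ) (X : Type) [MetricSpace X]
    (Per : (List X → ℂ) → Prop) where
  m₁ : ℕ
  m₂ : ℕ
  m : ℕ
  e : Fin m ≃ Fin m₁ × Fin m₂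
  f : (I8 → ℝ) → Fin m₁ → ℂ
  g : (I8 → ℝ) → Fin m₂ → ℂ
  cf : Continuous f
  cg : Continuous g
  inv : ∀ s t t', mkT t' = sm s (mkT t) →
    (∃ c : ℂ, c ≠ 0 ∧ f t' = c • f t) ∧ ∃ c : ℂ, c ≠ 0 ∧ g t' = c • g t
  g_ne : ∀ t, g t ≠ 0
  g_sep : ∀ t t' (c : ℂ), g t' = c • g t → ∃ s, mkT t' = sm s (mkT t)
  f_zero : ∀ t, f t = 0 ↔ ¬Free (mkT t)
  pr : EuclideanSpace ℂ (Fin m) → X
  cb : CB (closure {v | ‖v‖ = 1 ∧ ∃ (c : ℂ) (t : I8 → ℝ), v = c • tens e (f t) (g t)}) pr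
  onto : pr '' closure {v | ‖v‖ = 1 ∧ ∃ (c : ℂ) (t : I8 → ℝ), v = c • tens e (f t) (g t)} = univ
  M : (I8 → ℝ) → (Fin 2 → ℂ) →L[ℂ] Fin m₁ → ℂ
  cM : Continuous M
  f_eq : ∀ t, f t = M t (cx P (pa 0 t - pa 1 t))
  M_inj : ∀ t, pa 0 t = pa 1 t → pa 0 (mkT t) ≠ pa 2 (mkT t) → Function.Injective (M t)
  triple : ∀ t, pa 0 t = pa 1 t → pa 0 (mkT t) = pa 2 (mkT t) →
    ∃ (τ : (I8 → ℝ) → Fin 4 → ℂ) (E : (I8 → ℝ) → (Fin 5 → ℂ) →L[ℂ] Fin m₁ → ℂ),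
      Filter.map τ (𝓝 t) = 𝓝 0 ∧ ContinuousAt E t ∧ Function.Injective (E t) ∧
      ∀ᶠ t' in 𝓝 t, f t' = E t' (alt5 (τ t'))
  per : ∀ c, Per c → ∃ (ε : H (UnitAddCircle × UnitAddCircle) ℂ 2) (κ : ℂ), ε ≠ 0 ∧ κ ≠ 0 ∧
    (∀ (t : I8 → ℝ) (l l' : I8 → ℤ) (φ : UnitAddCircle × UnitAddCircle → X),
      (∀ u u' : ℝ, Free (mkT fun i => t i + u * l i + u' * l' i) ∧
        φ (u, u') = pr (nrm (tens e (f fun i => t i + u * l i + u' * l' i)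
          (g fun i => t i + u * l i + u' * l' i)))) →
      Cls ((κ * omg P (fun i => l i) fun i => l' i) • ε) fun L => c (L.map φ)) ∧
    ∀ (t : I8 → ℝ) (α : ℝ × ℝ → Fin 2 → ℂ) (φ : UnitAddCircle × UnitAddCircle → X),
      pa 0 t = pa 1 t → pa 0 (mkT t) ≠ pa 2 (mkT t) → ContDiff ℝ (⊤ : ℕ∞) α → (∀ u, α u ≠ 0) →
      (∀ u u' : ℝ, φ (u, u') = pr (nrm (tens e (M t (α (u, u'))) (g t)))) →
      Cls (0 : H (UnitAddCircle × UnitAddCircle) ℂ 2) fun L => c (L.map φ)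

/-- the unit vectors of the cone -/
def Geo.S {P : Matrix (Fin 2) (Fin 4) ℂ} {X : Type} [MetricSpace X] {Per : (List X → ℂ) → Prop}
    (G : Geo P X Per) : Set (EuclideanSpace ℂ (Fin G.m)) :=
  closure {v | ‖v‖ = 1 ∧ ∃ (c : ℂ) (t : I8 → ℝ), v = c • tens G.e (G.f t) (G.g t)}

/-- the hypotheses of `CB.wp` -/
def WPData {m : ℕ} {X : Type} (S : Set (EuclideanSpace ℂ (Fin m)))
    (pr : EuclideanSpace ℂ (Fin m) → X) (F : Set X) (r : ℕ) : Prop :=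
  ∃ (G : Type) (_ : Group G) (_ : Fintype G) (_ : MulAction G (EuclideanSpace ℂ (Fin (r + 1))))
    (u : EuclideanSpace ℂ (Fin (r + 1)) → EuclideanSpace ℂ (Fin m)),
    (∀ g : G, Continuous fun x : EuclideanSpace ℂ (Fin (r + 1)) => g • x) ∧
    (∀ (g : G) (x : EuclideanSpace ℂ (Fin (r + 1))), ‖g • x‖ = ‖x‖) ∧
    ContinuousOn u (Metric.sphere 0 1) ∧ u '' Metric.sphere 0 1 = S ∩ pr ⁻¹' F ∧
    ∀ x ∈ Metric.sphere (0 : EuclideanSpace ℂ (Fin (r + 1))) 1,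
      ∀ y ∈ Metric.sphere (0 : EuclideanSpace ℂ (Fin (r + 1))) 1, u x = u y ↔ ∃ g : G, g • x = y

/-- the point `(a, a, -2a)` -/
def dg (a : Tor (Fin 4)) : Tor I8 := Sum.elim a a

/-- TOPOLOGICAL INTERFACE -/
structure KumTop (P : Matrix (Fin 2) (Fin 4) ℂ) {X : Type} [MetricSpace X] {m : ℕ}
    (S : Set (EuclideanSpace ℂ (Fin m))) (pr : EuclideanSpace ℂ (Fin m) → X) where
  W : Type
  [mW : MetricSpace W]
  q : Tor I8 → W
  cq : Continuous q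
  q_iff : ∀ n n', q n = q n' ↔ ∃ s, n' = sm s n
  π : X → W
  cπ : Continuous π
  rng : range π = range q
  sec : Tor I8 → X
  π_sec : ∀ n, π (sec n) = q n
  csec : ContinuousOn sec {n | Free n}
  uniq : ∀ n x, Free n → π x = q n → x = sec n
  cb : CB S pr
  onto : pr '' S = univ
  fib₁ : ∀ a, 3 • a ≠ 0 → WPData S pr (π ⁻¹' {q (dg a)}) 1
  fib₂ : ∀ a, 3 • a = 0 → WPData S pr (π ⁻¹' {q (dg a)}) 2
  Dr : X → Fin 2 → ℂ
  Dr_ne : ∀ x, Dr x ≠ 0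
  dir : ∀ p : Tor I8 × X, q p.1 = π p.2 → pa 0 p.1 = pa 1 p.1 → pa 0 p.1 ≠ pa 2 p.1 →
    ContinuousWithinAt (fun p' : Tor I8 × X => prj1 (if pa 0 p'.1 = pa 1 p'.1 then Dr p'.2
      else cx P (lift4 (pa 0 p'.1 - pa 1 p'.1)))) {p' | q p'.1 = π p'.2} p

attribute [instance] KumTop.mW

/-- the convexity hypothesis on the period matrix -/
def Conv (P : Matrix (Fin 2) (Fin 4) ℂ) : Prop := ∀ s ∈ Icc (0 : ℝ) 1, ∀ t : Fin 4 → ℝ,
  cx (((1 - s : ℝ) : ℂ) • P + (s : ℂ) • !![1, Complex.I, 0, 0; 0, 0, 1, Complex.I]) t = 0 → t = 0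

/-- `V × V` as functions on `I8` -/
def e8 (R : Type) [Field R] : ((Fin 4 → R) × (Fin 4 → R)) →ₗ[R] I8 → R :=
  (LinearEquiv.sumArrowLequivProdArrow (Fin 4) (Fin 4) R R).symm.toLinearMap

/-- the classes that come from `N` along `ν` -/
noncomputable def bet {Z : Type} [TopologicalSpace Z] {K : Set Z} (ν : Z → Tor I8)
    (h : ContinuousOn ν K) : Orb.EN →ₐ[ℚ] HT ℚ K :=
  (lam ℚ (fun i z => ν z i) fun i => (continuous_apply i).comp_continuousOn h).comp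
    (ExteriorAlgebra.map (e8 ℚ))

namespace KumTop
variable {P : Matrix (Fin 2) (Fin 4) ℂ} {X : Type} [MetricSpace X] {m : ℕ}
  {S : Set (EuclideanSpace ℂ (Fin m))} {pr : EuclideanSpace ℂ (Fin m) → X} (T : KumTop P S pr)

/-- the isospectral space -/
def Xt : Set (Tor I8 × X) := {p | T.q p.1 = T.π p.2}

/-- pull back from `X` -/
noncomputable def j (R : Type) [CommRing R] : HT R (univ : Set X) →ₐ[R] HT R T.Xt :=
  pull Prod.snd continuous_snd.continuousOn (mapsTo_univ _ _)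

/-- pull back from `N` -/
noncomputable def β : Orb.EN →ₐ[ℚ] HT ℚ T.Xt := bet Prod.fst continuous_fst.continuousOn

/-- image of the cohomology of `X` -/
noncomputable def Sk (k : ℤ) : Submodule ℚ (HT ℚ T.Xt) := (Hk univ k).map (T.j ℚ).toLinearMap

end KumTop

end Pool.Agent.Lib.MP_d3d358_ag.AS
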