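import Pool.Agent.Lib.MP_d3d358_ag.AS.Kum
import Pool.Agent.Lib.MP_d3d358_ag.AS.Transfer

set_option autoImplicit false
set_option linter.unusedSectionVars false

namespace Pool.Agent.Lib.MP_d3d358_ag.AS

open Topology Set ExteriorAlgebra

variable {P : Matrix (Fin 2) (Fin 4) ℂ} {X : Type} [MetricSpace X] [CompactSpace X] {m : ℕ}
  {S : Set (EuclideanSpace ℂ (Fin m))} {pr : EuclideanSpace ℂ (Fin m) → X}

theorem pa_sum {A : Type} [AddCommGroup A] (n : I8 → A) : pa 0 n + pa 1 n + pa 2 n = 0 := by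
  funext j
  change n (.inl j) + n (.inr j) + (-n (.inl j) - n (.inr j)) = 0
  abel

theorem KumB_pa_two {A : Type} [AddCommGroup A] (n : I8 → A) : pa 2 n = -pa 0 n - pa 1 n := rfl

theorem pa_sm {A : Type} [AddCommGroup A] (s : Equiv.Perm (Fin 3)) (i : Fin 3) (n : I8 → A) :
    pa i (sm s n) = pa (s i) n := by
  have h := Equiv.sum_comp s fun a => pa a n
  rw [Fin.sum_univ_three, Fin.sum_univ_three, pa_sum] at h
  fin_cases i
  · rfl
  · rfl
  · change -pa (s 0) n - pa (s 1) n = pa (s 2) n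
    rw [eq_neg_of_add_eq_zero_right h]
    abel

theorem sm_sm {A : Type} [AddCommGroup A] (s t : Equiv.Perm (Fin 3)) (n : I8 → A) :
    sm s (sm t n) = sm (t * s) n := by
  rw [sm, pa_sm, pa_sm]
  rfl

theorem sm_one {A : Type} [AddCommGroup A] (n : I8 → A) : sm 1 n = n :=
  funext fun i => by cases i <;> rfl

theorem KumB_sm_inv {A : Type} [AddCommGroup A] (s : Equiv.Perm (Fin 3)) (n : I8 → A) :
    sm s⁻¹ (sm s n) = n := by
  rw [sm_sm, mul_inv_cancel, sm_one]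

theorem pa_mkT (i : Fin 3) (t : I8 → ℝ) : pa i (mkT t) = mkT (pa i t) := by
  fin_cases i
  · rfl
  · rfl
  · funext j
    change -((t (.inl j) : ℝ) : UnitAddCircle) - (t (.inr j) : ℝ) =
      ((-t (.inl j) - t (.inr j) : ℝ) : UnitAddCircle)
    rw [AddCircle.coe_sub, AddCircle.coe_neg]

theorem KumB_sm_mkT (s : Equiv.Perm (Fin 3)) (t : I8 → ℝ) : sm s (mkT t) = mkT (sm s t) := by
  rw [sm, pa_mkT, pa_mkT]
  exact funext fun i => by cases i <;> rfl

theorem continuous_pa (i : Fin 3) : Continuous (pa i : Tor I8 → Tor (Fin 4)) := by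
  fin_cases i
  · exact continuous_pi fun j => continuous_apply _
  · exact continuous_pi fun j => continuous_apply _
  · exact continuous_pi fun j =>
      (continuous_apply (Sum.inl j : I8)).neg.sub (continuous_apply (Sum.inr j : I8))

theorem continuous_sm (s : Equiv.Perm (Fin 3)) : Continuous (sm s : Tor I8 → Tor I8) :=
  continuous_pi fun i => by
    cases i with
    | inl j => exact (continuous_apply j).comp (continuous_pa (s 0))
    | inr j => exact (continuous_apply j).comp (continuous_pa (s 1))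

theorem free_sm {s : Equiv.Perm (Fin 3)} {n : Tor I8} : Free (sm s n) ↔ Free n := by
  have key : ∀ (s : Equiv.Perm (Fin 3)) (n : Tor I8), Free n → Free (sm s n) :=
    fun s n h i j hij => by
      rw [pa_sm, pa_sm]
      exact h _ _ (s.injective.ne hij)
  exact ⟨fun h => KumB_sm_inv s n ▸ key s⁻¹ _ h, key s n⟩

theorem isOpen_free : IsOpen {n | Free n} := by
  simp only [Free, ofPred_forall]
  exact isOpen_iInter_of_finite fun i => isOpen_iInter_of_finite fun j =>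
    isOpen_iInter_of_finite fun _ => isOpen_ne_fun (continuous_pa i) (continuous_pa j)

theorem KumB_perm : ∀ i j : Fin 3, i ≠ j → ∃ t : Equiv.Perm (Fin 3), t 0 = i ∧ t 1 = j := by
  decide

theorem not_free_iff {n : Tor I8} : ¬Free n ↔ ∃ s a, n = sm s (dg a) := by
  constructor
  · intro h
    simp only [Free, not_forall, not_not] at h
    obtain ⟨i, j, hij, e⟩ := h
    obtain ⟨t, rfl, rfl⟩ := KumB_perm i j hij
    refine ⟨t⁻¹, pa (t 0) n, ?_⟩
    have : sm t n = dg (pa (t 0) n) := by rw [sm, ← e]; rfl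
    rw [← this, KumB_sm_inv]
  · rintro ⟨s, a, rfl⟩ h
    exact free_sm.1 h 0 1 (by decide) rfl

section
variable {Z Z' : Type} [TopologicalSpace Z] [TopologicalSpace Z'] {K : Set Z} {K' : Set Z'}
  {ν : Z → Tor I8} (h : ContinuousOn ν K)

include h in
theorem KumB_cont (a : Fin 3) (i : Fin 4) : ContinuousOn (fun z => pa a (ν z) i) K :=
  ((continuous_apply i).comp (continuous_pa a)).comp_continuousOn h

theorem KumB_bet_ι (v : Orb.V × Orb.V) : bet ν h (ι ℚ v) =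
    ∑ i, v.1 i • cls ℚ (fun z => pa 0 (ν z) i) (KumB_cont h 0 i) +
      ∑ i, v.2 i • cls ℚ (fun z => pa 1 (ν z) i) (KumB_cont h 1 i) := by
  rw [bet, AlgHom.comp_apply, map_apply_ι, lam_ι, Fintype.sum_sum_type]
  rfl

theorem bet_mem (k : ℕ) {u : Orb.EN} (hu : u ∈ ⋀[ℚ]^k (Orb.V × Orb.V)) :
    bet ν h u ∈ Hk K (k : ℤ) :=
  lam_mem _ _ k (torus_map_mem _ k hu)

theorem pull_bet {f : Z' → Z} {hf : ContinuousOn f K'} {hm : MapsTo f K' K} (u : Orb.EN) :
    pull f hf hm (bet ν h u) = bet (ν ∘ f) (h.comp hf hm) u :=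
  pull_lam hf hm _ _ _

theorem bet_congr {ν' : Z → Tor I8} (h' : ContinuousOn ν' K) (e : EqOn ν ν' K) (u : Orb.EN) :
    bet ν h u = bet ν' h' u :=
  (pull_bet (ν := id) continuousOn_id (hf := h) (hm := mapsTo_univ _ _) u).symm.trans
    ((pull_congr e _).trans (pull_bet (ν := id) continuousOn_id (hf := h') (hm := mapsTo_univ _ _) u))

theorem KumB_cls_two (i : Fin 4) : cls ℚ (fun z => pa 2 (ν z) i) (KumB_cont h 2 i) =
    -cls ℚ (fun z => pa 0 (ν z) i) (KumB_cont h 0 i)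
      - cls ℚ (fun z => pa 1 (ν z) i) (KumB_cont h 1 i) := by
  have e := cls_add (R := ℚ) ((KumB_cont h 0 i).add (KumB_cont h 1 i)) (KumB_cont h 2 i)
  rw [cls_add (KumB_cont h 0 i) (KumB_cont h 1 i), cls_lift (((KumB_cont h 0 i).add
    (KumB_cont h 1 i)).add (KumB_cont h 2 i)) (t := fun _ => 0) continuousOn_const
    fun z _ => congrFun (pa_sum (ν z)) i] at e
  rw [eq_neg_of_add_eq_zero_right e.symm]
  abel

theorem KumB_bet_pv (a : Fin 3) (v : Orb.V) : bet ν h (ι ℚ (Orb.p a v)) =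
    ∑ i, v i • cls ℚ (fun z => pa a (ν z) i) (KumB_cont h a i) := by
  have h0 : bet ν h (ι ℚ (Orb.p 0 v)) =
      ∑ i, v i • cls ℚ (fun z => pa 0 (ν z) i) (KumB_cont h 0 i) := by
    rw [KumB_bet_ι]
    change _ + ∑ i, (0 : ℚ) • _ = _
    simp only [zero_smul, Finset.sum_const_zero, add_zero]
    rfl
  have h1 : bet ν h (ι ℚ (Orb.p 1 v)) =
      ∑ i, v i • cls ℚ (fun z => pa 1 (ν z) i) (KumB_cont h 1 i) := by
    rw [KumB_bet_ι]
    change ∑ i, (0 : ℚ) • _ + _ = _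
    simp only [zero_smul, Finset.sum_const_zero, zero_add]
    rfl
  fin_cases a
  · exact h0
  · exact h1
  · change bet ν h (ι ℚ (Orb.p 2 v)) = ∑ i, v i • cls ℚ (fun z => pa 2 (ν z) i) (KumB_cont h 2 i)
    rw [Orb.p_two, map_sub, map_neg, h0, h1]
    simp only [KumB_cls_two h, smul_sub, smul_neg, Fin.sum_univ_four]
    abel

theorem bet_p (a : Fin 3) (i : Fin 4) (h') :
    bet ν h (ι ℚ (Orb.p a (Pi.single i 1))) = cls ℚ (fun z => pa a (ν z) i) h' := by
  rw [KumB_bet_pv, Finset.sum_eq_single_of_mem i (Finset.mem_univ i) fun j _ hj => by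
    rw [Pi.single_eq_of_ne hj, zero_smul], Pi.single_eq_same, one_smul]

theorem bet_sm (s : Equiv.Perm (Fin 3)) (h') (u : Orb.EN) :
    bet (fun z => sm s (ν z)) h' u = bet ν h (Orb.act s u) := by
  refine AlgHom.congr_fun (φ₂ := (bet ν h).comp (Orb.act s))
    (ExteriorAlgebra.hom_ext (LinearMap.ext fun v => ?_)) u
  change bet (fun z => sm s (ν z)) h' (ι ℚ v) = bet ν h (Orb.act s (ι ℚ v))
  rw [Orb.act, map_apply_ι, LinearMap.coprod_apply, map_add, map_add, KumB_bet_pv, KumB_bet_pv,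
    KumB_bet_ι]
  rfl

/-- if `ν` lifts, classes of positive degree vanish -/
theorem bet_lift {t : Z → I8 → ℝ} (ht : ContinuousOn t K) (e : ∀ z ∈ K, ν z = mkT (t z)) {k : ℕ}
    (hk : 0 < k) {u : Orb.EN} (hu : u ∈ ⋀[ℚ]^k (Orb.V × Orb.V)) : bet ν h u = 0 := by
  induction hu using Submodule.pow_induction_on_right' with
  | algebraMap r => exact absurd hk (lt_irrefl 0)
  | add x y i _ _ h1 h2 => rw [map_add, h1 hk, h2 hk, add_zero]
  | mul_mem i x _ _ m hm =>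
    obtain ⟨m, rfl⟩ := hm
    have : bet ν h (ι ℚ m) = 0 := by
      rw [bet, AlgHom.comp_apply, map_apply_ι, lam_ι]
      exact Finset.sum_eq_zero fun j _ => by
        rw [cls_lift _ ((continuous_apply j).comp_continuousOn ht) fun z hz => congrFun (e z hz) j,
          smul_zero]
    rw [map_mul, this, mul_zero]
end

theorem bet_torus : Function.Injective (bet (K := univ) id continuousOn_id) ∧
    ∀ k : ℕ, ∀ y ∈ Hk (R := ℚ) (univ : Set (Tor I8)) (k : ℤ), ∃ u ∈ ⋀[ℚ]^k (Orb.V × Orb.V),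
      bet id continuousOn_id u = y := by
  let J := (LinearEquiv.sumArrowLequivProdArrow (Fin 4) (Fin 4) ℚ ℚ).toLinearMap
  have e1 : ∀ u, map J (map (e8 ℚ) u) = u := fun u => by
    rw [← AlgHom.comp_apply, map_comp_map, e8, LinearEquiv.comp_symm]
    exact AlgHom.congr_fun map_id u
  have e2 : ∀ u, map (e8 ℚ) (map J u) = u := fun u => by
    rw [← AlgHom.comp_apply, map_comp_map, e8, LinearEquiv.symm_comp]
    exact AlgHom.congr_fun map_id u
  refine ⟨fun u v h => ?_, fun k y hy => ?_⟩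
  · have h2 : map (e8 ℚ) u = map (e8 ℚ) v := (torus ℚ I8).1 h
    rw [← e1 u, ← e1 v, h2]
  · obtain ⟨x, hx, rfl⟩ := (torus ℚ I8).2 k y hy
    refine ⟨map J x, torus_map_mem _ k hx, ?_⟩
    rw [bet, AlgHom.comp_apply, e2]
    rfl

/-- transfer for a right action of `S₃` -/
theorem KumB_transfer {Z Z' : Type} [MetricSpace Z] [MetricSpace Z'] {K : Set Z} {K' : Set Z'}
    (σ : Equiv.Perm (Fin 3) → Z' → Z') (h1 : ∀ x, σ 1 x = x)
    (h2 : ∀ s t x, σ s (σ t x) = σ (t * s) x) (hK' : IsCompact K')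
    (hc : ∀ s, ContinuousOn (σ s) K') (hG : ∀ s, MapsTo (σ s) K' K') {f : Z' → Z}
    (hf : ContinuousOn f K') (hm : MapsTo f K' K) (hs : SurjOn f K' K)
    (hfib : ∀ x ∈ K', ∀ y ∈ K', f x = f y ↔ ∃ s, σ s x = y) :
    (∀ k, ∀ u ∈ Hk (R := ℚ) K k, pull f hf hm u = 0 → u = 0) ∧
    ∀ k, ∀ y ∈ Hk (R := ℚ) K' k, (∀ s, pull _ (hc s) (hG s) y = y) →
      ∃ u ∈ Hk K k, pull f hf hm u = y := by
  let _ : Fintype (Equiv.Perm (Fin 3))ᵐᵒᵖ := Fintype.ofEquiv _ MulOpposite.opEquiv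
  let _ : MulAction (Equiv.Perm (Fin 3))ᵐᵒᵖ Z' :=
    { smul g x := σ g.unop x
      one_smul := h1
      mul_smul := fun g g' x => (h2 _ _ x).symm }
  obtain ⟨a, b⟩ := transfer (R := ℚ) (G := (Equiv.Perm (Fin 3))ᵐᵒᵖ) hK' (fun g => hc g.unop)
    (fun g => hG g.unop) hf hm hs fun x hx y hy => (hfib x hx y hy).trans
      ⟨fun ⟨s, e⟩ => ⟨MulOpposite.op s, e⟩, fun ⟨s, e⟩ => ⟨s.unop, e⟩⟩
  exact ⟨a, fun k y hy h => b k y hy fun g => h g.unop⟩

namespace KumTop
variable (T : KumTop P S pr)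

omit [CompactSpace X] in
theorem q_sm (s : Equiv.Perm (Fin 3)) (n : Tor I8) : T.q (sm s n) = T.q n :=
  ((T.q_iff n _).2 ⟨s, rfl⟩).symm

theorem Xt_compact : IsCompact T.Xt :=
  (isClosed_eq (T.cq.comp continuous_fst) (T.cπ.comp continuous_snd)).isCompact

theorem sm_maps (s : Equiv.Perm (Fin 3)) : MapsTo (fun p => (sm s p.1, p.2)) T.Xt T.Xt :=
  fun p hp => (T.q_sm s p.1).trans hp

/-- action of `s` on the cohomology of `Xt` -/
noncomputable def sx (s : Equiv.Perm (Fin 3)) : HT ℚ T.Xt →ₐ[ℚ] HT ℚ T.Xt :=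
  pull (fun p => (sm s p.1, p.2))
    (((continuous_sm s).comp continuous_fst).prodMk continuous_snd).continuousOn (T.sm_maps s)

theorem sx_β (s : Equiv.Perm (Fin 3)) (u : Orb.EN) : T.sx s (T.β u) = T.β (Orb.act s u) :=
  (pull_bet _ u).trans (bet_sm continuous_fst.continuousOn s _ u)

theorem sx_sx (s t : Equiv.Perm (Fin 3)) (y : HT ℚ T.Xt) : T.sx s (T.sx t y) = T.sx (s * t) y :=
  (pull_pull y).trans (pull_congr (fun p _ => by exact Prod.ext (sm_sm t s p.1) rfl) y)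

theorem sx_j (s : Equiv.Perm (Fin 3)) (x : HT ℚ (univ : Set X)) : T.sx s (T.j ℚ x) = T.j ℚ x :=
  pull_pull x

theorem j_mem {R : Type} [CommRing R] {k : ℤ} {x : HT R (univ : Set X)} (hx : x ∈ Hk univ k) :
    T.j R x ∈ Hk T.Xt k :=
  pull_mem (hf := continuous_snd.continuousOn) (hm := mapsTo_univ _ _) hx

theorem KumB_tr : (∀ k, ∀ u ∈ Hk (R := ℚ) (univ : Set X) k, T.j ℚ u = 0 → u = 0) ∧
    ∀ k, ∀ y ∈ Hk (R := ℚ) T.Xt k, (∀ s, T.sx s y = y) → ∃ u ∈ Hk univ k, T.j ℚ u = y :=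
  KumB_transfer (fun s p => (sm s p.1, p.2)) (fun p => Prod.ext (sm_one p.1) rfl)
    (fun s t p => Prod.ext (sm_sm s t p.1) rfl) T.Xt_compact _ T.sm_maps _ _
    (fun x _ => by
      obtain ⟨n, hn⟩ : T.π x ∈ range T.q := T.rng ▸ mem_range_self x
      exact ⟨(n, x), hn, rfl⟩)
    fun p hp p' hp' => ⟨fun e => by
      obtain ⟨s, hs⟩ := (T.q_iff p.1 p'.1).1 (hp.trans ((congrArg T.π e).trans hp'.symm))
      exact ⟨s, Prod.ext hs.symm e⟩, fun ⟨_, e⟩ => (congrArg Prod.snd e :)⟩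

theorem j_inj {k : ℤ} {x : HT ℚ (univ : Set X)} (hx : x ∈ Hk univ k) (h : T.j ℚ x = 0) : x = 0 :=
  T.KumB_tr.1 k x hx h

theorem mem_Sk {k : ℤ} {y : HT ℚ T.Xt} : y ∈ T.Sk k ↔ y ∈ Hk T.Xt k ∧ ∀ s, T.sx s y = y :=
  ⟨by rintro ⟨x, hx, rfl⟩; exact ⟨T.j_mem hx, fun s => T.sx_j s x⟩,
    fun h => T.KumB_tr.2 k y h.1 h.2⟩

theorem q_dg_inj : Function.Injective fun a => T.q (dg a) := fun a b h => by
  obtain ⟨s, e⟩ := (T.q_iff _ _).1 h
  have e0 : b = pa (s 0) (dg a) := (congrArg (pa 0) e).trans (pa_sm s 0 _)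
  have e1 : b = pa (s 1) (dg a) := (congrArg (pa 1) e).trans (pa_sm s 1 _)
  have : ∀ s : Equiv.Perm (Fin 3), s 0 = 0 ∨ s 0 = 1 ∨ s 1 = 0 ∨ s 1 = 1 := by decide
  rcases this s with h | h | h | h
  · rw [h] at e0; exact e0.symm
  · rw [h] at e0; exact e0.symm
  · rw [h] at e1; exact e1.symm
  · rw [h] at e1; exact e1.symm

theorem KumB_jπ (w : HT ℚ (range T.q)) (h h') {u : Orb.EN}
    (e : bet id continuousOn_id u = pull T.q T.cq.continuousOn (mapsTo_range _ univ) w) :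
    T.j ℚ (pull T.π h h' w) = T.β u := by
  have e1 : T.β u = pull Prod.fst continuous_fst.continuousOn (mapsTo_univ _ T.Xt)
      (bet id continuousOn_id u) := (pull_bet (ν := id) continuousOn_id u).symm
  rw [e1, e, pull_pull]
  exact (pull_pull w).trans (pull_congr (fun p hp => Eq.symm hp) w)

theorem KumB_sm_bet (s : Equiv.Perm (Fin 3)) (u : Orb.EN) :
    pull (sm s) (continuous_sm s).continuousOn (mapsTo_univ _ univ) (bet id continuousOn_id u)
      = bet id continuousOn_id (Orb.act s u) :=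
  (pull_bet _ u).trans (bet_sm continuousOn_id s _ u)

/-- classes on the quotient -/
theorem W_cls (k : ℕ) {w : HT ℚ (range T.q)} (hw : w ∈ Hk (range T.q) (k : ℤ)) (h h') :
    ∃ u ∈ ⋀[ℚ]^k (Orb.V × Orb.V), (∀ s, Orb.act s u = u) ∧
      T.j ℚ (pull T.π h h' w) = T.β u := by
  obtain ⟨u, hu, e⟩ := bet_torus.2 k _
    (pull_mem (hf := T.cq.continuousOn) (hm := mapsTo_range _ univ) hw)
  refine ⟨u, hu, fun s => bet_torus.1 ?_, T.KumB_jπ w h h' e⟩
  rw [← KumB_sm_bet, e, pull_pull]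
  exact pull_congr (fun n _ => T.q_sm s n) w

theorem W_cls' (k : ℕ) {u : Orb.EN} (hu : u ∈ ⋀[ℚ]^k (Orb.V × Orb.V)) (hi : ∀ s, Orb.act s u = u)
    (h0 : u ≠ 0) (h h') : ∃ w ∈ Hk (R := ℚ) (range T.q) (k : ℤ), w ≠ 0 ∧
      T.j ℚ (pull T.π h h' w) = T.β u := by
  obtain ⟨w, hw, e⟩ := (KumB_transfer (K := range T.q) sm sm_one sm_sm isCompact_univ
    (fun s => (continuous_sm s).continuousOn) (fun _ => mapsTo_univ _ _) T.cq.continuousOn
    (mapsTo_range _ univ) (fun _ ⟨n, hn⟩ => ⟨n, trivial, hn⟩)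
    fun n _ n' _ => (T.q_iff n n').trans (exists_congr fun _ => eq_comm)).2 k _
    (bet_mem continuousOn_id k hu) fun s => by rw [KumB_sm_bet, hi]
  refine ⟨w, hw, fun h1 => h0 (bet_torus.1 ?_), T.KumB_jπ w h h' e.symm⟩
  rw [← e, h1, map_zero, map_zero]
end KumTop

end Pool.Agent.Lib.MP_d3d358_ag.AS
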