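import Pool.Agent.Lib.MP_d3d358_ag.AS.Alg

set_option autoImplicit false

namespace Pool.Agent.Lib.MP_d3d358_ag.AS

open Topology Set

variable {Z R : Type} [CommRing R]

theorem Null_add_val (a b : Ch Z R) (l : List Z) : (a + b).1 l = a.1 l + b.1 l := rfl
theorem Null_sub_val (a b : Ch Z R) (l : List Z) : (a - b).1 l = a.1 l - b.1 l := rfl
theorem Null_smul_val (c : R) (a : Ch Z R) (l : List Z) : (c • a).1 l = c * a.1 l := rfl
theorem Null_zero_val (l : List Z) : (0 : Ch Z R).1 l = 0 := rfl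
theorem Null_nil (a : Ch Z R) : a.1 [] = 0 := a.2
theorem Null_dC_val (a : Ch Z R) (l : List Z) :
    (dC a).1 l = ∑ i ∈ Finset.range l.length, (-1) ^ i * a.1 (l.eraseIdx i) := rfl
theorem Null_mul_val (a b : Ch Z R) (l : List Z) :
    (a * b).1 l = ∑ i ∈ Finset.range l.length, a.1 (l.take (i + 1)) * b.1 (l.drop i) := rfl
theorem Null_pullC_val {Z' : Type} (f : Z' → Z) (a : Ch Z R) (l : List Z') :
    (pullC f a).1 l = a.1 (l.map f) := rfl

/-- `dC a` vanishes on a list if `a` vanishes on all lists made of its points. -/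
theorem Null_dC_zero {a : Ch Z R} {l : List Z}
    (h : ∀ m : List Z, (∀ y ∈ m, y ∈ l) → a.1 m = 0) : (dC a).1 l = 0 := by
  rw [Null_dC_val]
  exact Finset.sum_eq_zero fun i _ => by
    rw [h _ fun y hy => List.mem_of_mem_eraseIdx hy, mul_zero]

def N [TopologicalSpace Z] (K : Set Z) : Submodule R (Ch Z R) where
  carrier := {a | ∀ x ∈ K, ∃ U ∈ 𝓝 x, ∀ l : List Z, (∀ y ∈ l, y ∈ U ∧ y ∈ K) → a.1 l = 0}
  zero_mem' := fun _ _ => ⟨_, Filter.univ_mem, fun _ _ => rfl⟩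
  add_mem' := fun {a b} ha hb x hx => by
    obtain ⟨U, hU, e⟩ := ha x hx
    obtain ⟨V, hV, e'⟩ := hb x hx
    exact ⟨U ∩ V, Filter.inter_mem hU hV, fun l hl => by
      rw [Null_add_val, e l fun y hy => ⟨(hl y hy).1.1, (hl y hy).2⟩,
        e' l fun y hy => ⟨(hl y hy).1.2, (hl y hy).2⟩, add_zero]⟩
  smul_mem' := fun c a ha x hx => by
    obtain ⟨U, hU, e⟩ := ha x hx
    exact ⟨U, hU, fun l hl => by rw [Null_smul_val, e l hl, mul_zero]⟩

section
variable [TopologicalSpace Z] {K L : Set Z}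

theorem Null_mem {a : Ch Z R} : a ∈ N K ↔
    ∀ x ∈ K, ∃ U ∈ 𝓝 x, ∀ l : List Z, (∀ y ∈ l, y ∈ U ∧ y ∈ K) → a.1 l = 0 := Iff.rfl

/-- A cochain whose value on a list vanishes when `a` vanishes on the lists made of its points. -/
theorem Null_of_loc {R' : Type} [CommRing R'] {a : Ch Z R} {b : Ch Z R'} (h : a ∈ N K)
    (hb : ∀ l : List Z, (∀ m : List Z, (∀ y ∈ m, y ∈ l) → a.1 m = 0) → b.1 l = 0) :
    b ∈ N K := fun x hx => by
  obtain ⟨U, hU, e⟩ := h x hx
  exact ⟨U, hU, fun l hl => hb l fun m hm => e m fun y hy => hl y (hm y hy)⟩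

theorem Null_of_zero {a : Ch Z R} (h : ∀ l : List Z, (∀ y ∈ l, y ∈ K) → a.1 l = 0) :
    a ∈ N K := fun _ _ => ⟨_, Filter.univ_mem, fun l hl => h l fun y hy => (hl y hy).2⟩

theorem N_mono (h : K ⊆ L) : (N L : Submodule R (Ch Z R)) ≤ N K := fun a ha x hx => by
  obtain ⟨U, hU, e⟩ := ha x (h hx)
  exact ⟨U, hU, fun l hl => e l fun y hy => ⟨(hl y hy).1, h (hl y hy).2⟩⟩
theorem N_empty (a : Ch Z R) : a ∈ N (∅ : Set Z) := fun _ hx => hx.elim
theorem mem_N_univ {a : Ch Z R} : a ∈ N (univ : Set Z) ↔ ∀ x, NullAt x a.1 := by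
  constructor
  · intro h x
    obtain ⟨U, hU, e⟩ := h x trivial
    exact ⟨U, hU, fun l hl => e l fun y hy => ⟨hl y hy, trivial⟩⟩
  · intro h x _
    obtain ⟨U, hU, e⟩ := h x
    exact ⟨U, hU, fun l hl => e l fun y hy => (hl y hy).1⟩
theorem N_dC {a : Ch Z R} (h : a ∈ N K) : dC a ∈ N K := Null_of_loc h fun _ => Null_dC_zero
theorem N_sg {a : Ch Z R} (h : a ∈ N K) : sg a ∈ N K := Null_of_loc h fun l hl => by
  change (-1) ^ (l.length + 1) * a.1 l = 0
  rw [hl l fun _ => id, mul_zero]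
theorem N_prj (k : ℤ) {a : Ch Z R} (h : a ∈ N K) : prj k a ∈ N K := Null_of_loc h fun l hl => by
  change (if (l.length : ℤ) = k + 1 then a.1 l else 0) = 0
  rw [hl l fun _ => id, ite_self]
theorem N_mul_left (a : Ch Z R) {b : Ch Z R} (h : b ∈ N K) : a * b ∈ N K :=
  Null_of_loc h fun l hl => by
    rw [Null_mul_val]
    exact Finset.sum_eq_zero fun i _ => by
      rw [hl _ fun y hy => List.mem_of_mem_drop hy, mul_zero]
theorem N_mul_right {a : Ch Z R} (h : a ∈ N K) (b : Ch Z R) : a * b ∈ N K :=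
  Null_of_loc h fun l hl => by
    rw [Null_mul_val]
    exact Finset.sum_eq_zero fun i _ => by
      rw [hl _ fun y hy => List.mem_of_mem_take hy, zero_mul]
theorem N_coef {R' : Type} [CommRing R'] (t : R →+ R') {a : Ch Z R} (h : a ∈ N K) :
    coef t a ∈ N K := Null_of_loc h fun l hl => by
  change t (a.1 l) = 0
  rw [hl l fun _ => id, map_zero]
theorem N_pullC {Z' : Type} [TopologicalSpace Z'] {K' : Set Z'} {f : Z' → Z}
    (hf : ContinuousOn f K') (hm : MapsTo f K' K) {a : Ch Z R} (h : a ∈ N K) :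
    pullC f a ∈ N K' := fun x hx => by
  obtain ⟨U, hU, e⟩ := h (f x) (hm hx)
  obtain ⟨V, hV, hs⟩ := mem_nhdsWithin_iff_exists_mem_nhds_inter.1 (hf x hx hU)
  refine ⟨V, hV, fun l hl => ?_⟩
  rw [Null_pullC_val]
  refine e _ fun y hy => ?_
  obtain ⟨z, hz, rfl⟩ := List.mem_map.1 hy
  exact ⟨hs (hl z hz), hm (hl z hz).2⟩
theorem pullC_congr {Z' : Type} [TopologicalSpace Z'] {K' : Set Z'} {f g : Z' → Z}
    (h : EqOn f g K') (a : Ch Z R) : pullC f a - pullC g a ∈ N K' :=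
  Null_of_zero fun l hl => by
    rw [Null_sub_val, Null_pullC_val, Null_pullC_val,
      List.map_congr_left fun y hy => h (hl y hy), sub_self]
theorem dC_fnC_mem_N {f : Z → R} :
    dC (fnC f) ∈ N K ↔ ∀ x ∈ K, ∀ᶠ y in 𝓝[K] x, f y = f x := by
  constructor
  · intro h x hx
    obtain ⟨U, hU, e⟩ := h x hx
    refine mem_nhdsWithin_iff_exists_mem_nhds_inter.2 ⟨U, hU, fun y hy => ?_⟩
    have := e [x, y] (by
      intro z hz
      rcases List.mem_pair.1 hz with rfl | rfl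
      exacts [⟨mem_of_mem_nhds hU, hx⟩, hy])
    rw [dC_fnC_pair] at this
    exact sub_eq_zero.1 this
  · intro h x hx
    obtain ⟨U, hU, e⟩ := mem_nhdsWithin_iff_exists_mem_nhds_inter.1 (h x hx)
    refine ⟨U, hU, fun l hl => ?_⟩
    by_cases h2 : l.length = 2
    · obtain ⟨y, z, rfl⟩ := List.length_eq_two.1 h2
      have hy : f y = f x := e (hl y (by simp))
      have hz : f z = f x := e (hl z (by simp))
      rw [dC_fnC_pair, hy, hz, sub_self]
    · exact dC_mem (fnC_mem f) l (by omega)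
/-- (S) -/
theorem N_split (hL : IsClosed L) {k : ℤ} {a : Ch Z R} (ha : a ∈ DZ k) (h : a ∈ N (K ∩ L)) :
    ∃ b ∈ DZ k, b ∈ N K ∧ a - b ∈ N L := by
  classical
  refine ⟨⟨fun l => if ∀ y ∈ l, y ∈ L then a.1 l else 0, ?_⟩, fun l hl => ?_, fun x hx => ?_,
    Null_of_zero fun l hl => ?_⟩
  · change (if ∀ y ∈ ([] : List Z), y ∈ L then a.1 [] else 0) = 0
    rw [Null_nil, ite_self]
  · change (if ∀ y ∈ l, y ∈ L then a.1 l else 0) = 0
    rw [ha l hl, ite_self]
  · by_cases hxL : x ∈ L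
    · obtain ⟨U, hU, e⟩ := h x ⟨hx, hxL⟩
      refine ⟨U, hU, fun l hl => ?_⟩
      change (if ∀ y ∈ l, y ∈ L then a.1 l else 0) = 0
      split_ifs with h'
      · exact e l fun y hy => ⟨(hl y hy).1, (hl y hy).2, h' y hy⟩
      · rfl
    · refine ⟨Lᶜ, hL.isOpen_compl.mem_nhds hxL, fun l hl => ?_⟩
      change (if ∀ y ∈ l, y ∈ L then a.1 l else 0) = 0
      split_ifs with h'
      · cases l with
        | nil => exact Null_nil a
        | cons y l => exact ((hl y (by simp)).1 (h' y (by simp))).elim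
      · rfl
  · change a.1 l - (if ∀ y ∈ l, y ∈ L then a.1 l else 0) = 0
    rw [if_pos hl, sub_self]
end

end Pool.Agent.Lib.MP_d3d358_ag.AS
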