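import Pool.Agent.Lib.MP_d3d358_ag.AS.PerT2

/-! A smooth map of the plane to `ℂ² \ 0` with automorphy factor `exp (2 π i u)`. -/

set_option autoImplicit false

namespace Pool.Agent.Lib.MP_d3d358_ag.AS

open Topology Set

theorem perAl_descend {Y A : Type} [TopologicalSpace Y] [TopologicalSpace A] {F : ℝ × Y → A}
    (hF : Continuous F) (hp : ∀ u y, F (u + 1, y) = F (u, y)) :
    ∃ φ : UnitAddCircle × Y → A, Continuous φ ∧ ∀ (u : ℝ) y, φ (u, y) = F (u, y) := by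
  have h : ∀ y, Function.Periodic (fun u => F (u, y)) 1 := fun y u => hp u y
  refine ⟨fun p => (h p.2).lift p.1, ?_, fun _ _ => rfl⟩
  exact ((QuotientAddGroup.isOpenQuotientMap_mk.prodMap
    IsOpenQuotientMap.id).continuous_comp_iff).1 hF

/-- the bump -/
noncomputable def perAl_r (t : ℝ) : ℂ := expNegInvGlue (1 - t ^ 2)

/-- the character -/
noncomputable def perAl_e (u : ℝ) : ℂ := Complex.exp (2 * Real.pi * u * Complex.I)

/-- the summands -/
noncomputable def perAl_g (n : ℤ) (p : ℝ × ℝ) : Fin 2 → ℂ :=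
  (perAl_e (n * p.1) * perAl_r (p.2 - n)) • ![1, ((p.2 - n : ℝ) : ℂ)]

theorem perAl_r_zero {t : ℝ} (h : 1 ≤ |t|) : perAl_r t = 0 := by
  rw [perAl_r, expNegInvGlue.zero_of_nonpos, Complex.ofReal_zero]
  nlinarith [sq_abs t]

theorem perAl_r_ne {t : ℝ} (h : |t| < 1) : perAl_r t ≠ 0 := by
  refine Complex.ofReal_ne_zero.2 (expNegInvGlue.pos_of_pos ?_).ne'
  nlinarith [sq_abs t, abs_nonneg t]

theorem perAl_e_add (u v : ℝ) : perAl_e (u + v) = perAl_e u * perAl_e v := by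
  rw [perAl_e, perAl_e, perAl_e, ← Complex.exp_add]
  congr 1
  push_cast
  ring

theorem perAl_e_int (n : ℤ) : perAl_e n = 1 := by
  rw [perAl_e, ← Complex.exp_int_mul_two_pi_mul_I n]
  congr 1
  push_cast
  ring

theorem perAl_e_eq (u : ℝ) : perAl_e u = AddCircle.toCircle (u : UnitAddCircle) := by
  rw [AddCircle.toCircle_apply_mk, Circle.coe_exp, perAl_e]
  congr 1
  push_cast
  ring

theorem perAl_g_smooth (n : ℤ) : ContDiff ℝ (⊤ : ℕ∞) (perAl_g n) := by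
  have o : ContDiff ℝ (⊤ : ℕ∞) (fun x : ℝ => (x : ℂ)) := Complex.ofRealCLM.contDiff
  have a : ContDiff ℝ (⊤ : ℕ∞) fun p : ℝ × ℝ => p.2 - n := contDiff_snd.sub contDiff_const
  have b : ContDiff ℝ (⊤ : ℕ∞) fun p : ℝ × ℝ => perAl_e (n * p.1) :=
    ((contDiff_const.mul (o.comp (contDiff_const.mul contDiff_fst))).mul contDiff_const).cexp
  have c : ContDiff ℝ (⊤ : ℕ∞) fun p : ℝ × ℝ => perAl_r (p.2 - n) :=
    o.comp (expNegInvGlue.contDiff.comp (contDiff_const.sub (a.pow 2)))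
  refine (b.mul c).smul (contDiff_pi.2 fun i => ?_)
  fin_cases i
  · exact contDiff_const
  · exact o.comp a

theorem perAl_g_zero {n : ℤ} {p : ℝ × ℝ} (h : 1 ≤ |p.2 - n|) : perAl_g n p = 0 := by
  rw [perAl_g, perAl_r_zero h, mul_zero, zero_smul]

theorem exists_alpha : ∃ α : ℝ × ℝ → Fin 2 → ℂ, ContDiff ℝ (⊤ : ℕ∞) α ∧ (∀ u, α u ≠ 0) ∧
    (∀ u v, α (u + 1, v) = α (u, v)) ∧
    (∀ u v : ℝ, α (u, v + 1) = (AddCircle.toCircle (u : UnitAddCircle) : ℂ) • α (u, v)) ∧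
    ∀ u, α (u, 0) = α (0, 0) := by
  refine ⟨fun p => perAl_g ⌊p.2⌋ p + perAl_g (⌊p.2⌋ + 1) p, ?_, ?_, ?_, ?_, ?_⟩
  · refine contDiff_iff_contDiffAt.2 fun p => ?_
    have s : ContDiff ℝ (⊤ : ℕ∞) fun q => perAl_g (⌊p.2⌋ - 1) q + perAl_g ⌊p.2⌋ q +
        perAl_g (⌊p.2⌋ + 1) q :=
      ((perAl_g_smooth _).add (perAl_g_smooth _)).add (perAl_g_smooth _)
    refine s.contDiffAt.congr_of_eventuallyEq ?_
    have h1 := Int.floor_le p.2
    have h2 := Int.lt_floor_add_one p.2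
    have o : IsOpen {q : ℝ × ℝ | q.2 ∈ Ioo ((⌊p.2⌋ : ℝ) - 1) (⌊p.2⌋ + 1)} :=
      isOpen_Ioo.preimage continuous_snd
    filter_upwards [o.mem_nhds ⟨by linarith, h2⟩] with q hq
    obtain ⟨q1, q2⟩ := hq
    rcases lt_or_ge q.2 ⌊p.2⌋ with c | c
    · have e : ⌊q.2⌋ = ⌊p.2⌋ - 1 := Int.floor_eq_iff.2 ⟨by push_cast; linarith, by push_cast; linarith⟩
      rw [e, sub_add_cancel, perAl_g_zero (n := ⌊p.2⌋ + 1), add_zero]
      rw [le_abs]; right; push_cast; linarith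
    · have e : ⌊q.2⌋ = ⌊p.2⌋ := Int.floor_eq_iff.2 ⟨c, q2⟩
      rw [e, perAl_g_zero (n := ⌊p.2⌋ - 1), zero_add]
      rw [le_abs]; left; push_cast; linarith
  · intro p h
    have h0 := congrFun h 0
    have h1 := congrFun h 1
    simp only [perAl_g, Pi.add_apply, Pi.smul_apply, Matrix.cons_val_zero, Matrix.cons_val_one,
      smul_eq_mul, Pi.zero_apply, mul_one] at h0 h1
    have a1 := Int.floor_le p.2
    have a2 := Int.lt_floor_add_one p.2
    have a3 : perAl_e (⌊p.2⌋ * p.1) ≠ 0 := Complex.exp_ne_zero _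
    refine mul_ne_zero a3
      (perAl_r_ne (t := p.2 - ⌊p.2⌋) (abs_lt.2 ⟨by linarith, by linarith⟩)) ?_
    push_cast at h0 h1 ⊢
    linear_combination h1 - (p.2 - (⌊p.2⌋ + 1)) * h0
  · intro u v
    have : ∀ n : ℤ, perAl_g n (u + 1, v) = perAl_g n (u, v) := fun n => by
      simp only [perAl_g, mul_add, mul_one, perAl_e_add, perAl_e_int]
    simp only [this]
  · intro u v
    have : ∀ n : ℤ, perAl_g (n + 1) (u, v + 1) = perAl_e u • perAl_g n (u, v) := fun n => by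
      have e1 : v + 1 - ((n + 1 : ℤ) : ℝ) = v - n := by push_cast; ring
      have e2 : ((n + 1 : ℤ) : ℝ) * u = u + n * u := by push_cast; ring
      simp only [perAl_g, e1, e2, perAl_e_add, smul_smul, mul_assoc]
    simp only [Int.floor_add_one, this, smul_add, perAl_e_eq]
  · intro u
    have : ∀ w : ℝ, perAl_g 1 (w, 0) = 0 := fun w => perAl_g_zero (by simp)
    simp only [Int.floor_zero, zero_add, this]
    simp only [perAl_g, Int.cast_zero, zero_mul]

end Pool.Agent.Lib.MP_d3d358_ag.AS
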