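import Pool.Agent.Lib.MP_d3d358_ag.AS.PerAl
import Pool.Agent.Lib.MP_d3d358_ag.AS.KumB

/-! Classes on two-tori: translation of the period condition and affine tori. -/

set_option autoImplicit false

namespace Pool.Agent.Lib.MP_d3d358_ag.AS

open Topology Set ExteriorAlgebra

theorem perB_mk_sum {Z R : Type} [CommRing R] [TopologicalSpace Z] {K : Set Z} {ι : Type}
    (s : Finset ι) (c : ι → R) (a : ι → Ch Z R) (ha : ∀ i, dC (a i) ∈ N K) :
    ∃ h, mk (∑ i ∈ s, c i • a i) h = ∑ i ∈ s, c i • mk (a i) (ha i) := by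
  classical
  induction s using Finset.induction_on with
  | empty =>
    refine ⟨by simp, ?_⟩
    have h0 : dC (0 : Ch Z R) ∈ N K := by simp
    have := mk_smul (0 : R) h0 (by simp)
    simpa using this
  | insert i s hi ih =>
    obtain ⟨h, e⟩ := ih
    have h1 : dC (c i • a i) ∈ N K := by rw [map_smul]; exact Submodule.smul_mem _ _ (ha i)
    simp only [Finset.sum_insert hi]
    refine ⟨by rw [map_add]; exact add_mem h1 h, ?_⟩
    rw [mk_add h1 h, e, mk_smul _ (ha i)]

theorem perB_cancel {Z R : Type} [Field R] [TopologicalSpace Z] {K : Set Z} {x : HT R K}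
    (hx : x ≠ 0) {a b : R} (h : a • x = b • x) : a = b := by
  have : (a - b) • x = 0 := by
    rw [Algebra.smul_def, map_sub, sub_mul, ← Algebra.smul_def, ← Algebra.smul_def, h, sub_self]
  exact sub_eq_zero.1 ((smul_eq_zero.1 this).resolve_right hx)

/-- the period condition read on the coefficients of `e2` -/
theorem perB_cls {ε : H C2 ℂ 2} (hε : ε ≠ 0) : ∃ ε₀ : ℂ, ε₀ ≠ 0 ∧
    ∀ {X : Type} [TopologicalSpace X] {r : ℕ} (c : Fin r → ℂ) (φ : Fin r → Ch X ℚ)
      (hd : ∀ i, dC (φ i) ∈ N univ) (Φ : C2 → X) (hΦ : ContinuousOn Φ univ) (l : ℂ)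
      (a : Fin r → ℚ), Cls (l • ε) (fun L => comb c (fun i => (φ i).1) (L.map Φ)) →
      (∀ i, pull Φ hΦ (mapsTo_univ _ _) (mk (φ i) (hd i)) = a i • e2 ℚ) →
      ∑ i, c i * a i = l * ε₀ := by
  obtain ⟨j, j1, j2, j3⟩ := exists_iota (Z := C2) (R := ℂ) 2
  obtain ⟨n1, n2⟩ := e2_spec ℂ
  obtain ⟨ε₀, h0⟩ := n2 _ ((j2 _).2 ⟨ε, rfl⟩)
  refine ⟨ε₀, fun e => hε (j1 (by rw [h0, e, zero_smul, map_zero])), ?_⟩
  intro X _ r c φ hd Φ hΦ l a hc ha
  obtain ⟨C, hC, c1, -, c2⟩ := (j3 _ _).1 hc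
  have d1 : ∀ i, dC (pullC Φ (φ i)) ∈ N univ := fun i => by
    rw [dC_pullC]; exact N_pullC hΦ (mapsTo_univ _ _) (hd i)
  have d2 : ∀ i, dC (coef (algebraMap ℚ ℂ : ℚ →+ ℂ) (pullC Φ (φ i))) ∈ N univ := fun i => by
    rw [dC_coef]; exact N_coef _ (d1 i)
  obtain ⟨h, e⟩ := perB_mk_sum Finset.univ c _ d2
  have e1 : C = ∑ i, c i • coef (algebraMap ℚ ℂ : ℚ →+ ℂ) (pullC Φ (φ i)) := by
    refine Subtype.ext (c1.trans (funext fun L => ?_))
    have : ∀ s : Finset (Fin r), (∑ i ∈ s, c i • coef (algebraMap ℚ ℂ : ℚ →+ ℂ)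
        (pullC Φ (φ i))).1 L = ∑ i ∈ s, c i * (φ i).1 (L.map Φ) := fun s => by
      classical
      induction s using Finset.induction_on with
      | empty => rfl
      | insert i s hi ih => rw [Finset.sum_insert hi, Finset.sum_insert hi, ← ih]; rfl
    exact (this _).symm
  subst e1
  have e2' : cc (algebraMap ℚ ℂ) (e2 ℚ) = e2 ℂ := by rw [e2, map_mul, cc_cls, cc_cls, e2]
  have e3 : ∀ i, mk _ (d2 i) = (a i : ℂ) • e2 ℂ := fun i => by
    rw [← cc_mk (algebraMap ℚ ℂ) (d1 i), ← pull_mk Φ hΦ (mapsTo_univ _ _) (hd i), ha,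
      Algebra.smul_def, map_mul, e2', Algebra.smul_def]
    congr 1
    exact RingHom.congr_fun (RingHom.ext_rat ((cc (algebraMap ℚ ℂ)).comp (algebraMap ℚ _))
      ((algebraMap ℂ _).comp (algebraMap ℚ ℂ))) (a i)
  rw [map_smul, h0, e] at c2
  simp only [e3, smul_smul] at c2
  rw [← Finset.sum_smul] at c2
  exact (perB_cancel n1 c2).symm

/-- the affine torus through `t` with directions `l`, `l'` -/
def aff (t : I8 → ℝ) (l l' : I8 → ℤ) (p : C2) : Tor I8 :=
  fun i => (t i : UnitAddCircle) + l i • p.1 + l' i • p.2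

theorem continuous_aff (t : I8 → ℝ) (l l' : I8 → ℤ) : Continuous (aff t l l') := by
  unfold aff; fun_prop

theorem aff_mk (t : I8 → ℝ) (l l' : I8 → ℤ) (u u' : ℝ) :
    aff t l l' (u, u') = mkT fun i => t i + u * l i + u' * l' i := by
  funext i
  simp only [aff, mkT, AddCircle.coe_add, ← AddCircle.coe_zsmul, zsmul_eq_mul, mul_comm]

theorem pa_aff (t : I8 → ℝ) (l l' : I8 → ℤ) (p : C2) (a : Fin 3) (i : Fin 4) :
    pa a (aff t l l' p) i = (pa a t i : ℝ) + pa a l i • p.1 + pa a l' i • p.2 := by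
  fin_cases a
  · rfl
  · rfl
  · simp only [pa, aff, Fin.reduceFinMk, Matrix.cons_val, AddCircle.coe_sub, AddCircle.coe_neg,
      sub_smul, neg_smul]
    abel

theorem perB_cls_aff (x : ℝ) (k k' : ℤ) (h) :
    cls ℚ (K := univ) (fun p : C2 => (x : UnitAddCircle) + k • p.1 + k' • p.2) h =
      (k : ℚ) • cls ℚ Prod.fst continuous_fst.continuousOn +
        (k' : ℚ) • cls ℚ Prod.snd continuous_snd.continuousOn := by
  have hc : ∀ i : Fin 3, ContinuousOn
      ((![fun _ => (x : UnitAddCircle), Prod.fst, Prod.snd] : Fin 3 → C2 → UnitAddCircle) i) univ := by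
    intro i
    fin_cases i
    exacts [continuousOn_const, continuous_fst.continuousOn, continuous_snd.continuousOn]
  have e : (fun p : C2 => (x : UnitAddCircle) + k • p.1 + k' • p.2) = fun p => ∑ i,
      (![1, k, k'] : Fin 3 → ℤ) i •
        (![fun _ => (x : UnitAddCircle), Prod.fst, Prod.snd] : Fin 3 → C2 → UnitAddCircle) i p := by
    funext p; simp [Fin.sum_univ_three]
  have h1 := cls_sum (R := ℚ) Finset.univ ![1, k, k'] hc (e ▸ h)
  have h2 : cls ℚ _ (hc 0) = 0 := cls_lift _ (t := fun _ => x) continuousOn_const fun _ _ => rfl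
  rw [Fin.sum_univ_three, h2, smul_zero, zero_add, perT2_zsmul, perT2_zsmul] at h1
  refine Eq.trans ?_ h1
  congr 1

theorem perB_alg {A : Type} [Ring A] [Algebra ℚ A] {x y : A} (x2 : x * x = 0) (y2 : y * y = 0)
    (yx : y * x = -(x * y)) (a b c d : ℚ) :
    (a • x + b • y) * (c • x + d • y) = (a * d - b * c) • (x * y) := by
  simp only [add_mul, mul_add, smul_mul_assoc, mul_smul_comm, x2, y2, yx, smul_zero]
  module

theorem bet_aff (t : I8 → ℝ) (l l' : I8 → ℤ) (i j : Fin 4) :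
    bet (aff t l l') (continuous_aff t l l').continuousOn
      (Orb.tl (ι ℚ (Pi.single i 1) * ι ℚ (Pi.single j 1))) =
      ((∑ a, (pa a l i * pa a l' j - pa a l' i * pa a l j) : ℤ) : ℚ) • e2 ℚ := by
  have hc : ∀ a i, ContinuousOn (fun z => pa a (aff t l l' z) i) univ := fun a i =>
    ((continuous_apply i).comp ((continuous_pa a).comp (continuous_aff t l l'))).continuousOn
  have h1 : ∀ a i, cls ℚ _ (hc a i) = ((pa a l i : ℤ) : ℚ) • cls ℚ Prod.fst continuous_fst.continuousOn +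
      ((pa a l' i : ℤ) : ℚ) • cls ℚ Prod.snd continuous_snd.continuousOn := fun a i => by
    rw [← perB_cls_aff (pa a t i) _ _ (Continuous.continuousOn (by fun_prop))]
    congr 1
    funext p
    exact pa_aff t l l' p a i
  have x2 := sq_one (cls_mem (R := ℚ) (K := (univ : Set C2)) continuous_fst.continuousOn)
  have y2 := sq_one (cls_mem (R := ℚ) (K := (univ : Set C2)) continuous_snd.continuousOn)
  have yx := comm_one (cls_mem (R := ℚ) (K := (univ : Set C2)) continuous_snd.continuousOn)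
    (cls_mem (R := ℚ) (K := (univ : Set C2)) continuous_fst.continuousOn)
  rw [Int.negOnePow_one, Units.val_neg, Units.val_one, neg_smul, one_smul] at yx
  rw [Orb.tl, LinearMap.sum_apply, map_sum, Int.cast_sum, Finset.sum_smul]
  refine Finset.sum_congr rfl fun a _ => ?_
  rw [AlgHom.toLinearMap_apply, map_mul, map_apply_ι, map_apply_ι, map_mul, bet_p _ a i (hc a i),
    bet_p _ a j (hc a j), h1, h1, e2]
  push_cast
  exact perB_alg x2 y2 yx _ _ _ _

/-- the direction `(e_i, -e_i, 0)` -/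
def dirn (i : Fin 4) : I8 → ℤ := Sum.elim (Pi.single i 1) (-Pi.single i 1)

/-- the offset `(1/7, 2/7, -3/7)` in the coordinate `k` -/
noncomputable def offs (k : Fin 4) : I8 → ℝ := Sum.elim (Pi.single k (1 / 7)) (Pi.single k (2 / 7))

theorem perB_ne {x y : ℝ} (hx : x ∈ Ico (-1 / 2 : ℝ) (-1 / 2 + 1)) (hy : y ∈ Ico (-1 / 2 : ℝ) (-1 / 2 + 1))
    (h : x ≠ y) : (x : UnitAddCircle) ≠ y :=
  fun e => h ((AddCircle.coe_eq_coe_iff_of_mem_Ico hx hy).1 e)

theorem free_aff {i j k : Fin 4} (hi : k ≠ i) (hj : k ≠ j) (p : C2) :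
    Free (aff (offs k) (dirn i) (dirn j) p) := by
  have h : ∀ a, pa a (aff (offs k) (dirn i) (dirn j) p) k =
      ((![1 / 7, 2 / 7, -3 / 7] : Fin 3 → ℝ) a : UnitAddCircle) := fun a => by
    rw [pa_aff]
    have h1 : ∀ i, k ≠ i → pa a (dirn i) k = 0 := fun i hi => by
      fin_cases a <;> simp [pa, dirn, hi]
    rw [h1 i hi, h1 j hj, zero_smul, zero_smul, add_zero, add_zero]
    congr 1
    fin_cases a <;> simp [pa, offs]
    norm_num
  intro a b hab e
  have := (h a).symm.trans ((congrFun e k).trans (h b))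
  refine perB_ne ?_ ?_ ?_ this
  · fin_cases a <;> simp <;> norm_num
  · fin_cases b <;> simp <;> norm_num
  · fin_cases a <;> fin_cases b <;> simp at hab ⊢ <;> norm_num

theorem omg_dirn (P : Matrix (Fin 2) (Fin 4) ℂ) (i j : Fin 4) :
    omg P (fun a => dirn i a) (fun a => dirn j a) = 2 * (P 0 i * P 1 j - P 1 i * P 0 j) := by
  have h : ∀ (i : Fin 4) (a : Fin 3) (b : Fin 2), cx P (pa a fun x => (dirn i x : ℝ)) b =
      (![1, -1, 0] : Fin 3 → ℂ) a * P b i := fun i a b => by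
    have e : (pa a fun x => (dirn i x : ℝ)) = (![1, -1, 0] : Fin 3 → ℝ) a • Pi.single i 1 := by
      funext x
      by_cases c : x = i <;> fin_cases a <;> simp [pa, dirn, c]
    have e' : ((![1, -1, 0] : Fin 3 → ℝ) a : ℂ) = (![1, -1, 0] : Fin 3 → ℂ) a := by
      fin_cases a <;> simp
    rw [e, ← e', cx, Matrix.mulVec, dotProduct, Finset.sum_eq_single i]
    · simp [mul_comm]
    · intro x _ hx; simp [hx]
    · simp
  simp only [omg, h, Fin.sum_univ_three, Matrix.cons_val]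
  ring

theorem sum_dirn (i j a b : Fin 4) :
    ∑ p, (pa p (dirn i) a * pa p (dirn j) b - pa p (dirn j) a * pa p (dirn i) b) =
      2 * ((if a = i ∧ b = j then 1 else 0) - if a = j ∧ b = i then 1 else 0) := by
  revert i j a b
  decide

end Pool.Agent.Lib.MP_d3d358_ag.AS
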