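import Pool.Agent.Lib.MP_d3d358_ag.AS.PerB

/-! A torus in a fibre of the resolution on which the Hopf class does not vanish. -/

set_option autoImplicit false

namespace Pool.Agent.Lib.MP_d3d358_ag.AS

open Topology Set

theorem perC_nrm_smul {m : ℕ} {c : ℂ} (hc : ‖c‖ = 1) (v : EuclideanSpace ℂ (Fin m)) :
    nrm (c • v) = c • nrm v := by
  rw [nrm, nrm, norm_smul, hc, one_mul, smul_comm]

theorem perC_tens_smul {m₁ m₂ m : ℕ} (e : Fin m ≃ Fin m₁ × Fin m₂) (c : ℂ) (a : Fin m₁ → ℂ)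
    (b : Fin m₂ → ℂ) : tens e (c • a) b = c • tens e a b := by
  ext k
  simp [tens, mul_assoc]

theorem perC_cont {Y : Type} [TopologicalSpace Y] {m : ℕ} {F : Y → EuclideanSpace ℂ (Fin m)}
    (hF : Continuous F) (h : ∀ y, ‖nrm (F y)‖ = 1) : Continuous fun y => nrm (F y) := by
  refine Continuous.smul (Continuous.inv₀ (Complex.continuous_ofReal.comp hF.norm) fun y e => ?_) hF
  have := h y
  rw [nrm, show ((‖F y‖ : ℝ) : ℂ) = 0 from e, inv_zero, zero_smul, norm_zero] at this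
  exact zero_ne_one this

theorem perC_pt : pa 0 (fun _ : I8 => (1 / 7 : ℝ)) = pa 1 (fun _ : I8 => (1 / 7 : ℝ)) ∧
    pa 0 (mkT fun _ : I8 => (1 / 7 : ℝ)) ≠ pa 2 (mkT fun _ : I8 => (1 / 7 : ℝ)) := by
  refine ⟨rfl, fun e => ?_⟩
  rw [pa_mkT, pa_mkT] at e
  refine perB_ne (x := 1 / 7) (y := -(1 / 7) - 1 / 7) ?_ ?_ ?_ (congrFun e 0)
  all_goals norm_num

variable {P : Matrix (Fin 2) (Fin 4) ℂ} {X : Type} [MetricSpace X]

theorem Geo.exc_torus {Per : (List X → ℂ) → Prop} (G : Geo P X Per) {t : I8 → ℝ}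
    (h2 : ∀ δ, δ ≠ 0 → nrm (tens G.e (G.M t δ) (G.g t)) ∈ G.S)
    {θ : Ch (EuclideanSpace ℂ (Fin G.m)) ℚ} {η : Ch X ℚ} (hθ : θ ∈ DZ 1) (hη : η ∈ DZ 2)
    (hdη : dC η ∈ N univ) (hdθ : dC θ - pullC G.pr η ∈ N G.S)
    (hF : ∀ n, ∀ w, FibOK (G.S ∩ G.pr ⁻¹' {w}) 1 n θ) :
    ∃ (α : ℝ × ℝ → Fin 2 → ℂ) (Φ : C2 → X) (hΦ : Continuous Φ), ContDiff ℝ (⊤ : ℕ∞) α ∧
      (∀ u, α u ≠ 0) ∧
      (∀ u u' : ℝ, Φ (u, u') = G.pr (nrm (tens G.e (G.M t (α (u, u'))) (G.g t)))) ∧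
      pull Φ hΦ.continuousOn (mapsTo_univ _ univ) (AS.mk η hdη) ≠ 0 := by
  obtain ⟨α, a1, a2, a3, a4, a5⟩ := exists_alpha
  have cb : CB G.S G.pr := G.cb
  set F : ℝ × ℝ → EuclideanSpace ℂ (Fin G.m) := fun p => nrm (tens G.e (G.M t (α p)) (G.g t))
    with hFd
  have FS : ∀ p, F p ∈ G.S := fun p => h2 _ (a2 p)
  have cα := a1.continuous
  have cF : Continuous F := by
    refine perC_cont ?_ fun p => cb.unit _ (FS p)
    refine (PiLp.continuous_toLp 2 _).comp (continuous_pi fun k => ?_)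
    exact ((continuous_apply _).comp ((G.M t).continuous.comp cα)).mul continuous_const
  have F4 : ∀ u v : ℝ, F (u, v + 1) = (AddCircle.toCircle (u : UnitAddCircle) : ℂ) • F (u, v) :=
    fun u v => by
      simp only [hFd]
      rw [a4, map_smul, perC_tens_smul, perC_nrm_smul (Circle.norm_coe _)]
  obtain ⟨φ, cφ, eφ⟩ := perAl_descend cF fun u v => by simp only [hFd, a3]
  have φS : ∀ p, φ p ∈ G.S := fun p => by
    obtain ⟨x, v⟩ := p
    induction x using QuotientAddGroup.induction_on with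
    | H u => exact (eφ u v).symm ▸ FS _
  have φ4 : ∀ x v, φ (x, v + 1) = (AddCircle.toCircle x : ℂ) • φ (x, v) := fun x v => by
    induction x using QuotientAddGroup.induction_on with
    | H u => rw [eφ, eφ, F4]
  obtain ⟨Ψ, cΨ, eΨ⟩ := perAl_descend (F := fun p : ℝ × UnitAddCircle => G.pr (φ (p.2, p.1)))
    (cb.cont.comp_continuous (cφ.comp continuous_swap) fun p => φS _)
    fun v x => ((cb.fib _ (φS _) _ (φS _)).2 ⟨_, (φ4 x v).symm⟩).symm
  have cΦ : Continuous fun p : C2 => Ψ (p.2, p.1) := cΨ.comp continuous_swap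
  refine ⟨α, _, cΦ, a1, a2, fun u u' => (eΨ u' u).trans (congrArg G.pr (eφ u u')), ?_⟩
  have key : ∀ U, G.pr '' G.S = U → ∀ (hd : dC η ∈ N U) (hm : MapsTo _ univ U),
      pull _ cΦ.continuousOn hm (AS.mk η hd) ≠ 0 := by
    rintro _ rfl hd hm
    refine eta_ne cb hθ hη hd hdθ (fun n w _ => hF n w) _ hm (φ := φ) cφ.continuousOn
      (fun p _ => φS p) (fun x v _ => (eΨ v x).symm) (v := F (0, 0)) (fun x => ?_) one_ne_zero
      fun x => ?_
    all_goals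
      have h0 : φ (x, 0) = F (0, 0) := by
        induction x using QuotientAddGroup.induction_on with
        | H u => rw [eφ]; simp only [hFd, a5 u]
    · exact h0
    · rw [← h0, one_smul, ← φ4, zero_add]
  exact key univ G.onto _ _

end Pool.Agent.Lib.MP_d3d358_ag.AS
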