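import Pool.Agent.Lib.MP_d3d358_ag.AS.Torus
import Pool.Agent.Lib.MP_d3d358_ag.AS.Hopf

/-! The top class of the two-torus, and a torus on which the Hopf class does not vanish. -/

set_option autoImplicit false

namespace Pool.Agent.Lib.MP_d3d358_ag.AS

open Topology Set

/-- the product of two circles -/
abbrev C2 : Type := UnitAddCircle × UnitAddCircle

/-- the top class of the two-torus -/
noncomputable def e2 (R : Type) [CommRing R] : HT R (univ : Set C2) :=
  cls R Prod.fst continuous_fst.continuousOn * cls R Prod.snd continuous_snd.continuousOn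

theorem e2_mem (R : Type) [CommRing R] : e2 R ∈ Hk univ 2 :=
  mul_mem_Hk (p := 1) (q := 1) (cls_mem _) (cls_mem _)

theorem perT2_zsmul {Z : Type} [TopologicalSpace Z] {K : Set Z} {R : Type} [CommRing R] (k : ℤ)
    (x : HT R K) : k • x = (k : R) • x := by
  rw [zsmul_eq_mul, Algebra.smul_def, map_intCast]

theorem perT2_lam_ι {Z : Type} [TopologicalSpace Z] {K : Set Z} (R : Type) [Field R] [CharZero R]
    {ι : Type} [Fintype ι] [DecidableEq ι] (c : ι → Z → UnitAddCircle)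
    (hc : ∀ i, ContinuousOn (c i) K) (i : ι) :
    lam R c hc (ExteriorAlgebra.ι R (Pi.single i 1)) = cls R (c i) (hc i) := by
  rw [lam_ι, Finset.sum_eq_single i]
  · simp
  · intro j _ hj; simp [hj]
  · simp

theorem perT2_two (R : Type) [Field R] {x : ExteriorAlgebra R (Fin 2 → R)}
    (hx : x ∈ ⋀[R]^2 (Fin 2 → R)) : ∃ c : R, x = c • (ExteriorAlgebra.ι R (Pi.single 0 1) *
      ExteriorAlgebra.ι R (Pi.single 1 1 : Fin 2 → R)) := by
  rw [← ExteriorAlgebra.ιMulti_span_fixedDegree] at hx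
  induction hx using Submodule.span_induction with
  | mem x hx =>
    obtain ⟨v, rfl⟩ := hx
    refine ⟨v 0 0 * v 1 1 - v 0 1 * v 1 0, ?_⟩
    have e : ∀ w : Fin 2 → R, w = w 0 • Pi.single 0 1 + w 1 • Pi.single 1 1 := fun w => by
      funext i; fin_cases i <;> simp
    have s := eq_neg_of_add_eq_zero_left (ExteriorAlgebra.ι_add_mul_swap (R := R)
      (Pi.single 1 1 : Fin 2 → R) (Pi.single 0 1))
    rw [ExteriorAlgebra.ιMulti_apply]
    simp only [List.ofFn_succ, List.ofFn_zero, List.prod_cons, List.prod_nil, mul_one]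
    conv_lhs => rw [e (v 0), e (v (Fin.succ 0))]
    simp only [map_add, map_smul, add_mul, mul_add, smul_mul_assoc, mul_smul_comm,
      ExteriorAlgebra.ι_sq_zero, s, Fin.succ_zero_eq_one]
    module
  | zero => exact ⟨0, by simp⟩
  | add x y _ _ hx hy =>
    obtain ⟨a, rfl⟩ := hx
    obtain ⟨b, rfl⟩ := hy
    exact ⟨a + b, (add_smul _ _ _).symm⟩
  | smul a x _ hx =>
    obtain ⟨b, rfl⟩ := hx
    exact ⟨a * b, (mul_smul _ _ _).symm⟩

theorem perT2_ne (R : Type) [Field R] : ExteriorAlgebra.ι R (Pi.single 0 1) *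
    ExteriorAlgebra.ι R (Pi.single 1 1 : Fin 2 → R) ≠ 0 := by
  intro h
  have h1 := congrArg (ExteriorAlgebra.liftAlternating (R := R) (M := Fin 2 → R) (N := R)
    (Pi.single (M := fun n => (Fin 2 → R) [⋀^Fin n]→ₗ[R] R) 2 (Pi.basisFun R (Fin 2)).det)) h
  have h2 : ExteriorAlgebra.ι R (Pi.single 0 1) * ExteriorAlgebra.ι R (Pi.single 1 1 : Fin 2 → R)
      = ExteriorAlgebra.ιMulti R 2 (Pi.basisFun R (Fin 2)) := by
    rw [ExteriorAlgebra.ιMulti_apply]
    simp [List.ofFn_succ]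
  rw [h2, ExteriorAlgebra.liftAlternating_apply_ιMulti, map_zero, Pi.single_eq_same,
    Module.Basis.det_self] at h1
  exact one_ne_zero h1

/-- the top cohomology of the two-torus is the line through `e2` -/
theorem e2_spec (R : Type) [Field R] [CharZero R] :
    e2 R ≠ 0 ∧ ∀ y ∈ Hk (R := R) (univ : Set C2) 2, ∃ c : R, y = c • e2 R := by
  have hg : ContinuousOn (fun x : Tor (Fin 2) => ((x 0, x 1) : C2)) univ :=
    Continuous.continuousOn (by fun_prop)
  have hb : BijOn (fun x : Tor (Fin 2) => ((x 0, x 1) : C2)) univ univ :=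
    bijOn_univ.2 (piFinTwoEquiv fun _ => UnitAddCircle).bijective
  obtain ⟨hi, -⟩ := pull_bij (R := R) isCompact_univ hg hb
  obtain ⟨t1, t2⟩ := torus R (Fin 2)
  have key : pull _ hg hb.mapsTo (e2 R) = lam R (K := univ) (fun i (x : Tor (Fin 2)) => x i)
      (fun i => (continuous_apply i).continuousOn)
      (ExteriorAlgebra.ι R (Pi.single 0 1) * ExteriorAlgebra.ι R (Pi.single 1 1)) := by
    rw [e2, map_mul, map_mul, pull_cls, pull_cls, perT2_lam_ι, perT2_lam_ι]
    rfl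
  refine ⟨fun h => perT2_ne R (t1 ?_), fun y hy => ?_⟩
  · rw [← key, h, map_zero, map_zero]
  · obtain ⟨x, hx, e⟩ := t2 2 _ (pull_mem (hf := hg) (hm := hb.mapsTo) hy)
    obtain ⟨c, rfl⟩ := perT2_two R hx
    exact ⟨c, hi (by rw [map_smul, key, ← e, map_smul])⟩

variable {m : ℕ} {P : Type} [MetricSpace P]
variable {S : Set (EuclideanSpace ℂ (Fin m))} {pr : EuclideanSpace ℂ (Fin m) → P}

/-- a torus whose lift over the cylinder closes up with a twist of degree `k ≠ 0` -/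
theorem eta_ne (h : CB S pr) {R : Type} [Field R] [CharZero R]
    {θ : Ch (EuclideanSpace ℂ (Fin m)) R} {η : Ch P R} (hθ : θ ∈ DZ 1) (hη : η ∈ DZ 2)
    (hdη : dC η ∈ N (pr '' S)) (hdθ : dC θ - pullC pr η ∈ N S)
    (hF : ∀ n, ∀ w ∈ pr '' S, FibOK (S ∩ pr ⁻¹' {w}) 1 n θ) {f : C2 → P}
    (hf : ContinuousOn f univ) (hm : MapsTo f univ (pr '' S))
    {φ : UnitAddCircle × ℝ → EuclideanSpace ℂ (Fin m)} (hφ : ContinuousOn φ (univ ×ˢ Icc 0 1))
    (hS : MapsTo φ (univ ×ˢ Icc 0 1) S)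
    (hpr : ∀ x, ∀ t ∈ Icc (0:ℝ) 1, pr (φ (x, t)) = f (x, (t : UnitAddCircle)))
    {v : EuclideanSpace ℂ (Fin m)} (h0 : ∀ x, φ (x, 0) = v) {k : ℤ} (hk : k ≠ 0)
    (h1 : ∀ x, φ (x, 1) = (AddCircle.toCircle (k • x) : ℂ) • v) :
    pull f hf hm (mk η hdη) ≠ 0 := by
  intro hz
  have c0 : dC (pullC f η) ∈ N univ := by rw [dC_pullC]; exact N_pullC hf hm hdη
  rw [pull_mk f hf hm hdη c0, mk_eq_zero_iff (pullC_mem f hη)] at hz
  obtain ⟨β, hβ, hz⟩ := hz
  set K : Set (UnitAddCircle × ℝ) := univ ×ˢ Icc 0 1 with hK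
  have cK : IsCompact K := isCompact_univ.prod isCompact_Icc
  set π : UnitAddCircle × ℝ → C2 := fun p => (p.1, (p.2 : UnitAddCircle)) with hπ
  have cπ : Continuous π := continuous_fst.prodMk (continuous_quotient_mk'.comp continuous_snd)
  have hγ : dC (pullC φ θ - pullC π β) ∈ N K := by
    have a1 := N_pullC hφ hS hdθ
    have a2 := N_pullC (K' := K) cπ.continuousOn (mapsTo_univ _ _) hz
    have a3 := pullC_congr (K' := K) (f := pr ∘ φ) (g := f ∘ π) (fun p hp => hpr p.1 p.2 hp.2) η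
    have e : dC (pullC φ θ - pullC π β) = pullC φ (dC θ - pullC pr η) +
        (pullC (pr ∘ φ) η - pullC (f ∘ π) η) + pullC π (pullC f η - dC β) := by
      rw [map_sub, map_sub, map_sub, dC_pullC, dC_pullC, pullC_pullC, pullC_pullC]
      abel
    rw [e]
    exact add_mem (add_mem a1 a3) a2
  have hv : v ∈ S := h0 0 ▸ hS ⟨trivial, left_mem_Icc.2 zero_le_one⟩
  obtain ⟨-, -, -, hθF, hne, -⟩ := hF 1 (pr v) ⟨v, hv, rfl⟩
  set ρ : UnitAddCircle → EuclideanSpace ℂ (Fin m) := fun x => (AddCircle.toCircle x : ℂ) • v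
    with hρ
  have cρ : ContinuousOn ρ univ :=
    ((continuous_subtype_val.comp AddCircle.continuous_toCircle).smul
      continuous_const).continuousOn
  have v0 : v ≠ 0 := fun e => by simpa [e] using h.unit v hv
  have bρ : BijOn ρ univ (S ∩ pr ⁻¹' {pr v}) := by
    refine ⟨fun x _ => ?_, fun x _ y _ e => ?_, fun w hw => ?_⟩
    · have a1 := h.inv v hv _ (Circle.norm_coe (AddCircle.toCircle x))
      exact ⟨a1, ((h.fib v hv _ a1).2 ⟨_, rfl⟩).symm⟩
    · exact AddCircle.injective_toCircle one_ne_zero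
        (Circle.ext (smul_left_injective ℂ v0 e))
    · obtain ⟨c, hc⟩ := (h.fib v hv w hw.1).1 hw.2.symm
      have a1 : ‖c‖ = 1 := by
        have := h.unit w hw.1
        rwa [← hc, norm_smul, h.unit v hv, mul_one] at this
      obtain ⟨x, hx⟩ := (AddCircle.homeomorphCircle (T := 1) one_ne_zero).surjective
        ⟨c, mem_sphere_zero_iff_norm.2 a1⟩
      refine ⟨x, trivial, ?_⟩
      rw [AddCircle.homeomorphCircle_apply] at hx
      simp only [hρ, hx]
      exact hc
  obtain ⟨iρ, -⟩ := pull_bij (R := R) isCompact_univ cρ bρ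
  obtain ⟨-, -, -, hC, neC, spC⟩ := circle_fib R 1
  obtain ⟨c, hc⟩ := spC _ (pull_mem (hf := cρ) (hm := bρ.mapsTo) ⟨θ, hθF, hθ, rfl⟩)
  have c1 : c ≠ 0 := fun e => hne (iρ (by rw [hc, e, zero_smul, map_zero]))
  have i0 : ContinuousOn (fun x : UnitAddCircle => ((x, 0) : UnitAddCircle × ℝ)) univ :=
    Continuous.continuousOn (by fun_prop)
  have i1 : ContinuousOn (fun x : UnitAddCircle => ((x, 1) : UnitAddCircle × ℝ)) univ :=
    Continuous.continuousOn (by fun_prop)
  have m0 : MapsTo (fun x : UnitAddCircle => ((x, 0) : UnitAddCircle × ℝ)) univ K :=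
    fun _ _ => ⟨trivial, left_mem_Icc.2 zero_le_one⟩
  have m1 : MapsTo (fun x : UnitAddCircle => ((x, 1) : UnitAddCircle × ℝ)) univ K :=
    fun _ _ => ⟨trivial, right_mem_Icc.2 zero_le_one⟩
  have hh := pull_homotopy (R := R) (K' := univ) isCompact_univ cK
    (F := fun p : ℝ × UnitAddCircle => (p.2, p.1)) (Continuous.continuousOn (by fun_prop))
    (fun p hp => ⟨trivial, hp.1⟩) (hf := i0) (hf' := m0) (hg := i1) (hg' := m1)
    (fun _ _ => rfl) (fun _ _ => rfl) (k := 1)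
    ⟨_, hγ, sub_mem (pullC_mem φ hθ) (pullC_mem π (by simpa using hβ)), rfl⟩
  have d0 := N_pullC i0 m0 hγ
  have d1 := N_pullC i1 m1 hγ
  rw [← dC_pullC] at d0 d1
  rw [pull_mk _ i0 m0 hγ d0, pull_mk _ i1 m1 hγ d1, mk_eq_iff] at hh
  obtain ⟨b, hb⟩ := hh
  have z0 : ContinuousOn (fun _ : UnitAddCircle => (0 : UnitAddCircle)) univ := continuousOn_const
  have z1 : ContinuousOn (fun x : UnitAddCircle => k • x) univ :=
    Continuous.continuousOn (by fun_prop)
  have e0 : φ ∘ (fun x : UnitAddCircle => ((x, 0) : UnitAddCircle × ℝ)) = ρ ∘ fun _ => 0 := by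
    funext x; simp [hρ, h0]
  have e1 : φ ∘ (fun x : UnitAddCircle => ((x, 1) : UnitAddCircle × ℝ)) = ρ ∘ fun x => k • x := by
    funext x; simp only [hρ, Function.comp, h1]
  have e3 : π ∘ (fun x : UnitAddCircle => ((x, 0) : UnitAddCircle × ℝ)) =
      π ∘ fun x => (x, 1) := by
    funext x
    exact Prod.ext rfl ((AddCircle.coe_zero (1:ℝ)).trans (AddCircle.coe_period (1:ℝ)).symm)
  simp only [map_sub, pullC_pullC, e0, e1, e3, sub_sub_sub_cancel_right] at hb
  have f0 := N_pullC (cρ.comp z0 (mapsTo_univ _ _)) (bρ.mapsTo.comp (mapsTo_univ _ _)) hθF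
  have f1 := N_pullC (cρ.comp z1 (mapsTo_univ _ _)) (bρ.mapsTo.comp (mapsTo_univ _ _)) hθF
  rw [← dC_pullC] at f0 f1
  have g := (mk_eq_iff f0 f1).2 ⟨b, hb⟩
  rw [← pull_mk _ (cρ.comp z0 (mapsTo_univ _ _)) (bρ.mapsTo.comp (mapsTo_univ _ _)) hθF f0,
    ← pull_mk _ (cρ.comp z1 (mapsTo_univ _ _)) (bρ.mapsTo.comp (mapsTo_univ _ _)) hθF f1,
    ← pull_pull (hf := cρ) (hm := bρ.mapsTo) (hg := z0) (hn := mapsTo_univ _ _),
    ← pull_pull (hf := cρ) (hm := bρ.mapsTo) (hg := z1) (hn := mapsTo_univ _ _),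
    hc, map_smul, map_smul] at g
  have g0 : cls R (fun _ : UnitAddCircle => (0 : UnitAddCircle)) z0 = 0 :=
    cls_lift z0 (t := fun _ => 0) continuousOn_const fun _ _ => by simp
  have g1 : cls R (fun x : UnitAddCircle => k • x) z1 = k • cls R id continuousOn_id := by
    have := cls_sum (R := R) (K := univ) ({()} : Finset Unit) (fun _ => k)
      (c := fun _ => id) (fun _ => continuousOn_id) (by simpa using z1)
    simpa using this
  have g2 : cls R (id : UnitAddCircle → UnitAddCircle) (continuousOn_id (s := univ)) =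
      mk (thetaC R) hC := res_self _
  change c • cls R _ z0 = c • cls R _ z1 at g
  rw [g0, g1, g2, smul_zero] at g
  have g3 : (c * (k:R)) • mk (thetaC R) hC = 0 := by
    rw [mul_smul, ← perT2_zsmul]; exact g.symm
  exact neC ((smul_eq_zero.1 g3).resolve_left (mul_ne_zero c1 (Int.cast_ne_zero.2 hk)))

end Pool.Agent.Lib.MP_d3d358_ag.AS
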