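import Pool.Agent.Lib.MP_d3d358_ag.AS.GeoTop
import Pool.Agent.Lib.MP_d3d358_ag.AS.Bound
import Pool.Agent.Lib.MP_d3d358_ag.AS.PerC

set_option autoImplicit false

namespace Pool.Agent.Lib.MP_d3d358_ag.AS

open Topology Set ExteriorAlgebra

variable {P : Matrix (Fin 2) (Fin 4) ℂ} {X : Type} [MetricSpace X] [CompactSpace X] {m : ℕ}
  {S : Set (EuclideanSpace ℂ (Fin m))} {pr : EuclideanSpace ℂ (Fin m) → X}

theorem period_sum {A Q B : Fin 4 → Fin 4 → ℂ} {t : ℂ} (hB : ∀ a b, B b a = -B a b)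
    (h : ∀ a b, A a b - A b a = t * (Q a b - Q b a)) :
    ∑ a, ∑ b, A a b * B a b = t * ∑ a, ∑ b, Q a b * B a b := by
  have e : ∑ a, ∑ b, (A a b - t * Q a b) * B a b = -∑ a, ∑ b, (A a b - t * Q a b) * B a b := by
    rw [← Finset.sum_neg_distrib]
    refine Finset.sum_comm.trans (Finset.sum_congr rfl fun a _ => ?_)
    rw [← Finset.sum_neg_distrib]
    refine Finset.sum_congr rfl fun b _ => ?_
    rw [hB a b]
    linear_combination B a b * h a b
  have e' : ∑ a, ∑ b, (A a b - t * Q a b) * B a b =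
      ∑ a, ∑ b, A a b * B a b - t * ∑ a, ∑ b, Q a b * B a b := by
    simp only [sub_mul, Finset.sum_sub_distrib, Finset.mul_sum, mul_assoc]
  rw [e'] at e
  linear_combination (1 / 2) * e

theorem period_avg {u : Orb.EN} (hu : u ∈ ⋀[ℚ]^2 (Orb.V × Orb.V)) (hi : ∀ s, Orb.act s u = u) :
    ∃ γ : Fin 4 → Fin 4 → ℚ,
      u = ∑ a, ∑ b, γ a b • Orb.tl (ι ℚ (Pi.single a 1) * ι ℚ (Pi.single b 1)) := by
  obtain ⟨γ, h⟩ := avg_two hu
  refine ⟨fun a b => 6⁻¹ * γ a b, ?_⟩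
  simp only [hi, Finset.sum_const, Finset.card_univ, Fintype.card_perm, Fintype.card_fin] at h
  simp only [mul_smul, ← Finset.smul_sum]
  rw [← h, ← Nat.cast_smul_eq_nsmul ℚ, smul_smul]
  norm_num [Nat.factorial]

omit [CompactSpace X] in
theorem period_pull (T : KumTop P S pr) {x y : HT ℚ (univ : Set X)} {u : Orb.EN} {s : ℚ}
    (h : T.j ℚ x = T.β u + s • T.j ℚ y) {ν : C2 → Tor I8} {Φ : C2 → X} (hν : Continuous ν)
    (hΦ : Continuous Φ) (e : ∀ p, T.π (Φ p) = T.q (ν p)) :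
    pull Φ hΦ.continuousOn (mapsTo_univ _ univ) x =
      bet ν hν.continuousOn u + s • pull Φ hΦ.continuousOn (mapsTo_univ _ univ) y := by
  have hm : MapsTo (fun p => (ν p, Φ p)) univ T.Xt := fun p _ => (e p).symm
  have := congrArg (pull _ (hν.prodMk hΦ).continuousOn hm) h
  rw [map_add, map_smul, KumTop.j, pull_pull, pull_pull, KumTop.β, pull_bet] at this
  exact this

/-- a class with the right periods is a nonzero multiple of `σ` -/
theorem Geo.period {Per : (List X → ℂ) → Prop} (G : Geo P X Per) (T : KumTop P G.S G.pr)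
    (h1 : ∀ t, Free (mkT t) → T.sec (mkT t) = G.pr (nrm (tens G.e (G.f t) (G.g t))))
    (h2 : ∀ t, pa 0 t = pa 1 t → pa 0 (mkT t) ≠ pa 2 (mkT t) → ∀ δ, δ ≠ 0 →
      nrm (tens G.e (G.M t δ) (G.g t)) ∈ G.S ∧
      T.π (G.pr (nrm (tens G.e (G.M t δ) (G.g t)))) = T.q (mkT t))
    {r : ℕ} (c : Fin r → ℂ) (φ : Fin r → Ch X ℚ) (hφ : ∀ i, φ i ∈ DZ 2)
    (hd : ∀ i, dC (φ i) ∈ N univ) (h : Per (comb c fun i => (φ i).1)) :
    ∃ t : ℂ, t ≠ 0 ∧ ∀ L : HT ℚ T.Xt →ₗ[ℚ] ℚ, ∑ i, c i * (L (T.j ℚ (AS.mk (φ i) (hd i))) : ℂ)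
      = t * ∑ i, ∑ j, P 0 i * P 1 j
        * (L (T.β (Orb.tl (ι ℚ (Pi.single i 1) * ι ℚ (Pi.single j 1)))) : ℂ) := by
  obtain ⟨ε, κ, hε, hκ, pA, pE⟩ := G.per _ h
  obtain ⟨ε₀, hε₀, cl⟩ := perB_cls hε
  obtain ⟨θ, η, hθ, hη, hdη, hdθ, hF⟩ := T.cb.exists_eta
  rw [T.onto] at hdη hF
  have hF' : ∀ n, ∀ w, FibOK (G.S ∩ G.pr ⁻¹' {w}) 1 n θ := fun n w => hF ℚ n w trivial
  have hx : ∀ n, AS.mk (φ n) (hd n) ∈ Hk univ 2 := fun n => ⟨φ n, hd n, hφ n, rfl⟩
  have hy : AS.mk η hdη ∈ Hk univ 2 := ⟨η, hdη, hη, rfl⟩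
  choose u hu hi s hs using fun n => T.bound_two hθ hη hdη hdθ hF' (hx n)
  choose γ hγ using fun n => period_avg (hu n) (hi n)
  obtain ⟨-, n2⟩ := e2_spec ℚ
  have hS : ∑ n, c n * s n = 0 := by
    obtain ⟨t1, t2⟩ := perC_pt
    obtain ⟨α, Φ, hΦ, a1, a2, a3, a4⟩ := G.exc_torus (fun δ hδ => (h2 _ t1 t2 δ hδ).1) hθ hη hdη
      hdθ hF'
    obtain ⟨a, ha⟩ := n2 _ (pull_mem (hf := hΦ.continuousOn) (hm := mapsTo_univ _ univ) hy)
    have a0 : (a : ℂ) ≠ 0 := Rat.cast_ne_zero.2 fun e => a4 (by rw [ha, e, zero_smul])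
    have e : ∀ p, T.π (Φ p) = T.q (mkT fun _ => 1 / 7) := fun p => by
      obtain ⟨x, y⟩ := p
      induction x using QuotientAddGroup.induction_on with
      | H v =>
        induction y using QuotientAddGroup.induction_on with
        | H w => exact (congrArg T.π (a3 v w)).trans (h2 _ t1 t2 _ (a2 _)).2
    have := cl c φ hd Φ hΦ.continuousOn 0 (fun n => s n * a)
      (by rw [zero_smul]; exact pE _ α Φ t1 t2 a1 a2 a3) fun n => by
        rw [period_pull T (hs n) continuous_const hΦ e, bet_lift _ (t := fun _ _ => 1 / 7)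
          continuousOn_const (fun _ _ => rfl) two_pos (hu n), zero_add, ha, smul_smul]
    simp only [Rat.cast_mul, ← mul_assoc, ← Finset.sum_mul, zero_mul] at this
    exact (mul_eq_zero.1 this).resolve_right a0
  have hA : ∀ i j, ∑ n, c n * γ n i j - ∑ n, c n * γ n j i =
      κ * ε₀ * (P 0 i * P 1 j - P 0 j * P 1 i) := fun i j => by
    obtain ⟨k, ki, kj⟩ : ∃ k : Fin 4, k ≠ i ∧ k ≠ j := by revert i j; decide
    have cν := continuous_aff (offs k) (dirn i) (dirn j)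
    have hΦ : Continuous fun p => T.sec (aff (offs k) (dirn i) (dirn j) p) :=
      T.csec.comp_continuous cν fun p => free_aff ki kj p
    obtain ⟨a, ha⟩ := n2 _ (pull_mem (hf := hΦ.continuousOn) (hm := mapsTo_univ _ univ) hy)
    have := cl c φ hd _ hΦ.continuousOn _ (fun n => 2 * (γ n i j - γ n j i) + s n * a)
      (pA (offs k) (dirn i) (dirn j) _ fun v w => by
        have f := free_aff ki kj (v, w)
        rw [aff_mk] at f
        exact ⟨f, by rw [aff_mk]; exact h1 _ f⟩) fun n => by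
        rw [period_pull T (hs n) cν hΦ fun p => T.π_sec _, ha, smul_smul, add_smul, hγ n]
        congr 1
        simp only [map_sum, map_smul, bet_aff, sum_dirn, smul_smul, ← Finset.sum_smul]
        congr 1
        push_cast
        simp only [mul_sub, mul_ite, mul_one, mul_zero, ite_and, Finset.sum_sub_distrib,
          Finset.sum_ite_irrel, Finset.sum_const_zero, Finset.sum_ite_eq', Finset.mem_univ, if_true]
        ring
    rw [omg_dirn] at this
    have e : ∑ n, c n * ((2 * (γ n i j - γ n j i) + s n * a : ℚ) : ℂ) =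
        2 * (∑ n, c n * γ n i j - ∑ n, c n * γ n j i) + (∑ n, c n * s n) * a := by
      rw [← Finset.sum_sub_distrib, Finset.mul_sum, Finset.sum_mul, ← Finset.sum_add_distrib]
      refine Finset.sum_congr rfl fun n _ => ?_
      push_cast
      ring
    rw [e, hS] at this
    linear_combination (1 / 2) * this
  refine ⟨κ * ε₀, mul_ne_zero hκ hε₀, fun L => ?_⟩
  rw [← period_sum (Q := fun i j => P 0 i * P 1 j) (fun a b => ?_) hA]
  · have e : ∀ n, c n * (L (T.j ℚ (AS.mk (φ n) (hd n))) : ℂ) = ∑ a, ∑ b, c n * γ n a b *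
        (L (T.β (Orb.tl (ι ℚ (Pi.single a 1) * ι ℚ (Pi.single b 1)))) : ℂ) +
        c n * s n * (L (T.j ℚ (AS.mk η hdη)) : ℂ) := fun n => by
      rw [hs n, hγ n]
      simp only [map_add, map_sum, map_smul, smul_eq_mul]
      push_cast
      simp only [mul_add, Finset.mul_sum, mul_assoc]
    simp only [e, Finset.sum_add_distrib, ← Finset.sum_mul, hS, zero_mul, add_zero]
    rw [Finset.sum_comm]
    refine Finset.sum_congr rfl fun a _ => ?_
    rw [Finset.sum_comm]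
    exact Finset.sum_congr rfl fun b _ => (Finset.sum_mul _ _ _).symm
  · rw [eq_neg_of_add_eq_zero_right (ι_add_mul_swap (R := ℚ) (Pi.single a 1 : Orb.V)
      (Pi.single b 1)), map_neg, map_neg, map_neg, Rat.cast_neg]

end Pool.Agent.Lib.MP_d3d358_ag.AS
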