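import Pool.Agent.Lib.MP_d3d358_ag.AS.Kum

/-! A self map of the torus that is homotopic to the identity and complex linear near zero. -/

set_option autoImplicit false

namespace Pool.Agent.Lib.MP_d3d358_ag.AS

open Topology Set Filter

variable {P : Matrix (Fin 2) (Fin 4) ℂ}

/-- real coordinates on `ℂ²` -/
noncomputable def phiR : (Fin 2 → ℂ) →ₗ[ℝ] Fin 4 → ℝ where
  toFun w := ![(w 0).re, (w 0).im, (w 1).re, (w 1).im]
  map_add' v w := by funext i; fin_cases i <;> simp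
  map_smul' c w := by funext i; fin_cases i <;> simp

theorem phi_R_zl (a : Tor (Fin 4)) : phiR (zl a) = lift4 a := by
  funext i; fin_cases i <;> simp [phiR, zl, lift4]

theorem phi_T (w : Fin 2 → ℂ) : epsT w = mkT (phiR w) := by
  funext i; fin_cases i <;> rfl

theorem phi_T_add (v w : Fin 2 → ℂ) : epsT (v + w) = epsT v + epsT w := by
  rw [phi_T, phi_T, phi_T, map_add]; funext i; exact AddCircle.coe_add _ _ _

theorem phi_T_neg (w : Fin 2 → ℂ) : epsT (-w) = -epsT w := by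
  rw [phi_T, phi_T, map_neg]; funext i; exact AddCircle.coe_neg _

theorem phi_n_neg (a : Tor (Fin 4)) : ‖zl (-a)‖ = ‖zl a‖ := by
  simp only [eps_norm2, eps_n0, eps_n1, Pi.neg_apply, norm_neg]

theorem phi_zl_neg {a : Tor (Fin 4)} (h : ‖zl a‖ < 1 / 2) : zl (-a) = -zl a := by
  conv_lhs => rw [← eps_T_zl a, ← phi_T_neg]
  exact eps_zl_T (by rwa [norm_neg])

theorem phi_zl_zero : zl 0 = 0 := by
  have : epsT 0 = 0 := by funext i; fin_cases i <;> simp [epsT]
  rw [← this]; exact eps_zl_T (by norm_num)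

theorem phi_norm_le (a : Tor (Fin 4)) : ‖a‖ ≤ ‖zl a‖ :=
  (pi_norm_le_iff_of_nonneg (norm_nonneg _)).2 (eps_coord_le a)

/-- the period matrix as a real linear map -/
noncomputable def phiM (P : Matrix (Fin 2) (Fin 4) ℂ) : (Fin 2 → ℂ) →ₗ[ℝ] Fin 2 → ℂ where
  toFun w := cx P (phiR w)
  map_add' v w := by
    rw [map_add, cx, cx, cx, ← Matrix.mulVec_add]; congr 1; funext i; simp
  map_smul' c w := by
    rw [map_smul, cx, cx, RingHom.id_apply, ← Matrix.mulVec_smul]; congr 1; funext i; simp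

theorem phi_conv (hP : Conv P) {a s : ℝ} (ha : 0 ≤ a) (hs : 0 ≤ s) (h0 : 0 < a + s)
    {w : Fin 2 → ℂ} (h : a • phiM P w + s • w = 0) : w = 0 := by
  have e : cx !![1, Complex.I, 0, 0; 0, 0, 1, Complex.I] (phiR w) = w := by
    funext i
    fin_cases i <;>
      simp [cx, phiR, Matrix.mulVec, dotProduct, Fin.sum_univ_four, mul_comm Complex.I]
  have h1 := hP (s / (a + s)) ⟨by positivity, by rw [div_le_one h0]; linarith⟩ (phiR w) (by
    have e1 : 1 - s / (a + s) = (a + s)⁻¹ * a := by field_simp; ring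
    have e2 : s / (a + s) = (a + s)⁻¹ * s := by field_simp
    rw [cx, Matrix.add_mulVec, Matrix.smul_mulVec, Matrix.smul_mulVec, e1, e2]
    change _ • phiM P w + _ • cx _ (phiR w) = 0
    rw [e, Complex.coe_smul, Complex.coe_smul, mul_smul, mul_smul, ← smul_add, h, smul_zero])
  rw [← e, h1]
  funext i; fin_cases i <;> simp [cx, Matrix.mulVec, dotProduct]

/-- the map on `ℂ²` -/
theorem phi_exists_F (hP : Conv P) {ρ : ℝ} (hρ : 0 < ρ) (hρ' : ρ ≤ 1 / 4) :
    ∃ (F : (Fin 2 → ℂ) → Fin 2 → ℂ) (c : ℝ), Continuous F ∧ 0 < c ∧ (∀ w, F (-w) = -F w) ∧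
      (∀ w, 1 / 4 ≤ ‖w‖ → F w = w) ∧ (∀ w, ‖w‖ ≤ 1 / 4 → ‖F w‖ ≤ 1 / 4) ∧
      (∀ w, ρ ≤ ‖w‖ → 1 / 4 ≤ ‖F w‖) ∧ (∀ w, F w = 0 → w = 0) ∧
      ∀ w, ‖w‖ < ρ / 2 → F w = c • phiM P w := by
  let M := LinearMap.toContinuousLinearMap (phiM P)
  obtain ⟨c, hc, hM⟩ : ∃ c : ℝ, 0 < c ∧ ∀ w, c * ‖phiM P w‖ ≤ ‖w‖ :=
    ⟨(‖M‖ + 1)⁻¹, by positivity, fun w => by
      rw [inv_mul_le_iff₀ (by positivity)]
      exact (M.le_opNorm w).trans (by gcongr; linarith)⟩
  let k : ℝ → ℝ := fun r => max 1 (4 * max r ρ)⁻¹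
  let σ : ℝ → ℝ := fun r => min 1 (max 0 (2 * r / ρ - 1))
  have hk : ∀ r, 0 < k r := fun r => lt_max_of_lt_left one_pos
  have hσ0 : ∀ r, 0 ≤ σ r := fun r => le_min zero_le_one (le_max_left _ _)
  have hσ1 : ∀ r, σ r ≤ 1 := fun r => min_le_left _ _
  have hσ : ∀ r, ρ ≤ r → σ r = 1 := fun r hr => min_eq_left (le_max_of_le_right (by
    rw [le_sub_iff_add_le, le_div_iff₀ hρ]; linarith))
  have ck : Continuous k := continuous_const.max
    ((continuous_const.mul (continuous_id.max continuous_const)).inv₀ fun r =>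
      (mul_pos four_pos (lt_max_of_lt_right hρ)).ne')
  have cσ : Continuous σ := by fun_prop
  refine ⟨fun w => k ‖w‖ • (((1 - σ ‖w‖) * c) • phiM P w + σ ‖w‖ • w), k 0 * c, ?_,
    mul_pos (hk 0) hc, fun w => ?_, fun w hw => ?_, fun w hw => ?_, fun w hw => ?_,
    fun w hw => ?_, fun w hw => ?_⟩
  · exact (ck.comp continuous_norm).smul
      ((((continuous_const.sub (cσ.comp continuous_norm)).mul continuous_const).smul
        M.continuous).add ((cσ.comp continuous_norm).smul continuous_id))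
  · simp only [norm_neg, map_neg, smul_neg, ← neg_add]
  · have : k ‖w‖ = 1 := max_eq_left (inv_le_one_of_one_le₀ (by linarith [le_max_left ‖w‖ ρ]))
    simp only [this, hσ _ (hρ'.trans hw), sub_self, zero_mul, zero_smul, zero_add, one_smul]
  · have h1 : ‖((1 - σ ‖w‖) * c) • phiM P w + σ ‖w‖ • w‖ ≤ ‖w‖ := by
      refine (norm_add_le _ _).trans ?_
      rw [norm_smul, norm_smul, Real.norm_of_nonneg (mul_nonneg (sub_nonneg.2 (hσ1 _)) hc.le),
        Real.norm_of_nonneg (hσ0 _), mul_assoc]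
      nlinarith [mul_le_mul_of_nonneg_left (hM w) (sub_nonneg.2 (hσ1 ‖w‖))]
    have h2 : k ‖w‖ * ‖w‖ ≤ 1 / 4 := by
      rw [max_mul_of_nonneg _ _ (norm_nonneg w), one_mul]
      refine max_le hw ?_
      rw [inv_mul_le_iff₀ (mul_pos four_pos (lt_max_of_lt_right hρ))]
      linarith [le_max_left ‖w‖ ρ]
    rw [norm_smul, Real.norm_of_nonneg (hk _).le]
    exact (mul_le_mul_of_nonneg_left h1 (hk _).le).trans h2
  · simp only [hσ _ hw, sub_self, zero_mul, zero_smul, zero_add, one_smul]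
    rw [norm_smul, Real.norm_of_nonneg (hk _).le]
    have h0 : 0 < ‖w‖ := hρ.trans_le hw
    refine le_trans (le_of_eq ?_) (mul_le_mul_of_nonneg_right (le_max_right _ _) h0.le)
    rw [max_eq_left hw]; field_simp
  · refine phi_conv hP (mul_nonneg (sub_nonneg.2 (hσ1 _)) hc.le) (hσ0 ‖w‖) ?_
      ((smul_eq_zero.1 hw).resolve_left (hk _).ne')
    rcases (hσ1 ‖w‖).eq_or_lt with h | h
    · rw [h]; norm_num
    · exact add_pos_of_pos_of_nonneg (mul_pos (sub_pos.2 h) hc) (hσ0 _)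
  · have h1 : σ ‖w‖ = 0 := by
      have : max 0 (2 * ‖w‖ / ρ - 1) = 0 := max_eq_left (by
        rw [sub_nonpos, div_le_one hρ]; linarith)
      simp only [σ, this]; exact min_eq_right zero_le_one
    have h2 : k ‖w‖ = k 0 := by
      simp only [k, max_eq_right hρ.le, max_eq_right (show ‖w‖ ≤ ρ by linarith)]
    simp only [h1, h2, sub_zero, one_mul, zero_smul, add_zero, smul_smul]

/-- a self map of the torus that acts trivially on cohomology and is complex linear near `0` -/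
theorem exists_Phi (hP : Conv P) {ρ : ℝ} (hρ : 0 < ρ) (hρ' : ρ ≤ 1 / 4) :
    ∃ (Φ : Tor (Fin 4) → Tor (Fin 4)) (c : ℝ), Continuous Φ ∧ 0 < c ∧ (∀ a, Φ (-a) = -Φ a) ∧
    (∃ t : Tor (Fin 4) → Fin 4 → ℝ, Continuous t ∧ ∀ a, Φ a = a + mkT (t a)) ∧
    (∀ a, ρ ≤ ‖a‖ → 1 / 4 ≤ ‖zl (Φ a)‖) ∧ (∀ a, zl (Φ a) = 0 ↔ a = 0) ∧
    ∀ᶠ a in 𝓝 0, zl (Φ a) = (c : ℂ) • cx P (lift4 a) := by
  obtain ⟨F, c, cF, hc, odd, far, small, big, inj, lin⟩ := phi_exists_F hP hρ hρ'
  have ct : Continuous fun a => F (zl a) - zl a := continuous_iff_continuousAt.2 fun a => by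
    rcases lt_or_ge ‖zl a‖ (1 / 2) with h | h
    · exact (cF.continuousAt.comp (eps_zl_cont h)).sub (eps_zl_cont h)
    · refine (continuousAt_const (y := (0 : Fin 2 → ℂ))).congr ?_
      filter_upwards [eps_cont_n.continuousAt.eventually (lt_mem_nhds
        (show 1 / 4 < ‖zl a‖ by linarith))] with b hb
      rw [far _ hb.le, sub_self]
  have h0 : epsT 0 = 0 := by funext i; fin_cases i <;> simp [epsT]
  have hz : ∀ a, zl (a + epsT (F (zl a) - zl a)) = F (zl a) := fun a => by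
    rcases le_total ‖zl a‖ (1 / 4) with h | h
    · conv_lhs => rw [← eps_T_zl a, ← phi_T_add, eps_T_zl, add_sub_cancel]
      exact eps_zl_T ((small _ h).trans_lt (by norm_num))
    · rw [far _ h, sub_self, h0, add_zero]
  refine ⟨fun a => a + epsT (F (zl a) - zl a), c, continuous_id.add (eps_T_cont.comp ct), hc,
    fun a => ?_, ⟨fun a => phiR (F (zl a) - zl a),
      phiR.continuous_of_finiteDimensional.comp ct, fun a => congrArg _ (phi_T _)⟩,
    fun a ha => ?_, fun a => ?_, ?_⟩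
  · beta_reduce
    rcases le_total ‖zl a‖ (1 / 4) with h | h
    · rw [phi_zl_neg (h.trans_lt (by norm_num)), odd, neg_add, ← phi_T_neg]
      congr 2; abel
    · rw [far _ h, far _ (by rwa [phi_n_neg]), sub_self, sub_self, h0, add_zero, add_zero]
  · rw [hz]; exact big _ (ha.trans (phi_norm_le a))
  · rw [hz]
    refine ⟨fun h => norm_le_zero_iff.1 ((phi_norm_le a).trans (by rw [inj _ h, norm_zero])),
      fun h => ?_⟩
    rw [h, phi_zl_zero, lin 0 (by rw [norm_zero]; linarith), map_zero, smul_zero]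
  · filter_upwards [eps_cont_n.continuousAt.eventually (gt_mem_nhds
      (show ‖zl 0‖ < ρ / 2 by rw [phi_zl_zero, norm_zero]; linarith))] with a ha
    rw [hz, lin _ ha, Complex.coe_smul, ← phi_R_zl]; rfl

end Pool.Agent.Lib.MP_d3d358_ag.AS
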