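import Pool.Agent.Lib.MP_d3d358_ag.AS.KumB

/-! Products of cochains, cut off, and a chart at a free point. -/

set_option autoImplicit false

namespace Pool.Agent.Lib.MP_d3d358_ag.AS

open Topology Set ExteriorAlgebra Filter

section
variable {Z R ι : Type} [CommRing R]

theorem pt_val (L : List (Ch Z R)) : L.prod.1 = (L.map fun a => a.1).foldr cup (fn 1) := by
  induction L with
  | nil => rfl
  | cons a L ih => rw [List.prod_cons, Alg_mul, ih]; rfl

theorem pt_deg (L : List ι) {a : ι → Ch Z R} (h : ∀ i, a i ∈ DZ 1) :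
    (L.map a).prod ∈ DZ (L.length : ℤ) := by
  induction L with
  | nil => exact fnC_mem 1
  | cons i L ih =>
    rw [List.map_cons, List.prod_cons, List.length_cons, Nat.cast_succ, add_comm]
    exact mul_mem_DZ (h i) ih

open Classical in
/-- cut off outside `K` -/
noncomputable def ptCut (K : Set Z) (a : Ch Z R) : Ch Z R :=
  ⟨fun l => if ∀ x ∈ l, x ∈ K then a.1 l else 0, (if_pos (by simp)).trans a.2⟩

open Classical in
theorem pt_cut_deg (K : Set Z) {a : Ch Z R} {k : ℤ} (h : a ∈ DZ k) : ptCut K a ∈ DZ k :=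
  fun l hl => ite_eq_right_iff.2 fun _ => h l hl

variable [TopologicalSpace Z] {K : Set Z}

open Classical in
theorem pt_cut_N {V : Set Z} {a : Ch Z R} (h : a ∈ N V) : ptCut K a ∈ N V :=
  Null_of_loc h fun l hl => ite_eq_right_iff.2 fun _ => hl l fun _ => id

theorem pt_cut_in (a : Ch Z R) : ptCut K a - a ∈ N K :=
  Null_of_zero fun l hl => by
    rw [Alg_sub]
    exact sub_eq_zero.2 (if_pos hl)

theorem pt_cut_out (a : Ch Z R) : ptCut K a ∈ N Kᶜ :=
  Null_of_zero fun l hl => by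
    cases l with
    | nil => exact Alg_nil _
    | cons x l => exact if_neg fun h => hl x (by simp) (h x (by simp))

theorem pt_prod_N {L : List ι} {a : ι → Ch Z R} {i : ι} (hi : i ∈ L) (h : a i ∈ N K) :
    (L.map a).prod ∈ N K := by
  induction L with
  | nil => simp at hi
  | cons j L ih =>
    rw [List.map_cons, List.prod_cons]
    rcases List.mem_cons.1 hi with rfl | hi
    · exact N_mul_right h _
    · exact N_mul_left _ (ih hi)

theorem pt_prod_sub (L : List ι) {a b : ι → Ch Z R} (h : ∀ i, a i - b i ∈ N K) :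
    (L.map a).prod - (L.map b).prod ∈ N K := by
  induction L with
  | nil => simp
  | cons j L ih =>
    rw [List.map_cons, List.prod_cons, List.map_cons, List.prod_cons,
      show a j * (L.map a).prod - b j * (L.map b).prod = (a j - b j) * (L.map a).prod +
        b j * ((L.map a).prod - (L.map b).prod) by noncomm_ring]
    exact Submodule.add_mem _ (N_mul_right (h j) _) (N_mul_left _ ih)

theorem pt_prod_mk (L : List ι) {a : ι → Ch Z R} (h : ∀ i, dC (a i) ∈ N K) :
    ∃ h' : dC (L.map a).prod ∈ N K, mk _ h' = (L.map fun i => mk (a i) (h i)).prod := by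
  induction L with
  | nil => exact ⟨(Zs R K).one_mem, map_one (Ring_mk K)⟩
  | cons j L ih =>
    obtain ⟨h1, e⟩ := ih
    refine ⟨(Zs R K).mul_mem (h j) h1, ?_⟩
    rw [List.map_cons (f := fun i => mk (a i) (h i)), List.prod_cons, ← e]
    exact mk_mul _ _ _

theorem pt_sum_mk (s : Finset ι) {a : ι → Ch Z R} (h : ∀ i, dC (a i) ∈ N K) :
    ∃ h' : dC (∑ i ∈ s, a i) ∈ N K, mk _ h' = ∑ i ∈ s, mk (a i) (h i) := by
  have e : ((∑ i ∈ s, (⟨a i, h i⟩ : Zs R K) : Zs R K) : Ch Z R) = ∑ i ∈ s, a i :=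
    map_sum (Zs R K).val _ _
  refine ⟨e ▸ (∑ i ∈ s, (⟨a i, h i⟩ : Zs R K)).2, ?_⟩
  refine Eq.trans ?_ (map_sum (Ring_mk K) (fun i => (⟨a i, h i⟩ : Zs R K)) s)
  exact congrArg (Ring_mk K) (Subtype.ext e.symm)

/-- cochains that vanish on a set of the filter -/
def ptN (F : Filter Z) : Submodule R (Ch Z R) where
  carrier := {a | ∃ V ∈ F, a ∈ N V}
  zero_mem' := ⟨univ, univ_mem, zero_mem _⟩
  add_mem' := fun ⟨V, hV, a⟩ ⟨W, hW, b⟩ => ⟨V ∩ W, inter_mem hV hW,
    add_mem (N_mono inter_subset_left a) (N_mono inter_subset_right b)⟩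
  smul_mem' := fun c _ ⟨V, hV, a⟩ => ⟨V, hV, Submodule.smul_mem _ c a⟩

theorem ptN_null {x : Z} {a : Ch Z R} (h : a ∈ ptN (𝓝 x)) : NullAt x a.1 := by
  obtain ⟨V, hV, e⟩ := h
  obtain ⟨U, hU, e⟩ := e x (mem_of_mem_nhds hV)
  exact ⟨U ∩ V, inter_mem hU hV, e⟩

theorem ptN_pull {Z' : Type} [TopologicalSpace Z'] {f : Z' → Z} (hf : Continuous f) {z : Z'}
    (K' : Set Z') {a : Ch Z R} (h : a ∈ ptN (𝓝 (f z))) : pullC f a ∈ ptN (𝓝[K'] z) := by
  obtain ⟨V, hV, e⟩ := h
  exact ⟨f ⁻¹' V, mem_nhdsWithin_of_mem_nhds (hf.continuousAt.preimage_mem_nhds hV),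
    N_pullC hf.continuousOn (mapsTo_preimage _ _) e⟩

theorem pt_const {f : Z → R} {c : R} (h : ∀ x ∈ K, f x = c) : dC (fnC f) ∈ N K :=
  dC_fnC_mem_N.2 fun x hx => mem_of_superset self_mem_nhdsWithin fun y hy =>
    (h y hy).trans (h x hx).symm

theorem pt_theta : thetaC R ∈ N ({0}ᶜ : Set UnitAddCircle) := by
  have h := thetaC_lift R (c := id) (K := ({0}ᶜ : Set UnitAddCircle))
    (t := fun x => (AddCircle.equivIco 1 0 x : ℝ))
    (fun x hx => (continuousAt_subtype_val.comp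
      (AddCircle.continuousAt_equivIco 1 0 hx)).continuousWithinAt)
    fun x _ => AddCircle.coe_equivIco.symm
  rw [pullC_id] at h
  have h2 : dC (fnC fun x : UnitAddCircle => ((⌊(AddCircle.equivIco 1 0 x : ℝ)⌋ : ℤ) : R)) ∈
      N ({0}ᶜ : Set UnitAddCircle) := pt_const (c := 0) fun x _ => by
    rw [Int.floor_eq_zero_iff.2 (by simpa using (AddCircle.equivIco 1 0 x).2), Int.cast_zero]
  simpa using add_mem h h2

theorem pt_cls_sub {c : Z → UnitAddCircle} (hc : ContinuousOn c K) (p : UnitAddCircle) :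
    cls R (fun x => c x - p) (hc.sub continuousOn_const) = cls R c hc := by
  obtain ⟨t, rfl⟩ := QuotientAddGroup.mk_surjective p
  have h := cls_add (R := R) (hc.sub (continuousOn_const (c := (t : UnitAddCircle))))
    (continuousOn_const (c := (t : UnitAddCircle)))
  rw [cls_lift continuousOn_const (t := fun _ => t) continuousOn_const fun _ _ => rfl,
    add_zero] at h
  refine h.symm.trans ?_
  congr 1
  funext x
  simp
end

/-- numbering of the coordinates -/
def ptE : I8 ≃ Fin 8 := finSumFinEquiv (m := 4) (n := 4)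

theorem pt_bet {Z : Type} [TopologicalSpace Z] {K : Set Z} {ν : Z → Tor I8}
    (h : ContinuousOn ν K) : bet ν h (Orb.mon Orb.eN Orb.FN) = ((List.finRange 8).map fun i =>
      cls ℚ (fun z => ν z (ptE.symm i)) ((continuous_apply _).comp_continuousOn h)).prod := by
  rw [Orb.mon, map_list_prod, show Orb.FN = (List.finRange 8).map Fin.val by decide, List.map_map,
    List.map_map]
  congr 1
  refine List.map_congr_left fun i _ => ?_
  obtain ⟨j, rfl⟩ := ptE.surjective i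
  simp only [Equiv.symm_apply_apply, Function.comp]
  rcases j with j | j
  · refine Eq.trans ?_ (bet_p h 0 j (KumB_cont h 0 j))
    congr 2
    exact (if_pos j.2).trans (Prod.ext (Orb.eA_single j) rfl)
  · refine Eq.trans ?_ (bet_p h 1 j (KumB_cont h 1 j))
    congr 2
    refine (if_neg (show ¬4 + j.val < 4 by omega)).trans (Prod.ext rfl ?_)
    change Orb.eA (4 + j.val - 4) = _
    rw [Nat.add_sub_cancel_left]
    exact Orb.eA_single j

theorem pt_stab {n : Tor I8} (h : Free n) {s : Equiv.Perm (Fin 3)} (e : sm s n = n) : s = 1 := by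
  ext i
  by_contra hi
  exact h (s i) i (fun e => hi (by rw [e]; rfl)) (by rw [← pa_sm, e])

theorem pt_free : ∃ t : I8 → ℝ, Free (mkT t) := by
  refine ⟨Sum.elim (fun _ => 1 / 8) fun _ => 0, fun i j hij e => hij ?_⟩
  have v : ∀ i, pa i (Sum.elim (fun _ => 1 / 8) fun _ => 0 : I8 → ℝ) 0 = ![1 / 8, 0, -1 / 8] i := by
    intro i
    fin_cases i <;> simp [pa]
    norm_num
  have w : ∀ i : Fin 3, |(![1 / 8, 0, -1 / 8] : Fin 3 → ℝ) i| < 1 / 2 := by
    intro i
    fin_cases i <;> simp [abs_lt] <;> norm_num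
  rw [pa_mkT, pa_mkT] at e
  have := congrArg epsL (congrFun e 0)
  simp only [mkT, v, eps_L_of (w _)] at this
  fin_cases i <;> fin_cases j <;> first | rfl | (exfalso; revert this; simp; try norm_num)

/-- the local parameter at `t` -/
noncomputable def ptG (t : I8 → ℝ) (y : Fin 8 → ℝ) : Tor I8 := mkT (t + y ∘ ptE)

theorem ptG_sub (t : I8 → ℝ) (y : Fin 8 → ℝ) (i : Fin 8) :
    ptG t y (ptE.symm i) - ptG t 0 (ptE.symm i) = (y i : UnitAddCircle) := by
  simp [ptG, mkT]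

theorem ptG_open (t : I8 → ℝ) : Continuous (ptG t) ∧ IsOpenMap (ptG t) := by
  have o : IsOpenQuotientMap (mkT : (I8 → ℝ) → Tor I8) :=
    IsOpenQuotientMap.piMap fun _ => QuotientAddGroup.isOpenQuotientMap_mk
  let u := (Homeomorph.piCongrLeft (Y := fun _ : Fin 8 => ℝ) ptE).symm.trans (Homeomorph.addLeft t)
  exact ⟨o.continuous.comp u.continuous, o.isOpenMap.comp u.isOpenMap⟩

theorem ptG_rad {t : I8 → ℝ} (ht : Free (mkT t)) : ∃ r > 0, r ≤ 1 / 2 ∧
    ∀ y ∈ Metric.ball (0 : Fin 8 → ℝ) r, Free (ptG t y) ∧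
      ∀ y' ∈ Metric.ball (0 : Fin 8 → ℝ) r, ∀ s, ptG t y' = sm s (ptG t y) → y' = y := by
  have c := (ptG_open t).1
  have f0 : Free (ptG t 0) := by simpa [ptG] using ht
  have ev : ∀ᶠ z : (Fin 8 → ℝ) × (Fin 8 → ℝ) in 𝓝 (0, 0), Free (ptG t z.1) ∧
      ∀ s, s ≠ 1 → ptG t z.2 ≠ sm s (ptG t z.1) := by
    refine (((c.comp continuous_fst).tendsto (0, 0)).eventually (isOpen_free.mem_nhds f0)).and
      (eventually_all.2 fun s => ?_)
    by_cases hs : s = 1
    · exact Eventually.of_forall fun _ h => absurd hs h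
    · exact mem_of_superset ((isOpen_ne_fun (c.comp continuous_snd) ((continuous_sm s).comp
        (c.comp continuous_fst))).mem_nhds fun e => hs (pt_stab f0 e.symm)) fun _ h _ => h
  obtain ⟨r, hr, h⟩ := Metric.eventually_nhds_iff_ball.1 ev
  refine ⟨min r (1 / 2), by positivity, min_le_right _ _, fun y hy => ?_⟩
  have b : ∀ {y y' : Fin 8 → ℝ}, y ∈ Metric.ball 0 (min r (1 / 2)) →
      y' ∈ Metric.ball 0 (min r (1 / 2)) → (y, y') ∈ Metric.ball (0, 0) r := fun a b => by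
    rw [← ball_prod_same]
    exact ⟨Metric.ball_subset_ball (min_le_left _ _) a, Metric.ball_subset_ball (min_le_left _ _) b⟩
  refine ⟨(h _ (b hy hy)).1, fun y' hy' s e => ?_⟩
  obtain rfl : s = 1 := by_contra fun hs => (h _ (b hy hy')).2 s hs e
  have sm1 : ∀ {y : Fin 8 → ℝ}, y ∈ Metric.ball 0 (min r (1 / 2)) → ∀ i, |y i| < 1 / 2 :=
    fun {y} a i => (norm_le_pi_norm y i).trans_lt
      ((mem_ball_zero_iff.1 a).trans_le (min_le_right _ _))
  funext i
  rw [← eps_L_of (sm1 hy i), ← eps_L_of (sm1 hy' i), ← ptG_sub t, ← ptG_sub t, e, sm_one]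

variable {P : Matrix (Fin 2) (Fin 4) ℂ} {X : Type} [MetricSpace X] {m : ℕ}
  {S : Set (EuclideanSpace ℂ (Fin m))} {pr : EuclideanSpace ℂ (Fin m) → X}

theorem KumTop.pt_chart (T : KumTop P S pr) : ∃ (t : I8 → ℝ) (r : ℝ)
    (Φ : OpenPartialHomeomorph (Fin 8 → ℝ) X), 0 < r ∧ r ≤ 1 / 2 ∧ Φ.source = Metric.ball 0 r ∧
    (∀ y ∈ Metric.ball (0 : Fin 8 → ℝ) r, Free (ptG t y)) ∧ ∀ y, Φ y = T.sec (ptG t y) := by
  obtain ⟨t, ht⟩ := pt_free
  obtain ⟨r, hr, hr2, h⟩ := ptG_rad ht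
  obtain ⟨c, o⟩ := ptG_open t
  have inj : InjOn (fun y => T.sec (ptG t y)) (Metric.ball 0 r) := by
    intro y hy y' hy' e
    have e2 := congrArg T.π e
    simp only [T.π_sec] at e2
    obtain ⟨s, hs⟩ := (T.q_iff _ _).1 e2
    exact ((h y hy).2 y' hy' s hs).symm
  have op : ∀ V ⊆ Metric.ball 0 r, IsOpen V → IsOpen ((fun y => T.sec (ptG t y)) '' V) := by
    intro V hV oV
    have cl : IsClosed (⋂ s, sm s ⁻¹' (ptG t '' V)ᶜ) :=
      isClosed_iInter fun s => (o V oV).isClosed_compl.preimage (continuous_sm s)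
    have e : ((fun y => T.sec (ptG t y)) '' V)ᶜ = T.π ⁻¹' (T.q '' ⋂ s, sm s ⁻¹' (ptG t '' V)ᶜ) := by
      ext x
      constructor
      · intro hx
        obtain ⟨n, hn⟩ : T.π x ∈ range T.q := T.rng ▸ mem_range_self x
        refine ⟨n, mem_iInter.2 fun s ⟨y, hy, e⟩ => hx ⟨y, hy, ?_⟩, hn⟩
        exact (T.uniq _ x (h y (hV hy)).1 (hn.symm.trans ((T.q_iff _ _).2 ⟨s, e⟩))).symm
      · rintro ⟨n, hn, e⟩ ⟨y, hy, rfl⟩
        rw [T.π_sec] at e
        obtain ⟨s, hs⟩ := (T.q_iff _ _).1 e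
        exact mem_iInter.1 hn s ⟨y, hy, hs⟩
    rw [← isClosed_compl_iff, e]
    exact (cl.isCompact.image T.cq).isClosed.preimage T.cπ
  refine ⟨t, r, OpenPartialHomeomorph.ofContinuousOpenRestrict (inj.toPartialEquiv _ _)
    (T.csec.comp c.continuousOn fun y hy => (h y hy).1) (fun W hW => ?_) Metric.isOpen_ball,
    hr, hr2, rfl, fun y hy => (h y hy).1, fun _ => rfl⟩
  have := op (Subtype.val '' W) (by rintro _ ⟨y, -, rfl⟩; exact y.2)
    (Metric.isOpen_ball.isOpenMap_subtype_val W hW)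
  rwa [image_image] at this

end Pool.Agent.Lib.MP_d3d358_ag.AS
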