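import Pool.Agent.Lib.MP_d3d358_ag.AS.Null
import Pool.Agent.Lib.MP_d3d358_ag.AS.Prism

set_option autoImplicit false

namespace Pool.Agent.Lib.MP_d3d358_ag.AS

open Topology Set

variable {Z : Type} (R : Type) [CommRing R] [TopologicalSpace Z]

def Zs (K : Set Z) : Subalgebra R (Ch Z R) where
  carrier := {a | dC a ∈ N K}
  mul_mem' := fun {a b} ha hb => by
    change dC (a * b) ∈ N K
    rw [dC_mul]
    exact Submodule.add_mem _ (N_mul_right ha _) (N_mul_left _ hb)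
  add_mem' := fun {a b} ha hb => by
    change dC (a + b) ∈ N K
    rw [map_add]
    exact Submodule.add_mem _ ha hb
  algebraMap_mem' := fun r => by
    change dC (algebraMap R (Ch Z R) r) ∈ N K
    rw [Algebra.algebraMap_eq_smul_one, map_smul, dC_one, smul_zero]
    exact Submodule.zero_mem _

def Bs (K : Set Z) : Ideal (Zs R K) where
  carrier := {a | ∃ b : Ch Z R, a.1 - dC b ∈ N K}
  zero_mem' := ⟨0, by rw [map_zero, sub_zero]; exact Submodule.zero_mem _⟩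
  add_mem' := fun {a a'} ⟨b, hb⟩ ⟨b', hb'⟩ => ⟨b + b', by
    rw [map_add, Subalgebra.coe_add, add_sub_add_comm]
    exact Submodule.add_mem _ hb hb'⟩
  smul_mem' := fun c a ⟨b, hb⟩ => ⟨sg c.1 * b, by
    have : (c • a).1 - dC (sg c.1 * b) = c.1 * (a.1 - dC b) + sg (dC c.1) * b := by
      rw [dC_mul, dC_sg, sg_sg, smul_eq_mul, Subalgebra.coe_mul, mul_sub, neg_mul]
      abel
    rw [this]
    exact Submodule.add_mem _ (N_mul_left _ hb) (N_mul_right (N_sg c.2) _)⟩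

instance (K : Set Z) : (Bs R K).IsTwoSided :=
  ⟨fun {a} c ⟨b, hb⟩ => ⟨b * c.1, by
    have : (a * c).1 - dC (b * c.1) = (a.1 - dC b) * c.1 - sg b * dC c.1 := by
      rw [dC_mul, Subalgebra.coe_mul, sub_mul]
      abel
    rw [this]
    exact Submodule.sub_mem _ (N_mul_right hb _) (N_mul_left _ c.2)⟩⟩

def HT (K : Set Z) : Type := Zs R K ⧸ Bs R K
noncomputable instance (K : Set Z) : Ring (HT R K) := Ideal.Quotient.ring _
noncomputable instance (K : Set Z) : Algebra R (HT R K) := Ideal.Quotient.algebra R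

variable {R} {K L : Set Z}
noncomputable def mk (a : Ch Z R) (h : dC a ∈ N K) : HT R K := Ideal.Quotient.mk (Bs R K) ⟨a, h⟩

/-- the class map as an algebra map -/
noncomputable def Ring_mk (K : Set Z) : Zs R K →ₐ[R] HT R K := Ideal.Quotient.mkₐ R (Bs R K)

theorem Ring_mk_eq (a : Zs R K) : Ring_mk K a = mk a.1 a.2 := rfl

theorem Ring_surj (x : HT R K) : ∃ a h, x = mk a h := by
  obtain ⟨a, rfl⟩ := Ideal.Quotient.mk_surjective (I := Bs R K) x
  exact ⟨a.1, a.2, rfl⟩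

def Hk (K : Set Z) (k : ℤ) : Submodule R (HT R K) where
  carrier := {x | ∃ a h, a ∈ DZ k ∧ x = mk a h}
  zero_mem' := ⟨0, (Zs R K).zero_mem, Submodule.zero_mem _, (map_zero (Ring_mk K)).symm⟩
  add_mem' := by
    rintro _ _ ⟨a, h, ha, rfl⟩ ⟨b, h', hb, rfl⟩
    exact ⟨a + b, (Zs R K).add_mem h h', Submodule.add_mem _ ha hb,
      (map_add (Ring_mk K) ⟨a, h⟩ ⟨b, h'⟩).symm⟩
  smul_mem' := by
    rintro c _ ⟨a, h, ha, rfl⟩
    exact ⟨c • a, (Zs R K).smul_mem h c, Submodule.smul_mem _ c ha,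
      (map_smul (Ring_mk K) c ⟨a, h⟩).symm⟩

variable {Z' Z'' : Type} [TopologicalSpace Z'] [TopologicalSpace Z''] {K' : Set Z'} {K'' : Set Z''}

noncomputable def pull (f : Z' → Z) (hf : ContinuousOn f K') (hm : MapsTo f K' K) :
    HT R K →ₐ[R] HT R K' :=
  Ideal.quotientMapₐ (Bs R K') (((pullC f).comp (Zs R K).val).codRestrict (Zs R K') fun a => by
    change dC (pullC f a.1) ∈ N K'
    rw [dC_pullC]
    exact N_pullC hf hm a.2) fun a ⟨b, hb⟩ => ⟨pullC f b, by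
      change pullC f a.1 - dC (pullC f b) ∈ N K'
      rw [dC_pullC, ← map_sub]
      exact N_pullC hf hm hb⟩

noncomputable def res (h : K ⊆ L) : HT R L →ₐ[R] HT R K := pull id continuousOn_id h

omit [TopologicalSpace Z] in
theorem Ring_coef_one {R' : Type} [CommRing R'] (t : R →+* R') :
    coef (t : R →+ R') (1 : Ch Z R) = 1 := by
  refine Alg_ext fun l => ?_
  change t (fn 1 l) = fn 1 l
  match l with
  | [] => exact map_zero t
  | [x] => rw [Alg_fn_one, Alg_fn_one]; exact map_one t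
  | x :: y :: l => rw [Alg_fn_two, Alg_fn_two]; exact map_zero t

/-- change of coefficients on cocycles -/
noncomputable def Ring_coef {R' : Type} [CommRing R'] (t : R →+* R') (K : Set Z) :
    Zs R K →+* Zs R' K where
  toFun a := ⟨coef (t : R →+ R') a.1, by
    change dC (coef (t : R →+ R') a.1) ∈ N K
    rw [dC_coef]
    exact N_coef _ a.2⟩
  map_one' := Subtype.ext (Ring_coef_one t)
  map_mul' a b := Subtype.ext (coef_mul t a.1 b.1)
  map_zero' := Subtype.ext (map_zero (coef (t : R →+ R')))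
  map_add' a b := Subtype.ext (map_add (coef (t : R →+ R')) a.1 b.1)

noncomputable def cc {R' : Type} [CommRing R'] (t : R →+* R') : HT R K →+* HT R' K :=
  Ideal.quotientMap (Bs R' K) (Ring_coef t K) fun a ⟨b, hb⟩ => ⟨coef (t : R →+ R') b, by
    change coef (t : R →+ R') a.1 - dC (coef (t : R →+ R') b) ∈ N K
    rw [dC_coef, ← map_sub]
    exact N_coef _ hb⟩

theorem mk_add {a b : Ch Z R} (ha : dC a ∈ N K) (hb : dC b ∈ N K) (h) :
    mk (a + b) h = mk a ha + mk b hb := map_add (Ring_mk K) ⟨a, ha⟩ ⟨b, hb⟩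
theorem mk_mul {a b : Ch Z R} (ha : dC a ∈ N K) (hb : dC b ∈ N K) (h) :
    mk (a * b) h = mk a ha * mk b hb := map_mul (Ring_mk K) ⟨a, ha⟩ ⟨b, hb⟩
theorem mk_smul (c : R) {a : Ch Z R} (ha : dC a ∈ N K) (h) : mk (c • a) h = c • mk a ha :=
  map_smul (Ring_mk K) c ⟨a, ha⟩
theorem mk_eq_iff {a b : Ch Z R} (ha : dC a ∈ N K) (hb : dC b ∈ N K) :
    mk a ha = mk b hb ↔ ∃ c, a - b - dC c ∈ N K := Ideal.Quotient.eq (I := Bs R K)
theorem mk_eq_zero_iff {k : ℤ} {a : Ch Z R} (hk : a ∈ DZ k) (ha : dC a ∈ N K) :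
    mk a ha = 0 ↔ ∃ c ∈ DZ (k - 1), a - dC c ∈ N K := by
  refine (Ideal.Quotient.eq_zero_iff_mem (I := Bs R K)).trans
    ⟨fun ⟨c, hc⟩ => ⟨prj (k - 1) c, prj_mem _ _, ?_⟩, fun ⟨c, _, hc⟩ => ⟨c, hc⟩⟩
  have := N_prj k hc
  rw [map_sub, prj_of_mem hk] at this
  rwa [dC_prj, sub_add_cancel]
theorem pull_mk (f : Z' → Z) (hf : ContinuousOn f K') (hm : MapsTo f K' K) {a : Ch Z R}
    (ha : dC a ∈ N K) (h) : pull f hf hm (mk a ha) = mk (pullC f a) h := rfl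
theorem res_mk (hKL : K ⊆ L) {a : Ch Z R} (ha : dC a ∈ N L) :
    res hKL (mk a ha) = mk a (N_mono hKL ha) :=
  congrArg (Ring_mk K) (Subtype.ext (pullC_id a))
theorem cc_mk {R' : Type} [CommRing R'] (t : R →+* R') {a : Ch Z R} (ha : dC a ∈ N K) (h) :
    cc t (mk a ha) = mk (coef (t : R →+ R') a) h := rfl
theorem pull_pull {f : Z' → Z} {hf : ContinuousOn f K'} {hm : MapsTo f K' K} {g : Z'' → Z'}
    {hg : ContinuousOn g K''} {hn : MapsTo g K'' K'} (x : HT R K) :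
    pull g hg hn (pull f hf hm x) = pull (f ∘ g) (hf.comp hg hn) (hm.comp hn) x := by
  obtain ⟨a, h, rfl⟩ := Ring_surj x
  exact congrArg (Ring_mk K'') (Subtype.ext (pullC_pullC f g a))
theorem pull_congr {f g : Z' → Z} {hf : ContinuousOn f K'} {hm : MapsTo f K' K}
    {hg : ContinuousOn g K'} {hn : MapsTo g K' K} (h : EqOn f g K') (x : HT R K) :
    pull f hf hm x = pull g hg hn x := by
  obtain ⟨a, ha, rfl⟩ := Ring_surj x
  refine (mk_eq_iff _ _).2 ⟨0, ?_⟩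
  rw [map_zero, sub_zero]
  exact pullC_congr h a
theorem res_self (x : HT R K) : res subset_rfl x = x := by
  obtain ⟨a, h, rfl⟩ := Ring_surj x
  exact res_mk _ h
theorem cc_pull {R' : Type} [CommRing R'] (t : R →+* R') (f : Z' → Z) (hf : ContinuousOn f K')
    (hm : MapsTo f K' K) (x : HT R K) : cc t (pull f hf hm x) = pull f hf hm (cc t x) := by
  obtain ⟨a, h, rfl⟩ := Ring_surj x
  rfl
theorem pull_mem {f : Z' → Z} {hf : ContinuousOn f K'} {hm : MapsTo f K' K} {k : ℤ} {x : HT R K}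
    (h : x ∈ Hk K k) : pull f hf hm x ∈ Hk K' k := by
  obtain ⟨a, h, ha, rfl⟩ := h
  exact ⟨pullC f a, _, pullC_mem f ha, rfl⟩
theorem cc_mem {R' : Type} [CommRing R'] (t : R →+* R') {k : ℤ} {x : HT R K} (h : x ∈ Hk K k) :
    cc t x ∈ Hk K k := by
  obtain ⟨a, h, ha, rfl⟩ := h
  refine ⟨coef (t : R →+ R') a, _, fun l hl => ?_, rfl⟩
  change t (a.1 l) = 0
  rw [ha l hl, map_zero]
theorem mul_mem_Hk {p q : ℤ} {x y : HT R K} (hx : x ∈ Hk K p) (hy : y ∈ Hk K q) :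
    x * y ∈ Hk K (p + q) := by
  obtain ⟨a, h, ha, rfl⟩ := hx
  obtain ⟨b, h', hb, rfl⟩ := hy
  exact ⟨a * b, (Zs R K).mul_mem h h', mul_mem_DZ ha hb, (mk_mul h h' _).symm⟩
theorem one_mem_Hk : (1 : HT R K) ∈ Hk K 0 := ⟨1, (Zs R K).one_mem, fnC_mem 1, rfl⟩
theorem Hk_neg {k : ℤ} (hk : k < 0) {x : HT R K} (h : x ∈ Hk K k) : x = 0 := by
  obtain ⟨a, h, ha, rfl⟩ := h
  obtain rfl := DZ_neg hk ha
  exact map_zero (Ring_mk K)
theorem comm_one {k : ℤ} {v x : HT R K} (hv : v ∈ Hk K 1) (hx : x ∈ Hk K k) :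
    v * x = (k.negOnePow : ℤ) • (x * v) := by
  obtain ⟨v, dv, hv, rfl⟩ := hv
  obtain ⟨a, da, ha, rfl⟩ := hx
  obtain ⟨c, e, h1, h2⟩ := exists_hirsch hv a
  have he : e ∈ N K := fun x hx => by
    obtain ⟨U, hU, u⟩ := dv x hx
    obtain ⟨V, hV, w⟩ := da x hx
    exact ⟨U ∩ V, Filter.inter_mem hU hV, fun l hl => h2 l fun m hm =>
      ⟨u m fun y hy => ⟨(hl y (hm y hy)).1.1, (hl y (hm y hy)).2⟩,
        w m fun y hy => ⟨(hl y (hm y hy)).1.2, (hl y (hm y hy)).2⟩⟩⟩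
  change Ring_mk K ⟨v, dv⟩ * Ring_mk K ⟨a, da⟩ = _ • (Ring_mk K ⟨a, da⟩ * Ring_mk K ⟨v, dv⟩)
  rw [← map_mul, ← map_mul, ← map_zsmul]
  refine (mk_eq_iff _ _).2 ⟨c, ?_⟩
  change v * a - (k.negOnePow : ℤ) • (a * v) - dC c ∈ N K
  rwa [← smul_mul_assoc, ← sg_of_mem ha, h1, add_sub_cancel_left]
theorem sq_one [Algebra ℚ R] {v : HT R K} (hv : v ∈ Hk K 1) : v * v = 0 := by
  have h := comm_one hv hv
  rw [Int.negOnePow_one, Units.val_neg, Units.val_one, neg_smul, one_smul,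
    eq_neg_iff_add_eq_zero, ← two_smul R] at h
  have e : algebraMap ℚ R (1 / 2) * 2 = 1 := by
    rw [← map_ofNat (algebraMap ℚ R) 2, ← map_mul, ← map_one (algebraMap ℚ R)]
    norm_num
  rw [← one_smul R (v * v), ← e, mul_smul, h, smul_zero]
theorem Hk_zero (hK : IsPreconnected K) {x : HT R K} (h : x ∈ Hk K 0) :
    ∃ c : R, x = c • 1 := by
  obtain ⟨a, da, ha, rfl⟩ := h
  obtain ⟨f, rfl⟩ : ∃ f, a = fnC f := ⟨_, eq_fnC ha⟩
  obtain ⟨c, hc⟩ : ∃ c, ∀ y ∈ K, f y = c := by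
    rcases K.eq_empty_or_nonempty with rfl | ⟨p, hp⟩
    · exact ⟨0, fun _ h => h.elim⟩
    haveI := isPreconnected_iff_preconnectedSpace.1 hK
    have lc : IsLocallyConstant fun y : K => f y :=
      (IsLocallyConstant.iff_eventually_eq _).2 fun y => by
        have := dC_fnC_mem_N.1 da y y.2
        rwa [nhdsWithin_eq_map_subtype_coe y.2] at this
    exact ⟨f p, fun y hy => lc.apply_eq_of_preconnectedSpace ⟨y, hy⟩ ⟨p, hp⟩⟩
  refine ⟨c, ?_⟩
  change _ = c • mk 1 (Zs R K).one_mem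
  rw [← mk_smul c _ ((Zs R K).smul_mem (Zs R K).one_mem c), mk_eq_iff]
  refine ⟨0, Null_of_zero fun l hl => ?_⟩
  rw [map_zero, sub_zero]
  change fn f l - c * fn 1 l = 0
  match l, hl with
  | [], _ => simp [fn]
  | [x], hl => rw [Alg_fn_one, Alg_fn_one, hc x (hl x (by simp))]; simp
  | x :: y :: l, _ => rw [Alg_fn_two, Alg_fn_two]; simp
theorem smul_one_ne (hK : K.Nonempty) {c : R} (h : c • (1 : HT R K) = 0) : c = 0 := by
  change c • mk 1 (Zs R K).one_mem = 0 at h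
  rw [← mk_smul c _ ((Zs R K).smul_mem (Zs R K).one_mem c)] at h
  obtain ⟨b, hb, e⟩ := (mk_eq_zero_iff (Submodule.smul_mem _ c (fnC_mem 1)) _).1 h
  obtain rfl := DZ_neg (by norm_num) hb
  rw [map_zero, sub_zero] at e
  obtain ⟨x, hx⟩ := hK
  obtain ⟨U, hU, u⟩ := e x hx
  have := u [x] (by simpa using ⟨mem_of_mem_nhds hU, hx⟩)
  change c * fn 1 [x] = 0 at this
  simpa [Alg_fn_one] using this
/-- rational classes that are dependent over `ℂ` -/
theorem cc_functional {m : ℕ} (c : Fin m → ℂ) (x : Fin m → HT ℚ K)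
    (h : ∑ i, c i • cc (algebraMap ℚ ℂ) (x i) = 0) (t : ℂ →ₗ[ℚ] ℚ) :
    ∑ i, t (c i) • x i = 0 := by
  choose a ha e using fun i => Ring_surj (x i)
  obtain rfl : x = fun i => Ring_mk K ⟨a i, ha i⟩ := funext e
  have e1 : ∀ i, cc (algebraMap ℚ ℂ) (Ring_mk K ⟨a i, ha i⟩) =
      Ring_mk K (Ring_coef (algebraMap ℚ ℂ) K ⟨a i, ha i⟩) := fun _ => rfl
  simp only [e1, ← map_smul, ← map_sum] at h ⊢
  obtain ⟨b, hb⟩ := (Ideal.Quotient.eq_zero_iff_mem (I := Bs ℂ K)).1 h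
  refine (Ideal.Quotient.eq_zero_iff_mem (I := Bs ℚ K)).2 ⟨coef t.toAddMonoidHom b, ?_⟩
  have := N_coef t.toAddMonoidHom hb
  rw [map_sub, ← dC_coef] at this
  convert this using 2
  rw [AddSubmonoidClass.coe_finset_sum, AddSubmonoidClass.coe_finset_sum, map_sum]
  refine Finset.sum_congr rfl fun i _ => Alg_ext fun l => ?_
  change t (c i) * (a i).1 l = t (c i * algebraMap ℚ ℂ ((a i).1 l))
  rw [mul_comm (c i), ← Algebra.smul_def, map_smul, smul_eq_mul, mul_comm]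

/-- link with the statement -/
theorem exists_iota (k : ℕ) : ∃ ι : H Z R k →ₗ[R] HT R (univ : Set Z), Function.Injective ι ∧
    (∀ x, x ∈ Hk univ (k : ℤ) ↔ ∃ a, ι a = x) ∧
    ∀ (a : H Z R k) (φ : List Z → R), Cls a φ ↔
      ∃ (c : Ch Z R) (h : dC c ∈ N univ), c.1 = φ ∧ c ∈ DZ (k : ℤ) ∧ ι a = mk c h := by
  let j : Coc Z R k →ₗ[R] Zs R (univ : Set Z) :=
    { toFun := fun φ => ⟨⟨φ.1, φ.2.1 [] (by simp)⟩, mem_N_univ.2 φ.2.2⟩
      map_add' := fun _ _ => rfl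
      map_smul' := fun _ _ => rfl }
  let g : Coc Z R k →ₗ[R] HT R (univ : Set Z) := (Ring_mk univ).toLinearMap ∘ₗ j
  have ker : ∀ φ, g φ = 0 ↔ φ ∈ (Cob Z R).submoduleOf (Coc Z R k) := fun φ =>
    (Ideal.Quotient.eq_zero_iff_mem (I := Bs R univ)).trans
      ⟨fun ⟨b, hb⟩ => ⟨b.1, b.2, mem_N_univ.1 hb⟩, fun ⟨ψ, h0, h⟩ => ⟨⟨ψ, h0⟩, mem_N_univ.2 h⟩⟩
  have deg : ∀ c : Ch Z R, c ∈ DZ (k : ℤ) ↔ Deg k c.1 := fun c =>
    forall_congr' fun l => imp_congr_left (by omega)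
  have le : (Cob Z R).submoduleOf (Coc Z R k) ≤ LinearMap.ker g := fun φ h => (ker φ).2 h
  letI : @Module R (HT R (univ : Set Z)) _ AddCommGroup.toAddCommMonoid := Algebra.toModule
  let ι₀ := ((Cob Z R).submoduleOf (Coc Z R k)).liftQ g le
  let ι : H Z R k →ₗ[R] HT R (univ : Set Z) := ι₀
  have inj : Function.Injective ι := (LinearMap.ker_eq_bot (f := ι₀)).1
    (Submodule.ker_liftQ_eq_bot _ g le fun φ h => (ker φ).1 h)
  refine ⟨ι, inj, fun x => ⟨?_, ?_⟩, fun a φ => ⟨?_, ?_⟩⟩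
  · rintro ⟨c, h, hc, rfl⟩
    exact ⟨Submodule.Quotient.mk ⟨c.1, (deg c).1 hc, mem_N_univ.1 h⟩, rfl⟩
  · rintro ⟨a, rfl⟩
    obtain ⟨φ, rfl⟩ := Submodule.Quotient.mk_surjective _ a
    exact ⟨(j φ).1, (j φ).2, (deg _).2 φ.2.1, rfl⟩
  · rintro ⟨h, rfl⟩
    exact ⟨(j ⟨φ, h⟩).1, (j ⟨φ, h⟩).2, rfl, (deg _).2 h.1, rfl⟩
  · rintro ⟨c, h, rfl, hc, e⟩
    exact ⟨⟨(deg c).1 hc, mem_N_univ.1 h⟩, inj e⟩

end Pool.Agent.Lib.MP_d3d358_ag.AS
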