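import Mathlib

set_option autoImplicit false

namespace Pool.Agent.Lib.MP_d3d358_ag.AS

open Topology Set

structure Th (R B : Type) [CommRing R] [TopologicalSpace B] where
  M : Type
  [acg : AddCommGroup M]
  [mod : Module R M]
  d : M →ₗ[R] M
  D : ℤ → Submodule R M
  N : Set B → Submodule R M
  low : ∃ k₀, ∀ k < k₀, ∀ m ∈ D k, m = 0
  d_deg : ∀ k, ∀ m ∈ D k, d m ∈ D (k + 1)
  d_N : ∀ K, ∀ m ∈ N K, d m ∈ N K
  dd : ∀ m, d (d m) ∈ N univ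
  mono : ∀ K L, K ⊆ L → N L ≤ N K
  empty : ∀ m, m ∈ N ∅
  split : ∀ K L k, IsClosed L → ∀ a ∈ D k, a ∈ N (K ∩ L) → ∃ b ∈ D k, b ∈ N K ∧ a - b ∈ N L
  union : ∀ K L k, IsClosed K → IsClosed L → ∀ a ∈ D k, a ∈ N K → a ∈ N L → d a ∈ N (K ∪ L) →
    ∃ b ∈ D (k - 1), b ∈ N K ∧ b ∈ N L ∧ a - d b ∈ N (K ∪ L)
  nhds : ∀ K L k, IsClosed K → IsClosed L → K ⊆ L → ∀ a ∈ D k, a ∈ N K → ∀ V ∈ 𝓝ˢ K,
    d a ∈ N (V ∩ L) → ∃ b ∈ D (k - 1), b ∈ N K ∧ ∃ V' ∈ 𝓝ˢ K, a - d b ∈ N (V' ∩ L)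

attribute [instance] Th.acg Th.mod

variable {R B : Type} [CommRing R] [MetricSpace B]

def Th.Ac (T : Th R B) (K : Set B) (k : ℤ) : Prop :=
  ∀ a ∈ T.D k, T.d a ∈ T.N K → ∃ b ∈ T.D (k - 1), a - T.d b ∈ T.N K

theorem Th.d_deg' (T : Th R B) {k : ℤ} {m : T.M} (h : m ∈ T.D (k - 1)) : T.d m ∈ T.D k := by
  have := T.d_deg _ m h
  rwa [sub_add_cancel] at this

theorem Th.of_univ (T : Th R B) (K : Set B) {m : T.M} (h : m ∈ T.N univ) : m ∈ T.N K :=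
  T.mono K univ (subset_univ K) h

theorem Th.dd' (T : Th R B) (K : Set B) (m : T.M) : T.d (T.d m) ∈ T.N K := T.of_univ K (T.dd m)

theorem Th.mem_of_eq (T : Th R B) {K : Set B} {a b : T.M} (h : a ∈ T.N K) (e : b = a) :
    b ∈ T.N K := e ▸ h

/-- zero on two closed sets, and nothing on the intersection one degree lower -/
theorem Th.mv0 (T : Th R B) {P Q : Set B} (hP : IsClosed P) (hQ : IsClosed Q) {j : ℤ}
    (hA : T.Ac (P ∩ Q) (j - 1)) {a : T.M} (ha : a ∈ T.D j) (hd : T.d a ∈ T.N (P ∪ Q))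
    {b b' : T.M} (hb : b ∈ T.D (j - 1)) (hb' : b' ∈ T.D (j - 1)) (e : a - T.d b ∈ T.N P)
    (e' : a - T.d b' ∈ T.N Q) : ∃ c ∈ T.D (j - 1), a - T.d c ∈ T.N (P ∪ Q) := by
  obtain ⟨g, hg, eg⟩ := hA (b - b') (sub_mem hb hb') (T.mem_of_eq
    (sub_mem (T.mono _ _ inter_subset_right e') (T.mono _ _ inter_subset_left e))
    (by rw [map_sub]; abel))
  obtain ⟨m, hm, mP, mQ⟩ := T.split P Q (j - 1) hQ _ (sub_mem (sub_mem hb hb') (T.d_deg' hg)) eg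
  obtain ⟨c, hc, -, -, ec⟩ := T.union P Q j hP hQ (a - T.d (b - m))
    (sub_mem ha (T.d_deg' (sub_mem hb hm)))
    (T.mem_of_eq (add_mem e (T.d_N _ _ mP)) (by rw [map_sub]; abel))
    (T.mem_of_eq (sub_mem (sub_mem e' (T.dd' Q g)) (T.d_N _ _ mQ))
      (by simp only [map_sub]; abel))
    (T.mem_of_eq (sub_mem hd (T.dd' _ (b - m))) (map_sub _ _ _))
  exact ⟨b - m + c, add_mem (sub_mem hb hm) hc, T.mem_of_eq ec (by rw [map_add]; abel)⟩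

theorem Th.vanish_step (T : Th R B) {K : Set B} (hK : IsCompact K) {j : ℤ}
    (h : ∀ x ∈ K, T.Ac {x} j) (ih : ∀ P, IsClosed P → P ⊆ K → T.Ac P (j - 1)) : T.Ac K j := by
  intro a ha hd
  have key := hK.induction_on (p := fun S => ∃ P, IsClosed P ∧ P ⊆ K ∧ S ∩ K ⊆ P ∧
    ∃ b ∈ T.D (j - 1), a - T.d b ∈ T.N P)
    ⟨∅, isClosed_empty, empty_subset _, by simp, 0, zero_mem _, T.empty _⟩
    (fun s t hst ⟨P, h1, h2, h3, h4⟩ => ⟨P, h1, h2, (inter_subset_inter_left _ hst).trans h3, h4⟩)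
    (fun s t ⟨P, p1, p2, p3, b, hb, e⟩ ⟨Q, q1, q2, q3, b', hb', e'⟩ =>
      ⟨P ∪ Q, p1.union q1, union_subset p2 q2,
        by rw [union_inter_distrib_right]; exact union_subset_union p3 q3,
        T.mv0 p1 q1 (ih _ (p1.inter q1) (inter_subset_left.trans p2)) ha
          (T.mono _ _ (union_subset p2 q2) hd) hb hb' e e'⟩)
    (fun x hx => by
      have hxK : ({x} : Set B) ⊆ K := singleton_subset_iff.2 hx
      obtain ⟨b, hb, e⟩ := h x hx a ha (T.mono _ _ hxK hd)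
      obtain ⟨c, hc, -, V, hV, ec⟩ := T.nhds {x} K j isClosed_singleton hK.isClosed hxK _
        (sub_mem ha (T.d_deg' hb)) e univ Filter.univ_mem
        (T.mem_of_eq (sub_mem (T.mono _ _ inter_subset_right hd) (T.dd' _ b)) (map_sub _ _ _))
      rw [nhdsSet_singleton] at hV
      obtain ⟨C, hC, cC, sC⟩ := exists_mem_nhds_isClosed_subset hV
      exact ⟨C, mem_nhdsWithin_of_mem_nhds hC, C ∩ K, cC.inter hK.isClosed, inter_subset_right,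
        subset_rfl, b + c, add_mem hb hc,
        T.mem_of_eq (T.mono _ _ (inter_subset_inter_left _ sC) ec) (by rw [map_add]; abel)⟩)
  obtain ⟨P, -, -, p3, b, hb, e⟩ := key
  exact ⟨b, hb, T.mono _ _ (by simpa using p3) e⟩

/-- VANISH -/
theorem Th.vanish (T : Th R B) {K : Set B} (hK : IsCompact K) (n : ℤ)
    (h : ∀ x ∈ K, ∀ j ≤ n, T.Ac {x} j) : ∀ j ≤ n, T.Ac K j := by
  obtain ⟨k₀, h0⟩ := T.low
  have key : ∀ m : ℕ, ∀ j < k₀ + m, j ≤ n → ∀ P, IsClosed P → P ⊆ K → T.Ac P j := by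
    intro m
    induction m with
    | zero =>
      intro j hj _ P _ _ a ha _
      exact ⟨0, zero_mem _, by rw [h0 j (by simpa using hj) a ha]; simp⟩
    | succ m ih =>
      intro j hj hn P hP hPK
      exact T.vanish_step (hK.of_isClosed_subset hP hPK) (fun x hx => h x (hPK hx) j hn)
        fun Q hQ hQP => ih (j - 1) (by push_cast at hj; omega) (by omega) Q hQ (hQP.trans hPK)
  intro j hj
  exact key ((j - k₀).toNat + 1) j (by push_cast; omega) hj K hK.isClosed subset_rfl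

/-- extension of `T₁` (shifted by `s`) by `T₂`: `d (a, b) = (d a, f a + d b)` -/
def Th.ext (T₁ T₂ : Th R B) (s : ℤ) (f : T₁.M →ₗ[R] T₂.M)
    (hD : ∀ k, ∀ a ∈ T₁.D (k + s), f a ∈ T₂.D (k + 1)) (hN : ∀ K, ∀ a ∈ T₁.N K, f a ∈ T₂.N K)
    (hd : ∀ a, f (T₁.d a) + T₂.d (f a) ∈ T₂.N univ) : Th R B where
  M := T₁.M × T₂.M
  d := (T₁.d ∘ₗ LinearMap.fst R _ _).prod (f.coprod T₂.d)
  D k := (T₁.D (k + s)).prod (T₂.D k)
  N K := (T₁.N K).prod (T₂.N K)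
  low := by
    obtain ⟨k₁, h1⟩ := T₁.low
    obtain ⟨k₂, h2⟩ := T₂.low
    exact ⟨min (k₁ - s) k₂, fun k hk m hm =>
      Prod.ext (h1 _ (by omega) _ hm.1) (h2 _ (by omega) _ hm.2)⟩
  d_deg := fun k m hm => ⟨by
      have := T₁.d_deg _ _ hm.1
      rwa [add_right_comm] at this,
    add_mem (hD _ _ hm.1) (T₂.d_deg _ _ hm.2)⟩
  d_N := fun K m hm => ⟨T₁.d_N _ _ hm.1, add_mem (hN _ _ hm.1) (T₂.d_N _ _ hm.2)⟩
  dd := fun m => ⟨T₁.dd m.1, T₂.mem_of_eq (add_mem (hd m.1) (T₂.dd m.2)) (by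
    change f (T₁.d m.1) + T₂.d (f m.1 + T₂.d m.2) = _
    rw [map_add]; abel)⟩
  mono := fun K L h m hm => ⟨T₁.mono _ _ h hm.1, T₂.mono _ _ h hm.2⟩
  empty := fun m => ⟨T₁.empty _, T₂.empty _⟩
  split := fun K L k hL a ha h => by
    obtain ⟨b, hb, b1, b2⟩ := T₁.split K L _ hL a.1 ha.1 h.1
    obtain ⟨c, hc, c1, c2⟩ := T₂.split K L _ hL a.2 ha.2 h.2
    exact ⟨(b, c), ⟨hb, hc⟩, ⟨b1, c1⟩, b2, c2⟩
  union := fun K L k hK hL a ha h1 h2 h => by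
    obtain ⟨b, hb, b1, b2, e⟩ := T₁.union K L _ hK hL a.1 ha.1 h1.1 h2.1 h.1
    have hb' : b ∈ T₁.D (k - 1 + s) := by rwa [sub_add_eq_add_sub]
    have hfb : f b ∈ T₂.D k := by
      have := hD _ _ hb'
      rwa [sub_add_cancel] at this
    have h' : f a.1 + T₂.d a.2 ∈ T₂.N (K ∪ L) := h.2
    obtain ⟨c, hc, c1, c2, e'⟩ := T₂.union K L k hK hL (a.2 - f b) (sub_mem ha.2 hfb)
      (sub_mem h1.2 (hN _ _ b1)) (sub_mem h2.2 (hN _ _ b2))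
      (T₂.mem_of_eq (sub_mem (sub_mem h' (hN _ _ e)) (T₂.of_univ _ (hd b)))
        (by simp only [map_sub]; abel))
    exact ⟨(b, c), ⟨hb', hc⟩, ⟨b1, c1⟩, ⟨b2, c2⟩, e, T₂.mem_of_eq e' (by
      change a.2 - (f b + T₂.d c) = _
      abel)⟩
  nhds := fun K L k hK hL hKL a ha h1 V hV h => by
    obtain ⟨b, hb, b1, V₁, hV₁, e⟩ := T₁.nhds K L _ hK hL hKL a.1 ha.1 h1.1 V hV h.1
    have hb' : b ∈ T₁.D (k - 1 + s) := by rwa [sub_add_eq_add_sub]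
    have hfb : f b ∈ T₂.D k := by
      have := hD _ _ hb'
      rwa [sub_add_cancel] at this
    have h' : f a.1 + T₂.d a.2 ∈ T₂.N (V ∩ L) := h.2
    obtain ⟨c, hc, c1, V₂, hV₂, e'⟩ := T₂.nhds K L k hK hL hKL (a.2 - f b) (sub_mem ha.2 hfb)
      (sub_mem h1.2 (hN _ _ b1)) (V ∩ V₁) (Filter.inter_mem hV hV₁)
      (T₂.mem_of_eq (sub_mem (sub_mem
        (T₂.mono _ _ (inter_subset_inter_left _ inter_subset_left) h')
        (T₂.mono _ _ (inter_subset_inter_left _ inter_subset_right) (hN _ _ e)))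
        (T₂.of_univ _ (hd b))) (by simp only [map_sub]; abel))
    exact ⟨(b, c), ⟨hb', hc⟩, ⟨b1, c1⟩, V₁ ∩ V₂, Filter.inter_mem hV₁ hV₂,
      T₁.mono _ _ (inter_subset_inter_left _ inter_subset_left) e,
      T₂.mem_of_eq (T₂.mono _ _ (inter_subset_inter_left _ inter_subset_right) e') (by
        change a.2 - (f b + T₂.d c) = _
        abel)⟩

/-- the same theory with the opposite differential -/
def Th.neg (T : Th R B) : Th R B where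
  M := T.M
  d := -T.d
  D := T.D
  N := T.N
  low := T.low
  d_deg := fun k m hm => neg_mem (T.d_deg k m hm)
  d_N := fun K m hm => neg_mem (T.d_N K m hm)
  dd := fun m => by simpa using T.dd m
  mono := T.mono
  empty := T.empty
  split := T.split
  union := fun K L k hK hL a ha h1 h2 h => by
    obtain ⟨b, hb, b1, b2, e⟩ := T.union K L k hK hL a ha h1 h2 (neg_mem_iff.1 h)
    exact ⟨-b, neg_mem hb, neg_mem b1, neg_mem b2, by simpa using e⟩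
  nhds := fun K L k hK hL hKL a ha h1 V hV h => by
    obtain ⟨b, hb, b1, V', hV', e⟩ := T.nhds K L k hK hL hKL a ha h1 V hV (neg_mem_iff.1 h)
    exact ⟨-b, neg_mem hb, neg_mem b1, V', hV', by simpa using e⟩

/-- COMPARE (cone of `f` = `ext` of `T₁` with `-d`): iso on points gives iso on compact sets -/
theorem Th.compare (T₁ T₂ : Th R B) (f : T₁.M →ₗ[R] T₂.M)
    (hD : ∀ k, ∀ a ∈ T₁.D k, f a ∈ T₂.D k) (hN : ∀ K, ∀ a ∈ T₁.N K, f a ∈ T₂.N K)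
    (hd : ∀ a, f (T₁.d a) - T₂.d (f a) ∈ T₂.N univ) {K : Set B} (hK : IsCompact K) (n : ℤ)
    (hi : ∀ x ∈ K, ∀ k ≤ n + 1, ∀ a ∈ T₁.D k, T₁.d a ∈ T₁.N {x} →
      (∃ b ∈ T₂.D (k - 1), f a - T₂.d b ∈ T₂.N {x}) → ∃ a' ∈ T₁.D (k - 1), a - T₁.d a' ∈ T₁.N {x})
    (hs : ∀ x ∈ K, ∀ k ≤ n, ∀ b ∈ T₂.D k, T₂.d b ∈ T₂.N {x} → ∃ a ∈ T₁.D k, T₁.d a ∈ T₁.N {x} ∧
      ∃ b' ∈ T₂.D (k - 1), b - f a - T₂.d b' ∈ T₂.N {x}) :
    (∀ k ≤ n + 1, ∀ a ∈ T₁.D k, T₁.d a ∈ T₁.N K →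
      (∃ b ∈ T₂.D (k - 1), f a - T₂.d b ∈ T₂.N K) → ∃ a' ∈ T₁.D (k - 1), a - T₁.d a' ∈ T₁.N K) ∧
    ∀ k ≤ n, ∀ b ∈ T₂.D k, T₂.d b ∈ T₂.N K → ∃ a ∈ T₁.D k, T₁.d a ∈ T₁.N K ∧
      ∃ b' ∈ T₂.D (k - 1), b - f a - T₂.d b' ∈ T₂.N K := by
  let C : Th R B := Th.ext T₁.neg T₂ 1 f (fun k a ha => hD _ a ha) hN fun a =>
    T₂.mem_of_eq (neg_mem (hd a)) (by
      change f (-T₁.d a) + T₂.d (f a) = _
      rw [map_neg]; abel)
  have hC : ∀ (S : Set B) (j : ℤ), C.Ac S j ↔ ∀ a ∈ T₁.D (j + 1), ∀ b ∈ T₂.D j,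
      T₁.d a ∈ T₁.N S → f a + T₂.d b ∈ T₂.N S → ∃ α ∈ T₁.D j, ∃ β ∈ T₂.D (j - 1),
        a + T₁.d α ∈ T₁.N S ∧ b - (f α + T₂.d β) ∈ T₂.N S := by
    intro S j
    constructor
    · intro h a ha b hb h1 h2
      obtain ⟨⟨α, β⟩, ⟨hα, hβ⟩, e1, e2⟩ := h (a, b) ⟨ha, hb⟩ ⟨neg_mem h1, h2⟩
      have hα' : α ∈ T₁.D (j - 1 + 1) := hα
      rw [sub_add_cancel] at hα'
      have e1' : a - -T₁.d α ∈ T₁.N S := e1
      exact ⟨α, hα', β, hβ, by simpa using e1', e2⟩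
    · rintro h ⟨a, b⟩ ⟨ha, hb⟩ ⟨h1, h2⟩
      change T₁.M at a
      obtain ⟨α, hα, β, hβ, e1, e2⟩ := h a ha b hb (neg_mem_iff.1 h1) h2
      have hα' : α ∈ T₁.D (j - 1 + 1) := by rwa [sub_add_cancel]
      have e1' : a - -T₁.d α ∈ T₁.N S := by simpa using e1
      exact ⟨(α, β), ⟨hα', hβ⟩, e1', e2⟩
  have key := C.vanish hK n fun x hx j hj => (hC _ _).2 fun a ha b hb h1 h2 => by
    obtain ⟨a', ha', e⟩ := hi x hx (j + 1) (by omega) a ha h1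
      ⟨-b, neg_mem (by rwa [add_sub_cancel_right]), by simpa using h2⟩
    rw [add_sub_cancel_right] at ha'
    obtain ⟨a'', ha'', c, b', hb', e'⟩ := hs x hx j hj (b + f a') (add_mem hb (hD _ _ ha'))
      (T₂.mem_of_eq (sub_mem (sub_mem h2 (hN _ _ e)) (T₂.of_univ _ (hd a')))
        (by simp only [map_sub, map_add]; abel))
    exact ⟨a'' - a', sub_mem ha'' ha', b', hb',
      T₁.mem_of_eq (add_mem e c) (by rw [map_sub]; abel),
      T₂.mem_of_eq e' (by rw [map_sub]; abel)⟩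
  constructor
  · rintro k hk a ha h1 ⟨b, hb, e⟩
    obtain ⟨α, hα, -, -, e1, -⟩ := (hC _ _).1 (key (k - 1) (by omega)) a
      (by rwa [sub_add_cancel]) (-b) (neg_mem hb) h1
      (T₂.mem_of_eq e (by rw [map_neg]; abel))
    exact ⟨-α, neg_mem hα, by simpa using e1⟩
  · intro k hk b hb h
    obtain ⟨α, hα, β, hβ, e1, e2⟩ := (hC _ _).1 (key k hk) 0 (zero_mem _) b hb (by simp)
      (by simpa using h)
    exact ⟨α, hα, by simpa using e1, β, hβ, T₂.mem_of_eq e2 (by abel)⟩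

end Pool.Agent.Lib.MP_d3d358_ag.AS
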