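import Pool.Agent.Lib.MP_d3d358_ag.Orb.Three

/-! The algebra behind the products of the twisted classes. -/

set_option autoImplicit false

namespace Pool.Agent.Lib.MP_d3d358_ag.AS

open ExteriorAlgebra Orb

/-- the class `δ` of the exceptional divisor over `a₀ = a₁` in a ring with an action of `S₃` -/
structure TwD (A : Type) [Ring A] [Algebra ℚ A] where
  β : EN →ₐ[ℚ] A
  T : Equiv.Perm (Fin 3) → A →ₐ[ℚ] A
  δ : A
  TT : ∀ s t y, T s (T t y) = T (s * t) y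
  T1 : ∀ y, T 1 y = y
  Tβ : ∀ s u, T s (β u) = β (act s u)
  comm : ∀ x, β (ι ℚ x) * δ = δ * β (ι ℚ x)
  diff1 : ∀ i, δ * β (ι ℚ ((p 0 - p 1) (Pi.single i 1))) = 0
  sq : δ * δ = -β (map (p 0 - p 1) vol)
  swap : T (Equiv.swap 0 1) δ = δ
  far : ∀ s, s 2 ≠ 2 → δ * T s δ = 0
  top : δ * β (map (p 0) vol) = 0

theorem tw_act_one (u : EN) : act 1 u = u := by
  have : (p 0).coprod (p 1) = LinearMap.id := LinearMap.coprod_inl_inr
  change map ((p 0).coprod (p 1)) u = u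
  rw [this, map_id]; rfl

theorem tw_act_mem (s : Equiv.Perm (Fin 3)) {k : ℕ} {u : EN} (hu : u ∈ ⋀[ℚ]^k (V × V)) :
    act s u ∈ ⋀[ℚ]^k (V × V) := by
  refine Submodule.pow_induction_on_left' _ (C := fun k u _ => act s u ∈ ⋀[ℚ]^k (V × V))
    (fun r => ?_) (fun x y i _ _ hx hy => ?_) (fun x hx i y _ hy => ?_) hu
  · rw [AlgHom.commutes]; exact Submodule.algebraMap_mem r
  · rw [map_add]; exact add_mem hx hy
  · obtain ⟨x, rfl⟩ := hx
    rw [map_mul, act, map_apply_ι]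
    change _ ∈ LinearMap.range (ι ℚ) ^ (i + 1)
    rw [pow_succ']
    exact Submodule.mul_mem_mul ⟨_, rfl⟩ hy

theorem tw_res_mem {k : ℕ} {u : EN} (hu : u ∈ ⋀[ℚ]^k (V × V)) : Orb.res u ∈ ⋀[ℚ]^k V := by
  refine Submodule.pow_induction_on_left' _ (C := fun k u _ => Orb.res u ∈ ⋀[ℚ]^k V)
    (fun r => ?_) (fun x y i _ _ hx hy => ?_) (fun x hx i y _ hy => ?_) hu
  · rw [AlgHom.commutes]; exact Submodule.algebraMap_mem r
  · rw [map_add]; exact add_mem hx hy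
  · obtain ⟨x, rfl⟩ := hx
    rw [map_mul, Orb.res, map_apply_ι]
    change _ ∈ LinearMap.range (ι ℚ) ^ (i + 1)
    rw [pow_succ']
    exact Submodule.mul_mem_mul ⟨_, rfl⟩ hy

/-- the top exterior power is spanned by `vol` -/
theorem tw_top_four {y : EA} (hy : y ∈ ⋀[ℚ]^4 V) : ∃ c : ℚ, y = c • vol := by
  rw [← ιMulti_span_fixedDegree] at hy
  refine Submodule.span_induction (p := fun y _ => ∃ c : ℚ, y = c • vol) ?_ ⟨0, by simp⟩ ?_ ?_ hy
  · rintro _ ⟨v, rfl⟩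
    refine ⟨(Pi.basisFun ℚ (Fin 4)).det v, ?_⟩
    have : ιMulti ℚ 4 = (Pi.basisFun ℚ (Fin 4)).det.smulRight vol :=
      (Pi.basisFun ℚ (Fin 4)).ext_alternating fun i h => by
        let σ : Equiv.Perm (Fin 4) := Equiv.ofBijective i (Finite.injective_iff_bijective.1 h)
        change ιMulti ℚ 4 (Pi.basisFun ℚ (Fin 4) ∘ σ) =
          (Pi.basisFun ℚ (Fin 4)).det.smulRight vol (Pi.basisFun ℚ (Fin 4) ∘ σ)
        rw [AlternatingMap.map_perm, AlternatingMap.map_perm, AlternatingMap.smulRight_apply,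
          Module.Basis.det_self, one_smul, vol_multi]
    rw [this]; rfl
  · rintro x y - - ⟨c, rfl⟩ ⟨c', rfl⟩
    exact ⟨c + c', by rw [add_smul]⟩
  · rintro a x - ⟨c, rfl⟩
    exact ⟨a * c, by rw [smul_smul]⟩

theorem tw_ι_mem (x : V × V) : ι ℚ x ∈ ⋀[ℚ]^1 (V × V) := by
  change _ ∈ LinearMap.range (ι ℚ) ^ 1
  rw [pow_one]; exact ⟨_, rfl⟩

theorem tw_mul_mem {W : Type} [AddCommGroup W] [Module ℚ W] {j k : ℕ} {x y : ExteriorAlgebra ℚ W}
    (hx : x ∈ ⋀[ℚ]^j W) (hy : y ∈ ⋀[ℚ]^k W) : x * y ∈ ⋀[ℚ]^(j + k) W := by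
  change _ ∈ LinearMap.range (ι ℚ) ^ (j + k)
  rw [pow_add]; exact Submodule.mul_mem_mul hx hy

theorem tw_lin_zero {A : Type} [AddCommGroup A] [Module ℚ A] {f : V →ₗ[ℚ] A}
    (h : ∀ i, f (Pi.single i 1) = 0) (v : V) : f v = 0 := by
  have : f = 0 := (Pi.basisFun ℚ (Fin 4)).ext fun i => by rw [Pi.basisFun_apply]; exact h i
  rw [this]; rfl

/-- an algebra map that kills the generators kills all positive degrees -/
theorem tw_zero_of_gen {A : Type} [Ring A] [Algebra ℚ A] (γ : EN →ₐ[ℚ] A)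
    (h : ∀ a i, γ (ι ℚ (p a (Pi.single i 1))) = 0) {k : ℕ} {u : EN}
    (hu : u ∈ ⋀[ℚ]^(k + 1) (V × V)) : γ u = 0 := by
  have h1 : ∀ a v, γ (ι ℚ (p a v)) = 0 := fun a =>
    tw_lin_zero (f := γ.toLinearMap ∘ₗ ι ℚ ∘ₗ p a) (h a)
  change _ ∈ LinearMap.range (ι ℚ) ^ (k + 1) at hu
  rw [pow_succ'] at hu
  refine Submodule.mul_induction_on hu (fun x hx y _ => ?_) fun x y hx hy => ?_
  · obtain ⟨x, rfl⟩ := hx
    have : x = p 0 x.1 + p 1 x.2 := by ext i <;> simp [p]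
    rw [map_mul, this, map_add, map_add, h1, h1, add_zero, zero_mul]
  · rw [map_add, hx, hy, add_zero]

theorem tw_ext {A B C : Type} [Ring A] [Algebra ℚ A] [Ring B] [Algebra ℚ B] [Ring C] [Algebra ℚ C]
    (r : A →ₐ[ℚ] B) (r' : A →ₐ[ℚ] C) (M : Submodule ℚ A) (t : V →ₗ[ℚ] B)
    (h : ∀ i, ∃ z ∈ M, r z = t (Pi.single i 1) ∧ r' z = 0) :
    ∃ e : V →ₗ[ℚ] A, (∀ v, e v ∈ M) ∧ (∀ v, r (e v) = t v) ∧ ∀ v, r' (e v) = 0 := by
  choose z zm zK zL using h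
  refine ⟨(Pi.basisFun ℚ (Fin 4)).constr ℚ z, fun v => ?_, fun v => ?_, fun v => ?_⟩
  · rw [Module.Basis.constr_apply_fintype]
    exact Submodule.sum_mem _ fun i _ => Submodule.smul_mem _ _ (zm i)
  · refine sub_eq_zero.1 (tw_lin_zero (f := r.toLinearMap ∘ₗ
      (Pi.basisFun ℚ (Fin 4)).constr ℚ z - t) (fun i => sub_eq_zero.2 ?_) v)
    rw [← zK, ← Pi.basisFun_apply, LinearMap.comp_apply, Module.Basis.constr_basis]; rfl
  · refine tw_lin_zero (f := r'.toLinearMap ∘ₗ (Pi.basisFun ℚ (Fin 4)).constr ℚ z)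
      (fun i => ?_) v
    rw [← Pi.basisFun_apply, LinearMap.comp_apply, Module.Basis.constr_basis]; exact zL i

theorem tw_vol (J : V →ₗ[ℚ] V × V) : map J vol = ι ℚ (J (Pi.single 0 1)) *
    ι ℚ (J (Pi.single 1 1)) * ι ℚ (J (Pi.single 2 1)) * ι ℚ (J (Pi.single 3 1)) := by
  have h : vol = ι ℚ (Pi.single 0 1 : V) * ι ℚ (Pi.single 1 1 : V)
      * ι ℚ (Pi.single 2 1 : V) * ι ℚ (Pi.single 3 1 : V) := rfl
  simp only [h, map_mul, map_apply_ι]

namespace TwD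

variable {A : Type} [Ring A] [Algebra ℚ A] (D : TwD A)

theorem diff (v : V) : D.δ * D.β (ι ℚ ((p 0 - p 1) v)) = 0 :=
  tw_lin_zero (f := LinearMap.mulLeft ℚ D.δ ∘ₗ D.β.toLinearMap ∘ₗ ι ℚ ∘ₗ (p 0 - p 1)) D.diff1 v

theorem commβ (u : EN) : D.β u * D.δ = D.δ * D.β u := by
  induction u using ExteriorAlgebra.induction with
  | algebraMap r => rw [AlgHom.commutes]; exact Algebra.commutes r _
  | ι x => exact D.comm x
  | mul a b ha hb => rw [map_mul, mul_assoc, hb, ← mul_assoc, ha, mul_assoc]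
  | add a b ha hb => rw [map_add, add_mul, mul_add, ha, hb]

theorem red (u : EN) : D.δ * D.β u = D.δ * D.β (map (p 0) (Orb.res u)) := by
  induction u using ExteriorAlgebra.induction with
  | algebraMap r => simp only [AlgHom.commutes]
  | ι x =>
    have h : map (p 0) (Orb.res (ι ℚ x)) = ι ℚ x + ι ℚ ((p 0 - p 1) x.2) := by
      rw [Orb.res, map_apply_ι, map_apply_ι, ← map_add]
      congr 1
      ext i <;> simp [p]
    rw [h, map_add, mul_add, D.diff, add_zero]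
  | mul a b ha hb =>
    rw [map_mul, map_mul, map_mul, map_mul, ← mul_assoc, ← D.commβ, mul_assoc, hb, ← mul_assoc,
      D.commβ, ha, mul_assoc]
  | add a b ha hb => simp only [map_add, mul_add, ha, hb]

theorem four {u : EN} (hu : u ∈ ⋀[ℚ]^4 (V × V)) : D.δ * D.β u = 0 := by
  obtain ⟨c, hc⟩ := tw_top_four (tw_res_mem hu)
  rw [D.red, hc, map_smul, map_smul, mul_smul_comm, D.top, smul_zero]

theorem β_eq (s : Equiv.Perm (Fin 3)) (u : EN) : D.β u = D.T s (D.β (act s⁻¹ u)) := by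
  rw [D.Tβ, act_act, mul_inv_cancel, tw_act_one]

/-- the class `δ p₀^* v` -/
noncomputable def t0 : V →ₗ[ℚ] A :=
  LinearMap.mulLeft ℚ D.δ ∘ₗ D.β.toLinearMap ∘ₗ ι ℚ ∘ₗ p 0

theorem t0_apply (v : V) : D.t0 v = D.δ * D.β (ι ℚ (p 0 v)) := rfl

theorem sum_T (s : Equiv.Perm (Fin 3)) (y : A) : D.T s (∑ t, D.T t y) = ∑ t, D.T t y := by
  simp only [map_sum, D.TT]
  exact Equiv.sum_comp (Equiv.mulLeft s) fun t => D.T t y

theorem t0_mul (v w : V) : D.t0 v * ∑ t, D.T t (D.t0 w) =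
    (-2 : ℚ) • D.β (map (p 0) (ι ℚ v * ι ℚ w) * map (p 0 - p 1) vol) := by
  have h1 : D.t0 v * D.t0 w = -D.β (map (p 0) (ι ℚ v * ι ℚ w) * map (p 0 - p 1) vol) := by
    rw [map_mul, ← mul_neg, ← D.sq, ← mul_assoc, D.commβ, mul_assoc, D.commβ, map_mul, map_mul,
      map_apply_ι, map_apply_ι, t0_apply, t0_apply, mul_assoc, ← mul_assoc (D.β _), D.commβ,
      mul_assoc]
  have h2 : D.T (Equiv.swap 0 1) (D.t0 w) = D.t0 w := by
    have := D.diff w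
    rw [LinearMap.sub_apply, map_sub, map_sub, mul_sub, sub_eq_zero] at this
    rw [t0_apply, map_mul, D.swap, D.Tβ, ← map_apply_ι, act_map, Equiv.swap_apply_left,
      map_apply_ι, ← this, map_apply_ι]
  rw [Finset.mul_sum, Fintype.sum_eq_add 1 (Equiv.swap 0 1) (by decide), D.T1, h2, h1]
  · module
  · intro t ht
    have h3 : t 2 ≠ 2 := by revert t; decide
    rw [t0_apply, t0_apply, map_mul, ← D.commβ, mul_assoc, ← mul_assoc D.δ, D.far t h3, zero_mul,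
      mul_zero]

theorem pp (v w : V) : ((1 / 2 : ℚ) • ∑ t, D.T t (D.t0 v)) * ((1 / 2 : ℚ) • ∑ t, D.T t (D.t0 w))
    = -D.β (push (ι ℚ v * ι ℚ w)) := by
  have h : ∀ s, D.T s (D.t0 v) * ∑ t, D.T t (D.t0 w) =
      (-2 : ℚ) • D.β (act s (map (p 0) (ι ℚ v * ι ℚ w) * map (p 0 - p 1) vol)) := fun s => by
    rw [← D.sum_T s, ← map_mul, t0_mul, map_smul, D.Tβ]
  rw [smul_mul_smul_comm, Finset.sum_mul, Finset.sum_congr rfl fun s _ => h s, ← Finset.smul_sum,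
    push, map_smul, map_sum]
  module

theorem pr (v : V) {u : EN} (hu : u ∈ ⋀[ℚ]^3 (V × V)) :
    ((1 / 2 : ℚ) • ∑ t, D.T t (D.t0 v)) * D.β u = 0 := by
  rw [smul_mul_assoc, Finset.sum_mul, Finset.sum_eq_zero, smul_zero]
  intro s _
  rw [D.β_eq s, ← map_mul, t0_apply, mul_assoc, ← map_mul,
    D.four (tw_mul_mem (tw_ι_mem _) (tw_act_mem _ hu)), map_zero]

theorem pl (v : V) {u : EN} (hu : u ∈ ⋀[ℚ]^3 (V × V)) :
    D.β u * ((1 / 2 : ℚ) • ∑ t, D.T t (D.t0 v)) = 0 := by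
  rw [mul_smul_comm, Finset.mul_sum, Finset.sum_eq_zero, smul_zero]
  intro s _
  rw [D.β_eq s, ← map_mul, t0_apply, ← mul_assoc, D.commβ, mul_assoc, ← map_mul,
    D.four (tw_mul_mem (tw_act_mem _ hu) (tw_ι_mem _)), map_zero]

end TwD

end Pool.Agent.Lib.MP_d3d358_ag.AS
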