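import Pool.Agent.Lib.MP_d3d358_ag.AS.KumB
import Pool.Agent.Lib.MP_d3d358_ag.AS.Phi
import Pool.Agent.Lib.MP_d3d358_ag.AS.TwAlg

/-! The class of the exceptional divisor away from the triple points. -/

set_option autoImplicit false

namespace Pool.Agent.Lib.MP_d3d358_ag.AS

open Topology Set ExteriorAlgebra Filter

/-- total distance of the three points -/
noncomputable def twGap (n : Tor I8) : ℝ := ∑ i, ∑ j, ‖pa i n - pa j n‖

theorem tw_gap_cont : Continuous twGap :=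
  continuous_finsetSum _ fun i _ => continuous_finsetSum _ fun j _ =>
    ((continuous_pa i).sub (continuous_pa j)).norm

theorem tw_gap_sm (s : Equiv.Perm (Fin 3)) (n : Tor I8) : twGap (sm s n) = twGap n := by
  simp only [twGap, pa_sm]
  rw [← Equiv.sum_comp s fun i => ∑ j, ‖pa i n - pa j n‖]
  exact Finset.sum_congr rfl fun i _ => Equiv.sum_comp s fun j => ‖pa (s i) n - pa j n‖

theorem tw_gap_eq (n : Tor I8) :
    twGap n = 2 * (‖pa 0 n - pa 1 n‖ + ‖pa 0 n - pa 2 n‖ + ‖pa 1 n - pa 2 n‖) := by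
  simp only [twGap, Fin.sum_univ_three, sub_self, norm_zero, norm_sub_rev (pa 1 n) (pa 0 n),
    norm_sub_rev (pa 2 n)]
  ring

theorem tw_tri (n : Tor I8) : ‖pa 1 n - pa 2 n‖ ≤ ‖pa 0 n - pa 1 n‖ + ‖pa 0 n - pa 2 n‖ ∧
    ‖pa 0 n - pa 2 n‖ ≤ ‖pa 0 n - pa 1 n‖ + ‖pa 1 n - pa 2 n‖ :=
  ⟨(norm_sub_le_norm_sub_add_norm_sub _ (pa 0 n) _).trans (by rw [norm_sub_rev]),
    norm_sub_le_norm_sub_add_norm_sub _ _ _⟩

theorem tw_two (n : Tor I8) : pa 2 n = -pa 0 n - pa 1 n := rfl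

/-- near a triple point the coordinates miss `1 / 6` -/
theorem tw_miss {n : Tor I8} (h : twGap n ≤ 1 / 8) (a : Fin 3) (i : Fin 4) :
    pa a n i ≠ ((1 / 6 : ℝ) : UnitAddCircle) := by
  intro e
  have h1 : ‖∑ j, (pa a n - pa j n)‖ ≤ twGap n := (norm_sum_le _ _).trans
    (Finset.single_le_sum (f := fun i => ∑ j, ‖pa i n - pa j n‖)
      (fun _ _ => Finset.sum_nonneg fun _ _ => norm_nonneg _) (Finset.mem_univ a))
  have h2 : (∑ j, (pa a n - pa j n)) i = ((1 / 2 : ℝ) : UnitAddCircle) := by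
    rw [Finset.sum_sub_distrib, Fin.sum_univ_three (fun j => pa j n), pa_sum, sub_zero,
      Fin.sum_univ_three, Pi.add_apply, Pi.add_apply, e, ← AddCircle.coe_add, ← AddCircle.coe_add]
    norm_num
  have h3 := (norm_le_pi_norm _ i).trans h1
  rw [h2, (AddCircle.norm_coe_eq_abs_iff (1 : ℝ) one_ne_zero).2 (by norm_num [abs_of_pos]),
    abs_of_pos (by norm_num)] at h3
  linarith

theorem tw_far {n : Tor I8} (h : 1 / 8 ≤ twGap n) {s : Equiv.Perm (Fin 3)} (hs : s 2 ≠ 2) :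
    1 / 100 ≤ ‖pa 0 n - pa 1 n‖ ∨ 1 / 100 ≤ ‖pa (s 0) n - pa (s 1) n‖ := by
  have h1 := tw_tri n
  rw [tw_gap_eq] at h
  have h2 : (s 0 = 0 ∧ s 1 = 2) ∨ (s 0 = 2 ∧ s 1 = 0) ∨ (s 0 = 1 ∧ s 1 = 2) ∨
    (s 0 = 2 ∧ s 1 = 1) := by revert s; decide
  by_contra hc
  rw [not_or, not_le, not_le] at hc
  rcases h2 with ⟨a, b⟩ | ⟨a, b⟩ | ⟨a, b⟩ | ⟨a, b⟩ <;> rw [a, b] at hc <;>
    try rw [norm_sub_rev (pa 2 n)] at hc
  all_goals linarith [hc.1, hc.2, h1.1, h1.2]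

theorem tw_a0 {n : Tor I8} (h : 1 / 8 ≤ twGap n) (h' : ‖pa 0 n - pa 1 n‖ ≤ 1 / 100) :
    ∃ i, 1 / 300 ≤ ‖pa 0 n i‖ := by
  have h1 := tw_tri n
  rw [tw_gap_eq] at h
  have h2 : ‖pa 0 n - pa 2 n‖ ≤ ‖pa 0 n‖ + ‖pa 0 n‖ + ‖pa 0 n‖ + ‖pa 0 n - pa 1 n‖ := by
    rw [show pa 0 n - pa 2 n = pa 0 n + pa 0 n + pa 0 n - (pa 0 n - pa 1 n) by rw [tw_two]; abel]
    exact (norm_sub_le _ _).trans (by gcongr; exact norm_add₃_le)
  by_contra hc
  have := (pi_norm_lt_iff (x := pa 0 n) (r := 1 / 300) (by norm_num)).2 fun i =>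
    lt_of_not_ge fun e => hc ⟨i, e⟩
  linarith [h1.1]

section
variable {Z : Type} [MetricSpace Z] {K L S : Set Z}

theorem tw_res_mul (hK : IsCompact K) (hL : IsCompact L) (hKS : K ⊆ S) (hLS : L ⊆ S) {p q : ℤ}
    {x y : HT ℚ S} (hx : x ∈ Hk S p) (hy : y ∈ Hk S q) (h1 : res hKS x = 0) (h2 : res hLS y = 0) :
    res (union_subset hKS hLS) (x * y) = 0 := by
  rw [map_mul]
  exact mul_eq_zero_of_cover hK hL subset_union_left subset_union_right subset_rfl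
    (eps_res_mem _ hx) (eps_res_mem _ hy) ((eps_res_res _ _ _).trans h1)
    ((eps_res_res _ _ _).trans h2)

theorem tw_prod_zero (hS : IsCompact S) {c : Fin 4 → Z → UnitAddCircle}
    (hc : ∀ i, ContinuousOn (c i) S) {η : ℝ} (hη : 0 < η) (h : ∀ x ∈ S, ∃ i, η ≤ ‖c i x‖) :
    cls ℚ (c 0) (hc 0) * cls ℚ (c 1) (hc 1) * cls ℚ (c 2) (hc 2) * cls ℚ (c 3) (hc 3) = 0 := by
  have k : ∀ i, IsCompact (S ∩ (fun x => ‖c i x‖) ⁻¹' Ici η) := fun i =>
    hS.of_isClosed_subset ((hc i).norm.preimage_isClosed_of_isClosed hS.isClosed isClosed_Ici)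
      inter_subset_left
  have z : ∀ i, res (inter_subset_left : S ∩ (fun x => ‖c i x‖) ⁻¹' Ici η ⊆ S)
      (cls ℚ (c i) (hc i)) = 0 := fun i => eps_res_cls _ _ (p := 0) fun x hx e => by
    have : η ≤ ‖c i x‖ := hx.2
    rw [e, norm_zero] at this
    linarith
  rw [mul_assoc]
  refine mul_eq_zero_of_cover ((k 0).union (k 1)) ((k 2).union (k 3)) _ _ (fun x hx => ?_)
    (mul_mem_Hk (cls_mem _) (cls_mem _)) (mul_mem_Hk (cls_mem _) (cls_mem _))
    (tw_res_mul (k 0) (k 1) _ _ (cls_mem _) (cls_mem _) (z 0) (z 1))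
    (tw_res_mul (k 2) (k 3) _ _ (cls_mem _) (cls_mem _) (z 2) (z 3))
  obtain ⟨i, hi⟩ := h x hx
  fin_cases i
  exacts [.inl (.inl ⟨hx, hi⟩), .inl (.inr ⟨hx, hi⟩), .inr (.inl ⟨hx, hi⟩), .inr (.inr ⟨hx, hi⟩)]

end

theorem tw_pp {Z Z' Z'' : Type} [TopologicalSpace Z] [TopologicalSpace Z'] [TopologicalSpace Z'']
    {K : Set Z} {K' : Set Z'} {K'' : Set Z''} {f : Z' → Z} {g : Z'' → Z'} {h : Z'' → Z}
    {hf : ContinuousOn f K'} {hm : MapsTo f K' K} {hg : ContinuousOn g K''} {hn : MapsTo g K'' K'}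
    (hh : ContinuousOn h K'') (hk : MapsTo h K'' K) (e : ∀ x ∈ K'', f (g x) = h x) (y : HT ℚ K) :
    pull g hg hn (pull f hf hm y) = pull h hh hk y :=
  (pull_pull y).trans (pull_congr e y)

variable {P : Matrix (Fin 2) (Fin 4) ℂ} {X : Type} [MetricSpace X] [CompactSpace X] {m : ℕ}
  {S : Set (EuclideanSpace ℂ (Fin m))} {pr : EuclideanSpace ℂ (Fin m) → X}

namespace KumTop
variable (T : KumTop P S pr)

/-- the part away from the triple points -/
def twK : Set (Tor I8 × X) := T.Xt ∩ {p | 1 / 8 ≤ twGap p.1}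

theorem twK_compact : IsCompact T.twK :=
  T.Xt_compact.inter_right (isClosed_le continuous_const (tw_gap_cont.comp continuous_fst))

omit [CompactSpace X] in
/-- the map to the blown up torus -/
theorem exists_kappa (hP : Conv P) : ∃ κ : Tor I8 × X → Tor (Fin 4) × (Fin 2 → Fin 2 → ℂ),
    ContinuousOn κ T.twK ∧ MapsTo κ T.twK BlT ∧
    (∃ t : Tor I8 × X → Fin 4 → ℝ, Continuous t ∧
      ∀ p, (κ p).1 = pa 0 p.1 - pa 1 p.1 + mkT (t p)) ∧
    (∀ p, 1 / 100 ≤ ‖pa 0 p.1 - pa 1 p.1‖ → 1 / 4 ≤ ‖zl (κ p).1‖) ∧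
    ∀ p, κ (sm (Equiv.swap 0 1) p.1, p.2) = (-(κ p).1, (κ p).2) := by
  obtain ⟨Φ, c, cΦ, hc, odd, ⟨t, ct, ht⟩, big, inj, lin⟩ :=
    exists_Phi hP (ρ := 1 / 100) (by norm_num) (by norm_num)
  have cd : Continuous fun p : Tor I8 × X => pa 0 p.1 - pa 1 p.1 :=
    ((continuous_pa 0).sub (continuous_pa 1)).comp continuous_fst
  have cm : Continuous fun p : Tor I8 × X => max 0 (3 / 8 - ‖zl (Φ (pa 0 p.1 - pa 1 p.1))‖) :=
    continuous_const.max (continuous_const.sub (eps_cont_n.comp (cΦ.comp cd)))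
  refine ⟨fun p => (Φ (pa 0 p.1 - pa 1 p.1), max 0 (3 / 8 - ‖zl (Φ (pa 0 p.1 - pa 1 p.1))‖) •
    prj1 (if pa 0 p.1 = pa 1 p.1 then T.Dr p.2 else zl (Φ (pa 0 p.1 - pa 1 p.1)))),
    (cΦ.comp cd).continuousOn.prodMk fun p hp => ?_, fun p _ => ⟨_, ?_, ?_, rfl⟩,
    ⟨_, ct.comp cd, fun p => ht _⟩, fun p hp => big _ hp, fun p => ?_⟩
  · by_cases h0 : pa 0 p.1 = pa 1 p.1
    · have h2 : pa 0 p.1 ≠ pa 2 p.1 := fun e => by
        have : 1 / 8 ≤ twGap p.1 := hp.2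
        rw [tw_gap_eq, ← h0, ← e, sub_self, norm_zero] at this
        linarith
      refine cm.continuousWithinAt.smul (((T.dir p hp.1 h0 h2).mono
        inter_subset_left).congr_of_eventuallyEq_of_mem (mem_nhdsWithin_of_mem_nhds ?_) hp)
      have h3 : Tendsto (fun p : Tor I8 × X => pa 0 p.1 - pa 1 p.1) (𝓝 p) (𝓝 0) := by
        rw [← sub_eq_zero.2 h0]; exact cd.continuousAt
      filter_upwards [h3.eventually lin] with q hq
      split_ifs
      · rfl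
      · rw [hq, eps_prj_smul (by exact_mod_cast hc.ne')]
    · refine ContinuousAt.continuousWithinAt ?_
      rcases lt_or_ge ‖zl (Φ (pa 0 p.1 - pa 1 p.1))‖ (1 / 2) with h | h
      · refine cm.continuousAt.smul (ContinuousAt.congr
          (f := fun p : Tor I8 × X => prj1 (zl (Φ (pa 0 p.1 - pa 1 p.1)))) ?_ ?_)
        · exact ContinuousAt.comp (f := fun p : Tor I8 × X => zl (Φ (pa 0 p.1 - pa 1 p.1)))
            (eps_prj_cont.continuousAt (isOpen_ne.mem_nhds fun e =>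
              h0 (sub_eq_zero.1 ((inj _).1 e))))
            (ContinuousAt.comp (f := fun p : Tor I8 × X => Φ (pa 0 p.1 - pa 1 p.1))
              (eps_zl_cont h) (cΦ.comp cd).continuousAt)
        · filter_upwards [cd.continuousAt.eventually_ne (sub_ne_zero.2 h0)] with q hq
          rw [if_neg (sub_ne_zero.1 hq)]
      · refine (continuousAt_const (y := (0 : Fin 2 → Fin 2 → ℂ))).congr ?_
        filter_upwards [(eps_cont_n.comp (cΦ.comp cd)).continuousAt.eventually (lt_mem_nhds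
          (show 3 / 8 < ‖zl (Φ (pa 0 p.1 - pa 1 p.1))‖ by linarith))] with q hq
        have hq' : 3 / 8 < ‖zl (Φ (pa 0 q.1 - pa 1 q.1))‖ := hq
        rw [max_eq_left (sub_nonpos.2 hq'.le), zero_smul]
  · split_ifs with h0
    · exact T.Dr_ne _
    · exact fun e => h0 (sub_eq_zero.1 ((inj _).1 e))
  · split_ifs with h0
    · exact ⟨0, by rw [zero_smul]; exact (inj _).2 (sub_eq_zero.2 h0)⟩
    · exact ⟨1, (one_smul _ _).symm⟩
  · simp only [pa_sm, Equiv.swap_apply_left, Equiv.swap_apply_right]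
    rw [← neg_sub (pa 0 p.1), odd, phi_n_neg]
    refine Prod.ext rfl ?_
    rcases lt_or_ge ‖zl (Φ (pa 0 p.1 - pa 1 p.1))‖ (1 / 2) with h | h
    · by_cases h0 : pa 0 p.1 = pa 1 p.1
      · rw [if_pos h0, if_pos h0.symm]
      · rw [if_neg h0, if_neg (Ne.symm h0), phi_zl_neg h, ← neg_one_smul ℂ (zl _),
          eps_prj_smul (by norm_num)]
    · simp only [max_eq_left (show 3 / 8 - ‖zl (Φ (pa 0 p.1 - pa 1 p.1))‖ ≤ 0 by linarith),
        zero_smul]

theorem twK_maps (s : Equiv.Perm (Fin 3)) :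
    MapsTo (fun p : Tor I8 × X => (sm s p.1, p.2)) T.twK T.twK := fun p hp =>
  ⟨T.sm_maps s hp.1, by have := hp.2; rwa [mem_ofPred_eq, tw_gap_sm]⟩

omit [CompactSpace X] in
theorem tw_cont (s : Equiv.Perm (Fin 3)) : Continuous fun p : Tor I8 × X => (sm s p.1, p.2) :=
  ((continuous_sm s).comp continuous_fst).prodMk continuous_snd

omit [CompactSpace X] in
theorem tw_cpa (a : Fin 3) (i : Fin 4) : Continuous fun p : Tor I8 × X => pa a p.1 i :=
  (continuous_apply i).comp ((continuous_pa a).comp continuous_fst)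

/-- the class `δ` with its rules -/
theorem exists_twD (hP : Conv P) : ∃ D : TwD (HT ℚ T.twK), D.δ ∈ Hk T.twK 2 ∧
    D.β = bet Prod.fst continuous_fst.continuousOn ∧
    ∀ s, D.T s = pull _ (tw_cont s).continuousOn (T.twK_maps s) := by
  obtain ⟨κ, cκ, mκ, ⟨t, ct, ht⟩, big, sw⟩ := T.exists_kappa hP
  obtain ⟨ε, hε, eO, e1, e2, e3⟩ := exists_eps
  have hδ : pull κ cκ mκ ε ∈ Hk T.twK 2 := pull_mem hε
  have cd : ∀ i j, Continuous fun p : Tor I8 × X => ‖pa i p.1 - pa j p.1‖ := fun i j =>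
    (((continuous_pa i).sub (continuous_pa j)).comp continuous_fst).norm
  have kO : ∀ i j, IsCompact (T.twK ∩ {p | 1 / 100 ≤ ‖pa i p.1 - pa j p.1‖}) := fun i j =>
    T.twK_compact.inter_right (isClosed_le continuous_const (cd i j))
  have hO : res (inter_subset_left : T.twK ∩ {p | 1 / 100 ≤ ‖pa 0 p.1 - pa 1 p.1‖} ⊆ _)
      (pull κ cκ mκ ε) = 0 :=
    eps_res_pull_zero (L := BlT ∩ {p | 1 / 4 ≤ ‖zl p.1‖}) cκ mκ _ _
      (fun p hp => ⟨mκ hp.1, big p hp.2⟩) eO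
  have hE : ∀ i, bet (K := T.twK) Prod.fst continuous_fst.continuousOn
      (ι ℚ ((Orb.p 0 - Orb.p 1) (Pi.single i 1))) = pull κ cκ mκ (epsE i) := fun i => by
    have c0 := (tw_cpa (X := X) 0 i).continuousOn (s := T.twK)
    have c1 := (tw_cpa (X := X) 1 i).continuousOn (s := T.twK)
    have c2 : ContinuousOn (fun p => t p i) T.twK := ((continuous_apply i).comp ct).continuousOn
    have c3 : ContinuousOn (fun p => ((t p i : ℝ) : UnitAddCircle)) T.twK :=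
      (AddCircle.continuous_mk' 1).comp_continuousOn c2
    rw [LinearMap.sub_apply, map_sub, map_sub, bet_p _ 0 i c0, bet_p _ 1 i c1, epsE, pull_cls,
      sub_eq_add_neg, ← eps_cls_neg c1, ← cls_add, ← add_zero (cls ℚ _ _),
      ← cls_lift (R := ℚ) c3 c2 fun _ _ => rfl, ← cls_add]
    congr 1
    funext p
    change _ = (κ p).1 i
    rw [ht, sub_eq_add_neg]; rfl
  refine ⟨⟨bet Prod.fst continuous_fst.continuousOn,
    fun s => pull _ (tw_cont s).continuousOn (T.twK_maps s), pull κ cκ mκ ε, fun s t y => ?_,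
    fun y => ?_, fun s u => ?_, fun x => ?_, fun v => ?_, ?_, ?_, fun s hs => ?_, ?_⟩,
    hδ, rfl, fun _ => rfl⟩
  · exact tw_pp _ _ (fun p _ => by rw [sm_sm]) y
  · exact (pull_congr (g := id) (hg := continuousOn_id) (hn := mapsTo_id _)
      (fun p _ => by simp only [sm_one, id]) y).trans (res_self y)
  · exact (pull_bet _ u).trans (bet_sm _ s _ u)
  · have := comm_one (bet_mem continuous_fst.continuousOn 1 (tw_ι_mem x)) hδ
    rwa [show ((2 : ℤ).negOnePow : ℤ) = 1 from rfl, one_smul] at this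
  · rw [hE, ← map_mul, epsE, e1, map_zero]
  · rw [tw_vol, map_mul, map_mul, map_mul, hE, hE, hE, hE, ← map_mul, ← map_mul, ← map_mul,
      ← map_mul, ← map_neg]
    exact congrArg _ (e2 _ _ _ _)
  · have c1 : ContinuousOn (fun p : EpsX => (-p.1, p.2)) BlT := by fun_prop
    have m1 : MapsTo (fun p : EpsX => (-p.1, p.2)) BlT BlT := fun p hp => by
      have := eps_S_mem (eps_S_mem hp)
      rwa [eps_S_S] at this
    have a1 := tw_pp (hf := cκ) (hm := mκ) (hg := (tw_cont (Equiv.swap 0 1)).continuousOn)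
      (hn := T.twK_maps _) (c1.comp cκ mκ) (m1.comp mκ) (fun p _ => sw p) ε
    have a2 := tw_pp (hf := c1) (hm := m1) (hg := cκ) (hn := mκ) (c1.comp cκ mκ) (m1.comp mκ)
      (fun _ _ => rfl) ε
    rw [e3 c1 m1] at a2
    exact a1.trans a2.symm
  · refine mul_eq_zero_of_cover (kO 0 1) (kO (s 0) (s 1)) inter_subset_left inter_subset_left
      (fun p hp => (tw_far hp.2 hs).imp (fun h => ⟨hp, h⟩) fun h => ⟨hp, h⟩) hδ (pull_mem hδ) hO
      (eps_res_pull_zero (L := T.twK ∩ {p | 1 / 100 ≤ ‖pa 0 p.1 - pa 1 p.1‖}) _ _ _ _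
        (fun p hp => ⟨T.twK_maps s hp.1, ?_⟩) hO)
    have := hp.2
    rwa [mem_ofPred_eq, pa_sm, pa_sm]
  · have kB : IsCompact (T.twK ∩ {p | ‖pa 0 p.1 - pa 1 p.1‖ ≤ 1 / 100}) :=
      T.twK_compact.inter_right (isClosed_le (cd 0 1) continuous_const)
    refine mul_eq_zero_of_cover (kO 0 1) kB inter_subset_left inter_subset_left
      (fun p hp => (le_total (1 / 100) ‖pa 0 p.1 - pa 1 p.1‖).imp (fun h => ⟨hp, h⟩)
        fun h => ⟨hp, h⟩) hδ
      (bet_mem _ 4 (torus_map_mem _ 4 (Orb.vol_multi ▸ ιMulti_range ℚ 4 ⟨_, rfl⟩))) hO ?_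
    refine ((pull_bet _ _).trans (bet_congr (ν' := Prod.fst) _ continuous_fst.continuousOn
      (fun _ _ => rfl) _)).trans ?_
    rw [tw_vol, map_mul, map_mul, map_mul, bet_p _ 0 0 (tw_cpa 0 0).continuousOn,
      bet_p _ 0 1 (tw_cpa 0 1).continuousOn, bet_p _ 0 2 (tw_cpa 0 2).continuousOn,
      bet_p _ 0 3 (tw_cpa 0 3).continuousOn]
    exact tw_prod_zero kB (c := fun i p => pa 0 p.1 i) (fun i => (tw_cpa 0 i).continuousOn)
      (η := 1 / 300) (by norm_num) fun p hp => tw_a0 hp.1.2 hp.2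

end KumTop

end Pool.Agent.Lib.MP_d3d358_ag.AS
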